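import Pool.Agent.Lib_MP_8da2c8_full.Elem

/-! STEP AlmA: relations almost over a set, first properties. -/

namespace MP8f

open Cardinal Set FirstOrder Filter
open scoped Classical

universe u v w x

section fineq
variable {X : Type v} {Y : Type w} {E F : X → X → Prop}

/-- Proof.  From a colouring with `n` colours: `k = n`, pigeonhole (`Fintype.exists_ne_map_eq_of_card_lt`).  Conversely, let `s` be a
maximal finite set of pairwise inequivalent elements (their number is at most `k`); every `x` is equivalent to an element of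
`s`; colour by it. -/
theorem finEq_iff : FinEq E ↔ ∃ k, FewEq k E := by
  constructor
  · rintro ⟨he, n, g, hg⟩
    refine ⟨n, he, fun f => ?_⟩
    obtain ⟨i, j, hij, h⟩ := Fintype.exists_ne_map_eq_of_card_lt (fun i => g (f i))
      (by simp)
    exact ⟨i, j, hij, hg _ _ h⟩
  · rintro ⟨k, he, h⟩
    let s : Setoid X := ⟨E, he⟩
    have hfin : Finite (Quotient s) := by
      by_contra hinf
      rw [not_finite_iff_infinite] at hinf
      let e := Infinite.natEmbedding (Quotient s)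
      obtain ⟨i, j, hij, hE⟩ := h fun i => (e i).out
      apply hij
      have h1 : e i = e j := by
        rw [← Quotient.out_eq (e i), ← Quotient.out_eq (e j)]
        exact Quotient.sound hE
      exact Fin.ext (e.injective h1)
    obtain ⟨n, ⟨e⟩⟩ := Finite.exists_equiv_fin (Quotient s)
    refine ⟨he, n, fun x => e (Quotient.mk s x), fun x x' hx => ?_⟩
    have h1 := e.injective hx
    exact Quotient.exact h1

theorem FinEq.comap (h : FinEq E) (f : Y → X) : FinEq fun y y' => E (f y) (f y') := by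
  obtain ⟨⟨h1, h2, h3⟩, n, g, hg⟩ := h
  exact ⟨⟨fun _ => h1 _, fun h => h2 h, fun h h' => h3 h h'⟩, n, fun y => g (f y),
    fun y y' h => hg _ _ h⟩

theorem FinEq.inter (h : FinEq E) (h' : FinEq F) : FinEq fun x x' => E x x' ∧ F x x' := by
  obtain ⟨⟨h1, h2, h3⟩, n, g, hg⟩ := h
  obtain ⟨⟨h1', h2', h3'⟩, n', g', hg'⟩ := h'
  refine ⟨⟨fun _ => ⟨h1 _, h1' _⟩, fun h => ⟨h2 h.1, h2' h.2⟩,
    fun h h' => ⟨h3 h.1 h'.1, h3' h.2 h'.2⟩⟩, n * n', fun x => finProdFinEquiv (g x, g' x),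
    fun x x' h => ?_⟩
  have := finProdFinEquiv.injective h
  simp only [Prod.mk.injEq] at this
  exact ⟨hg _ _ this.1, hg' _ _ this.2⟩

theorem finEq_iff_of (P : X → Prop) : FinEq fun x x' => (P x ↔ P x') := by
  refine ⟨⟨fun _ => Iff.rfl, fun h => h.symm, fun h h' => h.trans h'⟩, 2,
    fun x => if P x then 0 else 1, fun x x' h => ?_⟩
  by_cases hx : P x <;> by_cases hx' : P x' <;> simp_all

/-- representatives -/
theorem FinEq.reps [Nonempty X] (h : FinEq E) : ∃ (n : ℕ) (w : Fin n → X), ∀ x, ∃ i, E (w i) x := by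
  obtain ⟨-, n, g, hg⟩ := h
  refine ⟨n, fun i => if h : ∃ x, g x = i then h.choose else Classical.arbitrary X, fun x => ?_⟩
  refine ⟨g x, hg _ _ ?_⟩
  have h : ∃ y, g y = g x := ⟨x, rfl⟩
  simp only [h, dif_pos]
  exact h.choose_spec

end fineq

variable {L : FirstOrder.Language.{0, 0}} {M : Type u} [L.Structure M] [Nonempty M]
variable {α : Type v} {β : Type w} {A B U : Set M}

theorem Alm.congr {P P' : (α → M) → Prop} (h : Alm L A P) (e : ∀ x, P' x ↔ P x) : Alm L A P' := by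
  obtain ⟨E, h1, h2, h3⟩ := h
  exact ⟨E, h1, h2, fun x x' hx => by rw [e, e]; exact h3 x x' hx⟩

theorem Alm.mono (hAB : A ⊆ B) {P : (α → M) → Prop} (h : Alm L A P) : Alm L B P := by
  obtain ⟨E, h1, h2, h3⟩ := h
  exact ⟨E, h1.mono hAB, h2, h3⟩

theorem Alm.not {P : (α → M) → Prop} (h : Alm L A P) : Alm L A fun x => ¬ P x := by
  obtain ⟨E, h1, h2, h3⟩ := h
  exact ⟨E, h1, h2, fun x x' hx hn hp => hn (h3 x' x (h2.1.symm hx) hp)⟩

theorem Alm.and {P P' : (α → M) → Prop} (h : Alm L A P) (h' : Alm L A P') :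
    Alm L A fun x => P x ∧ P' x := by
  obtain ⟨E, h1, h2, h3⟩ := h
  obtain ⟨E', h1', h2', h3'⟩ := h'
  exact ⟨fun x x' => E x x' ∧ E' x x', DefU.and h1 h1', h2.inter h2', fun x x' hx hp => ⟨h3 _ _ hx.1 hp.1, h3' _ _ hx.2 hp.2⟩⟩

omit [Nonempty M] in
/-- `E x x' = (P x ↔ P x')` -/
theorem Alm.of_defU {P : (α → M) → Prop} (h : DefU L A P) : Alm L A P :=
  ⟨fun x x' => (P x ↔ P x'), (h.at Sum.inl).iff (h.at Sum.inr), finEq_iff_of P,
    fun _ _ hx hp => hx.1 hp⟩

/-- `E' z z' = E (fun i => z (f i)) (fun i => z' (f i))` -/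
theorem Alm.at {P : (α → M) → Prop} (h : Alm L A P) (f : α → β) :
    Alm L A fun z : β → M => P fun i => z (f i) := by
  obtain ⟨E, h1, h2, h3⟩ := h
  exact ⟨fun z z' => E (fun i => z (f i)) fun i => z' (f i), DefU2.at h1 _ _, h2.comap _,
    fun z z' hz hp => h3 _ _ hz hp⟩

/-- substitution of parameters from `A` in a relation almost over `A`.
Proof.  `E' x x' = E (Sum.elim x y) (Sum.elim x' y)`; definable over `A` by `DefU2.subst` after reindexing. -/
theorem Alm.subst {P : (α → M) → (β → M) → Prop}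
    (h : Alm L A fun z : α ⊕ β → M => P (fun i => z (.inl i)) fun j => z (.inr j)) (y : β → M)
    (hy : ∀ i, y i ∈ A) : Alm L A fun x => P x y := by
  obtain ⟨E, h1, h2, h3⟩ := h
  refine ⟨fun x x' => E (Sum.elim x y) (Sum.elim x' y), ?_, h2.comap fun x => Sum.elim x y,
    fun x x' hx hp => h3 _ _ hx hp⟩
  have h4 : DefU2 L A fun (z : α ⊕ α → M) (y : β → M) =>
      E (Sum.elim (fun i => z (.inl i)) y) (Sum.elim (fun i => z (.inr i)) y) := by
    refine (DefU2.at h1 (γ := (α ⊕ α) ⊕ β) (Sum.elim (fun i => .inl (.inl i)) .inr)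
      (Sum.elim (fun i => .inl (.inr i)) .inr)).congr fun z => ?_
    refine iff_of_eq (congrArg₂ E ?_ ?_)
    · funext i
      cases i <;> rfl
    · funext i
      cases i <;> rfl
  exact h4.subst y hy

/-- Proof.  Let `E` be as in the definition of `Alm`, and `n`, `w0` as in `FinEq.reps`.  The condition
`∀ x, ∃ i, E (fun a => w (i, a)) x` on `w : Fin n × α → M` is definable over `U` and satisfied by `w0`; so by `Elt.ex` we may take `w`
in `U`.  Then `P x ↔ ∃ i, P (w i) ∧ E (w i) x`, definable over `U` (`DefU.ex_fin`, `DefU.const`, `DefU2.subst'`). -/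
theorem Alm.defU {P : (α → M) → Prop} (h : Alm L A P) (hAU : A ⊆ U) (hU : Elt L U) :
    DefU L U P := by
  obtain ⟨E, h1, h2, h3⟩ := h
  obtain ⟨n, w0, hw0⟩ := h2.reps
  have h1U : DefU2 L U E := DefU.mono hAU h1
  have hd : DefU L U fun w : Fin n × α → M => ∀ x : α → M, ∃ i : Fin n, E (fun a => w (i, a)) x := by
    refine DefU.allB ?_
    refine DefU.ex_fin fun i => ?_
    exact DefU2.at h1U (fun a => Sum.inl (i, a)) Sum.inr
  obtain ⟨w, hwU, hw⟩ := hU.ex hd ⟨fun q => w0 q.1 q.2, hw0⟩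
  have h4 : DefU L U fun x => ∃ i : Fin n, P (fun a => w (i, a)) ∧ E (fun a => w (i, a)) x := by
    refine DefU.ex_fin fun i => (DefU.const _).and ?_
    exact h1U.subst' _ fun a => hwU (i, a)
  refine h4.congr fun x => ⟨fun hx => ?_, ?_⟩
  · obtain ⟨i, hi⟩ := hw x
    exact ⟨i, h3 _ _ (h2.1.symm hi) hx, hi⟩
  · rintro ⟨i, hp, hE⟩
    exact h3 _ _ hE hp

/-- by `DefU.fin` -/
theorem Alm.fin {P : (α → M) → Prop} (h : Alm L A P) :
    ∃ F : Finset M, ↑F ⊆ A ∧ Alm L (↑F : Set M) P := by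
  obtain ⟨E, h1, h2, h3⟩ := h
  obtain ⟨F, hF, hF'⟩ := DefU.fin h1
  exact ⟨F, hF, E, hF', h2, h3⟩

end MP8f
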