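import Pool.Agent.Lib_MP_8da2c8_full.AlmA

/-! STEP AlmB1: refining a finite equivalence relation which is almost over `A`. -/

namespace MP8f

open Cardinal Set FirstOrder Filter
open scoped Classical

universe u v w x

variable {L : FirstOrder.Language.{0, 0}} {M : Type u} [L.Structure M] [Nonempty M]
variable {α : Type v} {A : Set M}

/-- the union of the classes of `w i`, `i ∈ I` -/
private def DDr (F : (α ⊕ α → M) → (α ⊕ α → M) → Prop) {n : ℕ} (I : Set (Fin n))
    (w : Fin n × (α ⊕ α) → M) (x x' : α → M) : Prop :=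
  ∃ i, i ∈ I ∧ F (fun a => w (i, a)) (Sum.elim x x')

omit [Nonempty M] in
private theorem ddr_def {F : (α ⊕ α → M) → (α ⊕ α → M) → Prop} (hF : DefU2 L A F) {n : ℕ}
    (I : Set (Fin n)) {γ : Type w} (W : Fin n × (α ⊕ α) → γ) (f g : α → γ) :
    DefU L A fun z : γ → M => DDr F I (fun p => z (W p)) (fun i => z (f i)) fun i => z (g i) := by
  refine DefU.ex_fin fun i => (DefU.const _).and ?_
  refine (DefU2.at hF (fun a => W (i, a)) (Sum.elim f g)).congr fun z => ?_
  refine iff_of_eq (congrArg (F fun a => z (W (i, a))) ?_)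
  funext j
  cases j <;> rfl

private theorem few_def {F : (α ⊕ α → M) → (α ⊕ α → M) → Prop} (hF : DefU2 L A F) {n : ℕ}
    (r : ℕ) (I : Set (Fin n)) {γ : Type w} (W : Fin n × (α ⊕ α) → γ) :
    DefU L A fun z : γ → M => FewEq r (DDr F I fun p => z (W p)) := by
  have e1 : DefU L A fun z : γ → M => ∀ x : α → M, DDr F I (fun p => z (W p)) x x :=
    DefU.allB (ddr_def hF I (fun p => Sum.inl (W p)) Sum.inr Sum.inr)
  have e2 : DefU L A fun z : γ → M => ∀ y : α ⊕ α → M,
      DDr F I (fun p => z (W p)) (fun i => y (.inl i)) (fun i => y (.inr i)) →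
      DDr F I (fun p => z (W p)) (fun i => y (.inr i)) (fun i => y (.inl i)) :=
    DefU.allB ((ddr_def hF I (fun p => Sum.inl (W p)) (fun i => Sum.inr (Sum.inl i))
      fun i => Sum.inr (Sum.inr i)).imp (ddr_def hF I (fun p => Sum.inl (W p))
      (fun i => Sum.inr (Sum.inr i)) fun i => Sum.inr (Sum.inl i)))
  have e3 : DefU L A fun z : γ → M => ∀ y : α ⊕ α ⊕ α → M,
      DDr F I (fun p => z (W p)) (fun i => y (.inl i)) (fun i => y (.inr (.inl i))) →
      DDr F I (fun p => z (W p)) (fun i => y (.inr (.inl i))) (fun i => y (.inr (.inr i))) →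
      DDr F I (fun p => z (W p)) (fun i => y (.inl i)) (fun i => y (.inr (.inr i))) :=
    DefU.allB ((ddr_def hF I (fun p => Sum.inl (W p)) (fun i => Sum.inr (Sum.inl i))
      fun i => Sum.inr (Sum.inr (Sum.inl i))).imp ((ddr_def hF I (fun p => Sum.inl (W p))
      (fun i => Sum.inr (Sum.inr (Sum.inl i))) fun i => Sum.inr (Sum.inr (Sum.inr i))).imp
      (ddr_def hF I (fun p => Sum.inl (W p)) (fun i => Sum.inr (Sum.inl i))
      fun i => Sum.inr (Sum.inr (Sum.inr i)))))
  have e4 : DefU L A fun z : γ → M => ∀ y : Fin (r + 1) × α → M, ∃ i j : Fin (r + 1), i ≠ j ∧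
      DDr F I (fun p => z (W p)) (fun a => y (i, a)) fun a => y (j, a) := by
    refine DefU.allB (DefU.ex_fin fun i => DefU.ex_fin fun j => (DefU.const _).and ?_)
    exact ddr_def hF I (fun p => Sum.inl (W p)) (fun a => Sum.inr (i, a)) fun a => Sum.inr (j, a)
  refine (((e1.and e2).and e3).and e4).congr fun z => ?_
  constructor
  · rintro ⟨⟨h1, h2, h3⟩, h4⟩
    exact ⟨⟨⟨fun x => h1 x, fun y h => h2 h⟩, fun y h h' => h3 h h'⟩,
      fun y => h4 fun i a => y (i, a)⟩
  · rintro ⟨⟨⟨h1, h2⟩, h3⟩, h4⟩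
    refine ⟨⟨h1, fun {x y} h => h2 (Sum.elim x y) h, fun {x y t} h h' => ?_⟩, fun f => ?_⟩
    · exact h3 (Sum.elim x (Sum.elim y t)) h h'
    · exact h4 fun p => f p.1 p.2

/-- Proof.  Let `F` (an equivalence relation on the blocks `α ⊕ α → M`, definable over `A`, with finitely many classes) be as in the
definition of `Alm` for `D`, let `n, w0` be representatives for `F` (`FinEq.reps`), and let `D` have at most `r` classes
(`FewEq r D`, `finEq_iff`).  For `w : Fin n × (α ⊕ α) → M` and `I : Set (Fin n)` let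
`DD I w x x' = ∃ i, i ∈ I ∧ F (fun a => w (i, a)) (Sum.elim x x')`.  Put
`E x x' = ∀ (I : Set (Fin n)) (w : Fin n × (α ⊕ α) → M), FewEq r (DD I w) → DD I w x x'`.
(1) `E` is definable over `A`: finitely many `I` (`DefU.all_fin`; `Set (Fin n)` is a finite type), `DefU.allB` for `w`; and
`FewEq r (DD I w)` is definable over `A` as a condition on `w`: unfold `Equivalence` (quantifiers over one, two, three blocks)
and quantify over `f : Fin (r + 1) × α → M`.
(2) `E` is an equivalence relation, clear.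
(3) `E ≤ D`: take `I = {i | D holds at w0 i}` and `w = w0`; then `DD I w = D` because `D` is a union of `F`-classes.
(4) Finitely many classes: every `DD I w` is a union of `F`-classes, so it is determined by
`s = {i | DD I w holds at w0 i} : Set (Fin n)`, where `w0 i` is a block indexed by `α ⊕ α`.  For each `s : Set (Fin n)` such that some
`DD I w` with `FewEq r` is determined by it, choose a colouring `g s` of that relation (`finEq_iff`); for the other `s` take
`g s` constant.  Colour `x` by `fun s => g s x` (a finite type; numbers of colours `n s`; use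
`Finite.equivFin` of `∀ s, Fin (n s)`). -/
theorem fin_refine {D : (α → M) → (α → M) → Prop} (hD : FinEq D)
    (hA : Alm L A fun z : α ⊕ α → M => D (fun i => z (.inl i)) fun i => z (.inr i)) :
    ∃ E : (α → M) → (α → M) → Prop, DefU2 L A E ∧ FinEq E ∧ ∀ x x', E x x' → D x x' := by
  obtain ⟨F, hF, hFe, hFD⟩ := hA
  obtain ⟨n, w0, hw0⟩ := FinEq.reps hFe
  obtain ⟨r, hr⟩ := finEq_iff.1 hD
  obtain ⟨⟨hr1, hs1, ht1⟩, -⟩ := hFe
  have hel : ∀ z : α ⊕ α → M, Sum.elim (fun i => z (.inl i)) (fun i => z (.inr i)) = z := by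
    intro z
    funext j
    cases j <;> rfl
  let R : Set (Fin n) → (α → M) → (α → M) → Prop := fun s x x' =>
    ∃ i, i ∈ s ∧ F (w0 i) (Sum.elim x x')
  have hR : ∀ (I : Set (Fin n)) (w : Fin n × (α ⊕ α) → M),
      DDr F I w = R {i | DDr F I w (fun a => w0 i (.inl a)) fun a => w0 i (.inr a)} := by
    intro I w
    funext x x'
    refine propext ⟨?_, ?_⟩
    · rintro ⟨j, hj, hjx⟩
      obtain ⟨i, hi⟩ := hw0 (Sum.elim x x')
      refine ⟨i, ⟨j, hj, ?_⟩, hi⟩
      rw [hel]
      exact ht1 hjx (hs1 hi)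
    · rintro ⟨i, ⟨j, hj, hji⟩, hi⟩
      rw [hel] at hji
      exact ⟨j, hj, ht1 hji hi⟩
  refine ⟨fun x x' => ∀ (I : Set (Fin n)) (w : Fin n × (α ⊕ α) → M),
    FewEq r (DDr F I w) → DDr F I w x x', ?_, ⟨⟨?_, ?_, ?_⟩, ?_⟩, ?_⟩
  · refine DefU.all_fin fun I => DefU.allB (DefU.imp ?_ ?_)
    · exact few_def hF r I Sum.inr
    · exact ddr_def hF I Sum.inr (fun i => Sum.inl (Sum.inl i)) fun i => Sum.inl (Sum.inr i)
  · exact fun x I w h => h.1.1 x
  · exact fun h I w hf => hf.1.2 (h I w hf)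
  · exact fun h h' I w hf => hf.1.3 (h I w hf) (h' I w hf)
  · have hg : ∀ s : Set (Fin n), ∃ (k : ℕ) (g : (α → M) → Fin k),
        FewEq r (R s) → ∀ x x', g x = g x' → R s x x' := by
      intro s
      by_cases hs : FewEq r (R s)
      · obtain ⟨-, k, g, hg⟩ := finEq_iff.2 ⟨r, hs⟩
        exact ⟨k, g, fun _ => hg⟩
      · exact ⟨1, fun _ => 0, fun h => absurd h hs⟩
    choose k g hg using hg
    obtain ⟨N, ⟨e⟩⟩ := Finite.exists_equiv_fin (∀ s : Set (Fin n), Fin (k s))
    refine ⟨N, fun x => e fun s => g s x, fun x x' h I w hf => ?_⟩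
    have h' := congrFun (e.injective h)
    rw [hR I w] at hf ⊢
    exact hg _ hf x x' (h' _)
  · intro x x' h
    have key : DDr F {i | D (fun a => w0 i (.inl a)) fun a => w0 i (.inr a)}
        (fun p => w0 p.1 p.2) = D := by
      funext y y'
      refine propext ⟨?_, fun hy => ?_⟩
      · rintro ⟨i, hi, hiy⟩
        exact hFD _ _ hiy hi
      · obtain ⟨i, hi⟩ := hw0 (Sum.elim y y')
        exact ⟨i, hFD _ _ (hs1 hi) hy, hi⟩
    have h' := h _ (fun p => w0 p.1 p.2) (by rw [key]; exact hr)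
    rw [key] at h'
    exact h'

end MP8f
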