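import Pool.Agent.Lib_MP_8da2c8_full.Elem

/-! STEP RankA: binary rank. -/

namespace MP8f

open Cardinal Set FirstOrder Filter
open scoped Classical

universe u v w x

variable {L : FirstOrder.Language.{0, 0}} {M : Type u} [L.Structure M] [Nonempty M]

/-- Proof: induction on `n`. -/
theorem Tr.mono {X : Type v} {Y : Type w} {R : X → Y → Prop} {n : ℕ} {P Q : X → Prop}
    (h : Tr R n P) (hPQ : ∀ x, P x → Q x) : Tr R n Q := by
  induction n generalizing P Q with
  | zero =>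
    obtain ⟨x, hx⟩ := h
    exact ⟨x, hPQ x hx⟩
  | succ n ih =>
    obtain ⟨y, h1, h2⟩ := h
    exact ⟨y, ih h1 fun x hx => ⟨hPQ x hx.1, hx.2⟩, ih h2 fun x hx => ⟨hPQ x hx.1, hx.2⟩⟩

/-- Proof: induction on `n`, for all `γ` and `P`.  `n = 0`: `DefU.exB` (after swapping the blocks, `DefU2.at`).  `n+1`:
`∃ y, Tr R n (fun x => P x z ∧ R x y) ∧ …`: by `DefU.exB` it suffices that the two parts are definable in `(z, y)`,
index `γ ⊕ β`; apply the induction hypothesis to `fun x (z' : γ ⊕ β → M) => P x (z' ∘ inl) ∧ R x (z' ∘ inr)`. -/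
theorem tr_defU {β γ : Type} {U : Set M} {R : (ℕ → M) → (β → M) → Prop} (hR : Dfn2 L R) (n : ℕ)
    {P : (ℕ → M) → (γ → M) → Prop} (hP : DefU2 L U P) :
    DefU L U fun z : γ → M => Tr R n fun x => P x z := by
  induction n generalizing γ P with
  | zero =>
    have h1 : DefU2 L U fun (z : γ → M) (x : ℕ → M) => P x z := DefU2.at hP Sum.inr Sum.inl
    exact DefU.exB h1
  | succ n ih =>
    have hRU : DefU2 L U R := DefU.of_dfn hR
    have h1 : DefU2 L U fun (x : ℕ → M) (z : γ ⊕ β → M) =>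
        P x (fun i => z (.inl i)) ∧ R x (fun i => z (.inr i)) :=
      DefU.and (DefU2.at hP Sum.inl fun i => Sum.inr (Sum.inl i))
        (DefU2.at hRU Sum.inl fun i => Sum.inr (Sum.inr i))
    have h2 : DefU2 L U fun (x : ℕ → M) (z : γ ⊕ β → M) =>
        P x (fun i => z (.inl i)) ∧ ¬ R x (fun i => z (.inr i)) :=
      DefU.and (DefU2.at hP Sum.inl fun i => Sum.inr (Sum.inl i))
        (DefU.not (DefU2.at hRU Sum.inl fun i => Sum.inr (Sum.inr i)))
    have h3 : DefU2 L U fun (z : γ → M) (y : β → M) =>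
        (Tr R n fun x => P x z ∧ R x y) ∧ Tr R n fun x => P x z ∧ ¬ R x y :=
      DefU.and (ih h1) (ih h2)
    exact DefU.exB h3

/-- only `ℕ` matters as the index type of parameters.
Proof.  Finite support `F` of the relation on `α ⊕ β` (`Dfn.supp`), `G = F.toRight`; `g : β → ℕ` injective on `G` with
`f (g b) = b` for `b ∈ G`.  Put `R' x z = R x (fun b => z (g b))` (`Dfn.at`). -/
theorem Dfn2.reduce {α : Type v} {β : Type w} [Nonempty β] {R : (α → M) → (β → M) → Prop}
    (hR : Dfn2 L R) : ∃ R' : (α → M) → (ℕ → M) → Prop, Dfn2 L R' ∧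
      ∃ f : ℕ → β, ∀ x y, R x y ↔ R' x fun j => y (f j) := by
  obtain ⟨F, hF⟩ := Dfn.supp hR
  obtain ⟨g, f, hgf⟩ := elem_number F.toRight
  refine ⟨fun x z => R x fun b => z (g b), hR.at Sum.inl fun b => Sum.inr (g b), f, fun x y => ?_⟩
  refine hF (Sum.elim x y) (Sum.elim x fun b => y (f (g b))) ?_
  rintro (i | i) hi
  · rfl
  · show y i = y (f (g i))
    rw [hgf i (Finset.mem_toRight.2 hi)]

/-- Proof.  `Dfn2.reduce`; `Tr R n P → Tr R' n P` by induction on `n` (replace `y` by `fun j => y (f j)` and use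
`Tr.mono`).  If `β` is empty, `R x y ↔ R x y0` for the only `y0 : β → M`, so `Tr R 1` fails. -/
theorem Stb.gen (hS : Stb L M) {β : Type w} {R : (ℕ → M) → (β → M) → Prop} (hR : Dfn2 L R) :
    ∃ n, ¬ Tr R n fun _ => True := by
  rcases isEmpty_or_nonempty β with hβ | hβ
  · refine ⟨2, ?_⟩
    rintro ⟨y, ⟨y', -, ⟨x, ⟨-, hx⟩, hx'⟩⟩, -⟩
    exact hx' (by rwa [Subsingleton.elim y' y])
  · obtain ⟨R', hR', f, hf⟩ := hR.reduce
    obtain ⟨n, hn⟩ := hS R' hR'
    refine ⟨n, fun h => hn ?_⟩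
    have key : ∀ (n : ℕ) (P : (ℕ → M) → Prop), Tr R n P → Tr R' n P := by
      intro n
      induction n with
      | zero => exact fun P h => h
      | succ n ih =>
        rintro P ⟨y, h1, h2⟩
        exact ⟨fun j => y (f j), (ih _ h1).mono fun x hx => ⟨hx.1, (hf x y).1 hx.2⟩,
          (ih _ h2).mono fun x hx => ⟨hx.1, fun h3 => hx.2 ((hf x y).2 h3)⟩⟩
    exact key n _ h

end MP8f
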