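import Pool.Agent.Lib_MP_8da2c8_full.AlmB1
import Pool.Agent.Lib_MP_8da2c8_full.RankA

/-! STEP AlmB2: relations almost over `A` and types almost over `A`. -/

namespace MP8f

open Cardinal Set FirstOrder Filter
open scoped Classical

universe u v w x

variable {L : FirstOrder.Language.{0, 0}} {M : Type u} [L.Structure M] [Nonempty M]
variable {β : Type w} {A B U : Set M} {p : Ultrafilter (ℕ → M)}

omit [Nonempty M] in
/-- parameters as a block -/
theorem AlmB2_param {P : (ℕ → M) → (β → M) → Prop} (hP : DefU2 L A P) :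
    ∃ Q : (ℕ → M) → (β ⊕ A → M) → Prop, Dfn2 L Q ∧
      (∀ x y, P x y ↔ Q x (Sum.elim y fun a => a.1)) ∧
      ∃ Q0 : ((ℕ ⊕ β) ⊕ A → M) → Prop, Q = fun x z =>
        Q0 (Sum.elim (Sum.elim x fun j => z (.inl j)) fun a => z (.inr a)) := by
  obtain ⟨Q, hQ, hPQ⟩ := hP
  refine ⟨fun x z => Q (Sum.elim (Sum.elim x fun j => z (.inl j)) fun a => z (.inr a)), ?_,
    fun x y => hPQ (Sum.elim x y), Q, rfl⟩
  refine (hQ.at (Sum.elim (Sum.elim Sum.inl fun j => Sum.inr (Sum.inl j))
    fun a => Sum.inr (Sum.inr a))).congr fun z => ?_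
  refine iff_of_eq (congrArg Q ?_)
  funext i
  rcases i with (i | i) | i <;> rfl

/-- Proof.  `P x y ↔ Q x (y, a)` with `Q` definable without parameters, where `a` is the block of all elements of `A` (index `β ⊕ A`,
nonempty).  By `Dfn2.reduce` there are `Q'` and `f : ℕ → β ⊕ A` with `Q x z ↔ Q' x (fun j => z (f j))`.  `AlmT` gives
`Alm L A (fun z => Ev p (Q' · z))`; `Alm.at` with `f` and `Alm.subst` with the block `a`. -/
theorem AlmT.gen (hp : AlmT L A p) [Nonempty β] {P : (ℕ → M) → (β → M) → Prop}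
    (hP : DefU2 L A P) : Alm L A fun y => Ev p fun x => P x y := by
  obtain ⟨Q, hQ, hPQ, Q0, hQ0⟩ := AlmB2_param hP
  obtain ⟨R, hR, f, hf⟩ := hQ.reduce
  have h1 : Alm L A fun z : β ⊕ A → M => Ev p fun x => Q x z :=
    ((hp R hR).at f).congr fun z => ev_congr fun x => hf x z
  have h2 : Alm L A fun z : β ⊕ A → M => (fun (y : β → M) (b : A → M) => Ev p fun x => Q x (Sum.elim y b))
      (fun i => z (.inl i)) fun j => z (.inr j) := by
    refine h1.congr fun z => ev_congr fun x => ?_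
    rw [hQ0]
    rfl
  have h3 := Alm.subst (P := fun (y : β → M) (b : A → M) => Ev p fun x => Q x (Sum.elim y b)) h2
    (fun a => a.1) fun a => a.2
  exact h3.congr fun y => ev_congr fun x => hPQ x y

/-- Proof.  Let `E` (on blocks `ℕ ⊕ β → M`) be as in the definition of `Alm` for `P`.  Put
`D y y' = Ev p (fun x => E (Sum.elim x y) (Sum.elim x y'))`.  It is an equivalence relation; if `FewEq k E` then `FewEq k D`:
given `f : Fin (k + 1) → (β → M)`, for every `x` there are `i ≠ j` with `E (x, f i) (x, f j)`, so (`ev_ex_fin`) some `i ≠ j` works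
almost everywhere (`finEq_iff`).  `D` is almost over `A` by `AlmT.gen` (index `β ⊕ β`).  Take `E'` from `fin_refine`.  If `E' y y'` then
`D y y'`, and `Ev p (P · y)` implies `Ev p (P · y')`. -/
theorem AlmT.ev (hp : AlmT L A p) [Nonempty β] {P : (ℕ → M) → (β → M) → Prop}
    (hP : Alm L A fun z : ℕ ⊕ β → M => P (fun i => z (.inl i)) fun j => z (.inr j)) :
    Alm L A fun y => Ev p fun x => P x y := by
  obtain ⟨E, h1, h2, h3⟩ := hP
  obtain ⟨k, hk1, hk2⟩ := finEq_iff.1 h2
  have hD : FinEq fun y y' : β → M => Ev p fun x => E (Sum.elim x y) (Sum.elim x y') := by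
    refine finEq_iff.2 ⟨k, ⟨fun y => ev_of_all fun x => hk1.refl _, fun h => h.mono fun x => hk1.symm,
      fun h h' => (ev_and.2 ⟨h, h'⟩).mono fun x hx => hk1.trans hx.1 hx.2⟩, fun f => ?_⟩
    have h4 : Ev p fun x => ∃ q : Fin (k + 1) × Fin (k + 1), q.1 ≠ q.2 ∧
        E (Sum.elim x (f q.1)) (Sum.elim x (f q.2)) := by
      refine ev_of_all fun x => ?_
      obtain ⟨i, j, hij, he⟩ := hk2 fun i => Sum.elim x (f i)
      exact ⟨(i, j), hij, he⟩
    obtain ⟨q, hq⟩ := ev_ex_fin.1 h4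
    obtain ⟨x, hx⟩ := hq.exists
    exact ⟨q.1, q.2, hx.1, hq.mono fun x hx => hx.2⟩
  have hP' : DefU2 L A fun (x : ℕ → M) (z : β ⊕ β → M) =>
      E (Sum.elim x fun i => z (.inl i)) (Sum.elim x fun i => z (.inr i)) := by
    refine (DefU2.at h1 (Sum.elim Sum.inl fun b => Sum.inr (Sum.inl b))
      (Sum.elim Sum.inl fun b => Sum.inr (Sum.inr b))).congr fun z => ?_
    refine iff_of_eq (congrArg₂ E ?_ ?_) <;>
    · funext i
      rcases i with i | i <;> rfl
  obtain ⟨E', g1, g2, g3⟩ := fin_refine hD (hp.gen hP')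
  refine ⟨E', g1, g2, fun y y' h hy => ?_⟩
  exact (ev_and.2 ⟨g3 y y' h, hy⟩).mono fun x hx => h3 _ _ hx.1 hx.2

theorem AlmT.mono (hAB : A ⊆ B) (hp : AlmT L A p) : AlmT L B p :=
  fun R hR => (hp R hR).mono hAB

/-- Proof.  `P x y ↔ Q x (y, b)`, `b` the block of all elements of `B` (index `β ⊕ B`), `Q` definable without parameters.  By
`AlmT.gen` the condition `Ev p (Q · z)` is almost over `A`, hence definable over `U` (`Alm.defU`), hence over `B`
(`DefU.mono`); substitute `b` (`DefU2.subst`). -/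
theorem AlmT.evU (hp : AlmT L A p) (hAU : A ⊆ U) (hU : Elt L U) (hUB : U ⊆ B) [Nonempty β]
    {P : (ℕ → M) → (β → M) → Prop} (hP : DefU2 L B P) :
    DefU L B fun y => Ev p fun x => P x y := by
  obtain ⟨Q, hQ, hPQ, Q0, hQ0⟩ := AlmB2_param hP
  have h0 : DefU2 L A Q := DefU.of_dfn hQ
  have h1 : DefU L B fun z : β ⊕ B → M => Ev p fun x => Q x z := ((hp.gen h0).defU hAU hU).mono hUB
  have h2 : DefU2 L B fun (y : β → M) (b : B → M) => Ev p fun x => Q x (Sum.elim y b) := by
    refine DefU.congr h1 fun z => ev_congr fun x => ?_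
    rw [hQ0]
    rfl
  exact (h2.subst (fun a => a.1) fun a => a.2).congr fun y => ev_congr fun x => hPQ x y

/-- Proof.  `Ev p (R · y)` is definable over `A` and `Alm.of_defU`. -/
theorem almT_of_defU (h : ∀ R : (ℕ → M) → (ℕ → M) → Prop, Dfn2 L R →
    DefU L A fun y => Ev p fun x => R x y) : AlmT L A p :=
  fun R hR => Alm.of_defU (h R hR)

/-- principal types -/
theorem almT_pure (a : ℕ → M) (ha : ∀ i, a i ∈ A) : AlmT L A (pure a : Ultrafilter (ℕ → M)) := by
  refine almT_of_defU fun R hR => ?_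
  have h1 : DefU2 L A R := DefU.of_dfn hR
  exact (h1.subst' a ha).congr fun y => ev_pure

end MP8f
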