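import Pool.Agent.Lib_MP_8da2c8_full.CombA
import Pool.Agent.Lib_MP_8da2c8.LinkB

/-! STEP CombE: links give isomorphisms of trees. -/

namespace MP8f

open Cardinal Set MP8da
open scoped Classical

universe u v

/-- an isomorphism of trees of height `ω + 1`, with nodes `JN` (reversed lists) and branches `JB` -/
structure TreeIso {Y : Type v} (JN JN' : Set (List Y)) (JB JB' : Set (ℕ → Y)) where
  hN : List Y → List Y
  hB : (ℕ → Y) → (ℕ → Y)
  nil : hN [] = []
  cons : ∀ a s, a :: s ∈ JN → ∃ b, hN (a :: s) = b :: hN s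
  bijN : BijOn hN JN JN'
  bijB : BijOn hB JB JB'
  seg : ∀ c ∈ JB, ∀ n, seg (hB c) n = hN (seg c n)

variable {K : Type u}

/-- the nodes of the tree of `D` -/
def JN (D : Set K) : Set (List (YY K)) := {s | ∀ y ∈ s, uok D y.2}

/-- the branches of the tree of `D` -/
def JB [LinearOrder K] {π : K → K} (B : BD K π) (D : Set K) : Set (ℕ → YY K) := {c | Good B D c}

variable [LinearOrder K] {π : K → K} {B : BD K π} {β : K → K} {D E : Set K}

theorem LinkY.symm {b c : ℕ → YY K} (h : LinkY π β D E b c) : LinkY π β E D c b :=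
  fun k => ⟨(h k).1.symm, by
    haveI : Inhabited K := ⟨(b 0).1⟩
    exact (h k).2.symm⟩

omit [LinearOrder K] in
private theorem combE_HY_succ (b : ℕ → YY K) (k : ℕ) :
    HY π b (k + 1) = if hitY π b k then insert k (HY π b k) else HY π b k := by
  unfold HY
  rw [Finset.range_add_one, Finset.filter_insert]

omit [LinearOrder K] in
private theorem combE_HY_congr {b b' : ℕ → YY K} {n : ℕ}
    (h : ∀ j < n, (hitY π b j ↔ hitY π b' j)) : HY π b n = HY π b' n := by
  unfold HY
  exact Finset.filter_congr fun j hj => h j (Finset.mem_range.1 hj)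

/-- as `MP8da.link_exists` in Lib_MP_8da2c8/LinkB.lean, with `Lk.total` -/
theorem linkY_exists (β : K → K) (D E : Set K) (b : ℕ → YY K) (hb : ∀ k, uok D (b k).2) :
    ∃ c, LinkY π β D E b c := by
  haveI : Inhabited K := ⟨(b 0).1⟩
  have hT : ∀ (h h' : Finset ℕ) (v : US K), ∃ v', uok D v → Lk β D E h h' v v' := by
    intro h h' v
    by_cases hv : uok D v
    · obtain ⟨v', hv'⟩ := Lk.total β D E h h' v hv
      exact ⟨v', fun _ => hv'⟩
    · exact ⟨v, fun hv' => absurd hv' hv⟩
  choose T hT using hT
  let hc : ℕ → Finset ℕ := fun n => Nat.rec ∅ (fun k r =>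
    if (T (HY π b k) r (b k).2 = .x (π (b (k + 1)).1)) then insert k r else r) n
  have hc0 : hc 0 = ∅ := rfl
  have hcS : ∀ k, hc (k + 1) = if (T (HY π b k) (hc k) (b k).2 = .x (π (b (k + 1)).1))
      then insert k (hc k) else hc k := fun k => rfl
  let c : ℕ → YY K := fun k => ((b k).1, T (HY π b k) (hc k) (b k).2)
  have hHc : ∀ k, HY π c k = hc k := by
    intro k
    induction k with
    | zero => rw [hc0]; rfl
    | succ k ih =>
      rw [combE_HY_succ, hcS, ih]
      have e : hitY π c k ↔ (T (HY π b k) (hc k) (b k).2 = .x (π (b (k + 1)).1)) := Iff.rfl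
      simp only [e]
  refine ⟨c, fun k => ⟨rfl, ?_⟩⟩
  rw [hHc]
  exact hT _ _ _ (hb k)

/-- as `MP8da.link_agr`, with `Lk.func` -/
theorem linkY_agr (hR : Reg β D E) {b c b' c' : ℕ → YY K} (h1 : LinkY π β D E b c)
    (h2 : LinkY π β D E b' c') (n : ℕ) (h : ∀ i < n, b i = b' i) : ∀ i < n, c i = c' i := by
  haveI : Inhabited K := ⟨(b 0).1⟩
  induction n with
  | zero => intro i hi; exact absurd hi (Nat.not_lt_zero i)
  | succ n ih =>
    have hn : ∀ i < n, c i = c' i := ih fun i hi => h i (hi.trans (Nat.lt_succ_self n))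
    have e1 : HY π b n = HY π b' n := by
      apply combE_HY_congr
      intro j hj
      unfold hitY
      rw [h j (hj.trans (Nat.lt_succ_self n)), h (j + 1) (Nat.succ_lt_succ hj)]
    have e2 : HY π c n = HY π c' n := by
      apply combE_HY_congr
      intro j hj
      unfold hitY
      rw [hn j hj, (h1 (j + 1)).1, (h2 (j + 1)).1, h (j + 1) (Nat.succ_lt_succ hj)]
    have e3 : c n = c' n := by
      have hbn : b n = b' n := h n (Nat.lt_succ_self n)
      apply Prod.ext
      · rw [(h1 n).1, (h2 n).1, hbn]
      · have a1 := (h1 n).2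
        have a2 := (h2 n).2
        rw [← e1, ← e2, ← hbn] at a2
        exact a1.func hR a2
    intro i hi
    rcases Nat.lt_succ_iff_lt_or_eq.1 hi with hi | rfl
    · exact hn i hi
    · exact e3

theorem seg_eq_iff {Y : Type v} {b c : ℕ → Y} {n : ℕ} : seg b n = seg c n ↔ ∀ i < n, b i = c i := by
  induction n with
  | zero =>
    constructor
    · intro _ i hi
      exact absurd hi (Nat.not_lt_zero i)
    · intro _
      rfl
  | succ n ih =>
    have e : (seg b (n + 1) = seg c (n + 1)) ↔ b n = c n ∧ seg b n = seg c n := by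
      show (b n :: seg b n = c n :: seg c n) ↔ _
      rw [List.cons.injEq]
    rw [e, ih]
    constructor
    · rintro ⟨h1, h2⟩ i hi
      rcases Nat.lt_succ_iff_lt_or_eq.1 hi with hi | rfl
      · exact h2 i hi
      · exact h1
    · intro h
      exact ⟨h n (Nat.lt_succ_self n), fun i hi => h i (hi.trans (Nat.lt_succ_self n))⟩

theorem seg_length {Y : Type v} (b : ℕ → Y) (n : ℕ) : (seg b n).length = n := by
  induction n with
  | zero => rfl
  | succ n ih =>
    show (b n :: seg b n).length = n + 1
    rw [List.length_cons, ih]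

private theorem combE_mem_seg {Y : Type v} (b : ℕ → Y) (n : ℕ) {y : Y} (h : y ∈ seg b n) :
    ∃ i, y = b i := by
  induction n with
  | zero => exact absurd h List.not_mem_nil
  | succ n ih =>
    have h' : y ∈ b n :: seg b n := h
    rcases List.mem_cons.1 h' with h' | h'
    · exact ⟨n, h'⟩
    · exact ih h'

omit [LinearOrder K] in
/-- every node is a segment of an allowed sequence -/
private theorem combE_ext [Inhabited K] (s : List (YY K)) (hs : s ∈ JN D) :
    ∃ b : ℕ → YY K, (∀ k, uok D (b k).2) ∧ seg b s.length = s := by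
  induction s with
  | nil => exact ⟨fun _ => (default, .y ∅ default 0), fun _ => trivial, rfl⟩
  | cons a s ih =>
    obtain ⟨b, hb1, hb2⟩ := ih fun y hy => hs y (List.mem_cons_of_mem _ hy)
    refine ⟨Function.update b s.length a, fun k => ?_, ?_⟩
    · by_cases hk : k = s.length
      · subst hk
        rw [Function.update_self]
        exact hs a List.mem_cons_self
      · rw [Function.update_of_ne hk]
        exact hb1 k
    · show Function.update b s.length a s.length :: seg (Function.update b s.length a) s.length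
        = a :: s
      rw [Function.update_self]
      have e : seg (Function.update b s.length a) s.length = seg b s.length :=
        seg_eq_iff.2 fun i hi => Function.update_of_ne (Nat.ne_of_lt hi) _ _
      rw [e, hb2]

private theorem combE_exN (hR : Reg β D E) : ∃ hN : List (YY K) → List (YY K),
    ∀ (b c : ℕ → YY K) (n : ℕ), LinkY π β D E b c → hN (seg b n) = seg c n := by
  let P : List (YY K) → List (YY K) → Prop := fun s t =>
    ∃ b c : ℕ → YY K, LinkY π β D E b c ∧ seg b s.length = s ∧ t = seg c s.length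
  refine ⟨fun s => if h : ∃ t, P s t then h.choose else s, fun b c n hl => ?_⟩
  have h : ∃ t, P (seg b n) t := ⟨seg c n, b, c, hl, by rw [seg_length], by rw [seg_length]⟩
  simp only [dif_pos h]
  obtain ⟨b', c', hl', h1, h2⟩ := h.choose_spec
  rw [seg_length] at h1 h2
  rw [h2]
  exact seg_eq_iff.2 (linkY_agr hR hl' hl n (seg_eq_iff.1 h1))

omit [LinearOrder K] in
private theorem combE_exB [LinearOrder K] (β : K → K) (D E : Set K) :
    ∃ hB : (ℕ → YY K) → (ℕ → YY K),
      ∀ b : ℕ → YY K, (∀ k, uok D (b k).2) → LinkY π β D E b (hB b) := by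
  refine ⟨fun b => if h : ∀ k, uok D (b k).2 then (linkY_exists (π := π) β D E b h).choose else b,
    fun b h => ?_⟩
  simp only [dif_pos h]
  exact (linkY_exists (π := π) β D E b h).choose_spec

private theorem combE_link_uok {b c : ℕ → YY K} (h : LinkY π β D E b c) (k : ℕ) :
    uok E (c k).2 := by
  haveI : Inhabited K := ⟨(b 0).1⟩
  exact (h k).2.uok

/-- Proof.  A node `s ∈ JN D` of length `n` is `seg b n` for some `b : ℕ → YY K` with all symbols allowed for `D` (extend by `y` symbols; if `K` is empty everything is trivial: then `JN D = {[]}` and there are no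
branches); choose `c` with `LinkY π β D E b c`
and put `hN s = seg c n`; by `linkY_agr` and `seg_eq_iff` it does not depend on `b`, so `hN (seg b n) = seg c n` whenever `LinkY π β D E b c` and `b` is allowed (important: keep this as the characterization of `hN`).
For a branch `c` good for `D` let `hB c` be the linked branch (`good_uok`), good for `E` by `Good.link`.  Inverses: the same for `E, D` (`MP8da.Reg.symm`, `LinkY.symm`). -/
theorem exists_treeIso (hR : Reg β D E) : Nonempty (TreeIso (JN D) (JN E) (JB B D) (JB B E)) := by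
  rcases isEmpty_or_nonempty K with hK | hK
  · have hJ : JN D = JN E := by
      ext s
      cases s with
      | nil => exact ⟨fun _ y hy => absurd hy List.not_mem_nil, fun _ y hy => absurd hy List.not_mem_nil⟩
      | cons a s => exact isEmptyElim a.1
    have hJB : JB B D = JB B E := by
      ext c
      exact isEmptyElim (c 0).1
    refine ⟨⟨id, id, rfl, fun a => isEmptyElim a.1, ?_, ?_, fun c => isEmptyElim (c 0).1⟩⟩
    · rw [hJ]
      exact Set.bijOn_id _
    · rw [hJB]
      exact Set.bijOn_id _
  · obtain ⟨k0⟩ := hK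
    haveI : Inhabited K := ⟨k0⟩
    obtain ⟨hN, hNp⟩ := combE_exN (π := π) hR
    obtain ⟨gN, gNp⟩ := combE_exN (π := π) hR.symm
    obtain ⟨hB, hBp⟩ := combE_exB (π := π) β D E
    obtain ⟨gB, gBp⟩ := combE_exB (π := π) β E D
    have hJB : ∀ c ∈ JB B D, LinkY π β D E c (hB c) := fun c hc => hBp c (good_uok hc)
    have gJB : ∀ c ∈ JB B E, LinkY π β E D c (gB c) := fun c hc => gBp c (good_uok hc)
    have mN : MapsTo hN (JN D) (JN E) := by
      intro s hs
      obtain ⟨b, hb1, hb2⟩ := combE_ext s hs
      obtain ⟨c, hc⟩ := linkY_exists (π := π) β D E b hb1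
      rw [← hb2, hNp b c _ hc]
      intro y hy
      obtain ⟨i, rfl⟩ := combE_mem_seg _ _ hy
      exact combE_link_uok hc i
    have mN' : MapsTo gN (JN E) (JN D) := by
      intro s hs
      obtain ⟨b, hb1, hb2⟩ := combE_ext s hs
      obtain ⟨c, hc⟩ := linkY_exists (π := π) β E D b hb1
      rw [← hb2, gNp b c _ hc]
      intro y hy
      obtain ⟨i, rfl⟩ := combE_mem_seg _ _ hy
      exact combE_link_uok hc i
    have mB : MapsTo hB (JB B D) (JB B E) := fun c hc => Good.link D E β c (hB c) hc hR (hJB c hc)
    have mB' : MapsTo gB (JB B E) (JB B D) := fun c hc =>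
      Good.link E D β c (gB c) hc hR.symm (gJB c hc)
    have heq : ∀ {x y : ℕ → YY K}, (∀ n, ∀ i < n, x i = y i) → x = y := by
      intro x y h
      funext n
      exact h (n + 1) n (Nat.lt_succ_self n)
    refine ⟨⟨hN, hB, ?_, ?_, ?_, ?_, ?_⟩⟩
    · obtain ⟨c, hc⟩ := linkY_exists (π := π) β D E (fun _ => (default, .y ∅ default 0))
        fun _ => trivial
      exact hNp _ c 0 hc
    · intro a s has
      obtain ⟨b, hb1, hb2⟩ := combE_ext (a :: s) has
      obtain ⟨c, hc⟩ := linkY_exists (π := π) β D E b hb1
      have hb3 : b s.length :: seg b s.length = a :: s := hb2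
      have hb4 : seg b s.length = s := (List.cons.inj hb3).2
      refine ⟨c s.length, ?_⟩
      have e1 : hN (a :: s) = seg c (s.length + 1) := by
        rw [← hNp b c _ hc]
        exact congrArg hN hb2.symm
      have e2 : hN s = seg c s.length := by
        rw [← hNp b c _ hc, hb4]
      rw [e1, e2]
      rfl
    · refine Set.InvOn.bijOn (f' := gN) ⟨?_, ?_⟩ mN mN'
      · intro s hs
        obtain ⟨b, hb1, hb2⟩ := combE_ext s hs
        obtain ⟨c, hc⟩ := linkY_exists (π := π) β D E b hb1
        rw [← hb2, hNp b c _ hc, gNp c b _ hc.symm]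
      · intro s hs
        obtain ⟨b, hb1, hb2⟩ := combE_ext s hs
        obtain ⟨c, hc⟩ := linkY_exists (π := π) β E D b hb1
        rw [← hb2, gNp b c _ hc, hNp c b _ hc.symm]
    · refine Set.InvOn.bijOn (f' := gB) ⟨?_, ?_⟩ mB mB'
      · intro c hc
        exact heq fun n => linkY_agr hR.symm (gJB _ (mB hc)) (hJB c hc).symm n fun _ _ => rfl
      · intro c hc
        exact heq fun n => linkY_agr hR (hJB _ (mB' hc)) (gJB c hc).symm n fun _ _ => rfl
    · intro c hc n
      exact (hNp _ _ n (hJB c hc)).symm

end MP8f
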