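import Pool.Agent.Lib_MP_8da2c8_full.SatA

/-! STEP SatC: invariant definable relations. -/

namespace MP8f

open Cardinal Set FirstOrder Filter
open scoped Classical

universe u v w x

variable {L : FirstOrder.Language.{0, 0}} {M : Type u} [L.Structure M] [Nonempty M]
variable {U : ℕ → Set M} {A : Set M}

omit [Nonempty M] in
theorem SatC_conj (F : Finset ((ℕ → M) → Prop)) :
    (∀ P ∈ F, DefU L A P) → DefU L A fun v => ∀ P ∈ F, P v := by
  induction F using Finset.induction_on with
  | empty => exact fun _ => (DefU.const True).congr fun v => by simp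
  | insert P F _ ih =>
    intro h
    refine ((h P (Finset.mem_insert_self _ _)).and
      (ih fun Q hQ => h Q (Finset.mem_insert_of_mem hQ))).congr fun v => ?_
    rw [Finset.forall_mem_insert]

/-- An invariant definable relation is definable over `A`.
Proof.  By `defU_small` `P x ↔ R x m` with small `m`; let `A`, `m` be in `U k`.  There is `χ`, definable over `A`, with `χ m` and
`∀ m', χ m' → ∀ x, (R x m' ↔ R x m)`: otherwise the conditions `χ` (definable over `A`, true at `m`) together with `¬ ∀ x, (R x v ↔ R x m)` on `v`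
are finitely satisfiable (a finite conjunction of `χ`s is a `χ`), so `hO.sat` gives a small `m'` satisfying all of them; it has the same type as `m` over
`A`, so `hinv` gives `P x ↔ R x m'` for all `x`, contradiction.  Then `P x ↔ ∃ m', χ m' ∧ R x m'`, definable over `A`. -/
theorem defU_of_inv (hO : OSat L U) {n : ℕ} (hA : A ⊆ U n) {α : Type v} {P : (α → M) → Prop}
    (hP : DefU L univ P)
    (hinv : ∀ R : (α → M) → (ℕ → M) → Prop, Dfn2 L R → ∀ m m' : ℕ → M, Sml U m → Sml U m' →
      EqvA L A m m' → (∀ x, P x ↔ R x m) → ∀ x, P x ↔ R x m') : DefU L A P := by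
  obtain ⟨R, hR, m, hm, hPR⟩ := defU_small hO hP
  obtain ⟨k0, hk0⟩ := hm
  have hAk : A ⊆ U (max n k0) := hA.trans (hO.le (le_max_left _ _))
  have hmk : ∀ i, m i ∈ U (max n k0) := fun i => hO.le (le_max_right _ _) (hk0 i)
  have key : ∃ χ : (ℕ → M) → Prop, DefU L A χ ∧ χ m ∧ ∀ m', χ m' → ∀ x, (R x m' ↔ R x m) := by
    by_contra hcon
    push Not at hcon
    have hN : DefU L (U (max n k0)) fun v : ℕ → M => ¬ ∀ x, (R x v ↔ R x m) := by
      refine (DefU.allB (P := fun (v : ℕ → M) (x : α → M) => (R x v ↔ R x m)) ?_).not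
      have h1 : DefU2 L (U (max n k0)) R := DefU.of_dfn hR
      have h2 := (h1.subst m hmk).at (Sum.inr : α → ℕ ⊕ α)
      have h3 := h1.at (Sum.inr : α → ℕ ⊕ α) (Sum.inl : ℕ → ℕ ⊕ α)
      exact h3.iff h2
    obtain ⟨v, hv, hvW⟩ := hO.sat (max n k0)
      ({χ | DefU L A χ ∧ χ m} ∪ {fun v : ℕ → M => ¬ ∀ x, (R x v ↔ R x m)}) (by
        rintro P (hP | hP)
        · exact hP.1.mono hAk
        · rw [mem_singleton_iff.1 hP]
          exact hN) (by
        intro F hF
        have h1 : DefU L A fun v => ∀ P ∈ F.filter (fun P => DefU L A P ∧ P m), P v :=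
          SatC_conj _ fun P hP => (Finset.mem_filter.1 hP).2.1
        obtain ⟨m', hm', x, hx⟩ := hcon _ h1 fun P hP => (Finset.mem_filter.1 hP).2.2
        refine ⟨m', fun P hPF => ?_⟩
        rcases hF hPF with h2 | h2
        · exact hm' P (Finset.mem_filter.2 ⟨hPF, h2⟩)
        · rw [mem_singleton_iff.1 h2]
          intro hall
          have h3 := hall x
          tauto)
    have hEq : EqvA L A m v := by
      intro Q hQ
      by_cases hQm : Q m
      · exact iff_of_true hQm (hvW Q (Or.inl ⟨hQ, hQm⟩))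
      · exact iff_of_false hQm (hvW (fun v => ¬ Q v) (Or.inl ⟨hQ.not, hQm⟩))
    have h4 := hinv R hR m v ⟨k0, hk0⟩ ⟨_, hv⟩ hEq hPR
    exact hvW _ (Or.inr rfl) fun x => (h4 x).symm.trans (hPR x)
  obtain ⟨χ, hχ, hχm, hχR⟩ := key
  have h5 : DefU L A fun x : α → M => ∃ m' : ℕ → M, χ m' ∧ R x m' := by
    refine DefU.exB (P := fun (x : α → M) (m' : ℕ → M) => χ m' ∧ R x m') ?_
    exact (hχ.at (Sum.inr : ℕ → α ⊕ ℕ)).and (DefU.of_dfn hR)
  refine h5.congr fun x => ⟨fun hx => ⟨m, hχm, (hPR x).1 hx⟩, ?_⟩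
  rintro ⟨m', h6, h7⟩
  exact (hPR x).2 ((hχR m' h6 x).1 h7)

end MP8f
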