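import Pool.Agent.Lib_MP_8da2c8_full.SatB

/-! STEP SatD: isolating sets. -/

namespace MP8f

open Cardinal Set FirstOrder Filter
open scoped Classical

universe u v w x

/-- `Z` and `R(·, y)` are together consistent with `F` -/
def Dd {M : Type u} (F : Set ((ℕ → M) → Prop)) (R : (ℕ → M) → (ℕ → M) → Prop)
    (Z : (ℕ → M) → Prop) (y : ℕ → M) : Prop := Cons F fun x => Z x ∧ R x y

/-- `Z` decides all instances of `R`, modulo `F` -/
def Isol {M : Type u} (F : Set ((ℕ → M) → Prop)) (R : (ℕ → M) → (ℕ → M) → Prop)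
    (Z : (ℕ → M) → Prop) : Prop :=
  Cons F Z ∧ ∀ y, ¬ (Cons F (fun x => Z x ∧ R x y) ∧ Cons F fun x => Z x ∧ ¬ R x y)

variable {L : FirstOrder.Language.{0, 0}} {M : Type u} [L.Structure M] [Nonempty M]
variable {U : ℕ → Set M} {A : Set M} {F : Set ((ℕ → M) → Prop)}
  {R : (ℕ → M) → (ℕ → M) → Prop}

private theorem satD_cj (hO : OSat L U) (hR : Dfn2 L R)
    {R1 : (ℕ → M) → (ℕ → M) → Prop} (hR1 : Dfn2 L R1) {m1 m2 y1 y2 : ℕ → M} (h1 : Sml U m1)
    (h2 : Sml U m2) (h3 : Sml U y1) (h4 : Sml U y2)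
    (h : EqvA L A (Sum.elim m1 y1 : ℕ ⊕ ℕ → M) (Sum.elim m2 y2)) :
    Cj L U A (fun x => R1 x m1 ∧ R x y1) fun x => R1 x m2 ∧ R x y2 := by
  let e : ℕ ⊕ ℕ ≃ ℕ := Equiv.natSumNatEquivNat
  refine ⟨fun x z => R1 x (fun i => z (e (Sum.inl i))) ∧ R x fun i => z (e (Sum.inr i)),
    (hR1.at (fun i => Sum.inl i) fun i => Sum.inr (e (Sum.inl i))).and
      (hR.at (fun i => Sum.inl i) fun i => Sum.inr (e (Sum.inr i))),
    fun j => (Sum.elim m1 y1 : ℕ ⊕ ℕ → M) (e.symm j),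
    fun j => (Sum.elim m2 y2 : ℕ ⊕ ℕ → M) (e.symm j), ?_, ?_, h.at e.symm, ?_, ?_⟩
  · obtain ⟨n, hn⟩ := Sml.elim hO h1 h3
    exact ⟨n, fun j => hn _⟩
  · obtain ⟨n, hn⟩ := Sml.elim hO h2 h4
    exact ⟨n, fun j => hn _⟩
  · intro x
    simp only [Equiv.symm_apply_apply, Sum.elim_inl, Sum.elim_inr]
  · intro x
    simp only [Equiv.symm_apply_apply, Sum.elim_inl, Sum.elim_inr]

/-- Proof.  `cons_inv` in both directions: `fun x => R1 x m1 ∧ R x y1` and `fun x => R1 x m2 ∧ R x y2` are instances of one relation at small blocks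
`ℕ → M` (recode the index `ℕ ⊕ ℕ` by `ℕ`, `Equiv.natSumNatEquivNat`) which have the same type over `A` (`EqvA.at`). -/
theorem dd_move (hO : OSat L U) {n : ℕ} (hA : A ⊆ U n) (hF : InvF L U A F) (hR : Dfn2 L R)
    {R1 : (ℕ → M) → (ℕ → M) → Prop} (hR1 : Dfn2 L R1) {m1 m2 y1 y2 : ℕ → M} (h1 : Sml U m1)
    (h2 : Sml U m2) (h3 : Sml U y1) (h4 : Sml U y2)
    (h : EqvA L A (Sum.elim m1 y1 : ℕ ⊕ ℕ → M) (Sum.elim m2 y2)) :
    Dd F R (fun x => R1 x m1) y1 ↔ Dd F R (fun x => R1 x m2) y2 :=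
  ⟨fun hc => cons_inv hO hA hF (satD_cj hO hR hR1 h1 h2 h3 h4 h) hc,
    fun hc => cons_inv hO hA hF (satD_cj hO hR hR1 h1 h2 h3 h4 h).symm hc⟩

/-- `Dd F R Z y` depends only on finitely many coordinates of `y` (the support of `R`) -/
theorem dd_supp (hR : Dfn2 L R) : ∃ G : Finset ℕ, ∀ (Z : (ℕ → M) → Prop) (y y' : ℕ → M),
    (∀ i ∈ G, y i = y' i) → (Dd F R Z y ↔ Dd F R Z y') := by
  obtain ⟨G, hG⟩ := Dfn.supp hR
  refine ⟨G.toRight, fun Z y y' hy => ?_⟩
  have h1 : ∀ x, R x y ↔ R x y' := by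
    intro x
    refine hG (Sum.elim x y) (Sum.elim x y') ?_
    rintro (i | i) hi
    · rfl
    · exact hy i (Finset.mem_toRight.2 hi)
  have h2 : (fun x => Z x ∧ R x y) = fun x => Z x ∧ R x y' :=
    funext fun x => propext (and_congr_right fun _ => h1 x)
  unfold Dd
  rw [h2]

/-- Proof.  `Cons F Z''` by `cons_inv`.  Let `Z = R1(·, m)`, `Z'' = R1(·, m'')`.  If both halves of `Z''` for `y` are consistent, we may take `y`
small (`dd_supp` for `R` and for `¬ R`, `small_approx`); by `homog` there is a small `y0` with `(m, y0) ≡ (m'', y)` over `A`; by `dd_move` for `R`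
and for `¬ R` both halves of `Z` for `y0` are consistent, contradiction. -/
theorem isol_conj (hO : OSat L U) {n : ℕ} (hA : A ⊆ U n) (hF : InvF L U A F) (hR : Dfn2 L R)
    {Z Z'' : (ℕ → M) → Prop} (hZ : Isol F R Z) (h : Cj L U A Z Z'') : Isol F R Z'' := by
  refine ⟨cons_inv hO hA hF h hZ.1, fun y hc => ?_⟩
  obtain ⟨R1, hR1, m, m', hm, hm', he, hz, hz'⟩ := h
  have hZe : Z = fun x => R1 x m := funext fun x => propext (hz x)
  have hZe' : Z'' = fun x => R1 x m' := funext fun x => propext (hz' x)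
  subst hZe hZe'
  have hRn : Dfn2 L fun x y => ¬ R x y := Dfn.not hR
  obtain ⟨G1, hG1⟩ := dd_supp (F := F) hR
  obtain ⟨G2, hG2⟩ := dd_supp (F := F) hRn
  obtain ⟨y', hy', hyy⟩ := small_approx hO (G1 ∪ G2) y
  have a1 : Dd F R (fun x => R1 x m') y' :=
    (hG1 _ y y' fun i hi => (hyy i (Finset.mem_union_left _ hi)).symm).1 hc.1
  have a2 : Dd F (fun x y => ¬ R x y) (fun x => R1 x m') y' :=
    (hG2 _ y y' fun i hi => (hyy i (Finset.mem_union_right _ hi)).symm).1 hc.2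
  obtain ⟨k, hk, hek⟩ := homog hO hA hm hm' hy' he
  exact hZ.2 k ⟨(dd_move hO hA hF hR hR1 hm hm' hk hy' hek).2 a1,
    (dd_move hO hA hF hRn hR1 hm hm' hk hy' hek).2 a2⟩

/-- Proof.  All finite intersections of sets of `p` are nonempty, so `Ev p P` implies `Cons F P`. -/
theorem dd_ev {Z : (ℕ → M) → Prop} (hZ : Isol F R Z) {p : Ultrafilter (ℕ → M)}
    (hp : ∀ P ∈ F, Ev p P) (hpZ : Ev p Z) (y : ℕ → M) :
    (Ev p fun x => R x y) ↔ Dd F R Z y := by
  have key : ∀ P : (ℕ → M) → Prop, Ev p P → Cons F P := by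
    intro P hP G hG
    have h1 : ∀ᶠ x in (p : Filter (ℕ → M)), ∀ Q ∈ G, Q x :=
      (Filter.eventually_all_finset G).2 fun Q hQ => hp Q (hG hQ)
    exact (Filter.Eventually.and hP h1).exists
  constructor
  · intro h
    exact key _ (ev_and.2 ⟨hpZ, h⟩)
  · intro h
    by_contra hn
    exact hZ.2 y ⟨h, key _ (ev_and.2 ⟨hpZ, ev_not.2 hn⟩)⟩

theorem exists_uf {Z : (ℕ → M) → Prop} (h : Cons F Z) :
    ∃ p : Ultrafilter (ℕ → M), (∀ P ∈ F, Ev p P) ∧ Ev p Z := by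
  let S : Set (Set (ℕ → M)) := {s | (fun x => x ∈ s) ∈ F ∨ s = {x | Z x}}
  have hne : (Filter.generate S).NeBot := by
    rw [Filter.generate_neBot_iff]
    intro t ht hfin
    let G : Finset ((ℕ → M) → Prop) :=
      (hfin.toFinset.image fun s => fun x => x ∈ s).filter fun P => P ∈ F
    obtain ⟨x, hx, hG⟩ := h G (by
      intro P hP
      exact (Finset.mem_filter.1 hP).2)
    refine ⟨x, fun s hs => ?_⟩
    rcases ht hs with h1 | h1
    · exact hG (fun x => x ∈ s) (Finset.mem_filter.2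
        ⟨Finset.mem_image.2 ⟨s, hfin.mem_toFinset.2 hs, rfl⟩, h1⟩)
    · rw [h1]
      exact hx
  refine ⟨Ultrafilter.of (Filter.generate S), fun P hP => ?_, ?_⟩
  · refine Ultrafilter.of_le (Filter.generate S) (Filter.mem_generate_of_mem ?_)
    exact Or.inl hP
  · refine Ultrafilter.of_le (Filter.generate S) (Filter.mem_generate_of_mem ?_)
    exact Or.inr rfl

end MP8f
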