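import Pool.Agent.Lib_MP_8da2c8_full.LocDefA
import Pool.Agent.Lib_MP_8da2c8_full.SatC
import Pool.Agent.Lib_MP_8da2c8_full.SatD

/-! STEP SatE: existence of types almost over `A`. -/

namespace MP8f

open Cardinal Set FirstOrder Filter
open scoped Classical

universe u v w x

variable {L : FirstOrder.Language.{0, 0}} {M : Type u} [L.Structure M] [Nonempty M]
variable {U : ℕ → Set M} {A : Set M} {F : Set ((ℕ → M) → Prop)}

omit [L.Structure M] [Nonempty M] in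
private theorem satE_cov {k : ℕ} {Z' : Fin k → (ℕ → M) → Prop} {G : Finset ((ℕ → M) → Prop)}
    (hGF : ↑G ⊆ F) (hG : ∀ x, (∀ P ∈ G, P x) → ∃ i, Z' i x) (q : Ultrafilter (ℕ → M))
    (hq : ∀ P ∈ F, Ev q P) : ∃ i, Ev q (Z' i) := by
  have h1 : ∀ᶠ x in (q : Filter (ℕ → M)), ∀ Q ∈ G, Q x :=
    (Filter.eventually_all_finset G).2 fun Q hQ => hq Q (hGF hQ)
  have h2 : Ev q fun x => ∃ i, Z' i x := Filter.Eventually.mono h1 hG
  exact ev_ex_fin.1 h2

/-- the equivalence relation is invariant -/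
private theorem satE_inv (hO : OSat L U) {n : ℕ} (hA : A ⊆ U n) (hF : InvF L U A F)
    {R : (ℕ → M) → (ℕ → M) → Prop} (hR : Dfn2 L R) {Z : (ℕ → M) → Prop}
    {z z0 : ℕ ⊕ ℕ → M} (hz : Sml U z) (hz0 : Sml U z0) (h : EqvA L A z z0)
    (hE : ∀ Z'', Cj L U A Z Z'' → (Dd F R Z'' (fun i => z (.inl i)) ↔ Dd F R Z'' fun i => z (.inr i))) :
    ∀ Z'', Cj L U A Z Z'' → (Dd F R Z'' (fun i => z0 (.inl i)) ↔ Dd F R Z'' fun i => z0 (.inr i)) := by
  intro Z'' hZ''
  obtain ⟨R1, hR1, m1, m2, hm1, hm2, he, h1, h2⟩ := hZ''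
  let e : ℕ ⊕ ℕ ≃ ℕ := Equiv.natSumNatEquivNat
  have hc : Sml U fun j => z (e.symm j) := by
    obtain ⟨j, hj⟩ := hz
    exact ⟨j, fun i => hj _⟩
  have hc0 : Sml U fun j => z0 (e.symm j) := by
    obtain ⟨j, hj⟩ := hz0
    exact ⟨j, fun i => hj _⟩
  obtain ⟨m3, hm3, h3⟩ := homog hO hA hc hc0 hm2 (h.at e.symm)
  have h32 : EqvA L A m3 m2 := h3.at Sum.inr
  have hCj : Cj L U A Z fun x => R1 x m3 :=
    ⟨R1, hR1, m1, m3, hm1, hm3, he.trans h32.symm, h1, fun x => Iff.rfl⟩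
  have hZe : Z'' = fun x => R1 x m2 := funext fun x => propext (h2 x)
  subst hZe
  have key : ∀ g : ℕ → ℕ ⊕ ℕ, (Dd F R (fun x => R1 x m3) (fun i => z (g i)) ↔
      Dd F R (fun x => R1 x m2) fun i => z0 (g i)) := by
    intro g
    have hs : Sml U fun i => z (g i) := by
      obtain ⟨j, hj⟩ := hz
      exact ⟨j, fun i => hj _⟩
    have hs0 : Sml U fun i => z0 (g i) := by
      obtain ⟨j, hj⟩ := hz0
      exact ⟨j, fun i => hj _⟩
    refine dd_move hO hA hF hR hR1 hm3 hm2 hs hs0 ?_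
    have h4 := h3.at (Sum.elim Sum.inr fun i => Sum.inl (e (g i)) : ℕ ⊕ ℕ → ℕ ⊕ ℕ)
    have a1 : (fun i => (Sum.elim (fun j => z (e.symm j)) m3 : ℕ ⊕ ℕ → M)
        ((Sum.elim Sum.inr fun i => Sum.inl (e (g i)) : ℕ ⊕ ℕ → ℕ ⊕ ℕ) i)) =
        Sum.elim m3 fun i => z (g i) := by
      funext i
      rcases i with i | i
      · rfl
      · simp
    have a2 : (fun i => (Sum.elim (fun j => z0 (e.symm j)) m2 : ℕ ⊕ ℕ → M)
        ((Sum.elim Sum.inr fun i => Sum.inl (e (g i)) : ℕ ⊕ ℕ → ℕ ⊕ ℕ) i)) =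
        Sum.elim m2 fun i => z0 (g i) := by
      funext i
      rcases i with i | i
      · rfl
      · simp
    rw [a1, a2] at h4
    exact h4
  exact ((key Sum.inl).symm.trans (hE _ hCj)).trans (key Sum.inr)

/-- Proof.  Let `Z` be as in `isolating` for `R` (so `Isol F R Z`) and `k`, `Z' i`, `G` as in `cover`.  All `Z''` with `Cj L U A Z Z''` are
isolating (`isol_conj`).  Let `E y y' = ∀ Z'', Cj L U A Z Z'' → (Dd F R Z'' y ↔ Dd F R Z'' y')`.
(1) For every `Z''` with `Cj Z Z''` there is `i` with `Dd F R Z'' = Dd F R (Z' i)`: take `p` from `exists_uf` for `Z''`; by `G` there is `i` with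
`Ev p (Z' i)` (`ev_ex_fin`, `ev_all_fin`); use `dd_ev` twice.  So `E y y' ↔ ∀ i, (Dd F R (Z' i) y ↔ Dd F R (Z' i) y')`, and `FinEq E`.
(2) `E` is definable over `univ`: `Dd F R (Z' i) y ↔ Ev p (R · y)` for some `p` (`exists_uf`, `dd_ev`), and `ev_defU_univ`.
(3) `E` is definable over `A`, by `defU_of_inv` (blocks with index `ℕ ⊕ ℕ`): let `E y y' ↔ R' (y, y') m` for all `y, y'`, `m ≡ m'` over `A`, both small.
To show: `E y y' ↔ R' (y, y') m'`.  By `dd_supp`, the support of `R'` and `small_approx` we may take `y, y'` small.  By `homog` (with `y, y'` coded in one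
block) there are small `y0, y0'` with `(m', y, y') ≡ (m, y0, y0')` over `A`; so `R' (y, y') m' ↔ R' (y0, y0') m ↔ E y0 y0'`, and it remains that
`E y y' ↔ E y0 y0'` when `(y, y') ≡ (y0, y0')` over `A`; by symmetry show `→`.  Let `Z'' = R1(·, m'')`, `Cj Z Z''`.  By `homog` there is a small
`m3` with `(y, y', m3) ≡ (y0, y0', m'')` over `A`; `Z3 = R1(·, m3)` satisfies `Cj Z Z3` (`m3 ≡ m''` over `A`); by `dd_move`
`Dd F R Z'' y0 ↔ Dd F R Z3 y ↔ Dd F R Z3 y' ↔ Dd F R Z'' y0'`.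
(4) `Ev p (R · y)` is a union of `E`-classes: by `G` there is `i` with `Ev p (Z' i)`, and `Ev p (R · y) ↔ Dd F R (Z' i) y` by `dd_ev`. -/
theorem alm_of_max (hS : Stb L M) (hO : OSat L U) {n : ℕ} (hA : A ⊆ U n) (hF : InvF L U A F)
    (hc : Cons F fun _ => True)
    (hmax : ∀ F', F ⊆ F' → InvF L U A F' → Cons F' (fun _ => True) → F' ⊆ F)
    (p : Ultrafilter (ℕ → M)) (hp : ∀ P ∈ F, Ev p P) {R : (ℕ → M) → (ℕ → M) → Prop}
    (hR : Dfn2 L R) : Alm L A fun y => Ev p fun x => R x y := by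
  obtain ⟨Z, hZd, hZc, hZi⟩ := isolating hS hc hR
  have hZ : Isol F R Z := ⟨hZc, hZi⟩
  obtain ⟨k, Z', hZ'c, G, hGF, hG⟩ := cover hO hA hF hmax hZd hZc
  have hZ'i : ∀ i, Isol F R (Z' i) := fun i => isol_conj hO hA hF hR hZ (hZ'c i)
  have claim1 : ∀ Z'', Cj L U A Z Z'' → ∃ i, ∀ y, (Dd F R Z'' y ↔ Dd F R (Z' i) y) := by
    intro Z'' hZ''
    have hI := isol_conj hO hA hF hR hZ hZ''
    obtain ⟨q, hq, hqZ⟩ := exists_uf hI.1
    obtain ⟨i, hi⟩ := satE_cov hGF hG q hq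
    exact ⟨i, fun y => (dd_ev hI hq hqZ y).symm.trans (dd_ev (hZ'i i) hq hi y)⟩
  let E : (ℕ → M) → (ℕ → M) → Prop := fun y y' =>
    ∀ Z'', Cj L U A Z Z'' → (Dd F R Z'' y ↔ Dd F R Z'' y')
  have hE : ∀ y y', E y y' ↔ ∀ i, (Dd F R (Z' i) y ↔ Dd F R (Z' i) y') := by
    intro y y'
    constructor
    · exact fun h i => h _ (hZ'c i)
    · intro h Z'' hZ''
      obtain ⟨i, hi⟩ := claim1 Z'' hZ''
      exact ((hi y).trans (h i)).trans (hi y').symm
  have hEfin : FinEq E := by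
    refine ⟨⟨fun _ _ _ => Iff.rfl, fun h Z'' hZ'' => (h Z'' hZ'').symm,
      fun h h' Z'' hZ'' => (h Z'' hZ'').trans (h' Z'' hZ'')⟩, ?_⟩
    obtain ⟨N, ⟨e⟩⟩ := Finite.exists_equiv_fin (Fin k → Prop)
    refine ⟨N, fun y => e fun i => Dd F R (Z' i) y, fun y y' h => (hE y y').2 fun i => ?_⟩
    exact iff_of_eq (congrFun (e.injective h) i)
  have hDd : ∀ i, DefU L univ fun y => Dd F R (Z' i) y := by
    intro i
    obtain ⟨q, hq, hqZ⟩ := exists_uf (hZ'i i).1
    have h1 : DefU2 L univ R := DefU.of_dfn hR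
    exact (ev_defU_univ hS q h1).congr fun y => (dd_ev (hZ'i i) hq hqZ y).symm
  have hEu : DefU L univ fun z : ℕ ⊕ ℕ → M => E (fun i => z (.inl i)) fun i => z (.inr i) := by
    have h1 : DefU L univ fun z : ℕ ⊕ ℕ → M =>
        ∀ i, (Dd F R (Z' i) (fun i => z (.inl i)) ↔ Dd F R (Z' i) fun i => z (.inr i)) :=
      DefU.all_fin fun i => ((hDd i).at (Sum.inl : ℕ → ℕ ⊕ ℕ)).iff ((hDd i).at Sum.inr)
    exact h1.congr fun z => hE _ _
  have hEA : DefU L A fun z : ℕ ⊕ ℕ → M => E (fun i => z (.inl i)) fun i => z (.inr i) := by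
    refine defU_of_inv hO hA hEu ?_
    intro R' hR' m m' hm hm' he hRm
    -- small blocks
    have hsm : ∀ z : ℕ ⊕ ℕ → M, Sml U z →
        (E (fun i => z (.inl i)) (fun i => z (.inr i)) ↔ R' z m') := by
      intro z hz
      let e : ℕ ⊕ ℕ ≃ ℕ := Equiv.natSumNatEquivNat
      have hcz : Sml U fun j => z (e.symm j) := by
        obtain ⟨j, hj⟩ := hz
        exact ⟨j, fun i => hj _⟩
      obtain ⟨q, hq, heq⟩ := homog hO hA hm hm' hcz he
      have hz0 : Sml U fun i => q (e i) := by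
        obtain ⟨j, hj⟩ := hq
        exact ⟨j, fun i => hj _⟩
      have h1 : EqvA L A (fun i => q (e i)) z := by
        have h2 := heq.at (fun i => Sum.inr (e i) : ℕ ⊕ ℕ → ℕ ⊕ ℕ)
        have h3 : (fun i => (Sum.elim m' fun j => z (e.symm j) : ℕ ⊕ ℕ → M) (Sum.inr (e i))) =
            z := by
          funext i
          simp
        rw [h3] at h2
        exact h2
      have h4 : R' (fun i => q (e i)) m ↔ R' z m' := by
        have h5 : DefU L A fun w : ℕ ⊕ ℕ → M =>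
            R' (fun i => w (Sum.inr (e i))) fun j => w (Sum.inl j) :=
          DefU.of_dfn (hR'.at (fun i => Sum.inr (e i)) Sum.inl)
        have h6 := heq _ h5
        simpa using h6
      refine Iff.trans ?_ ((hRm _).trans h4)
      constructor
      · exact fun h => satE_inv hO hA hF hR hz hz0 h1.symm h
      · exact fun h => satE_inv hO hA hF hR hz0 hz h1 h
    intro z
    obtain ⟨G0, hG0⟩ := dd_supp (F := F) hR
    obtain ⟨G1, hG1⟩ := Dfn.supp hR'
    obtain ⟨z', hz', hzz⟩ := small_approx hO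
      (G1.toLeft ∪ (G0.image Sum.inl ∪ G0.image Sum.inr)) z
    have b1 : E (fun i => z (.inl i)) (fun i => z (.inr i)) ↔
        E (fun i => z' (.inl i)) fun i => z' (.inr i) := by
      refine forall_congr' fun Z'' => imp_congr_right fun _ => iff_congr ?_ ?_
      · refine hG0 Z'' _ _ fun i hi => (hzz _ ?_).symm
        exact Finset.mem_union_right _ (Finset.mem_union_left _ (Finset.mem_image_of_mem _ hi))
      · refine hG0 Z'' _ _ fun i hi => (hzz _ ?_).symm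
        exact Finset.mem_union_right _ (Finset.mem_union_right _ (Finset.mem_image_of_mem _ hi))
    have b2 : R' z m' ↔ R' z' m' := by
      refine hG1 (Sum.elim z m') (Sum.elim z' m') ?_
      rintro (i | i) hi
      · exact (hzz i (Finset.mem_union_left _ (Finset.mem_toLeft.2 hi))).symm
      · rfl
    exact (b1.trans (hsm z' hz')).trans b2.symm
  obtain ⟨i, hi⟩ := satE_cov hGF hG p hp
  refine ⟨E, hEA, hEfin, fun y y' hyy hy => ?_⟩
  exact (dd_ev (hZ'i i) hp hi y').2 ((hyy _ (hZ'c i)).1 ((dd_ev (hZ'i i) hp hi y).1 hy))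

/-- Types almost over `A` are dense.
Proof.  `exists_max`, `exists_uf`, `alm_of_max`. -/
theorem exists_almT (hS : Stb L M) (hO : OSat L U) {n : ℕ} (hA : A ⊆ U n)
    {P : (ℕ → M) → Prop} (hP : DefU L A P) (hne : ∃ x, P x) :
    ∃ p : Ultrafilter (ℕ → M), AlmT L A p ∧ Ev p P := by
  obtain ⟨F, hF, hP0, hc, hmax⟩ := exists_max (U := U) hP hne
  obtain ⟨p, hp, -⟩ := exists_uf hc
  exact ⟨p, fun R hR => alm_of_max hS hO hA hF hc hmax p hp hR, hp _ hP0⟩

end MP8f
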