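import Pool.Agent.Lib_MP_8da2c8_full.TreeA
import Pool.Agent.Lib_MP_8da2c8_full.SatE

/-! STEP EltX: the structure named by a closed set of names is elementary. -/

namespace MP8f

open Cardinal Set FirstOrder Filter
open scoped Classical

universe u v w x

variable {L : FirstOrder.Language.{0, 0}} {M : Type u} [L.Structure M] [Nonempty M]
variable {Y : Type u}

/-- the parameters of a name are in `U true n` for large `n`.  Proof: all the names `c j` have stage `< (true, n + 1)` where `n` is their largest rank; `w.σ.mem`, `w.hU`, `w.tin`, `w.amb`. -/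
theorem blk_mem (w : World L M Y) {n k : ℕ} (c : Fin k → Nm Y) (i : Fin k → ℕ)
    (hc : ∀ j, (c j).rk ≤ n) (j : ℕ) : blk w.t w.σ.e k c i j ∈ w.U true (n + 1) := by
  unfold blk
  split_ifs with h
  · rw [← w.hU]
    refine w.σ.mem _ _ ?_ _
    rw [w.hst]
    refine lt_of_le_of_lt (Nm.Names_st_le _) ?_
    rw [Prod.Lex.toLex_lt_toLex]
    exact Or.inr ⟨rfl, Nat.lt_succ_of_le (hc _)⟩
  · have h1 : ∀ m, w.U true 0 ⊆ w.U true m := by
      intro m
      induction m with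
      | zero => exact subset_rfl
      | succ m ih => exact ih.trans (w.amb.mono true m)
    exact h1 _ (w.amb.lim 0 (w.tin 0 0))

omit [Nonempty M] in
/-- a formula at a block is definable over every set containing the block -/
theorem eltX_def {A : Set M} (φ : L.Formula (ℕ ⊕ ℕ)) (b : ℕ → M) (hb : ∀ j, b j ∈ A) :
    DefU L A fun x : ℕ → M => φ.Realize (Sum.elim x b) := by
  have h1 : Dfn2 L fun (x : ℕ → M) (y : ℕ → M) => φ.Realize (Sum.elim x y) := by
    refine ⟨φ, fun z => ?_⟩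
    refine iff_of_eq (congrArg φ.Realize ?_)
    funext i
    cases i <;> rfl
  have h2 : DefU2 L A fun (x : ℕ → M) (y : ℕ → M) => φ.Realize (Sum.elim x y) := DefU.of_dfn h1
  exact h2.subst b hb

/-- Proof.  Let `b = blk …`, `A = range b`.  By `exists_almT` (`w.amb.osat w.hV`, `blk_mem`) there is `p` with `AlmT L A p` and `Ev p (φ · b)`; by `rep_spec` there is `r` with `TEq L (rep L A r) p`; `w.σ.p (.E k c i r) = rep L A r`
(`w.hp`); `w.σ.prod` for `P x = φ.Realize (Sum.elim x b)`, definable over `A ⊆ w.σ.U (st …)` (`blk_mem`). -/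
theorem exists_r [Countable L.Symbols] (w : World L M Y) {k : ℕ} (c : Fin k → Nm Y)
    (i : Fin k → ℕ) (φ : L.Formula (ℕ ⊕ ℕ))
    (h : ∃ x, φ.Realize (Sum.elim x (blk w.t w.σ.e k c i))) :
    ∃ r, φ.Realize (Sum.elim (w.σ.e (.E k c i r)) (blk w.t w.σ.e k c i)) := by
  have hmem : ∀ j, blk w.t w.σ.e k c i j ∈
      w.U true ((Finset.univ.sup fun j => (c j).rk) + 1) := fun j =>
    blk_mem w c i (fun j => Finset.le_sup (f := fun j => (c j).rk) (Finset.mem_univ j)) j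
  have hP : DefU L (range (blk w.t w.σ.e k c i)) fun x : ℕ → M =>
      φ.Realize (Sum.elim x (blk w.t w.σ.e k c i)) := eltX_def φ _ fun j => mem_range_self j
  have hA : range (blk w.t w.σ.e k c i) ⊆
      w.U true ((Finset.univ.sup fun j => (c j).rk) + 1) := by
    rintro _ ⟨j, rfl⟩
    exact hmem j
  obtain ⟨p, hp, hev⟩ := exists_almT w.hS (w.amb.osat w.hV) hA hP h
  obtain ⟨r, hr⟩ := (rep_spec (L := L) (countable_range (blk w.t w.σ.e k c i))
      (range_nonempty (blk w.t w.σ.e k c i))).2.1 p hp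
  refine ⟨r, ?_⟩
  have h1 : Ev (w.σ.p (.E k c i r)) fun x : ℕ → M =>
      φ.Realize (Sum.elim x (blk w.t w.σ.e k c i)) := by
    rw [w.hp]
    exact (hr _ (hP.mono (subset_univ _))).2 hev
  refine (w.σ.prod (.E k c i r) (fun x : ℕ → M =>
    φ.Realize (Sum.elim x (blk w.t w.σ.e k c i))) ?_).2 h1
  refine eltX_def φ _ fun j => Or.inl ?_
  rw [w.hst]
  show _ ∈ w.σ.U (toLex (true, (Finset.univ.sup fun j => (c j).rk) + 1))
  rw [w.hU]
  exact hmem j

/-- Proof.  Let `P` be definable over `w.σ.Ml X` and satisfied.  It is definable over a finite subset (`DefU.fin`), so over `range (blk w.t w.σ.e k c i)` for some `k, c, i` with `c j ∈ X` (elements of `w.σ.B = range (w.t.m 0)` are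
`w.σ.e (.nd []) i`, `w_root`; take `k ≥ 1`).  By `defU_range` `P x ↔ φ.Realize (Sum.elim x (blk …))`; `hE` gives `r`, and `w.σ.e (.E k c i r)` is in `w.σ.Ml X`. -/
theorem elt_ml (w : World L M Y) {X : Set (Nm Y)} (h0 : Nm.nd [] ∈ X)
    (hE : ∀ (k : ℕ) (c : Fin k → Nm Y) (i : Fin k → ℕ) (φ : L.Formula (ℕ ⊕ ℕ)), (∀ j, c j ∈ X) →
      (∃ x, φ.Realize (Sum.elim x (blk w.t w.σ.e k c i))) →
      ∃ r, Nm.E k c i r ∈ X ∧
        φ.Realize (Sum.elim (w.σ.e (.E k c i r)) (blk w.t w.σ.e k c i))) :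
    Elt L (w.σ.Ml X) := by
  refine ⟨⟨w.t.m 0 0, Or.inl ?_⟩, fun P hP hex => ?_⟩
  · rw [w.hB]
    exact mem_range_self 0
  obtain ⟨F, hF, hF2⟩ := hP.fin
  have hn : ∀ a : F, ∃ (μ : Nm Y) (i : ℕ), μ ∈ X ∧ w.σ.e μ i = a.1 := by
    intro a
    rcases hF (Finset.mem_coe.2 a.2) with h1 | ⟨μ, hμ, i, h1⟩
    · rw [w.hB] at h1
      obtain ⟨i, hi⟩ := h1
      exact ⟨.nd [], i, h0, by rw [w_root, hi]⟩
    · exact ⟨μ, i, hμ, h1⟩
  choose c i hc hi using hn
  let c' : Fin F.card → Nm Y := fun j => c (F.equivFin.symm j)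
  let i' : Fin F.card → ℕ := fun j => i (F.equivFin.symm j)
  have hsub : (↑F : Set M) ⊆ range (blk w.t w.σ.e F.card c' i') := by
    intro a ha
    refine ⟨(F.equivFin ⟨a, ha⟩ : Fin F.card), ?_⟩
    unfold blk
    rw [dif_pos (F.equivFin ⟨a, ha⟩).2]
    show w.σ.e (c (F.equivFin.symm (F.equivFin ⟨a, ha⟩)))
      (i (F.equivFin.symm (F.equivFin ⟨a, ha⟩))) = a
    rw [Equiv.symm_apply_apply]
    exact hi ⟨a, ha⟩
  obtain ⟨φ, hφ⟩ := defU_range (hF2.mono hsub)
  obtain ⟨x, hx⟩ := hex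
  obtain ⟨r, hr, hr2⟩ := hE F.card c' i' φ (fun j => hc _) ⟨x, (hφ x).1 hx⟩
  exact ⟨_, fun j => Or.inr ⟨_, hr, j, rfl⟩, (hφ _).2 hr2⟩

theorem elt_vld [Countable L.Symbols] (w : World L M Y) {JN : Set (List Y)} {JB : Set (ℕ → Y)}
    (h0 : [] ∈ JN) : Elt L (w.σ.Ml {ν | Nm.Vld JN JB ν}) := by
  refine elt_ml w h0 fun k c i φ hc h => ?_
  obtain ⟨r, hr⟩ := exists_r w c i φ h
  exact ⟨r, hc, hr⟩

end MP8f
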