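import Pool.Agent.Lib_MP_8da2c8_full.Elem

/-! STEP RIso: isomorphic elementary subsets (relational languages). -/

namespace MP8f

open Cardinal Set FirstOrder Filter
open scoped Classical

universe u v w x

/-- the substructures with universes `A` and `A'` are isomorphic (relational languages) -/
def RIsoS (L : FirstOrder.Language.{0, 0}) {M : Type u} [L.Structure M] (A A' : Set M) : Prop :=
  ∃ g : A ≃ A', ∀ (n : ℕ) (r : L.Relations n) (x : Fin n → A),
    FirstOrder.Language.Structure.RelMap r (fun i => (x i).1) ↔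
      FirstOrder.Language.Structure.RelMap r (fun i => (g (x i)).1)

/-- `G`, `G'` are inverse maps between `A` and `A'` which preserve all definable relations -/
structure Tw (L : FirstOrder.Language.{0, 0}) {M : Type u} [L.Structure M] (A A' : Set M)
    (G G' : M → M) : Prop where
  mem : ∀ a ∈ A, G a ∈ A'
  mem' : ∀ a ∈ A', G' a ∈ A
  inv : ∀ a ∈ A, G' (G a) = a
  inv' : ∀ a ∈ A', G (G' a) = a
  pres : ∀ (φ : L.Formula (ℕ ⊕ ℕ)) (x y : ℕ → M), (∀ i, x i ∈ A) → (∀ i, y i ∈ A) →
    (φ.Realize (Sum.elim x y) ↔ φ.Realize (Sum.elim (fun i => G (x i)) fun i => G (y i)))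

variable {L : FirstOrder.Language.{0, 0}} {M : Type u} [L.Structure M] [Nonempty M]

/-- An elementary set is the universe of an elementary substructure.
Proof.  `L` is relational, so every set is the universe of a substructure; `FirstOrder.Language.Substructure.isElementary_of_exists` (Tarski-Vaught): for `φ : L.BoundedFormula Empty (n + 1)`, `x : Fin n → A`
and `a` with `φ.Realize default (Fin.snoc (↑) x a)`, the condition on a block `z : ℕ → M` that `φ.Realize default (Fin.snoc (↑) x (z 0))` is definable over `A`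
(`Dfn` is given by formulas; turn the bounded formula into `L.Formula (Fin (n + 1))` by `FirstOrder.Language.BoundedFormula.toFormula` and a relabelling, or `φ.relabel`). -/
theorem exists_sub [L.IsRelational] {A : Set M} (hA : Elt L A) :
    ∃ S : L.ElementarySubstructure M, (S : Set M) = A := by
  let S0 : L.Substructure M := ⟨A, fun {n} f => isEmptyElim f⟩
  have htv : ∀ (n : ℕ) (φ : L.BoundedFormula Empty (n + 1)) (x : Fin n → S0) (a : M),
      φ.Realize default (Fin.snoc (fun i => (x i : M)) a : Fin (n + 1) → M) →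
        ∃ b : S0, φ.Realize default (Fin.snoc (fun i => (x i : M)) b : Fin (n + 1) → M) := by
    intro n φ x a h
    have hdef : DefU L A fun z : ℕ → M =>
        φ.Realize default (Fin.snoc (fun i => (x i : M)) (z 0) : Fin (n + 1) → M) := by
      refine (DefU.mk (A := A) (R := fun z : Empty ⊕ Fin (n + 1) → M => φ.toFormula.Realize z)
        ⟨φ.toFormula, fun _ => Iff.rfl⟩ (Sum.elim (fun e => e.elim)
          (Fin.snoc (fun i => (Sum.inr (x i) : ℕ ⊕ A)) (Sum.inl 0)))).congr fun z => ?_
      rw [FirstOrder.Language.BoundedFormula.realize_toFormula]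
      have h1 : (default : Empty → M) = (fun i => Sum.elim z (fun a : A => a.1)
          ((Sum.elim (fun e => e.elim) (Fin.snoc (fun i => (Sum.inr (x i) : ℕ ⊕ A))
            (Sum.inl 0)) : Empty ⊕ Fin (n + 1) → ℕ ⊕ A) i)) ∘ Sum.inl := Subsingleton.elim _ _
      have h2 : (Fin.snoc (fun i => (x i : M)) (z 0) : Fin (n + 1) → M) =
          (fun i => Sum.elim z (fun a : A => a.1)
          ((Sum.elim (fun e => e.elim) (Fin.snoc (fun i => (Sum.inr (x i) : ℕ ⊕ A))
            (Sum.inl 0)) : Empty ⊕ Fin (n + 1) → ℕ ⊕ A) i)) ∘ Sum.inr := by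
        funext i
        refine Fin.lastCases ?_ (fun j => ?_) i
        · simp
        · simp
      rw [h1, h2]
    obtain ⟨z, hz, hz'⟩ := hA.2 _ hdef ⟨fun _ => a, h⟩
    exact ⟨⟨z 0, hz 0⟩, hz'⟩
  exact ⟨S0.toElementarySubstructure htv, rfl⟩

/-- Formulas are evaluated in the elementary substructures as in `M`, and are preserved by the isomorphism `g`.
Proof.  `exists_sub`; the bijection `g` gives an `L`-isomorphism `g' : S ≃[L] S'` (`L` is relational), `FirstOrder.Language.ElementarySubstructure.realize_formula` or `S.subtype.map_formula`, and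
`FirstOrder.Language.StrongHomClass.realize_formula` or `g'.toElementaryEmbedding.map_formula`.  `G a = g ⟨a, _⟩` if `a ∈ A`, `a` otherwise; `G'` similarly with `g.symm`. -/
theorem exists_tw [L.IsRelational] {A A' : Set M} (hA : Elt L A) (hA' : Elt L A')
    (h : RIsoS L A A') : ∃ G G' : M → M, Tw L A A' G G' := by
  obtain ⟨S, rfl⟩ := exists_sub hA
  obtain ⟨S', rfl⟩ := exists_sub hA'
  obtain ⟨g, hg⟩ := h
  let g' : S ≃[L] S' :=
    { toFun := fun a => g a
      invFun := fun a => g.symm a
      left_inv := fun a => g.symm_apply_apply a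
      right_inv := fun a => g.apply_symm_apply a
      map_fun' := fun {n} f => isEmptyElim f
      map_rel' := fun {n} r x => (hg n r x).symm }
  refine ⟨fun a => if h : a ∈ (S : Set M) then (g ⟨a, h⟩).1 else a,
    fun a => if h : a ∈ (S' : Set M) then (g.symm ⟨a, h⟩).1 else a, ?_, ?_, ?_, ?_, ?_⟩
  · intro a ha
    simp only [dif_pos ha]
    exact (g ⟨a, ha⟩).2
  · intro a ha
    simp only [dif_pos ha]
    exact (g.symm ⟨a, ha⟩).2
  · intro a ha
    have h1 : (g ⟨a, ha⟩).1 ∈ (S' : Set M) := (g ⟨a, ha⟩).2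
    simp only [dif_pos ha, dif_pos h1]
    exact congrArg Subtype.val (g.symm_apply_apply ⟨a, ha⟩)
  · intro a ha
    have h1 : (g.symm ⟨a, ha⟩).1 ∈ (S : Set M) := (g.symm ⟨a, ha⟩).2
    simp only [dif_pos ha, dif_pos h1]
    exact congrArg Subtype.val (g.apply_symm_apply ⟨a, ha⟩)
  · intro φ x y hx hy
    let v : ℕ ⊕ ℕ → S := Sum.elim (fun i => ⟨x i, hx i⟩) fun i => ⟨y i, hy i⟩
    have h1 : φ.Realize (S.subtype ∘ v) ↔ φ.Realize v := S.subtype.map_formula φ v
    have h2 : φ.Realize (g' ∘ v) ↔ φ.Realize v :=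
      FirstOrder.Language.StrongHomClass.realize_formula g' φ
    have h3 : φ.Realize (S'.subtype ∘ (g' ∘ v)) ↔ φ.Realize (g' ∘ v) :=
      S'.subtype.map_formula φ (g' ∘ v)
    have e1 : (S.subtype ∘ v : ℕ ⊕ ℕ → M) = Sum.elim x y := by
      funext i
      rcases i with i | i <;> rfl
    have e2 : (S'.subtype ∘ (g' ∘ v) : ℕ ⊕ ℕ → M) = Sum.elim
        (fun i => if h : x i ∈ (S : Set M) then (g ⟨x i, h⟩).1 else x i)
        (fun i => if h : y i ∈ (S : Set M) then (g ⟨y i, h⟩).1 else y i) := by
      funext i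
      rcases i with i | i
      · show (g ⟨x i, hx i⟩).1 = if h : x i ∈ (S : Set M) then (g ⟨x i, h⟩).1 else x i
        rw [dif_pos (hx i)]
      · show (g ⟨y i, hy i⟩).1 = if h : y i ∈ (S : Set M) then (g ⟨y i, h⟩).1 else y i
        rw [dif_pos (hy i)]
    rw [e1] at h1
    rw [e2] at h3
    exact h1.trans (h2.symm.trans h3.symm)

end MP8f
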