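import Pool.Agent.Lib_MP_8da2c8_full.NiA
import Pool.Agent.Lib_MP_8da2c8_full.EltX
import Pool.Agent.Lib_MP_8da2c8_full.RIso

/-! STEP NiB: levels. -/

namespace MP8f

open Cardinal Set FirstOrder Filter MP8da
open scoped Classical

universe u v w x

/-- a closed set of names, closed under the formation of the names `E k c i r` -/
structure Full {Y : Type u} (X : Set (Nm Y)) : Prop where
  cl : Cl Nm.S X
  root : Nm.nd [] ∈ X
  ext : ∀ (k : ℕ) (c : Fin k → Nm Y) (i : Fin k → ℕ) (r : ℕ → ℕ), (∀ j, c j ∈ X) →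
    Nm.E k c i r ∈ X

/-- the names in `X` with code below `δ` -/
def Xlt {Y : Type u} {K : Type u} [LT K] (cd : Nm Y → K) (X : Set (Nm Y)) (δ : K) : Set (Nm Y) :=
  {ν | ν ∈ X ∧ cd ν < δ}

section nm
variable {L : FirstOrder.Language.{0, 0}} {M : Type u} [L.Structure M] [Nonempty M]
variable {Y : Type u}

/-- `nm a` is a name in `X` for `a` -/
def NmOK (w : World L M Y) (X : Set (Nm Y)) (nm : M → Nm Y) : Prop :=
  ∀ a ∈ w.σ.Ml X, nm a ∈ X ∧ ∃ i, w.σ.e (nm a) i = a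

/-- Proof: elements of `w.σ.B = range (w.t.m 0)` are `w.σ.e (.nd []) i` (`w.hB`, `w_root`). -/
theorem exists_nm (w : World L M Y) {X : Set (Nm Y)} (h0 : Nm.nd [] ∈ X) :
    ∃ nm, NmOK w X nm := by
  refine ⟨fun a => if h : ∃ μ ∈ X, ∃ i, w.σ.e μ i = a then h.choose else .nd [], fun a ha => ?_⟩
  have h : ∃ μ ∈ X, ∃ i, w.σ.e μ i = a := by
    rcases ha with h1 | ⟨μ, hμ, i, h1⟩
    · rw [w.hB] at h1
      obtain ⟨i, hi⟩ := h1
      exact ⟨.nd [], h0, i, by rw [w_root, hi]⟩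
    · exact ⟨μ, hμ, i, h1⟩
  simp only [dif_pos h]
  exact ⟨h.choose_spec.1, h.choose_spec.2⟩

end nm

variable {l : Cardinal.{u}} {K : Type u} [LinearOrder K] [WellFoundedLT K]
variable {L : FirstOrder.Language.{0, 0}} {M : Type u} [L.Structure M] [Nonempty M]
variable {Y : Type u}

/-- Proof.  Intersection of two clubs.  For `Cl` and the root: `club_count` with `F ν = insert (.nd []) ν.S` (countable, `S ν ⊆ cl ν`), and some element below `δ` which is a code or: `club_maps` with the empty list for the root.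
For `Elt`: `elt_ml`.  `club_maps` with `Γ = Σ k : ℕ, (Fin k → ℕ) × L.Formula (ℕ ⊕ ℕ)` (countable as `L` is countable; see GcA), `A = B = Nm Y`, `ca = cb = cd`, `f (k, i, φ) s = .E k c i r` with `c j` = the `j`-th element of `s`, if
`s.length = k`, where `r` is given by `exists_r` (if `∃ x, φ …` holds; arbitrary otherwise); anything if `s.length ≠ k`. -/
theorem exists_club_elt (hK : KOK l K) [Countable L.Symbols] (w : World L M Y)
    (cd : Nm Y → K) (hcd : Function.Injective cd) {X : Set (Nm Y)} (hX : Full X) :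
    ∃ C : Set K, IsClub C ∧ ∀ δ ∈ C, Cl Nm.S (Xlt cd X δ) ∧ Nm.nd [] ∈ Xlt cd X δ ∧
      Elt L (w.σ.Ml (Xlt cd X δ)) := by
  have hS : ∀ ν : Nm Y, (Nm.S ν).Countable := fun ν =>
    (Nm.cl_countable ν).mono (Nm.cl_closed ν ν (Nm.self_mem_cl ν))
  obtain ⟨C1, hC1, h1⟩ := club_count hK cd hcd cd (fun ν : Nm Y => Nm.S ν) hS
  obtain ⟨C2, hC2, h2⟩ := club_maps hK (Γ := Unit) cd hcd cd (fun _ _ => (Nm.nd [] : Nm Y))
  have hr : ∀ (k : ℕ) (c : Fin k → Nm Y) (i : Fin k → ℕ) (φ : L.Formula (ℕ ⊕ ℕ)), ∃ r : ℕ → ℕ,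
      (∃ x, φ.Realize (Sum.elim x (blk w.t w.σ.e k c i))) →
      φ.Realize (Sum.elim (w.σ.e (.E k c i r)) (blk w.t w.σ.e k c i)) := by
    intro k c i φ
    by_cases h : ∃ x, φ.Realize (Sum.elim x (blk w.t w.σ.e k c i))
    · obtain ⟨r, hr⟩ := exists_r w c i φ h
      exact ⟨r, fun _ => hr⟩
    · exact ⟨fun _ => 0, fun h' => absurd h' h⟩
  choose r hr using hr
  have hcf : Countable (L.Formula (ℕ ⊕ ℕ)) := countable_formula _
  obtain ⟨C3, hC3, h3⟩ := club_maps hK (Γ := Σ k : ℕ, (Fin k → ℕ) × L.Formula (ℕ ⊕ ℕ)) cd hcd cd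
    (fun γ s => (Nm.E γ.1 (fun j => s.getD j (Nm.nd [])) γ.2.1
      (r γ.1 (fun j => s.getD j (Nm.nd [])) γ.2.1 γ.2.2) : Nm Y))
  refine ⟨C1 ∩ C2 ∩ C3, club_inter hK (club_inter hK hC1 hC2) hC3, ?_⟩
  rintro δ ⟨⟨hδ1, hδ2⟩, hδ3⟩
  have hroot : (Nm.nd [] : Nm Y) ∈ Xlt cd X δ :=
    ⟨hX.root, h2 δ hδ2 () [] fun a ha => absurd ha List.not_mem_nil⟩
  refine ⟨?_, hroot, ?_⟩
  · rintro ν ⟨hν, hν'⟩ μ hμ
    exact ⟨hX.cl ν hν hμ, h1 δ hδ1 ν hν' μ hμ⟩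
  · refine elt_ml w hroot fun k c i φ hc hex => ?_
    refine ⟨r k c i φ, ⟨hX.ext k c i _ fun j => (hc j).1, ?_⟩, hr k c i φ hex⟩
    have h4 := h3 δ hδ3 ⟨k, i, φ⟩ (List.ofFn c) (by
      intro a ha
      obtain ⟨j, rfl⟩ := (List.mem_ofFn' c a).1 ha
      exact (hc j).2)
    have h5 : (fun j : Fin k => (List.ofFn c).getD j (Nm.nd [])) = c := by
      funext j
      rw [List.getD_eq_getElem _ _ (by rw [List.length_ofFn]; exact j.2), List.getElem_ofFn]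
    simp only [h5] at h4
    exact h4

/-- `δ` is a good level for everything -/
structure Lvl (w : World L M (YY K)) (cd : Nm (YY K) → K) (X X' : Set (Nm (YY K)))
    (G G' : M → M) (nm nm' : M → Nm (YY K)) (δ : K) : Prop where
  cl : Cl Nm.S (Xlt cd X δ)
  cl' : Cl Nm.S (Xlt cd X' δ)
  root : Nm.nd [] ∈ Xlt cd X δ
  root' : Nm.nd [] ∈ Xlt cd X' δ
  elt' : Elt L (w.σ.Ml (Xlt cd X' δ))
  map : ∀ ν, cd ν < δ → ∀ i, cd (nm' (G (w.σ.e ν i))) < δ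
  map' : ∀ ν, cd ν < δ → ∀ i, cd (nm (G' (w.σ.e ν i))) < δ
  sym : ∀ s : List (YY K), cd (.nd s) < δ ↔ ∀ y ∈ s, Ylt y δ

/-- Proof.  Intersect the clubs of `exists_club_elt` (twice), `club_count` (twice; `F ν = range fun i => nm' (G (w.σ.e ν i))`) and `club_sym` (for `fun s => cd (.nd s)`), `club_inter`. -/
theorem exists_lvl (hK : KOK l K) [Countable L.Symbols] (w : World L M (YY K))
    (cd : Nm (YY K) → K) (hcd : Function.Injective cd) {X X' : Set (Nm (YY K))} (hX : Full X)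
    (hX' : Full X') (G G' : M → M) (nm nm' : M → Nm (YY K)) :
    ∃ C : Set K, IsClub C ∧ ∀ δ ∈ C, Lvl w cd X X' G G' nm nm' δ := by
  obtain ⟨C1, hC1, h1⟩ := exists_club_elt hK w cd hcd hX
  obtain ⟨C2, hC2, h2⟩ := exists_club_elt hK w cd hcd hX'
  obtain ⟨C3, hC3, h3⟩ := club_count hK cd hcd cd
    (fun ν : Nm (YY K) => range fun i => nm' (G (w.σ.e ν i))) fun ν => countable_range _
  obtain ⟨C4, hC4, h4⟩ := club_count hK cd hcd cd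
    (fun ν : Nm (YY K) => range fun i => nm (G' (w.σ.e ν i))) fun ν => countable_range _
  obtain ⟨C5, hC5, h5⟩ := club_sym hK (fun s : List (YY K) => cd (.nd s)) (by
    intro s s' h
    have h6 := hcd h
    simpa using h6)
  refine ⟨C1 ∩ C2 ∩ C3 ∩ C4 ∩ C5,
    club_inter hK (club_inter hK (club_inter hK (club_inter hK hC1 hC2) hC3) hC4) hC5, ?_⟩
  rintro δ ⟨⟨⟨⟨hδ1, hδ2⟩, hδ3⟩, hδ4⟩, hδ5⟩
  exact ⟨(h1 δ hδ1).1, (h2 δ hδ2).1, (h1 δ hδ1).2.1, (h2 δ hδ2).2.1, (h2 δ hδ2).2.2,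
    fun ν hν i => h3 δ hδ3 ν hν _ ⟨i, rfl⟩, fun ν hν i => h4 δ hδ4 ν hν _ ⟨i, rfl⟩,
    h5 δ hδ5⟩

/-- A level is mapped onto the level of the other side.
Proof.  `a = w.σ.e ν i` with `ν ∈ Xlt cd X δ` (`exists_nm` for `Xlt cd X δ`, `h.root`), so `a ∈ w.σ.Ml X`, `G a ∈ w.σ.Ml X'` (`hT.mem`), and `nm' (G a) ∈ X'` names `G a`, with code `< δ` by `h.map`. -/
theorem Lvl.mem_map {w : World L M (YY K)} {cd : Nm (YY K) → K} {X X' : Set (Nm (YY K))}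
    {G G' : M → M} {nm nm' : M → Nm (YY K)} {δ : K} (h : Lvl w cd X X' G G' nm nm' δ)
    (hT : Tw L (w.σ.Ml X) (w.σ.Ml X') G G') (hn' : NmOK w X' nm')
    {a : M} (ha : a ∈ w.σ.Ml (Xlt cd X δ)) : G a ∈ w.σ.Ml (Xlt cd X' δ) := by
  have h1 : ∃ ν ∈ Xlt cd X δ, ∃ i, w.σ.e ν i = a := by
    obtain ⟨nm0, h0⟩ := exists_nm w h.root
    exact ⟨nm0 a, (h0 a ha).1, (h0 a ha).2⟩
  obtain ⟨ν, hν, i, rfl⟩ := h1
  have h2 : w.σ.e ν i ∈ w.σ.Ml X := Or.inr ⟨ν, hν.1, i, rfl⟩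
  obtain ⟨h3, j, h4⟩ := hn' _ (hT.mem _ h2)
  exact Or.inr ⟨nm' (G (w.σ.e ν i)), ⟨h3, h.map ν hν.2 i⟩, j, h4⟩

/-- the same in the other direction -/
theorem Lvl.mem_map' {w : World L M (YY K)} {cd : Nm (YY K) → K} {X X' : Set (Nm (YY K))}
    {G G' : M → M} {nm nm' : M → Nm (YY K)} {δ : K} (h : Lvl w cd X X' G G' nm nm' δ)
    (hT : Tw L (w.σ.Ml X) (w.σ.Ml X') G G') (hn : NmOK w X nm)
    {a : M} (ha : a ∈ w.σ.Ml (Xlt cd X' δ)) : G' a ∈ w.σ.Ml (Xlt cd X δ) := by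
  have h1 : ∃ ν ∈ Xlt cd X' δ, ∃ i, w.σ.e ν i = a := by
    obtain ⟨nm0, h0⟩ := exists_nm w h.root'
    exact ⟨nm0 a, (h0 a ha).1, (h0 a ha).2⟩
  obtain ⟨ν, hν, i, rfl⟩ := h1
  have h2 : w.σ.e ν i ∈ w.σ.Ml X' := Or.inr ⟨ν, hν.1, i, rfl⟩
  obtain ⟨h3, j, h4⟩ := hn _ (hT.mem' _ h2)
  exact Or.inr ⟨nm (G' (w.σ.e ν i)), ⟨h3, h.map' ν hν.2 i⟩, j, h4⟩

end MP8f
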