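import Pool.Agent.Lib_MP_8da2c8_full.CombD
import Pool.Agent.Lib_MP_8da2c8_full.CombE
import Pool.Agent.Lib_MP_8da2c8_full.NiB

/-! STEP NiD: combinatorics for the non-isomorphism theorem. -/

namespace MP8f

open Cardinal Set FirstOrder Filter MP8da
open scoped Classical

universe u v w x

private theorem NiD_mem_seg {Y : Type v} (b : ℕ → Y) (n : ℕ) {y : Y} :
    y ∈ seg b n ↔ ∃ i < n, y = b i := by
  induction n with
  | zero =>
    constructor
    · intro h
      exact absurd h List.not_mem_nil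
    · rintro ⟨i, hi, -⟩
      exact absurd hi (Nat.not_lt_zero i)
  | succ n ih =>
    show y ∈ b n :: seg b n ↔ _
    rw [List.mem_cons, ih]
    constructor
    · rintro (h | ⟨i, hi, h⟩)
      · exact ⟨n, Nat.lt_succ_self n, h⟩
      · exact ⟨i, hi.trans (Nat.lt_succ_self n), h⟩
    · rintro ⟨i, hi, h⟩
      rcases Nat.lt_succ_iff_lt_or_eq.1 hi with hi | rfl
      · exact Or.inr ⟨i, hi, h⟩
      · exact Or.inl h

/-- pigeonhole: infinitely many of the different names `nu k` are on one of finitely many branches -/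
theorem pigeon {Y : Type v} {N : Type w} (nu : ℕ → N) (hinj : Function.Injective nu) (F : Set N)
    (hF : F.Finite) (C : Set (ℕ → Y)) (hC : C.Finite) (nd : List Y → N)
    (h : ∀ k, nu k ∈ F ∨ ∃ c ∈ C, ∃ n, nu k = nd (seg c n)) :
    ∃ c ∈ C, {k | ∃ n, nu k = nd (seg c n)}.Infinite := by
  by_contra hcon
  have h1 : ∀ c ∈ C, {k | ∃ n, nu k = nd (seg c n)}.Finite := by
    intro c hc
    by_contra h2
    exact hcon ⟨c, hc, h2⟩
  have h2 : (nu ⁻¹' F).Finite := hF.preimage hinj.injOn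
  have h3 : (⋃ c ∈ C, {k | ∃ n, nu k = nd (seg c n)}).Finite := hC.biUnion h1
  refine (infinite_univ (α := ℕ)) ((h2.union h3).subset fun k _ => ?_)
  rcases h k with h4 | ⟨c, hc, n, h4⟩
  · exact Or.inl h4
  · exact Or.inr (mem_iUnion₂.2 ⟨c, hc, n, h4⟩)

variable {K : Type u} [LinearOrder K]

/-- the names for the set `D` -/
def VD {π : K → K} (B : BD K π) (D : Set K) : Set (Nm (YY K)) := {ν | Nm.Vld (JN D) (JB B D) ν}

/-- Proof: `Nm.vld_closed`; a branch in `JB B D` has its segments in `JN D` by `good_uok`. -/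
theorem vd_full {π : K → K} (B : BD K π) (D : Set K) : Full (VD B D) := by
  refine ⟨?_, ?_, ?_⟩
  · refine Nm.vld_closed ?_ ?_
    · intro a s h y hy
      exact h y (List.mem_cons_of_mem _ hy)
    · intro c hc n y hy
      obtain ⟨i, -, rfl⟩ := (NiD_mem_seg c n).1 hy
      exact good_uok hc i
  · intro y hy
    exact absurd hy List.not_mem_nil
  · intro k c i r h j
    exact h j

/-- the combinatorial property of `comb` -/
def CombOK {π : K → K} (B : BD K π) : Prop :=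
  ∀ D E C : Set K, IsStationary (D \ E) → IsClub C →
    ∀ S : List (YY K) → Set K, (∀ s, (S s).Countable) →
      ∃ α ρ : ℕ → K, Good B D (brn α ρ) ∧
        (∀ k, α k ∈ C ∧ α k < ρ k ∧ ρ k < α (k + 1) ∧ ρ k ∉ S (seg (brn α ρ) (k + 1))) ∧
        ∀ c, Good B E c → (∀ m, ∃ k, ∀ j < m, Ylt (c j) (α k)) →
          (∀ k, ∃ j, ¬ Ylt (c j) (α k)) →
          ∃ k0, ∀ k ≥ k0, (c (k + 1)).1 = ρ k ∧ ∀ j ≤ k, Ylt (c j) (α k)

/-- Segments of `brn α ρ`.
Proof.  The symbols in `seg (brn α ρ) n` are `(α 0, .x (α 0))`, `(ρ j, .x (α (j + 1)))` with `j + 1 < n`; `α` is strictly increasing and `ρ j < α (j + 1)`.  For `n > k` the symbol number `k` has the ordinal `α k`. -/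
theorem brn_lt {α ρ : ℕ → K} (h : ∀ k, α k < ρ k ∧ ρ k < α (k + 1)) (k n : ℕ) :
    (∀ y ∈ seg (brn α ρ) n, Ylt y (α k)) ↔ n ≤ k := by
  have hmono : StrictMono α := strictMono_nat_of_lt_succ fun k => (h k).1.trans (h k).2
  have h1 : ∀ j, Ylt (brn α ρ j) (α k) ↔ j < k := by
    intro j
    cases j with
    | zero =>
      show (α 0 < α k ∧ α 0 < α k) ↔ _
      rw [and_self, hmono.lt_iff_lt]
    | succ j =>
      show (ρ j < α k ∧ α (j + 1) < α k) ↔ _
      rw [hmono.lt_iff_lt]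
      constructor
      · exact fun h => h.2
      · intro h2
        exact ⟨(h j).2.trans (hmono h2), h2⟩
  constructor
  · intro h2
    by_contra h3
    have h4 := h2 (brn α ρ k) ((NiD_mem_seg _ n).2 ⟨k, not_le.1 h3, rfl⟩)
    exact lt_irrefl k ((h1 k).1 h4)
  · intro h2 y hy
    obtain ⟨j, hj, rfl⟩ := (NiD_mem_seg _ n).1 hy
    exact (h1 j).2 (hj.trans_le h2)

/-- The branch `c` follows `brn α ρ`.  `cn s` is the code of the node `s`, `I` is an infinite set of `k` such that some segment `seg c (m k)` has a code between `α k` and `α (k + 1)`.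
Proof.  `m` is injective on `I` (if `m k = m k'` with `k < k'` then `α (k + 1) ≤ α k' ≤` the code `< α (k + 1)`), hence unbounded on `I`.  The first hypothesis of `hc`: given `m0` take `k ∈ I` with `m k ≥ m0`; by `hsym` for `α (k + 1)` all the
symbols `c j`, `j < m k`, satisfy `Ylt (c j) (α (k + 1))`.  The second one: given `k0` take `k ∈ I`, `k ≥ k0`; as `¬ cn (seg c (m k)) < α k`, some `c j`, `j < m k`, has `¬ Ylt (c j) (α k)`, so `¬ Ylt (c j) (α k0)`.  So `hc` gives `k0`;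
take `k ∈ I`, `k ≥ k0`.  Some `j < m k` has `¬ Ylt (c j) (α k)`, so `j > k` and `k + 1 < m k`; so `c (k + 1)` is in `seg c (m k)` and has the label `ρ k`. -/
theorem follow {α ρ : ℕ → K} (h : ∀ k, α k < ρ k ∧ ρ k < α (k + 1)) (cn : List (YY K) → K)
    (hsym : ∀ k s, cn s < α k ↔ ∀ y ∈ s, Ylt y (α k)) {c : ℕ → YY K} {m : ℕ → ℕ} {I : Set ℕ}
    (hI : I.Infinite) (h1 : ∀ k ∈ I, cn (seg c (m k)) < α (k + 1))
    (h2 : ∀ k ∈ I, ¬ cn (seg c (m k)) < α k)
    (hc : (∀ m, ∃ k, ∀ j < m, Ylt (c j) (α k)) → (∀ k, ∃ j, ¬ Ylt (c j) (α k)) →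
      ∃ k0, ∀ k ≥ k0, (c (k + 1)).1 = ρ k ∧ ∀ j ≤ k, Ylt (c j) (α k)) :
    ∃ k ∈ I, ∃ y ∈ seg c (m k), y.1 = ρ k := by
  have hmono : StrictMono α := strictMono_nat_of_lt_succ fun k => (h k).1.trans (h k).2
  have hne : ∀ k ∈ I, ∀ k' ∈ I, k < k' → m k ≠ m k' := by
    intro k hk k' hk' hkk e
    have h3 : α (k + 1) ≤ α k' := hmono.monotone hkk
    have h4 := h2 k' hk'
    rw [← e] at h4
    exact h4 ((h1 k hk).trans_le h3)
  have hinj : InjOn m I := by
    intro k hk k' hk' e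
    rcases lt_trichotomy k k' with h3 | h3 | h3
    · exact absurd e (hne k hk k' hk' h3)
    · exact h3
    · exact absurd e.symm (hne k' hk' k hk h3)
  have hex : ∀ k ∈ I, ∃ j < m k, ¬ Ylt (c j) (α k) := by
    intro k hk
    by_contra hcon
    push Not at hcon
    refine h2 k hk ((hsym k _).2 fun y hy => ?_)
    obtain ⟨j, hj, rfl⟩ := (NiD_mem_seg c _).1 hy
    exact hcon j hj
  obtain ⟨k0, hk0⟩ := hc (by
    intro m0
    obtain ⟨_, ⟨k, hk, rfl⟩, h3⟩ := (hI.image hinj).exists_gt m0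
    refine ⟨k + 1, fun j hj => ?_⟩
    exact (hsym (k + 1) _).1 (h1 k hk) (c j) ((NiD_mem_seg c _).2 ⟨j, hj.trans h3, rfl⟩)) (by
    intro k0
    obtain ⟨k, hk, h3⟩ := hI.exists_gt k0
    obtain ⟨j, -, h4⟩ := hex k hk
    exact ⟨j, fun h5 => h4 ⟨h5.1.trans (hmono h3), h5.2.trans (hmono h3)⟩⟩)
  obtain ⟨k, hk, h3⟩ := hI.exists_gt k0
  obtain ⟨h4, h5⟩ := hk0 k h3.le
  obtain ⟨j, hj, h6⟩ := hex k hk
  refine ⟨k, hk, c (k + 1), (NiD_mem_seg c _).2 ⟨k + 1, ?_, rfl⟩, h4⟩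
  by_contra h7
  exact h6 (h5 j (by omega))

end MP8f
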