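import Pool.Agent.Lib_MP_8da2c8_full.TreeA

/-! STEP TreeB: consequences for nodes and branches. -/

namespace MP8f

open Cardinal Set FirstOrder Filter
open scoped Classical

universe u v w x

variable {L : FirstOrder.Language.{0, 0}} {M : Type u} [L.Structure M] [Nonempty M]
variable {Y : Type u}

/-- being an elementary set is a property of the type of the block.
Proof.  Let `P` be definable over `range b'`, `P x ↔ θ.Realize (Sum.elim x b')` (`defU_range`), `∃ x, P x`.  `∃ x, θ (x, ·)` is a condition on the block, so `∃ x, θ.Realize (Sum.elim x b)`; by elementarity of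
`range b` there is `f : ℕ → ℕ` with `θ.Realize (Sum.elim (fun i => b (f i)) b)`, again a condition on the block. -/
theorem elt_of_eqv {b b' : ℕ → M} (h : Eqv L b' b) (hb : Elt L (range b)) :
    Elt L (range b') := by
  refine ⟨range_nonempty _, ?_⟩
  rintro P hP ⟨x, hx⟩
  obtain ⟨θ, hθ⟩ := defU_range hP
  obtain ⟨ψ, hψ⟩ := exists_exF.{u} (θ.relabel Sum.swap : L.Formula (ℕ ⊕ ℕ))
  have key : ∀ y z : ℕ → M, (θ.relabel Sum.swap : L.Formula (ℕ ⊕ ℕ)).Realize (Sum.elim y z) ↔
      θ.Realize (Sum.elim z y) := by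
    intro y z
    rw [FirstOrder.Language.Formula.realize_relabel]
    have : (Sum.elim y z) ∘ Sum.swap = Sum.elim z y := by
      funext i
      rcases i with i | i <;> rfl
    rw [this]
  have h1 : ψ.Realize b' := (hψ M _).2 ⟨x, (key _ _).2 ((hθ x).1 hx)⟩
  obtain ⟨z, hz⟩ := (hψ M _).1 ((h ψ).1 h1)
  have hdef : DefU L (range b) fun x : ℕ → M => θ.Realize (Sum.elim x b) := by
    have h2 : Dfn2 L fun x y : ℕ → M => θ.Realize (Sum.elim x y) := by
      refine ⟨θ, fun z => iff_of_eq (congrArg θ.Realize ?_)⟩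
      funext k
      rcases k with k | k <;> rfl
    have h3 : DefU2 L (range b) fun x y : ℕ → M => θ.Realize (Sum.elim x y) := DefU.of_dfn h2
    exact h3.subst b fun i => ⟨i, rfl⟩
  obtain ⟨v, hv, hv'⟩ := hb.2 _ hdef ⟨z, (key _ _).1 hz⟩
  choose f hf using hv
  have h4 : ∀ c : ℕ → M, (θ.relabel (Sum.elim f id) : L.Formula ℕ).Realize c ↔
      θ.Realize (Sum.elim (fun i => c (f i)) c) := by
    intro c
    rw [FirstOrder.Language.Formula.realize_relabel]
    refine iff_of_eq (congrArg θ.Realize ?_)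
    funext i
    rcases i with i | i <;> rfl
  have h5 : (θ.relabel (Sum.elim f id) : L.Formula ℕ).Realize b := by
    rw [h4]
    have h6 : (fun i => b (f i)) = v := funext hf
    rw [h6]
    exact hv'
  exact ⟨fun i => b' (f i), fun i => ⟨_, rfl⟩, (hθ _).2 ((h4 b').1 ((h _).2 h5))⟩

omit [Nonempty M] in
private theorem treeB_eq {ι : Type} {x x' : ι → M} (h : Eqv L x x') (i j : ι) :
    x i = x j ↔ x' i = x' j := by
  have h1 := h ((FirstOrder.Language.Term.var i).equal (FirstOrder.Language.Term.var j))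
  rw [FirstOrder.Language.Formula.realize_equal, FirstOrder.Language.Formula.realize_equal] at h1
  exact h1

omit [Nonempty M] in
private theorem treeB_rel {ι : Type} {x x' : ι → M} (h : Eqv L x x') (φ : L.Formula (ℕ ⊕ ℕ))
    (f g : ℕ → ι) : φ.Realize (Sum.elim (fun i => x (f i)) fun i => x (g i)) ↔
      φ.Realize (Sum.elim (fun i => x' (f i)) fun i => x' (g i)) := by
  have h1 := h (φ.relabel (Sum.elim f g))
  rw [FirstOrder.Language.Formula.realize_relabel,
    FirstOrder.Language.Formula.realize_relabel] at h1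
  have h2 : ∀ z : ι → M, z ∘ Sum.elim f g = Sum.elim (fun i => z (f i)) fun i => z (g i) := by
    intro z
    funext i
    rcases i with i | i <;> rfl
  rw [h2, h2] at h1
  exact h1

private theorem treeB_seg (y0 : Y) (s : List Y) : ∃ c : ℕ → Y, seg c s.length = s := by
  induction s with
  | nil => exact ⟨fun _ => y0, rfl⟩
  | cons a s ih =>
    obtain ⟨b, hb⟩ := ih
    refine ⟨Function.update b s.length a, ?_⟩
    show Function.update b s.length a s.length :: seg (Function.update b s.length a) s.length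
      = a :: s
    have e : seg (Function.update b s.length a) s.length = seg b s.length :=
      seg_eq_iff.2 fun i hi => Function.update_of_ne (Nat.ne_of_lt hi) _ _
    rw [e, hb, Function.update_self]

theorem w_elt (w : World L M Y) (s : List Y) : Elt L (range (w.σ.e (.nd s))) :=
  elt_of_eqv (w_node_eqv w s) (w.t.elt _)

/-- Proof.  For `i` there is `j` with `w.t.m n i = w.t.m (n + 1) j`, `n = s.length`; this transfers by `w_chain0` for a branch `c` through the node: `seg c n = s`, `seg c (n + 1) = a :: s`. -/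
theorem w_mono (w : World L M Y) (a : Y) (s : List Y) :
    range (w.σ.e (.nd s)) ⊆ range (w.σ.e (.nd (a :: s))) := by
  obtain ⟨c, hc⟩ := treeB_seg a (a :: s)
  have hc1 : c s.length :: seg c s.length = a :: s := hc
  have hc2 : seg c s.length = s := (List.cons.inj hc1).2
  rintro _ ⟨i, rfl⟩
  obtain ⟨j, hj⟩ := w.t.mono s.length ⟨i, rfl⟩
  have h1 := (treeB_eq (w_chain0 w c) (s.length + 1, j) (s.length, i)).2 hj
  refine ⟨j, ?_⟩
  have h2 : w.σ.e (.nd (seg c (s.length + 1))) j = w.σ.e (.nd (seg c s.length)) i := h1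
  rw [hc2, show seg c (s.length + 1) = a :: s from hc1] at h2
  exact h2

theorem w_mono' (w : World L M Y) (c : ℕ → Y) {m n : ℕ} (h : m ≤ n) :
    range (w.σ.e (.nd (seg c m))) ⊆ range (w.σ.e (.nd (seg c n))) := by
  induction n with
  | zero =>
    obtain rfl : m = 0 := Nat.le_zero.1 h
    exact subset_rfl
  | succ n ih =>
    rcases Nat.le_succ_iff.1 h with h | h
    · exact (ih h).trans (w_mono w _ _)
    · rw [h]

theorem w_br_fin (w : World L M Y) (c : ℕ → Y) (i : ℕ) :
    w.σ.e (.br c) i = w.σ.e (.br c) (min i w.t.fr) :=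
  (treeB_eq (w_chain w c) (Sum.inr i) (Sum.inr (min i w.t.fr))).2 (w.t.ha i)

/-- Proof.  Transfer `w.t.h1`, `w.t.h3`, `w.t.h2` by `w_chain`; `w.t.d n i = w.t.m (n + 1) (f i)` for some `f`. -/
theorem w_d (w : World L M Y) (c : ℕ → Y) (n : ℕ) : ∃ f : ℕ → ℕ,
    (w.t.φ n).Realize (Sum.elim (w.σ.e (.br c)) fun i => w.σ.e (.nd (seg c (n + 1))) (f i)) ∧
    (¬ (w.t.ψ n).Realize (Sum.elim (fun i => w.σ.e (.nd (seg c (n + 1))) (f i))
      (w.σ.e (.nd (seg c n))))) ∧
    ∀ y : ℕ → M, (∀ i, y i ∈ range (w.σ.e (.nd (seg c n)))) →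
      ((w.t.φ n).Realize (Sum.elim (w.σ.e (.br c)) y) ↔
        (w.t.ψ n).Realize (Sum.elim y (w.σ.e (.nd (seg c n))))) := by
  choose f hf using w.t.hd n
  have hch := w_chain w c
  have hf' : (fun i => w.t.m (n + 1) (f i)) = w.t.d n := funext hf
  refine ⟨f, ?_, ?_, ?_⟩
  · have h1 := treeB_rel hch (w.t.φ n) (fun i => Sum.inr i) (fun i => Sum.inl (n + 1, f i))
    refine h1.2 ?_
    show (w.t.φ n).Realize (Sum.elim w.t.a fun i => w.t.m (n + 1) (f i))
    rw [hf']
    exact w.t.h1 n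
  · have h1 := treeB_rel hch (w.t.ψ n) (fun i => Sum.inl (n + 1, f i)) (fun i => Sum.inl (n, i))
    refine fun h => ?_
    have h2 : (w.t.ψ n).Realize (Sum.elim (fun i => w.t.m (n + 1) (f i)) (w.t.m n)) := h1.1 h
    rw [hf'] at h2
    exact w.t.h3 n h2
  · intro y hy
    choose g hg using hy
    have hg' : (fun i => w.σ.e (.nd (seg c n)) (g i)) = y := funext hg
    have h1 := treeB_rel hch (w.t.φ n) (fun i => Sum.inr i) (fun i => Sum.inl (n, g i))
    have h2 := treeB_rel hch (w.t.ψ n) (fun i => Sum.inl (n, g i)) (fun i => Sum.inl (n, i))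
    have h3 : (w.t.φ n).Realize (Sum.elim (w.σ.e (.br c))
        fun i => w.σ.e (.nd (seg c n)) (g i)) ↔
        (w.t.φ n).Realize (Sum.elim w.t.a fun i => w.t.m n (g i)) := h1
    have h4 : (w.t.ψ n).Realize (Sum.elim (fun i => w.σ.e (.nd (seg c n)) (g i))
        (w.σ.e (.nd (seg c n)))) ↔
        (w.t.ψ n).Realize (Sum.elim (fun i => w.t.m n (g i)) (w.t.m n)) := h2
    rw [hg'] at h3 h4
    rw [h3, h4]
    exact w.t.h2 n _ fun i => ⟨_, rfl⟩

/-- Proof.  The elements named by the nodes of a branch up to `k`: `w_mono'`, `w.hB`, `w_root`. -/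
theorem w_ml_chain (w : World L M Y) (c : ℕ → Y) (k : ℕ) :
    w.σ.Ml {ν | ∃ n ≤ k, ν = .nd (seg c n)} = range (w.σ.e (.nd (seg c k))) := by
  ext a
  constructor
  · rintro (ha | ⟨μ, ⟨n, hn, rfl⟩, i, rfl⟩)
    · have h0 : a ∈ range (w.σ.e (.nd (seg c 0))) := by
        show a ∈ range (w.σ.e (.nd []))
        rw [w_root w, ← w.hB]
        exact ha
      exact w_mono' w c (Nat.zero_le k) h0
    · exact w_mono' w c hn ⟨i, rfl⟩
  · rintro ⟨i, rfl⟩
    exact Or.inr ⟨_, ⟨k, le_rfl, rfl⟩, i, rfl⟩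

/-- Proof.  By `w.t.h1`, `h2`, `h3` for `n = 0` some element `w.t.m 1 i0` is not in `range (w.t.m 0)` (otherwise `w.t.d 0` is in `range (w.t.m 0)`).  Let `a ≠ b`.  If `w.σ.e (.nd [a]) i0 = w.σ.e (.nd [b]) i0 =: y`, then by
`w.σ.prod` for `.nd [a]` (`.nd [b]` has the same stage) `Ev p (x i0 = y)`, so by `w_node_scheme` (with `φ` the formula `x i0 = y 0`) `θ.Realize (y, w.t.m 0)` is satisfiable, `θ = w.sc.θN 0 φ`; by elementarity it is satisfied by some `y` in
`range (w.t.m 0)`, so by `hN'` `w.t.m 1 i0 = y 0`, contradiction. -/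
theorem w_inj (w : World L M Y) : ∃ i0 : ℕ, ∀ a b : Y, a ≠ b →
    w.σ.e (.nd [a]) i0 ≠ w.σ.e (.nd [b]) i0 := by
  obtain ⟨i0, hi0⟩ : ∃ i0, w.t.m 1 i0 ∉ range (w.t.m 0) := by
    by_contra hcon
    push Not at hcon
    have hd : ∀ i, w.t.d 0 i ∈ range (w.t.m 0) := by
      intro i
      obtain ⟨j, hj⟩ := w.t.hd 0 i
      rw [← hj]
      exact hcon j
    exact w.t.h3 0 ((w.t.h2 0 _ hd).1 (w.t.h1 0))
  refine ⟨i0, fun a b hab heq => ?_⟩
  have hne : (Nm.nd [b] : Nm Y) ≠ Nm.nd [a] := by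
    intro h
    injection h with h1
    exact hab (List.cons.inj h1).1.symm
  have hst : w.σ.st (.nd [b]) = w.σ.st (.nd [a]) := by
    rw [w.hst]
    rfl
  have hmem : w.σ.e (.nd [b]) i0 ∈ Oth w.σ.U w.σ.st w.σ.e (.nd [a]) :=
    Or.inr ⟨_, hst, hne, i0, rfl⟩
  have hdef : DefU L (Oth w.σ.U w.σ.st w.σ.e (.nd [a]))
      fun x : ℕ → M => x i0 = w.σ.e (.nd [b]) i0 := by
    refine (DefU.mk (A := Oth w.σ.U w.σ.st w.σ.e (.nd [a]))
      (R := fun z : ℕ ⊕ ℕ → M => z (Sum.inl i0) = z (Sum.inr 0)) (Dfn.eq _ _)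
      (Sum.elim Sum.inl fun _ => Sum.inr ⟨_, hmem⟩)).congr fun x => ?_
    exact Iff.rfl
  have h1 := (w.σ.prod (.nd [a]) _ hdef).1 heq
  have h2 := w_node_scheme w a [] (w_node_eqv w [])
    ((FirstOrder.Language.Term.var (Sum.inl i0)).equal
      (FirstOrder.Language.Term.var (Sum.inr 0))) fun _ => w.σ.e (.nd [b]) i0
  have h3 : ∀ x y : ℕ → M, ((FirstOrder.Language.Term.var (Sum.inl i0)).equal
      (FirstOrder.Language.Term.var (Sum.inr 0)) : L.Formula (ℕ ⊕ ℕ)).Realize (Sum.elim x y) ↔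
      x i0 = y 0 := by
    intro x y
    rw [FirstOrder.Language.Formula.realize_equal]
    rfl
  have h4 := h2.1 ((ev_congr fun x => (h3 x _)).2 h1)
  rw [w_root w] at h4
  have hdef2 : DefU L (range (w.t.m 0)) fun x : ℕ → M =>
      (w.sc.θN 0 ((FirstOrder.Language.Term.var (Sum.inl i0)).equal
        (FirstOrder.Language.Term.var (Sum.inr 0)))).Realize (Sum.elim x (w.t.m 0)) := by
    have h5 : Dfn2 L fun x y : ℕ → M =>
        (w.sc.θN 0 ((FirstOrder.Language.Term.var (Sum.inl i0)).equal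
          (FirstOrder.Language.Term.var (Sum.inr 0)))).Realize (Sum.elim x y) := by
      refine ⟨_, fun z => iff_of_eq (congrArg (FirstOrder.Language.Formula.Realize _) ?_)⟩
      funext k
      rcases k with k | k <;> rfl
    have h6 : DefU2 L (range (w.t.m 0)) fun x y : ℕ → M =>
        (w.sc.θN 0 ((FirstOrder.Language.Term.var (Sum.inl i0)).equal
          (FirstOrder.Language.Term.var (Sum.inr 0)))).Realize (Sum.elim x y) := DefU.of_dfn h5
    exact h6.subst _ fun i => ⟨i, rfl⟩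
  obtain ⟨y, hy, hy'⟩ := (w.t.elt 0).2 _ hdef2 ⟨_, h4⟩
  have h7 := (h3 _ _).1 ((w.sc.hN' 0 _ y hy).2 hy')
  exact hi0 (h7 ▸ hy 0)

end MP8f
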