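import Pool.Agent.Lib_MP_8da2c8.ClubA
import Pool.Agent.Lib_MP_8da2c8_full.TreeB
import Pool.Agent.Lib_MP_8da2c8_full.NiD

/-! STEP BoA: cardinalities. -/

namespace MP8f

open Cardinal Set FirstOrder Filter MP8da
open scoped Classical

universe u v w x

variable {l : Cardinal.{u}} {K : Type u} [LinearOrder K]

private theorem BoA_inf (hK : KOK l K) : ℵ₀ ≤ #K :=
  hK.inf.trans (by rw [hK.card]; exact Order.le_succ l)

/-- Proof: `#K = succ l = 2 ^ l`, `(2 ^ l) ^ ℵ₀ = 2 ^ (l * ℵ₀) = 2 ^ l`. -/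
theorem mk_seq_le (hK : KOK l K) : #(ℕ → K) ≤ #K := by
  have h1 : #(ℕ → K) = #K ^ ℵ₀ := by simp
  rw [h1, hK.card, ← hK.gch, ← Cardinal.power_mul, Cardinal.mul_aleph0_eq hK.inf]

private def BoA_f : US K → K ⊕ (Finset ℕ × K × ℕ)
  | .x α => Sum.inl α
  | .y g β i => Sum.inr (g, β, i)

omit [LinearOrder K] in
private theorem BoA_f_inj : Function.Injective (BoA_f (K := K)) := by
  intro a b h
  cases a <;> cases b <;> simp [BoA_f] at h ⊢ <;> exact h

/-- Proof: `US K` injects into `K ⊕ (Finset ℕ × K × ℕ)`. -/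
theorem mk_yy_le (hK : KOK l K) : #(YY K) ≤ #K := by
  have hi := BoA_inf hK
  have h1 : #(US K) ≤ #K := by
    refine (Cardinal.mk_le_of_injective BoA_f_inj).trans ?_
    have h2 : #(K ⊕ (Finset ℕ × K × ℕ)) = #K + ℵ₀ * (#K * ℵ₀) := by simp
    rw [h2, Cardinal.mul_aleph0_eq hi, Cardinal.aleph0_mul_eq hi, Cardinal.add_eq_self hi]
  have h2 : #(YY K) = #K * #(US K) := by simp [YY]
  rw [h2]
  exact (mul_le_mul' le_rfl h1).trans (Cardinal.mul_eq_self hi).le

theorem exists_cd (hK : KOK l K) : ∃ cd : Nm (YY K) → K, Function.Injective cd := by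
  have h : #(Nm (YY K)) ≤ #K :=
    Nm.card_le (hK.inf.trans (by rw [hK.card]; exact Order.le_succ l)) (mk_yy_le hK)
      (mk_seq_le hK)
  obtain ⟨f⟩ := Cardinal.le_def (Nm (YY K)) K |>.1 h
  exact ⟨f, f.injective⟩

variable {L : FirstOrder.Language.{0, 0}} {M : Type u} [L.Structure M] [Nonempty M]

/-- Proof: the set is the union of the countable set `w.σ.B` and of the range of `w.σ.e` on `Nm (YY K) × ℕ`; `exists_cd`. -/
theorem mk_ml_le (hK : KOK l K) (w : World L M (YY K)) (X : Set (Nm (YY K))) :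
    #(w.σ.Ml X) ≤ #K := by
  have hi := BoA_inf hK
  obtain ⟨cd, hcd⟩ := exists_cd hK
  have h1 : w.σ.Ml X ⊆ range (w.t.m 0) ∪ range fun p : Nm (YY K) × ℕ => w.σ.e p.1 p.2 := by
    rintro a (ha | ⟨μ, -, i, rfl⟩)
    · left
      rwa [← w.hB]
    · exact Or.inr ⟨(μ, i), rfl⟩
  refine (Cardinal.mk_le_mk_of_subset h1).trans ((Cardinal.mk_union_le _ _).trans ?_)
  have h2 : #(range (w.t.m 0)) ≤ #K := by
    have h3 : #(range (w.t.m 0)) ≤ ℵ₀ := Cardinal.mk_le_aleph0_iff.2 (Set.countable_range _).to_subtype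
    exact h3.trans hi
  have h4 : #(range fun p : Nm (YY K) × ℕ => w.σ.e p.1 p.2) ≤ #K := by
    refine Cardinal.mk_range_le.trans ?_
    have h5 : #(Nm (YY K) × ℕ) = #(Nm (YY K)) * ℵ₀ := by simp
    rw [h5]
    exact (mul_le_mul' (Cardinal.mk_le_of_injective hcd) hi).trans (Cardinal.mul_eq_self hi).le
  exact (add_le_add h2 h4).trans (Cardinal.add_eq_self hi).le

/-- Proof.  Let `i0` be as in `w_inj`.  For `β : K` the name `.nd [(β, .y ∅ β 0)]` is in `VD B D` (`uok D (.y ∅ β 0)` is true), and `β ↦ w.σ.e (.nd [(β, .y ∅ β 0)]) i0` is injective.  (Use the empty set for `D`: the values do not depend on `D`.) -/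
theorem exists_j (w : World L M (YY K)) :
    ∃ j0 : K → M, Function.Injective j0 ∧
      ∀ {π : K → K} (B : BD K π) (D : Set K) (β : K), j0 β ∈ w.σ.Ml (VD B D) := by
  obtain ⟨i0, hi0⟩ := w_inj w
  refine ⟨fun β => w.σ.e (.nd [(β, .y ∅ β 0)]) i0, ?_, ?_⟩
  · intro β γ h
    by_contra hne
    refine hi0 (β, .y ∅ β 0) (γ, .y ∅ γ 0) ?_ h
    intro h'
    exact hne (Prod.ext_iff.1 h').1
  · intro π B D β
    refine Or.inr ⟨.nd [(β, .y ∅ β 0)], ?_, i0, rfl⟩
    show ([(β, US.y ∅ β 0)] : List (YY K)) ∈ JN D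
    intro y hy
    rw [List.mem_singleton] at hy
    subst hy
    exact trivial

end MP8f
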