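import Pool.Agent.Lib_MP_8da2c8_full.CombA
import Pool.Agent.Lib_MP_8da2c8.Local

/-! STEP CombB: goodness depends only on an initial segment of the set. -/

namespace MP8f

open Cardinal Set MP8da
open scoped Classical

universe u v

variable {l : Cardinal.{u}} {K : Type u} [LinearOrder K] [WellFoundedLT K] {π : K → K} {B : BD K π}

/-- as `MP8da.link_local` in Lib_MP_8da2c8/Local.lean (`MP8da.lk_local`, `MP8da.local_bdd`; an `Inhabited K` instance from `hK`) -/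
theorem linkY_local (hK : KOK l K) {β : K → K} {D E : Set K} {b c : ℕ → YY K}
    (hl : LinkY π β D E b c) : ∃ δ0 : K, ∀ δ, δ0 ≤ δ → ∀ D' E' : Set K,
      (∀ α < δ, (α ∈ D' ↔ α ∈ D)) → (∀ α < δ, (α ∈ E' ↔ α ∈ E)) →
      (∀ α, δ ≤ α → (α ∈ D' ↔ α ∈ E')) → LinkY π β D' E' b c := by
  haveI : Inhabited K := ⟨(c 0).1⟩
  have h1 : ∀ k, ∃ δ0 : K, ∀ δ, δ0 ≤ δ → ∀ D' E' : Set K,
      (∀ α < δ, (α ∈ D' ↔ α ∈ D)) → (∀ α < δ, (α ∈ E' ↔ α ∈ E)) →
      (∀ α, δ ≤ α → (α ∈ D' ↔ α ∈ E')) →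
      Lk β D' E' (HY π b k) (HY π c k) (b k).2 (c k).2 := fun k => lk_local hK (hl k).2
  choose s hs using h1
  obtain ⟨δ0, h0⟩ := local_bdd hK s
  exact ⟨δ0, fun δ hδ D' E' hD hE hDE k =>
    ⟨(hl k).1, hs k δ ((h0 k).le.trans hδ) D' E' hD hE hDE⟩⟩

/-- as `MP8da.gd_local`; the base case: take the `δ` of the basic branch -/
theorem good_local (hK : KOK l K) {E : Set K} {c : ℕ → YY K} (h : Good B E c) :
    ∃ δ : K, ∀ E' : Set K, (∀ α < δ, (α ∈ E' ↔ α ∈ E)) → Good B E' c := by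
  induction h with
  | base D δ hok hD =>
    exact ⟨δ, fun E' hE' => Good.base E' δ hok fun α hα => (hD α hα).trans (hE' α hα).symm⟩
  | link D E β b c _ hR hL ih =>
    obtain ⟨δ1, h1⟩ := ih
    obtain ⟨δ2, h2⟩ := linkY_local hK hL
    refine ⟨max δ1 δ2, fun E' hE' => ?_⟩
    let D' : Set K := {α | (α < max δ1 δ2 ∧ α ∈ D) ∨ (max δ1 δ2 ≤ α ∧ α ∈ E')}
    have hD1 : ∀ α < max δ1 δ2, (α ∈ D' ↔ α ∈ D) := by
      intro α hα
      constructor
      · rintro (h | h)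
        · exact h.2
        · exact absurd hα (not_lt.2 h.1)
      · exact fun h => Or.inl ⟨hα, h⟩
    have hD2 : ∀ α, max δ1 δ2 ≤ α → (α ∈ D' ↔ α ∈ E') := by
      intro α hα
      constructor
      · rintro (h | h)
        · exact absurd h.1 (not_lt.2 hα)
        · exact h.2
      · exact fun h => Or.inr ⟨hα, h⟩
    have hDf : Df D' E' ⊆ Df D E := by
      intro α hα hiff
      apply hα
      rcases lt_or_ge α (max δ1 δ2) with h | h
      · rw [hD1 α h, hE' α h, hiff]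
      · exact hD2 α h
    refine Good.link D' E' β b c (h1 D' fun α hα => hD1 α (hα.trans_le (le_max_left _ _)))
      ⟨fun α hα => hR.1 α (hDf hα), hR.2.mono hDf⟩ ?_
    exact h2 _ (le_max_right _ _) D' E' hD1 hE' hD2

end MP8f
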