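import Pool.Agent.Lib_MP_8da2c8.BorelB
import Pool.Agent.Lib_MP_8da2c8_full.BoA
import Pool.Agent.Lib_MP_8da2c8_full.CombB

/-! STEP BoB: validity of a name is a Borel condition. -/

namespace MP8f

open Cardinal Set FirstOrder Filter MP8da
open scoped Classical

universe u v w x

variable {l : Cardinal.{u}} {K : Type u} [LinearOrder K] [WellFoundedLT K] [Inhabited K]

/-- by `good_local` and `MP8da.dd_local` -/
theorem bopen_good (hK : KOK l K) {π : K → K} (B : BD K π) (S : Set K) (c : ℕ → YY K) :
    BOpen {η | Good B (DD l S η) c} := by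
  intro η hη
  obtain ⟨δ, hδ⟩ := good_local hK hη
  exact ⟨δ, fun ξ h => hδ _ (dd_local S h)⟩

/-- Proof.  `α ∈ DD l S η` depends only on `η α`; both this set and its complement are open (`K` has no largest element by `hK`, `bdd_small`; or take `δ` above `α`). -/
theorem kb_uok (hK : KOK l K) (S : Set K) (v : US K) : KBorel {η | uok (DD l S η) v} := by
  cases v with
  | x α =>
    refine KBorel.basic _ ?_
    intro η hη
    obtain ⟨δ, hδ⟩ := bdd_small hK {α} (by
      rw [mk_singleton]
      exact one_le_aleph0.trans hK.inf)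
    exact ⟨δ, fun ξ h => ((dd_local S h) α (hδ α rfl)).2 hη⟩
  | y g β i => exact kb_prop True

/-- Proof.  Induction on `ν`.  `nd s`: a finite intersection (induction on `s`, `kb_inter`, `kb_uok`, `kb_univ`).  `br c`: `bopen_good`.  `E k c i r`: the intersection over `Fin k` (`kb_nat_iInter` after extension by `univ`, or `kb_iInter`). -/
theorem kb_vld (hK : KOK l K) {π : K → K} (B : BD K π) (S : Set K) (ν : Nm (YY K)) :
    KBorel {η | ν ∈ VD B (DD l S η)} := by
  induction ν with
  | nd s =>
    induction s with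
    | nil =>
      have h : {η : K → Bool | (Nm.nd [] : Nm (YY K)) ∈ VD B (DD l S η)} = Set.univ :=
        eq_univ_of_forall fun η y hy => absurd hy List.not_mem_nil
      rw [h]
      exact kb_univ
    | cons a s ih =>
      have h : {η : K → Bool | (Nm.nd (a :: s) : Nm (YY K)) ∈ VD B (DD l S η)} =
          {η : K → Bool | uok (DD l S η) a.2} ∩
            {η : K → Bool | (Nm.nd s : Nm (YY K)) ∈ VD B (DD l S η)} := by
        ext η
        constructor
        · intro h
          exact ⟨h a List.mem_cons_self, fun y hy => h y (List.mem_cons_of_mem _ hy)⟩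
        · rintro ⟨h1, h2⟩ y hy
          rcases List.mem_cons.1 hy with rfl | hy
          · exact h1
          · exact h2 y hy
      rw [h]
      exact kb_inter hK _ _ (kb_uok hK S a.2) ih
  | br c => exact KBorel.basic _ (bopen_good hK B S c)
  | E k c i r ih =>
    have h : {η : K → Bool | (Nm.E k c i r : Nm (YY K)) ∈ VD B (DD l S η)} =
        ⋂ j : ULift.{u} (Fin k), {η : K → Bool | c j.down ∈ VD B (DD l S η)} := by
      ext η
      simp only [mem_iInter]
      constructor
      · exact fun h j => h j.down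
      · exact fun h j => h ⟨j⟩
    rw [h]
    refine kb_iInter _ _ ?_ fun j => ih j.down
    rw [hK.card]
    exact Cardinal.mk_le_aleph0.trans (hK.inf.trans (Order.le_succ l))

variable {L : FirstOrder.Language.{0, 0}} {M : Type u} [L.Structure M] [Nonempty M]

/-- Proof.  If `a ∈ w.σ.B` this is `univ`.  Otherwise it is the union over `{ν // ∃ i, w.σ.e ν i = a}` (of size `≤ #K` by `exists_cd`) of the sets of `kb_vld`. -/
theorem kb_ml (hK : KOK l K) (w : World L M (YY K)) {π : K → K} (B : BD K π) (S : Set K)
    (a : M) : KBorel {η | a ∈ w.σ.Ml (VD B (DD l S η))} := by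
  by_cases ha : a ∈ w.σ.B
  · have h : {η : K → Bool | a ∈ w.σ.Ml (VD B (DD l S η))} = Set.univ :=
      eq_univ_of_forall fun η => Or.inl ha
    rw [h]
    exact kb_univ
  · have h : {η : K → Bool | a ∈ w.σ.Ml (VD B (DD l S η))} =
        ⋃ ν : {ν : Nm (YY K) // ∃ i, w.σ.e ν i = a}, {η : K → Bool | ν.1 ∈ VD B (DD l S η)} := by
      ext η
      simp only [mem_iUnion]
      constructor
      · rintro (h | ⟨μ, hμ, hi⟩)
        · exact absurd h ha
        · exact ⟨⟨μ, hi⟩, hμ⟩
      · rintro ⟨⟨μ, hi⟩, hμ⟩
        exact Or.inr ⟨μ, hμ, hi⟩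
    rw [h]
    obtain ⟨cd, hcd⟩ := exists_cd hK
    refine KBorel.union _ _ ?_ fun ν => kb_vld hK B S ν.1
    exact Cardinal.mk_le_of_injective (f := fun ν : {ν : Nm (YY K) // ∃ i, w.σ.e ν i = a} =>
      cd ν.1) (hcd.comp Subtype.val_injective)

end MP8f
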