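import Pool.Agent.Lib_MP_8da2c8.BorelA

/-! STEP BoC: a Borel version of the Cantor-Bernstein theorem. -/

namespace MP8f

open Cardinal Set MP8da
open scoped Classical

universe u v w x

variable {l : Cardinal.{u}} {K : Type u} [LinearOrder K] [WellFoundedLT K] [Inhabited K]

/-- Proof.  Let `C η = {a | ∃ n b, b ∉ V η ∧ j^[n] b = a}`, `θ η a = if a ∈ C η then j a else a`.  `θ η` is injective (`j` is, and `j a ∈ C η` if `a ∈ C η`), has values in `V η` (if `a ∉ C η` then `a ∈ V η`, `n = 0`) and is onto `V η`: if `b ∈ V η` is in `C η` then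
`n > 0` in the definition, so `b = j a` with `a ∈ C η`.  `{η | a ∈ C η}` is a countable union over `n` of `{η | b ∉ V η}` if `j^[n] b = a` for some (unique) `b`, and of `∅` otherwise: Borel (`KBorel.union` with `ULift ℕ`, or complement and `kb_nat_iInter`).
`{η | θ η a = b}` is a union of at most two sets: `{η | a ∈ C η}` if `b = j a`, and its complement if `b = a` (`kb_cases` or `kb_prop`, `kb_inter`, `kb_union2`). -/
theorem exists_theta (hK : KOK l K) {U : Type u} (V : (K → Bool) → Set U) (j : U → U)
    (hj : Function.Injective j) (hjV : ∀ η a, j a ∈ V η) (hV : ∀ a, KBorel {η | a ∈ V η}) :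
    ∃ θ : (K → Bool) → U → U, (∀ η, BijOn (θ η) univ (V η)) ∧
      ∀ a b, KBorel {η | θ η a = b} := by
  let C : (K → Bool) → Set U := fun η => {a | ∃ n b, b ∉ V η ∧ j^[n] b = a}
  have hCj : ∀ η a, a ∈ C η → j a ∈ C η := by
    rintro η a ⟨n, b, hb, rfl⟩
    exact ⟨n + 1, b, hb, Function.iterate_succ_apply' j n b⟩
  have hCV : ∀ η a, a ∉ C η → a ∈ V η := by
    intro η a ha
    by_contra h
    exact ha ⟨0, a, h, rfl⟩
  have hCV2 : ∀ η b, b ∈ C η → b ∈ V η → ∃ a ∈ C η, j a = b := by
    rintro η b ⟨n, c, hc, rfl⟩ hb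
    cases n with
    | zero => exact absurd hb hc
    | succ n => exact ⟨j^[n] c, ⟨n, c, hc, rfl⟩, (Function.iterate_succ_apply' j n c).symm⟩
  have hCB : ∀ a, KBorel {η | a ∈ C η} := by
    intro a
    have h1 : {η | a ∈ C η} = (⋂ n : ℕ, {η | ∀ b, j^[n] b = a → b ∈ V η})ᶜ := by
      ext η
      simp only [C, mem_ofPred_eq, mem_compl_iff, mem_iInter, not_forall]
      constructor
      · rintro ⟨n, b, hb, h⟩
        exact ⟨n, b, h, hb⟩
      · rintro ⟨n, b, h, hb⟩
        exact ⟨n, b, hb, h⟩
    rw [h1]
    refine KBorel.compl _ (kb_nat_iInter hK _ fun n => ?_)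
    by_cases h : ∃ b, j^[n] b = a
    · obtain ⟨b, hb⟩ := h
      have h2 : {η | ∀ b, j^[n] b = a → b ∈ V η} = {η | b ∈ V η} := by
        ext η
        simp only [mem_ofPred_eq]
        constructor
        · intro h
          exact h b hb
        · intro h b' hb'
          have : b' = b := (hj.iterate n) (hb'.trans hb.symm)
          rw [this]
          exact h
      rw [h2]
      exact hV b
    · have h2 : {η : K → Bool | ∀ b, j^[n] b = a → b ∈ V η} = Set.univ := by
        ext η
        simp only [mem_ofPred_eq, mem_univ, iff_true]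
        intro b hb
        exact absurd ⟨b, hb⟩ h
      rw [h2]
      exact kb_univ
  refine ⟨fun η a => if a ∈ C η then j a else a, fun η => ⟨?_, ?_, ?_⟩, ?_⟩
  · intro a _
    by_cases h : a ∈ C η
    · simp only [if_pos h]
      exact hjV η a
    · simp only [if_neg h]
      exact hCV η a h
  · intro a _ b _ hab
    by_cases ha : a ∈ C η
    · by_cases hb : b ∈ C η
      · simp only [if_pos ha, if_pos hb] at hab
        exact hj hab
      · simp only [if_pos ha, if_neg hb] at hab
        exact absurd (hab ▸ hCj η a ha) hb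
    · by_cases hb : b ∈ C η
      · simp only [if_neg ha, if_pos hb] at hab
        exact absurd (hab.symm ▸ hCj η b hb) ha
      · simp only [if_neg ha, if_neg hb] at hab
        exact hab
  · intro b hb
    by_cases h : b ∈ C η
    · obtain ⟨a, ha, hab⟩ := hCV2 η b h hb
      exact ⟨a, mem_univ _, by simp only [if_pos ha]; exact hab⟩
    · exact ⟨b, mem_univ _, by simp only [if_neg h]⟩
  · intro a b
    refine kb_cases hK {η | a ∈ C η} Set.univ (hCB a) kb_univ _ ?_
    intro η ξ h1 _
    simp only [mem_ofPred_eq] at h1 ⊢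
    by_cases h : a ∈ C η
    · simp only [if_pos h, if_pos (h1.1 h)]
    · simp only [if_neg h, if_neg (fun h' => h (h1.2 h'))]

end MP8f
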