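import Pool.Agent.Lib_MP_8da2c8_full.Dfn

/-!
MP_8da2c8_lc, full positive answer: the basic notions (all of them inside one structure `M`).

* `Elt L U`: `U` is an elementary subset of `M`.
* `Stb L M`: every definable relation has bounded binary rank (`M` is stable).
* `Alm L A Z`: `Z` is a union of classes of an `A`-definable equivalence relation with finitely many
  classes (`Z` is in the algebraic closure, with imaginaries, of `A`).
* types are ultrafilters on blocks `ℕ → M`; `Ev p P` says that `P` holds `p`-almost everywhere.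
-/

namespace MP8f

open Cardinal Set FirstOrder Filter
open scoped Classical

universe u v w x

section defs
variable (L : FirstOrder.Language.{0, 0}) {M : Type u} [L.Structure M]

/-- `U` is (the universe of) an elementary substructure -/
def Elt (U : Set M) : Prop :=
  U.Nonempty ∧ ∀ P : (ℕ → M) → Prop, DefU L U P → (∃ x, P x) → ∃ x, (∀ i, x i ∈ U) ∧ P x

/-- the blocks have the same type -/
def Eqv {α : Type v} {N : Type u} [L.Structure N] (x : α → M) (x' : α → N) : Prop :=
  ∀ φ : L.Formula α, φ.Realize x ↔ φ.Realize x'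

/-- the blocks have the same type over `A` -/
def EqvA (A : Set M) {α : Type v} (x x' : α → M) : Prop :=
  ∀ P : (α → M) → Prop, DefU L A P → (P x ↔ P x')

end defs

/-- binary rank: there is a binary tree of height `n` of instances of `R` inside `P` -/
def Tr {X : Type v} {Y : Type w} (R : X → Y → Prop) : ℕ → (X → Prop) → Prop
  | 0, P => ∃ x, P x
  | n + 1, P => ∃ y, Tr R n (fun x => P x ∧ R x y) ∧ Tr R n fun x => P x ∧ ¬ R x y

/-- every definable relation has bounded binary rank -/
def Stb (L : FirstOrder.Language.{0, 0}) (M : Type u) [L.Structure M] : Prop :=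
  ∀ R : (ℕ → M) → (ℕ → M) → Prop, Dfn2 L R → ∃ n, ¬ Tr R n fun _ => True

/-- `P` holds almost everywhere -/
def Ev {X : Type v} (p : Ultrafilter X) (P : X → Prop) : Prop := ∀ᶠ x in (p : Filter X), P x

section ev
variable {X : Type v} {p : Ultrafilter X} {P Q : X → Prop}

theorem ev_not : (Ev p fun x => ¬ P x) ↔ ¬ Ev p P := Ultrafilter.eventually_not

theorem ev_and : (Ev p fun x => P x ∧ Q x) ↔ Ev p P ∧ Ev p Q := eventually_and

theorem ev_or : (Ev p fun x => P x ∨ Q x) ↔ Ev p P ∨ Ev p Q := Ultrafilter.eventually_or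

theorem ev_imp : (Ev p fun x => P x → Q x) ↔ (Ev p P → Ev p Q) := Ultrafilter.eventually_imp

theorem Ev.mono (h : Ev p P) (hPQ : ∀ x, P x → Q x) : Ev p Q := Eventually.mono h hPQ

theorem ev_congr (h : ∀ x, P x ↔ Q x) : Ev p P ↔ Ev p Q :=
  ⟨fun h' => h'.mono fun x => (h x).1, fun h' => h'.mono fun x => (h x).2⟩

theorem ev_of_all (h : ∀ x, P x) : Ev p P := Eventually.of_forall h

theorem ev_const {c : Prop} : (Ev p fun _ => c) ↔ c := by
  by_cases h : c
  · simp [Ev, h]
  · simp only [h, iff_false]
    intro h'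
    exact (ev_not (P := fun _ => False)).1 (ev_of_all fun _ h => h) h'

theorem Ev.exists (h : Ev p P) : ∃ x, P x := Eventually.exists h

theorem ev_iff : (Ev p fun x => (P x ↔ Q x)) ↔ (Ev p P ↔ Ev p Q) := by
  have h : (Ev p fun x => (P x ↔ Q x)) ↔ Ev p fun x => (P x → Q x) ∧ (Q x → P x) :=
    ev_congr fun x => iff_iff_implies_and_implies
  rw [h, ev_and, ev_imp, ev_imp, ← iff_iff_implies_and_implies]

theorem ev_all_fin {ι : Type w} [Finite ι] {P : ι → X → Prop} :
    (Ev p fun x => ∀ i, P i x) ↔ ∀ i, Ev p (P i) := eventually_all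

theorem ev_ex_fin {ι : Type w} [Finite ι] {P : ι → X → Prop} :
    (Ev p fun x => ∃ i, P i x) ↔ ∃ i, Ev p (P i) := by
  have h : (Ev p fun x => ∃ i, P i x) ↔ ¬ Ev p fun x => ∀ i, ¬ P i x := by
    rw [← ev_not]
    exact ev_congr fun x => by push Not; rfl
  rw [h, ev_all_fin]
  push Not
  refine exists_congr fun i => ?_
  rw [ev_not, not_not]

theorem ev_pure {a : X} : Ev (pure a : Ultrafilter X) P ↔ P a := by
  unfold Ev
  simp

end ev

/-- an equivalence relation with finitely many classes -/
def FinEq {X : Type v} (E : X → X → Prop) : Prop :=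
  Equivalence E ∧ ∃ (n : ℕ) (g : X → Fin n), ∀ x x', g x = g x' → E x x'

/-- an equivalence relation with at most `k` classes -/
def FewEq {X : Type v} (k : ℕ) (E : X → X → Prop) : Prop :=
  Equivalence E ∧ ∀ f : Fin (k + 1) → X, ∃ i j, i ≠ j ∧ E (f i) (f j)

section defs2
variable (L : FirstOrder.Language.{0, 0}) {M : Type u} [L.Structure M]

/-- `Z` is almost over `A` -/
def Alm (A : Set M) {α : Type v} (Z : (α → M) → Prop) : Prop :=
  ∃ E : (α → M) → (α → M) → Prop, DefU2 L A E ∧ FinEq E ∧ ∀ x x', E x x' → Z x → Z x'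

/-- all definitions of the type `p` are almost over `A` -/
def AlmT (A : Set M) (p : Ultrafilter (ℕ → M)) : Prop :=
  ∀ R : (ℕ → M) → (ℕ → M) → Prop, Dfn2 L R → Alm L A fun y => Ev p fun x => R x y

/-- `p` and `q` are the same type -/
def TEq (p q : Ultrafilter (ℕ → M)) : Prop :=
  ∀ P : (ℕ → M) → Prop, DefU L univ P → (Ev p P ↔ Ev q P)

/-- every set of conditions over `U` in the variables `V` which is finitely satisfiable is satisfied
by elements of `U'` -/
def SatStep (U U' : Set M) (V : Type u) : Prop :=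
  ∀ W : Set ((V → M) → Prop), (∀ P ∈ W, DefU L U P) →
    (∀ F : Finset ((V → M) → Prop), ↑F ⊆ W → ∃ v, ∀ P ∈ F, P v) →
    ∃ v : V → M, (∀ i, v i ∈ U') ∧ ∀ P ∈ W, P v

end defs2

end MP8f
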