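import Pool.Agent.Lib_MP_8da2c8.Stmt
import Pool.Agent.Lib_MP_8da2c8_full.Core

/-!
Statement-level definitions for the full answer to MP_8da2c8_lc, Q1: stability, superstability, the coding
of structures with universe `K` by `η : K → Bool`, and the isomorphism relation of a theory.
-/

namespace MP8f

open Cardinal Set FirstOrder FirstOrder.Language

universe u

section stability
variable {L : FirstOrder.Language.{0, 0}}

/-- `T` is `μ`-stable: over a set of at most `μ` parameters of a model there are at most `μ`
complete `n`-types, for every `n` -/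
def StableIn (T : L.Theory) (μ : Cardinal.{u}) : Prop :=
  ∀ (M : Type u) [L.Structure M] [Nonempty M] [M ⊨ T] (A : Set M), #A ≤ μ → ∀ n : ℕ,
    #((L[[A]].completeTheory M).CompleteType (Fin n)) ≤ μ

/-- `T` is stable: it is `μ`-stable for some infinite cardinal `μ` -/
def Stable (T : L.Theory) : Prop := ∃ μ : Cardinal.{u}, ℵ₀ ≤ μ ∧ StableIn T μ

/-- `T` is superstable: it is `μ`-stable for all sufficiently large `μ` -/
def Superstable (T : L.Theory) : Prop := ∃ μ0 : Cardinal.{u}, ∀ μ, μ0 ≤ μ → StableIn T μ

end stability

section isom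
variable (L : FirstOrder.Language.{0, 0}) [L.IsRelational] {K : Type u}

/-- `(n, r, x)`: an `n`-ary relation symbol and an `n`-tuple from `K` -/
abbrev Atoms (K : Type u) : Type u := Σ n : ℕ, L.Relations n × (Fin n → K)

/-- the structure with universe `K` coded by `η ∈ 2^K`: `r` holds at `x` iff `η (π (n, r, x)) = 1` -/
@[reducible] def codeS (π : Atoms L K ↪ K) (η : K → Bool) : L.Structure K where
  funMap := fun {_} f => isEmptyElim f
  RelMap := fun {n} r x => η (π ⟨n, r, x⟩) = true

variable {L}

/-- `η` codes a model of `T` -/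
def Codes (T : L.Theory) (π : Atoms L K ↪ K) (η : K → Bool) : Prop :=
  @FirstOrder.Language.Theory.Model L K (codeS L π η) T

/-- the isomorphism relation of `T` on `2^K` -/
def IsomT (T : L.Theory) (π : Atoms L K ↪ K) (η ξ : K → Bool) : Prop :=
  (Codes T π η ∧ Codes T π ξ ∧
      Nonempty (@FirstOrder.Language.Equiv L K K (codeS L π η) (codeS L π ξ))) ∨
    (¬ Codes T π η ∧ ¬ Codes T π ξ)

end isom

end MP8f
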