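import Pool.Agent.Lib_MP_8da2c8.BorelA
import Pool.Agent.Lib_MP_8da2c8_full.TDef
import Pool.Agent.Lib_MP_8da2c8_full.RIso

/-! STEP BoD: coding the structures with universe `V η ⊆ M` by elements of `2^K`. -/

namespace MP8f

open Cardinal Set FirstOrder FirstOrder.Language MP8da
open scoped Classical

universe u v w x

variable {L : FirstOrder.Language.{0, 0}} [L.IsRelational] {M : Type u} [L.Structure M]
variable {K : Type u}

/-- the code of the structure on `K` pulled back from `M` by `θ` -/
noncomputable def code (π : Atoms L K ↪ K) (θ : (K → Bool) → K → M) (η : K → Bool) : K → Bool :=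
  fun ζ => decide (∃ p : Atoms L K, π p = ζ ∧
    FirstOrder.Language.Structure.RelMap p.2.1 (fun i => θ η (p.2.2 i)))

theorem code_apply (π : Atoms L K ↪ K) (θ : (K → Bool) → K → M) (η : K → Bool) {n : ℕ}
    (r : L.Relations n) (x : Fin n → K) : code π θ η (π ⟨n, r, x⟩) = true ↔
      FirstOrder.Language.Structure.RelMap r (fun i => θ η (x i)) := by
  unfold code
  rw [decide_eq_true_iff]
  constructor
  · rintro ⟨p, hp, h⟩
    have h1 := π.injective hp
    subst h1
    exact h
  · intro h
    exact ⟨_, rfl, h⟩

/-- Proof.  `borelMap_of`.  If `ζ` is not in the range of `π` the set is empty.  If `ζ = π ⟨n, r, x⟩` the set is the union over the `b : Fin n → U` with `RelMap r b` (at most `#K` many) of the finite intersections of the sets `{η | θ η (x i) = b i}`. -/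
theorem borel_code [LinearOrder K] [WellFoundedLT K] [Inhabited K] {l : Cardinal.{u}}
    (hK : KOK l K) (π : Atoms L K ↪ K) (U : Set M) (hU : #U ≤ #K) (θ : (K → Bool) → K → M)
    (hθU : ∀ η k, θ η k ∈ U) (hθ : ∀ k a, KBorel {η | θ η k = a}) : BorelMap (code π θ) := by
  have hK0 : ℵ₀ ≤ #K := by
    rw [hK.card]
    exact hK.inf.trans (Order.le_succ l)
  refine borelMap_of hK _ fun ζ => ?_
  by_cases hζ : ∃ p, π p = ζ
  · obtain ⟨⟨n, r, x⟩, rfl⟩ := hζ
    have h1 : {η | code π θ η (π ⟨n, r, x⟩) = true} =
        ⋃ b : {b : Fin n → ↥U // FirstOrder.Language.Structure.RelMap r (fun i => (b i : M))},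
          ⋂ i : ULift.{u} (Fin n), {η | θ η (x i.down) = (b.1 i.down : M)} := by
      ext η
      rw [Set.mem_iUnion]
      show code π θ η (π ⟨n, r, x⟩) = true ↔ _
      rw [code_apply]
      constructor
      · intro h
        refine ⟨⟨fun i => ⟨θ η (x i), hθU _ _⟩, h⟩, ?_⟩
        rw [Set.mem_iInter]
        intro i
        rfl
      · rintro ⟨⟨b, hb⟩, h⟩
        rw [Set.mem_iInter] at h
        have h2 : (fun i => θ η (x i)) = fun i => (b i : M) := by
          funext i
          exact h ⟨i⟩
        rw [h2]
        exact hb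
    rw [h1]
    refine KBorel.union _ _ ?_ ?_
    · refine (Cardinal.mk_subtype_le _).trans ?_
      have h3 : #(Fin n → ↥U) = #↥U ^ n := by simp
      rw [h3]
      exact (pow_le_pow_left₀ zero_le hU n).trans (Cardinal.power_nat_le hK0)
    · intro b
      refine kb_iInter _ _ ?_ fun i => hθ _ _
      exact Cardinal.mk_le_aleph0.trans hK0
  · have h1 : {η | code π θ η ζ = true} = ∅ := by
      ext η
      simp only [Set.mem_ofPred_eq, Set.mem_empty_iff_false, iff_false]
      intro h
      unfold code at h
      rw [decide_eq_true_iff] at h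
      obtain ⟨p, hp, -⟩ := h
      exact hζ ⟨p, hp⟩
    rw [h1]
    exact kb_empty

/-- Proof.  `exists_sub` for `V = range (θ η)`: an elementary substructure `S`, a model of `T`; `θ η` is an `L`-isomorphism of `codeS L π (code π θ η)` onto `S` (`code_apply`), and models are preserved by isomorphisms
(`FirstOrder.Language.Equiv.theory_model` or similar). -/
theorem codes_code [Nonempty M] (T : L.Theory) [M ⊨ T] (π : Atoms L K ↪ K)
    (θ : (K → Bool) → K → M) (η : K → Bool) (hi : Function.Injective (θ η))
    (hE : Elt L (range (θ η))) : Codes T π (code π θ η) := by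
  obtain ⟨S, hS⟩ := exists_sub hE
  let e : K ≃ ↥(S : Set M) :=
    (Equiv.ofInjective (θ η) hi).trans (Equiv.setCongr hS.symm)
  have he : ∀ k, (e k : M) = θ η k := fun k => rfl
  let _ : L.Structure K := codeS L π (code π θ η)
  let f : K ≃[L] S :=
    { toFun := fun k => e k
      invFun := fun a => e.symm a
      left_inv := fun k => e.symm_apply_apply k
      right_inv := fun a => e.apply_symm_apply a
      map_fun' := fun {n} f => isEmptyElim f
      map_rel' := fun {n} r x => (code_apply π θ η r x).symm }
  exact FirstOrder.Language.StrongHomClass.theory_model f.symm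

/-- Proof.  By `code_apply`; compose with the bijections `θ η : K ≃ range (θ η)`. -/
theorem iso_code (π : Atoms L K ↪ K) (θ : (K → Bool) → K → M) (η ξ : K → Bool)
    (hη : Function.Injective (θ η)) (hξ : Function.Injective (θ ξ)) :
    Nonempty (@FirstOrder.Language.Equiv L K K (codeS L π (code π θ η))
      (codeS L π (code π θ ξ))) ↔ RIsoS L (range (θ η)) (range (θ ξ)) := by
  let e := Equiv.ofInjective (θ η) hη
  let e' := Equiv.ofInjective (θ ξ) hξ
  have he : ∀ k, (e k : M) = θ η k := fun k => rfl
  have he' : ∀ k, (e' k : M) = θ ξ k := fun k => rfl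
  constructor
  · rintro ⟨f⟩
    let f' : K ≃ K := @FirstOrder.Language.Equiv.toEquiv L K K (codeS L π (code π θ η))
      (codeS L π (code π θ ξ)) f
    refine ⟨e.symm.trans (f'.trans e'), fun n r x => ?_⟩
    have h1 : (code π θ ξ (π ⟨n, r, f' ∘ fun i => e.symm (x i)⟩) = true) ↔
        (code π θ η (π ⟨n, r, fun i => e.symm (x i)⟩) = true) :=
      @FirstOrder.Language.Equiv.map_rel' L K K (codeS L π (code π θ η))
        (codeS L π (code π θ ξ)) f n r fun i => e.symm (x i)
    rw [code_apply, code_apply] at h1
    have h2 : (fun i => θ η (e.symm (x i))) = fun i => (x i : M) := by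
      funext i
      rw [← he, Equiv.apply_symm_apply]
    rw [h2] at h1
    exact h1.symm
  · rintro ⟨g, hg⟩
    refine ⟨?_⟩
    refine @FirstOrder.Language.Equiv.mk L K K (codeS L π (code π θ η))
      (codeS L π (code π θ ξ)) (e.trans (g.trans e'.symm)) (fun {n} f => isEmptyElim f)
      (fun {n} r x => ?_)
    show (code π θ ξ (π ⟨n, r, (e.trans (g.trans e'.symm)) ∘ x⟩) = true) ↔
      (code π θ η (π ⟨n, r, x⟩) = true)
    rw [code_apply, code_apply]
    have h1 := hg n r fun i => e (x i)
    have h2 : (fun i => θ ξ (((e.trans (g.trans e'.symm)) ∘ x) i)) =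
        fun i => (g (e (x i)) : M) := by
      funext i
      show θ ξ (e'.symm (g (e (x i)))) = _
      rw [← he', Equiv.apply_symm_apply]
    rw [h2]
    exact h1.symm

end MP8f
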