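import Pool.Agent.Lib_MP_8da2c8_full.IsoF2
import Pool.Agent.Lib_MP_8da2c8_full.RIso

/-! STEP IsoF: isomorphic trees give isomorphic structures. -/

namespace MP8f

open Cardinal Set FirstOrder Filter
open scoped Classical

universe u v w x

variable {L : FirstOrder.Language.{0, 0}} {M : Type u} [L.Structure M] [Nonempty M]
variable {Y : Type u} {JN JN' : Set (List Y)} {JB JB' : Set (ℕ → Y)}

/-- every element is named by a valid name -/
private theorem isoF_mem {J : Set (List Y)} {JB : Set (ℕ → Y)} (w : World L M Y) (h0 : [] ∈ J)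
    (a : w.σ.Ml {ν | Nm.Vld J JB ν}) :
    ∃ z : {ν | Nm.Vld J JB ν} × ℕ, w.σ.e z.1.1 z.2 = a.1 := by
  rcases a.2 with h | ⟨μ, hμ, i, h⟩
  · rw [w.hB, ← w_root w] at h
    obtain ⟨i, hi⟩ := h
    exact ⟨(⟨.nd [], h0⟩, i), hi⟩
  · exact ⟨(⟨μ, hμ⟩, i), h⟩

/-- Proof.  Every element of `w.σ.Ml {ν | Vld JN JB ν}` is `w.σ.e ν i` for a valid `ν` (elements of `w.σ.B = range (w.t.m 0)` are `w.σ.e (.nd []) i`, `w_root`).  Put `g (w.σ.e ν i) = w.σ.e (H ν) i`; well defined and injective by `Eqv` for the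
formulas `x = y`; surjective by `BijOn`; relations by `Eqv`. -/
theorem iso_of_tree [Countable L.Symbols] (w : World L M Y)
    (T : TreeIso JN JN' JB JB') (h0 : [] ∈ JN) (h0' : [] ∈ JN')
    (h1 : ∀ a s, a :: s ∈ JN → s ∈ JN) (h2 : ∀ c ∈ JB, ∀ n, seg c n ∈ JN) :
    RIsoS L (w.σ.Ml {ν | Nm.Vld JN JB ν}) (w.σ.Ml {ν | Nm.Vld JN' JB' ν}) := by
  obtain ⟨H, hH, hE⟩ := exists_names_iso w T h0 h1 h2
  have key : ∀ z z' : {ν | Nm.Vld JN JB ν} × ℕ,
      w.σ.e z.1.1 z.2 = w.σ.e z'.1.1 z'.2 ↔ w.σ.e (H z.1.1) z.2 = w.σ.e (H z'.1.1) z'.2 := by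
    intro z z'
    have h := hE ((FirstOrder.Language.Term.var z).equal (FirstOrder.Language.Term.var z'))
    rw [FirstOrder.Language.Formula.realize_equal, FirstOrder.Language.Formula.realize_equal]
      at h
    exact h
  have keyr : ∀ (n : ℕ) (r : L.Relations n) (z : Fin n → {ν | Nm.Vld JN JB ν} × ℕ),
      FirstOrder.Language.Structure.RelMap r (fun i => w.σ.e (z i).1.1 (z i).2) ↔
        FirstOrder.Language.Structure.RelMap r (fun i => w.σ.e (H (z i).1.1) (z i).2) := by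
    intro n r z
    have h := hE (r.formula fun k => FirstOrder.Language.Term.var (z k))
    rw [FirstOrder.Language.Formula.realize_rel, FirstOrder.Language.Formula.realize_rel] at h
    exact h
  have hex := isoF_mem (JB := JB) w h0
  have hex' := isoF_mem (JB := JB') w h0'
  choose Z hZ using hex
  let g : w.σ.Ml {ν | Nm.Vld JN JB ν} → w.σ.Ml {ν | Nm.Vld JN' JB' ν} := fun a =>
    ⟨w.σ.e (H (Z a).1.1) (Z a).2,
      Or.inr ⟨H (Z a).1.1, hH.mapsTo (Z a).1.2, (Z a).2, rfl⟩⟩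
  have hinj : Function.Injective g := by
    intro a b hab
    have h3 : w.σ.e (H (Z a).1.1) (Z a).2 = w.σ.e (H (Z b).1.1) (Z b).2 :=
      congrArg Subtype.val hab
    have h4 := (key (Z a) (Z b)).2 h3
    rw [hZ, hZ] at h4
    exact Subtype.ext h4
  have hsurj : Function.Surjective g := by
    intro b
    obtain ⟨z', hz'⟩ := hex' b
    obtain ⟨ν, hν, hνz⟩ := hH.surjOn z'.1.2
    let z : {ν | Nm.Vld JN JB ν} × ℕ := (⟨ν, hν⟩, z'.2)
    let a : w.σ.Ml {ν | Nm.Vld JN JB ν} := ⟨w.σ.e ν z'.2, Or.inr ⟨ν, hν, z'.2, rfl⟩⟩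
    refine ⟨a, Subtype.ext ?_⟩
    show w.σ.e (H (Z a).1.1) (Z a).2 = b.1
    have h3 : w.σ.e (Z a).1.1 (Z a).2 = w.σ.e z.1.1 z.2 := hZ a
    rw [(key (Z a) z).1 h3, ← hz', ← hνz]
  refine ⟨Equiv.ofBijective g ⟨hinj, hsurj⟩, ?_⟩
  intro n r x
  have h3 := keyr n r fun i => Z (x i)
  have h4 : (fun i => w.σ.e (Z (x i)).1.1 (Z (x i)).2) = fun i => (x i).1 :=
    funext fun i => hZ (x i)
  rw [h4] at h3
  exact h3

end MP8f
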