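import Pool.Agent.Lib_MP_8da2c8_full.NiE

/-! STEP NiF: the non-isomorphism theorem. -/

namespace MP8f

open Cardinal Set FirstOrder Filter MP8da
open scoped Classical

universe u v w x

variable {K : Type u} [LinearOrder K]
variable {L : FirstOrder.Language.{0, 0}} {M : Type u} [L.Structure M] [Nonempty M]

/-- The set of labels avoided.
Proof: countable union (`i`, then the countable closure `Nm.cl_countable`, then the finitely many symbols of a node). -/
theorem lab_countable (e : ℕ → Nm (YY K)) :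
    {ρ : K | ∃ i t, Nm.nd t ∈ (e i).cl ∧ ∃ y ∈ t, y.1 = ρ}.Countable := by
  have h1 : ∀ ν : Nm (YY K), {ρ : K | ∃ t, ν = Nm.nd t ∧ ∃ y ∈ t, y.1 = ρ}.Countable := by
    intro ν
    cases ν with
    | nd s =>
      refine ((List.finite_toSet (s.map Prod.fst)).countable).mono ?_
      rintro ρ ⟨t, ht, y, hy, rfl⟩
      injection ht with ht
      rw [← ht] at hy
      exact List.mem_map_of_mem hy
    | br c =>
      refine Set.countable_empty.mono ?_
      rintro ρ ⟨t, ht, -⟩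
      exact absurd ht (by simp)
    | E k c i r =>
      refine Set.countable_empty.mono ?_
      rintro ρ ⟨t, ht, -⟩
      exact absurd ht (by simp)
  have h2 : (⋃ i, ⋃ ν ∈ (e i).cl,
      {ρ : K | ∃ t, ν = Nm.nd t ∧ ∃ y ∈ t, y.1 = ρ}).Countable :=
    countable_iUnion fun i => (Nm.cl_countable (e i)).biUnion fun ν _ => h1 ν
  refine h2.mono ?_
  rintro ρ ⟨i, t, ht, hy⟩
  exact mem_iUnion.2 ⟨i, mem_iUnion₂.2 ⟨_, ht, t, rfl, hy⟩⟩

/-- The non-isomorphism theorem.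
Proof.  Suppose `RIsoS`; `exists_tw` (`hrel`, `hE1`, `hE2`) gives `G, G'`; `exists_nm` gives `nm, nm'` for `X = VD B D`, `X' = VD B E` (`vd_full`); `exists_lvl` gives a club `C`.  Let
`S s = {ρ | ∃ i t, .nd t ∈ (nm' (G (w.σ.e (.nd s) i))).cl ∧ ∃ y ∈ t, y.1 = ρ}`, countable.  Apply `hB` to `D, E, C, S`: `α, ρ`.  Let `b = brn α ρ`; `.br b ∈ VD B D`.  For every `k` let `nu k` be the name of `common`; `nu` is injective (codes in disjoint intervals: `α` is monotone).
The elements `w.σ.e (.br b) i` are `w.σ.e (.br b) (min i w.t.fr)` (`w_br_fin`), so `nu k` is in the closure of one of the finitely many names `nm' (G (w.σ.e (.br b) i))`, `i ≤ w.t.fr`, in `X'`.  `Nm.cl_finite` for these names: finite sets `F`, `C'` such that each `nu k` is in `F`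
or is a node on a branch `c ∈ C'`, and `.br c` is in the closure of a name in `X'`, so in `X'` (`Nm.cl_min`), i.e. `Good B E c`.  By `pigeon` there is `c ∈ C'` such that `I = {k | ∃ n, nu k = .nd (seg c n)}` is infinite; choose `m k`.  `follow` for `cn s = cd (.nd s)` gives `k ∈ I` and `y ∈ seg c (m k)` with
`y.1 = ρ k`; as `nu k` is in the closure of `nm' (G (w.σ.e (.nd (seg b (k + 1))) j))` for some `j`, `ρ k ∈ S (seg b (k + 1))`, contradiction. -/
theorem noniso {l : Cardinal.{u}} [WellFoundedLT K] (hK : KOK l K) [Countable L.Symbols]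
    [L.IsRelational] (w : World L M (YY K)) (cd : Nm (YY K) → K) (hcd : Function.Injective cd)
    {π : K → K} {B : BD K π} (hB : CombOK B) (D E : Set K) (hDE : IsStationary (D \ E))
    (hE1 : Elt L (w.σ.Ml (VD B D))) (hE2 : Elt L (w.σ.Ml (VD B E))) :
    ¬ RIsoS L (w.σ.Ml (VD B D)) (w.σ.Ml (VD B E)) := by
  intro hR
  obtain ⟨G, G', hT⟩ := exists_tw hE1 hE2 hR
  have hX := vd_full B D
  have hX' := vd_full B E
  obtain ⟨nm, hn⟩ := exists_nm w hX.root
  obtain ⟨nm', hn'⟩ := exists_nm w hX'.root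
  obtain ⟨C, hC, hlvl⟩ := exists_lvl hK w cd hcd hX hX' G G' nm nm'
  obtain ⟨α, ρ, hgood, h1, h2⟩ := hB D E C hDE hC
    (fun s => {ρ | ∃ i t, Nm.nd t ∈ (nm' (G (w.σ.e (.nd s) i))).cl ∧ ∃ y ∈ t, y.1 = ρ})
    (fun s => lab_countable fun i => nm' (G (w.σ.e (.nd s) i)))
  have h : ∀ k, α k < ρ k ∧ ρ k < α (k + 1) := fun k => ⟨(h1 k).2.1, (h1 k).2.2.1⟩
  have hbX : Nm.br (brn α ρ) ∈ VD B D := hgood
  have hcom := common w hX hX' hT hn hn' h (fun k => hlvl _ (h1 k).1) hbX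
  choose nu hnuX hnu1 hnu2 hnu3 hnu4 using hcom
  have hmono : StrictMono α := strictMono_nat_of_lt_succ fun k => (h k).1.trans (h k).2
  have hinj : Function.Injective nu := by
    have key : ∀ k k', k < k' → nu k ≠ nu k' := by
      intro k k' hlt hk
      have h3 : α (k + 1) ≤ α k' := hmono.monotone hlt
      have h4 := hnu2 k
      rw [hk] at h4
      exact hnu1 k' (h4.trans_le h3)
    intro k k' hk
    rcases lt_trichotomy k k' with hlt | heq | hlt
    · exact absurd hk (key _ _ hlt)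
    · exact heq
    · exact absurd hk.symm (key _ _ hlt)
  have hfr : ∀ k, ∃ i, i ≤ w.t.fr ∧ nu k ∈ (nm' (G (w.σ.e (.br (brn α ρ)) i))).cl := by
    intro k
    obtain ⟨i, hi⟩ := hnu3 k
    refine ⟨min i w.t.fr, min_le_right _ _, ?_⟩
    rw [← w_br_fin]
    exact hi
  choose F0 C0 hF0 hC0 hbr0 hcov0 using
    fun i => Nm.cl_finite (nm' (G (w.σ.e (.br (brn α ρ)) i)))
  have hF : (⋃ i ∈ Iic w.t.fr, F0 i).Finite := (Set.finite_Iic _).biUnion fun i _ => hF0 i
  have hC' : (⋃ i ∈ Iic w.t.fr, C0 i).Finite := (Set.finite_Iic _).biUnion fun i _ => hC0 i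
  have hcov : ∀ k, nu k ∈ (⋃ i ∈ Iic w.t.fr, F0 i) ∨
      ∃ c ∈ (⋃ i ∈ Iic w.t.fr, C0 i), ∃ n, nu k = .nd (seg c n) := by
    intro k
    obtain ⟨i, hi, hik⟩ := hfr k
    rcases hcov0 i _ hik with h3 | ⟨c, hc, n, h3⟩
    · exact Or.inl (mem_iUnion₂.2 ⟨i, hi, h3⟩)
    · exact Or.inr ⟨c, mem_iUnion₂.2 ⟨i, hi, hc⟩, n, h3⟩
  obtain ⟨c, hc, hI⟩ := pigeon nu hinj _ hF _ hC' Nm.nd hcov
  have hcE : Good B E c := by
    obtain ⟨i, hi, hci⟩ := mem_iUnion₂.1 hc
    have h5 : Nm.br c ∈ (nm' (G (w.σ.e (.br (brn α ρ)) i))).cl := hbr0 i c hci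
    have h6 : nm' (G (w.σ.e (.br (brn α ρ)) i)) ∈ VD B E :=
      (hn' _ (hT.mem _ (Or.inr ⟨_, hbX, i, rfl⟩))).1
    exact Nm.cl_min hX'.cl h6 h5
  have hm0 : ∀ k, ∃ n, (∃ n, nu k = .nd (seg c n)) → nu k = .nd (seg c n) := by
    intro k
    by_cases hk : ∃ n, nu k = .nd (seg c n)
    · obtain ⟨n, hn1⟩ := hk
      exact ⟨n, fun _ => hn1⟩
    · exact ⟨0, fun h3 => absurd h3 hk⟩
  choose m hm using hm0
  obtain ⟨k, hk, y, hy, hyρ⟩ := follow (c := c) (m := m) h (fun s => cd (.nd s))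
    (fun k s => (hlvl _ (h1 k).1).sym s) hI
    (fun k hk => by
      show cd (.nd (seg c (m k))) < α (k + 1)
      rw [← hm k hk]
      exact hnu2 k)
    (fun k hk => by
      show ¬ cd (.nd (seg c (m k))) < α k
      rw [← hm k hk]
      exact hnu1 k) (h2 c hcE)
  obtain ⟨j, hj⟩ := hnu4 k
  rw [hm k hk] at hj
  exact (h1 k).2.2.2 ⟨j, seg c (m k), hj, y, hy, hyρ⟩

end MP8f
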