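import Pool.Agent.Lib_MP_8da2c8_full.BoB
import Pool.Agent.Lib_MP_8da2c8_full.BoC
import Pool.Agent.Lib_MP_8da2c8_full.BoD
import Pool.Agent.Lib_MP_8da2c8_full.NiF
import Pool.Agent.Lib_MP_8da2c8_full.IsoF
import Pool.Agent.Lib_MP_8da2c8.ClubC

/-! STEP BoE: the reduction, from a world. -/

namespace MP8f

open Cardinal Set FirstOrder FirstOrder.Language MP8da
open scoped Classical

universe u v w x

variable {l : Cardinal.{u}} {K : Type u} [LinearOrder K] [WellFoundedLT K]
variable {L : FirstOrder.Language.{0, 0}} {M : Type u} [L.Structure M] [Nonempty M]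

omit [Nonempty M] in
private theorem boE_symm {A A' : Set M} (h : RIsoS L A A') : RIsoS L A' A := by
  obtain ⟨g, hg⟩ := h
  refine ⟨g.symm, fun n r x => ?_⟩
  have h1 := hg n r (fun i => g.symm (x i))
  simp only [Equiv.apply_symm_apply] at h1
  exact h1.symm

omit [LinearOrder K] [WellFoundedLT K] in
private theorem boE_nil (D : Set K) : ([] : List (YY K)) ∈ JN D :=
  fun _ hy => absurd hy List.not_mem_nil

omit [WellFoundedLT K] in
private theorem boE_seg {π : K → K} {B : BD K π} {D : Set K} {c : ℕ → YY K} (h : c ∈ JB B D) (n : ℕ) :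
    seg c n ∈ JN D := by
  induction n with
  | zero => exact boE_nil D
  | succ n ih =>
    intro y hy
    rcases List.mem_cons.1 hy with h1 | h1
    · rw [h1]
      exact good_uok h n
    · exact ih y h1

/-- Proof.  `eqNS_iff`.  If the difference is not stationary: `exists_reg` (`df_subset`), `exists_treeIso`, `iso_of_tree`.  If it is stationary: `stat_cases`, `noniso` for `D, E` or for `E, D` (`RIsoS` is symmetric); `elt_vld`. -/
theorem riso_iff (hK : KOK l K) [Countable L.Symbols] [L.IsRelational]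
    (w : World L M (YY K)) {π : K → K} {B : BD K π} (hB : CombOK B) (S : Set K)
    (η ξ : K → Bool) :
    EqNS S η ξ ↔ RIsoS L (w.σ.Ml (VD B (DD l S η))) (w.σ.Ml (VD B (DD l S ξ))) := by
  rw [eqNS_iff hK]
  constructor
  · intro h
    obtain ⟨β, hβ⟩ := exists_reg hK _ _ (df_subset S η ξ) h
    obtain ⟨Tr⟩ := exists_treeIso (B := B) hβ
    exact iso_of_tree w Tr (boE_nil _) (boE_nil _)
      (fun a s hs y hy => hs y (List.mem_cons_of_mem a hy)) fun c hc n => boE_seg hc n
  · intro h hst
    obtain ⟨cd, hcd⟩ := exists_cd hK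
    rcases stat_cases hK _ _ hst with h1 | h1
    · exact noniso hK w cd hcd hB _ _ h1 (elt_vld w (boE_nil _)) (elt_vld w (boE_nil _)) h
    · exact noniso hK w cd hcd hB _ _ h1 (elt_vld w (boE_nil _)) (elt_vld w (boE_nil _)) (boE_symm h)

/-- Proof.  `U = w.σ.Ml univ`, of size `#K` (`mk_ml_le`, `exists_j`), `e : K ≃ U`.  `exists_theta` for `V η = {a : U | a.1 ∈ w.σ.Ml (VD B (DD l S η))}`, `j a = j0 (e.symm a)` (`exists_j`); `kb_ml`.  `θ' η k = (θ η (e k)).1`, a bijection of `K` onto `w.σ.Ml (VD B (DD l S η))`.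
The reduction is `code π' θ'`. -/
theorem red_of_world [Inhabited K] (hK : KOK l K) [Countable L.Symbols] [L.IsRelational]
    (T : L.Theory) [M ⊨ T] (w : World L M (YY K)) {π : K → K} {B : BD K π} (hB : CombOK B)
    (S : Set K) (π' : Atoms L K ↪ K) : BorelRed (EqNS S) (IsomT T π') := by
  obtain ⟨j0, hj0, hj0m⟩ := exists_j w
  have hsub : ∀ X : Set (Nm (YY K)), w.σ.Ml X ⊆ w.σ.Ml univ := fun X =>
    MlS.mono (subset_univ X)
  set U : Set M := w.σ.Ml univ with hU
  have hU1 : #U ≤ #K := mk_ml_le hK w univ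
  have hU2 : #K ≤ #U := by
    refine Cardinal.mk_le_of_injective
      (f := fun β : K => (⟨j0 β, hsub _ (hj0m B ∅ β)⟩ : U)) ?_
    intro β β' h
    exact hj0 (congrArg Subtype.val h)
  obtain ⟨e⟩ := Cardinal.eq.1 (le_antisymm hU2 hU1)
  obtain ⟨θ, hθ, hθB⟩ := exists_theta hK (U := U)
    (fun η => {a : U | a.1 ∈ w.σ.Ml (VD B (DD l S η))})
    (fun a => (⟨j0 (e.symm a), hsub _ (hj0m B ∅ _)⟩ : U))
    (fun a b h => e.symm.injective (hj0 (congrArg Subtype.val h)))
    (fun η a => hj0m B (DD l S η) (e.symm a)) (fun a => kb_ml hK w B S a.1)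
  let θ' : (K → Bool) → K → M := fun η k => (θ η (e k)).1
  have hinj : ∀ η, Function.Injective (θ' η) := by
    intro η k k' h
    exact e.injective ((hθ η).injOn (mem_univ _) (mem_univ _) (Subtype.ext h))
  have hrange : ∀ η, range (θ' η) = w.σ.Ml (VD B (DD l S η)) := by
    intro η
    ext a
    constructor
    · rintro ⟨k, rfl⟩
      exact (hθ η).mapsTo (mem_univ (e k))
    · intro ha
      obtain ⟨b, -, hb⟩ := (hθ η).surjOn (show (⟨a, hsub _ ha⟩ : U) ∈
        {a : U | a.1 ∈ w.σ.Ml (VD B (DD l S η))} from ha)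
      refine ⟨e.symm b, ?_⟩
      show (θ η (e (e.symm b))).1 = a
      rw [Equiv.apply_symm_apply, hb]
  have hθ' : ∀ k a, KBorel {η | θ' η k = a} := by
    intro k a
    by_cases ha : a ∈ U
    · have h1 : {η | θ' η k = a} = {η | θ η (e k) = ⟨a, ha⟩} := by
        ext η
        exact ⟨fun h => Subtype.ext h, fun h => congrArg Subtype.val h⟩
      rw [h1]
      exact hθB _ _
    · have h1 : {η | θ' η k = a} = ∅ := by
        ext η
        refine ⟨fun h => ha ?_, fun h => absurd h (notMem_empty η)⟩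
        have h2 : θ' η k = a := h
        rw [← h2]
        exact (θ η (e k)).2
      rw [h1]
      exact kb_empty
  have hcod : ∀ η, Codes T π' (code π' θ' η) := by
    intro η
    refine codes_code T π' θ' η (hinj η) ?_
    rw [hrange]
    exact elt_vld w (boE_nil _)
  refine ⟨code π' θ', borel_code hK π' U hU1 θ' (fun η k => (θ η (e k)).2) hθ', fun η ξ => ?_⟩
  rw [riso_iff hK w hB S η ξ, ← hrange η, ← hrange ξ, ← iso_code π' θ' η ξ (hinj η) (hinj ξ)]
  constructor
  · intro h
    exact Or.inl ⟨hcod η, hcod ξ, h⟩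
  · rintro (h | h)
    · exact h.2.2
    · exact absurd (hcod η) h.1

end MP8f
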