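import Pool.Agent.Lib_MP_8da2c8_full.GcA

/-! STEP GcB: naming the types almost over a countable set by elements of `ℕ → ℕ`. -/

namespace MP8f

open Cardinal Set FirstOrder Filter
open scoped Classical

universe u v w x

variable {L : FirstOrder.Language.{0, 0}} {M : Type u} [L.Structure M] [Nonempty M]

/-- Proof.  Let `e : ℕ → {Z // Alm L A Z}` be surjective (`countable_alm`; `Alm.of_defU (DefU.const True)`) and
`f : ℕ → L.Formula (ℕ ⊕ ℕ)` surjective (`countable_formula`).  Let `p0 = pure (fun _ => a)`, `a ∈ A` (`almT_pure`).  For `r : ℕ → ℕ`, if there is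
`p` with `AlmT L A p` and `∀ n y, (Ev p fun x => (f n).Realize (Sum.elim x y)) ↔ (e (r n)).1 y` let `rep0 r` be such a `p`, otherwise `p0`.
Let `rep r = rep0 (fun n => r (2 * n))`.  Second claim: for `q` choose `r` with `e (r (2 * n)) = (fun y => Ev q (f n · y))`; then
`rep r` and `q` are equal types by `teq_iff`.  Third: `≤` is `#(ℕ → ℕ) = 𝔠`; `≥`: the map `s ↦ r'` with `r' (2n) = r (2n)`, `r' (2n+1) = s n` is
injective into the fiber, as `rep r' = rep r`. -/
theorem exists_rep [Countable L.Symbols] {A : Set M} (hA : A.Countable) (hne : A.Nonempty) :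
    ∃ rep : (ℕ → ℕ) → Ultrafilter (ℕ → M), (∀ r, AlmT L A (rep r)) ∧
      (∀ q, AlmT L A q → ∃ r, TEq L (rep r) q) ∧
      ∀ r, #{r' : ℕ → ℕ // TEq L (rep r') (rep r)} = 𝔠 := by
  obtain ⟨a, ha⟩ := hne
  have hcA : Countable {Z : (ℕ → M) → Prop // Alm L A Z} := (countable_alm hA).to_subtype
  have hneA : Nonempty {Z : (ℕ → M) → Prop // Alm L A Z} :=
    ⟨⟨fun _ => True, Alm.of_defU (DefU.const True)⟩⟩
  obtain ⟨e, he⟩ := exists_surjective_nat {Z : (ℕ → M) → Prop // Alm L A Z}
  have hcF : Countable (L.Formula (ℕ ⊕ ℕ)) := countable_formula _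
  have hneF : Nonempty (L.Formula (ℕ ⊕ ℕ)) := ⟨⊤⟩
  obtain ⟨f, hf⟩ := exists_surjective_nat (L.Formula (ℕ ⊕ ℕ))
  have hp0 : AlmT L A (pure (fun _ => a) : Ultrafilter (ℕ → M)) := almT_pure _ fun _ => ha
  let C : (ℕ → ℕ) → Ultrafilter (ℕ → M) → Prop := fun r p =>
    AlmT L A p ∧ ∀ n y, (Ev p fun x => (f n).Realize (Sum.elim x y)) ↔ (e (r n)).1 y
  let rep0 : (ℕ → ℕ) → Ultrafilter (ℕ → M) := fun r =>
    if h : ∃ p, C r p then h.choose else pure fun _ => a
  have hrep0 : ∀ r, AlmT L A (rep0 r) := by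
    intro r
    by_cases h : ∃ p, C r p
    · have h1 : rep0 r = h.choose := dif_pos h
      rw [h1]
      exact h.choose_spec.1
    · have h1 : rep0 r = pure fun _ => a := dif_neg h
      rw [h1]
      exact hp0
  refine ⟨fun r => rep0 fun n => r (2 * n), fun r => hrep0 _, ?_, ?_⟩
  · intro q hq
    have hal : ∀ n, Alm L A fun y : ℕ → M => Ev q fun x => (f n).Realize (Sum.elim x y) := by
      intro n
      refine hq _ ⟨f n, fun z => ?_⟩
      refine iff_of_eq (congrArg (f n).Realize ?_)
      funext i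
      cases i <;> rfl
    have hex : ∀ n, ∃ k, e k = ⟨_, hal n⟩ := fun n => he _
    choose s hs using hex
    have hC : C s q := ⟨hq, fun n y => by rw [hs]⟩
    have hex : ∃ p, C s p := ⟨q, hC⟩
    refine ⟨fun n => s (n / 2), ?_⟩
    have h1 : (rep0 fun n => s (2 * n / 2)) = hex.choose := by
      have h2 : (fun n => s (2 * n / 2)) = s := by
        funext n
        congr 1
        omega
      rw [h2]
      exact dif_pos hex
    show TEq L (rep0 fun n => s (2 * n / 2)) q
    rw [h1, teq_iff]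
    intro φ y
    obtain ⟨n, rfl⟩ := hf φ
    exact (hex.choose_spec.2 n y).trans (hC.2 n y).symm
  · intro r
    have hc : #(ℕ → ℕ) = 𝔠 := by
      rw [← power_def, mk_nat, aleph0_power_aleph0]
    apply le_antisymm
    · rw [← hc]
      exact mk_subtype_le _
    · rw [← hc]
      have hg : ∀ s : ℕ → ℕ, TEq L (rep0 fun n => (fun n => if n % 2 = 0 then r n else s (n / 2)) (2 * n))
          (rep0 fun n => r (2 * n)) := by
        intro s
        have h2 : (fun n => (fun n => if n % 2 = 0 then r n else s (n / 2)) (2 * n)) =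
            fun n => r (2 * n) := by
          funext n
          have h3 : 2 * n % 2 = 0 := by omega
          show (if 2 * n % 2 = 0 then r (2 * n) else s (2 * n / 2)) = r (2 * n)
          rw [if_pos h3]
        rw [h2]
        exact TEq.refl _
      refine mk_le_of_injective (f := fun s : ℕ → ℕ =>
        (⟨fun n => if n % 2 = 0 then r n else s (n / 2), hg s⟩ :
          {r' : ℕ → ℕ // TEq L (rep0 fun n => r' (2 * n)) (rep0 fun n => r (2 * n))})) ?_
      intro s s' hss
      have h4 := congrArg Subtype.val hss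
      funext n
      have h5 := congrFun h4 (2 * n + 1)
      have h6 : ¬ (2 * n + 1) % 2 = 0 := by omega
      have h7 : (2 * n + 1) / 2 = n := by omega
      simpa only [if_neg h6, h7] using h5

/-- the types almost over `A`, named by `ℕ → ℕ` -/
noncomputable def rep (L : FirstOrder.Language.{0, 0}) {M : Type u} [L.Structure M] [Nonempty M]
    (A : Set M) : (ℕ → ℕ) → Ultrafilter (ℕ → M) :=
  if h : ∃ rep : (ℕ → ℕ) → Ultrafilter (ℕ → M), (∀ r, AlmT L A (rep r)) ∧
      (∀ q, AlmT L A q → ∃ r, TEq L (rep r) q) ∧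
      ∀ r, #{r' : ℕ → ℕ // TEq L (rep r') (rep r)} = 𝔠 then h.choose
  else fun _ => pure fun _ => Classical.arbitrary M

theorem rep_spec [Countable L.Symbols] {A : Set M} (hA : A.Countable) (hne : A.Nonempty) :
    (∀ r, AlmT L A (rep L A r)) ∧ (∀ q, AlmT L A q → ∃ r, TEq L (rep L A r) q) ∧
      ∀ r, #{r' : ℕ → ℕ // TEq L (rep L A r') (rep L A r)} = 𝔠 := by
  have h := exists_rep (L := L) hA hne
  unfold rep
  rw [dif_pos h]
  exact h.choose_spec

end MP8f
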