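import Pool.Agent.Lib_MP_8da2c8_full.Sys
import Pool.Agent.Lib_MP_8da2c8_full.CombE

/-! STEP Names: the names.

`nd s`: a node (reversed list of symbols); `br c`: a branch; `E k c i r`: a realization of the type
number `r` over the `k` elements with the numbers `i j` of the blocks of the names `c j`.
-/

namespace MP8f

open Cardinal Set FirstOrder Filter
open scoped Classical

universe u v w x

inductive Nm (Y : Type u) : Type u
  | nd (s : List Y) : Nm Y
  | br (c : ℕ → Y) : Nm Y
  | E (k : ℕ) (c : Fin k → Nm Y) (i : Fin k → ℕ) (r : ℕ → ℕ) : Nm Y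

namespace Nm
variable {Y : Type u}

/-- rank -/
def rk : Nm Y → ℕ
  | nd _ => 0
  | br _ => 0
  | E _ c _ _ => (Finset.univ.sup fun j => rk (c j)) + 1

/-- stage -/
def st : Nm Y → Bool ×ₗ ℕ
  | nd s => toLex (false, s.length)
  | br _ => toLex (true, 0)
  | E k c i r => toLex (true, rk (E k c i r))

/-- support -/
def S : Nm Y → Set (Nm Y)
  | nd [] => ∅
  | nd (_ :: s) => {nd s}
  | br c => {ν | ∃ n, ν = nd (seg c n)}
  | E _ c _ _ => range c

/-- the names all of whose nodes and branches are in the tree -/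
def Vld (JN : Set (List Y)) (JB : Set (ℕ → Y)) : Nm Y → Prop
  | nd s => s ∈ JN
  | br c => c ∈ JB
  | E _ c _ _ => ∀ j, Vld JN JB (c j)

/-- closure: the name, and the closures of the names in its support -/
def cl : Nm Y → Set (Nm Y)
  | nd s => {ν | ∃ t, t <:+ s ∧ ν = nd t}
  | br c => {br c} ∪ {ν | ∃ n, ν = nd (seg c n)}
  | E k c i r => {E k c i r} ∪ ⋃ j, cl (c j)

theorem rk_lt {k : ℕ} (c : Fin k → Nm Y) (i : Fin k → ℕ) (r : ℕ → ℕ) (j : Fin k) :
    (c j).rk < (E k c i r).rk := by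
  show (c j).rk < (Finset.univ.sup fun j => rk (c j)) + 1
  exact Nat.lt_succ_of_le (Finset.le_sup (f := fun j => rk (c j)) (Finset.mem_univ j))

theorem rk_le_iff {k n : ℕ} (c : Fin k → Nm Y) (i : Fin k → ℕ) (r : ℕ → ℕ) :
    (E k c i r).rk ≤ n + 1 ↔ ∀ j, (c j).rk ≤ n := by
  show (Finset.univ.sup fun j => rk (c j)) + 1 ≤ n + 1 ↔ _
  rw [Nat.add_le_add_iff_right, Finset.sup_le_iff]
  simp

theorem Names_st_le (μ : Nm Y) : μ.st ≤ toLex (true, rk μ) := by
  cases μ with
  | nd s =>
    refine le_of_lt ?_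
    show toLex (false, s.length) < toLex (true, 0)
    rw [Prod.Lex.toLex_lt_toLex]
    exact Or.inl Bool.false_lt_true
  | br c => exact le_refl _
  | E k c i r => exact le_refl _

theorem st_lt {ν μ : Nm Y} (h : μ ∈ S ν) : μ.st < ν.st := by
  cases ν with
  | nd s =>
    cases s with
    | nil => exact absurd h (by simp [S])
    | cons a s =>
      have h1 : μ = nd s := by simpa [S] using h
      subst h1
      show toLex (false, s.length) < toLex (false, (a :: s).length)
      rw [Prod.Lex.toLex_lt_toLex]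
      exact Or.inr ⟨rfl, by simp⟩
  | br c =>
    obtain ⟨n, rfl⟩ := h
    show toLex (false, (seg c n).length) < toLex (true, 0)
    rw [Prod.Lex.toLex_lt_toLex]
    exact Or.inl Bool.false_lt_true
  | E k c i r =>
    obtain ⟨j, rfl⟩ := h
    refine lt_of_le_of_lt (Names_st_le (c j)) ?_
    show toLex (true, rk (c j)) < toLex (true, rk (E k c i r))
    rw [Prod.Lex.toLex_lt_toLex]
    exact Or.inr ⟨rfl, rk_lt c i r j⟩

theorem seg_suffix {Y : Type v} (c : ℕ → Y) {t : List Y} {n : ℕ} (h : t <:+ seg c n) :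
    ∃ m ≤ n, t = seg c m := by
  induction n with
  | zero => exact ⟨0, le_refl _, List.suffix_nil.1 h⟩
  | succ n ih =>
    rcases List.suffix_cons_iff.1 h with h1 | h1
    · exact ⟨n + 1, le_refl _, h1⟩
    · obtain ⟨m, hm, h2⟩ := ih h1
      exact ⟨m, hm.trans (Nat.le_succ n), h2⟩

theorem self_mem_cl (ν : Nm Y) : ν ∈ ν.cl := by
  cases ν with
  | nd s => exact ⟨s, List.suffix_refl s, rfl⟩
  | br c => exact Or.inl rfl
  | E k c i r => exact Or.inl rfl

/-- closures are closed -/
theorem cl_closed (ν : Nm Y) : Cl S ν.cl := by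
  induction ν with
  | nd s =>
    rintro μ ⟨t, ht, rfl⟩
    cases t with
    | nil => exact fun _ h => absurd h (by simp [S])
    | cons a t =>
      intro μ hμ
      have h1 : μ = nd t := by simpa [S] using hμ
      exact ⟨t, (List.suffix_cons a t).trans ht, h1⟩
  | br c =>
    rintro μ (rfl | ⟨n, rfl⟩)
    · exact fun μ hμ => Or.inr hμ
    · cases n with
      | zero => exact fun _ h => absurd h (by simp [S, seg])
      | succ n =>
        intro μ hμ
        have h1 : μ = nd (seg c n) := by simpa [S, seg] using hμ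
        exact Or.inr ⟨n, h1⟩
  | E k c i r ih =>
    rintro μ (rfl | hμ)
    · rintro μ ⟨j, rfl⟩
      exact Or.inr (mem_iUnion.2 ⟨j, self_mem_cl (c j)⟩)
    · obtain ⟨j, hj⟩ := mem_iUnion.1 hμ
      exact fun μ' hμ' => Or.inr (mem_iUnion.2 ⟨j, ih j μ hj hμ'⟩)

/-- Proof: induction on `ν`. -/
theorem cl_min {X : Set (Nm Y)} (hX : Cl S X) {ν : Nm Y} (h : ν ∈ X) : ν.cl ⊆ X := by
  induction ν with
  | nd s =>
    rintro μ ⟨t, ht, rfl⟩
    induction s with
    | nil => rwa [List.suffix_nil.1 ht]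
    | cons a s ih =>
      rcases List.suffix_cons_iff.1 ht with h1 | h1
      · rwa [h1]
      · exact ih (hX _ h (show nd s ∈ S (nd (a :: s)) from rfl)) h1
  | br c =>
    rintro μ (rfl | ⟨n, rfl⟩)
    · exact h
    · exact hX _ h (show nd (seg c n) ∈ S (br c) from ⟨n, rfl⟩)
  | E k c i r ih =>
    rintro μ (rfl | hμ)
    · exact h
    · obtain ⟨j, hj⟩ := mem_iUnion.1 hμ
      exact ih j (hX _ h (show c j ∈ S (E k c i r) from ⟨j, rfl⟩)) hj

theorem Names_nd_finite (s : List Y) : (nd s).cl.Finite := by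
  have h1 : ((fun t => nd t) '' {t : List Y | t ∈ s.tails}).Finite :=
    Set.Finite.image _ (List.finite_toSet s.tails)
  refine h1.subset ?_
  rintro μ ⟨t, ht, rfl⟩
  exact ⟨t, (List.mem_tails _ _).2 ht, rfl⟩

theorem cl_countable (ν : Nm Y) : ν.cl.Countable := by
  induction ν with
  | nd s => exact (Names_nd_finite s).countable
  | br c =>
    refine (countable_singleton _).union ?_
    refine (countable_range fun n => nd (seg c n)).mono ?_
    rintro μ ⟨n, rfl⟩
    exact ⟨n, rfl⟩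
  | E k c i r ih => exact (countable_singleton _).union (countable_iUnion ih)

/-- Apart from the nodes of finitely many branches the closure is finite.  Induction on `ν`. -/
theorem cl_finite (ν : Nm Y) : ∃ (F : Set (Nm Y)) (C : Set (ℕ → Y)), F.Finite ∧ C.Finite ∧
    (∀ c ∈ C, br c ∈ ν.cl) ∧ ∀ μ ∈ ν.cl, μ ∈ F ∨ ∃ c ∈ C, ∃ n, μ = nd (seg c n) := by
  induction ν with
  | nd s =>
    exact ⟨(nd s).cl, ∅, Names_nd_finite s, finite_empty, fun c hc => absurd hc (notMem_empty c),
      fun μ hμ => Or.inl hμ⟩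
  | br c =>
    refine ⟨{br c}, {c}, finite_singleton _, finite_singleton _, ?_, ?_⟩
    · intro c' hc'
      rw [mem_singleton_iff.1 hc']
      exact Or.inl rfl
    · rintro μ (rfl | ⟨n, rfl⟩)
      · exact Or.inl rfl
      · exact Or.inr ⟨c, rfl, n, rfl⟩
  | E k c i r ih =>
    choose F C hF hC h1 h2 using ih
    refine ⟨{E k c i r} ∪ ⋃ j, F j, ⋃ j, C j, (finite_singleton _).union (finite_iUnion hF),
      finite_iUnion hC, ?_, ?_⟩
    · intro c' hc'
      obtain ⟨j, hj⟩ := mem_iUnion.1 hc'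
      exact Or.inr (mem_iUnion.2 ⟨j, h1 j c' hj⟩)
    · rintro μ (rfl | hμ)
      · exact Or.inl (Or.inl rfl)
      · obtain ⟨j, hj⟩ := mem_iUnion.1 hμ
        rcases h2 j μ hj with h3 | ⟨c', hc', n, h3⟩
        · exact Or.inl (Or.inr (mem_iUnion.2 ⟨j, h3⟩))
        · exact Or.inr ⟨c', mem_iUnion.2 ⟨j, hc'⟩, n, h3⟩

/-- the valid names are a closed set if the tree is closed -/
theorem vld_closed {JN : Set (List Y)} {JB : Set (ℕ → Y)} (h1 : ∀ a s, a :: s ∈ JN → s ∈ JN)
    (h2 : ∀ c ∈ JB, ∀ n, seg c n ∈ JN) : Cl S {ν | Vld JN JB ν} := by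
  intro ν hν
  cases ν with
  | nd s =>
    cases s with
    | nil => exact fun _ h => absurd h (by simp [S])
    | cons a s =>
      intro μ hμ
      have h3 : μ = nd s := by simpa [S] using hμ
      subst h3
      exact h1 a s hν
  | br c =>
    rintro μ ⟨n, rfl⟩
    exact h2 c hν n
  | E k c i r =>
    rintro μ ⟨j, rfl⟩
    exact hν j

/-- shapes -/
abbrev NamesA (Y : Type u) : Type u := List Y ⊕ ((ℕ → Y) ⊕ (Σ k : ℕ, (Fin k → ℕ) × (ℕ → ℕ)))

/-- arities -/
def NamesB (Y : Type u) : NamesA Y → Type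
  | .inl _ => Fin 0
  | .inr (.inl _) => Fin 0
  | .inr (.inr p) => Fin p.1

instance NamesB_finite (a : NamesA Y) : Finite (NamesB Y a) := by
  rcases a with a | a | a
  · exact inferInstanceAs (Finite (Fin 0))
  · exact inferInstanceAs (Finite (Fin 0))
  · exact inferInstanceAs (Finite (Fin a.1))

/-- the coding -/
def NamesF : Nm Y → WType (NamesB Y)
  | nd s => ⟨.inl s, fun j => Fin.elim0 j⟩
  | br c => ⟨.inr (.inl c), fun j => Fin.elim0 j⟩
  | E k c i r => ⟨.inr (.inr ⟨k, i, r⟩), fun j => NamesF (c j)⟩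

theorem NamesF_inj : Function.Injective (NamesF (Y := Y)) := by
  intro ν
  induction ν with
  | nd s =>
    intro μ h
    cases μ with
    | nd t =>
      simp only [NamesF, WType.mk.injEq, Sum.inl.injEq] at h
      rw [h.1]
    | br c => simp [NamesF] at h
    | E k c i r => simp [NamesF] at h
  | br c =>
    intro μ h
    cases μ with
    | nd t => simp [NamesF] at h
    | br c' =>
      simp only [NamesF, WType.mk.injEq, Sum.inr.injEq, Sum.inl.injEq] at h
      rw [h.1]
    | E k c i r => simp [NamesF] at h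
  | E k c i r ih =>
    intro μ h
    cases μ with
    | nd t => simp [NamesF] at h
    | br c' => simp [NamesF] at h
    | E k' c' i' r' =>
      simp only [NamesF, WType.mk.injEq, Sum.inr.injEq, Sigma.mk.injEq] at h
      obtain ⟨⟨h1, h2⟩, h3⟩ := h
      subst h1
      have h4 := eq_of_heq h2
      rw [Prod.mk.injEq] at h4
      obtain ⟨rfl, rfl⟩ := h4
      have h5 := eq_of_heq h3
      have h6 : c = c' := funext fun j => ih j (congrFun h5 j)
      rw [h6]

theorem Names_sig : #(Σ k : ℕ, (Fin k → ℕ) × (ℕ → ℕ)) ≤ Cardinal.continuum := by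
  have h1 : Function.Injective (fun p : Σ k : ℕ, (Fin k → ℕ) × (ℕ → ℕ) =>
      ((List.ofFn p.2.1, p.2.2) : List ℕ × (ℕ → ℕ))) := by
    rintro ⟨k, i, r⟩ ⟨k', i', r'⟩ h
    simp only [Prod.mk.injEq] at h
    obtain ⟨h1, h2⟩ := h
    obtain rfl : k = k' := by
      have := congrArg List.length h1
      simpa using this
    rw [List.ofFn_inj.1 h1, h2]
  refine (Cardinal.mk_le_of_injective h1).trans ?_
  rw [Cardinal.mk_prod, Cardinal.lift_id, Cardinal.lift_id, Cardinal.mk_list_eq_aleph0]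
  have h2 : #(ℕ → ℕ) = Cardinal.continuum := by
    rw [← Cardinal.power_def, Cardinal.mk_nat, Cardinal.aleph0_power_aleph0]
  rw [h2, Cardinal.aleph0_mul_continuum]

/-- Proof.  `Nm Y` injects into a `WType` whose shapes are `List Y ⊕ (ℕ → Y) ⊕ (Σ k, (Fin k → ℕ) × (ℕ → ℕ))` with finite arities
(`WType.cardinalMk_le_max_aleph0_of_finite'`); `#(ℕ → Y) ≤ #K` by `hY2`. -/
theorem card_le {K : Type u} (hK : ℵ₀ ≤ #K) (hY : #Y ≤ #K) (hK2 : #(ℕ → K) ≤ #K) :
    #(Nm Y) ≤ #K := by
  refine (Cardinal.mk_le_of_injective NamesF_inj).trans ?_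
  refine (WType.cardinalMk_le_max_aleph0_of_finite' (β := NamesB Y)).trans ?_
  rw [Cardinal.lift_uzero]
  refine max_le ?_ hK
  have hpow : #K ^ ℵ₀ ≤ #K := by
    have h1 : #(ℕ → K) = #K ^ ℵ₀ := by simp
    rwa [← h1]
  have hc : Cardinal.continuum ≤ #K := by
    refine le_trans ?_ hpow
    rw [← Cardinal.two_power_aleph0]
    exact Cardinal.power_le_power_right ((Cardinal.natCast_lt_aleph0 (n := 2)).le.trans hK)
  have h1 : #(List Y) ≤ #K := (Cardinal.mk_list_le_max Y).trans (max_le hK hY)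
  have h2 : #(ℕ → Y) ≤ #K := by
    have h3 : #(ℕ → Y) = #Y ^ ℵ₀ := by simp
    rw [h3]
    exact (Cardinal.power_le_power_right hY).trans hpow
  have h3 : Cardinal.lift.{u} #(Σ k : ℕ, (Fin k → ℕ) × (ℕ → ℕ)) ≤ #K := by
    refine (Cardinal.lift_le.2 Names_sig).trans ?_
    rw [Cardinal.lift_continuum]
    exact hc
  rw [Cardinal.mk_sum, Cardinal.mk_sum]
  simp only [Cardinal.lift_uzero, Cardinal.lift_id]
  refine Cardinal.add_le_of_le hK h1 (Cardinal.add_le_of_le hK ?_ ?_)
  · exact h2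
  · exact h3

end Nm

end MP8f
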