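import Pool.Agent.Lib_MP_8da2c8_full.TmpD
import Pool.Agent.Lib_MP_8da2c8_full.Names
import Pool.Agent.Lib_MP_8da2c8_full.GcB

/-! STEP Build: the types of the names. -/

namespace MP8f

open Cardinal Set FirstOrder Filter
open scoped Classical

universe u v w x

section
variable {L : FirstOrder.Language.{0, 0}} {M : Type u} [L.Structure M] {Y : Type u}

/-- the block of the parameters of the name `E k c i r` -/
noncomputable def blk (t : Tmp L M) (e : Nm Y → ℕ → M) (k : ℕ) (c : Fin k → Nm Y)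
    (i : Fin k → ℕ) : ℕ → M :=
  fun j => if h : j < k then e (c ⟨j, h⟩) (i ⟨j, h⟩) else t.m 0 0

/-- the type of a name, given the blocks of the names in its support -/
noncomputable def Ty [Nonempty M] {t : Tmp L M} (sc : Sch t) (ν : Nm Y) (e : Nm Y → ℕ → M) :
    Ultrafilter (ℕ → M) :=
  match ν with
  | .nd [] => pure (t.m 0)
  | .nd (_ :: s) =>
    if h : ∃ p : Ultrafilter (ℕ → M), ∀ φ y, (Ev p fun x => φ.Realize (Sum.elim x y)) ↔
        (sc.θN s.length φ).Realize (Sum.elim y (e (.nd s))) then h.choose else pure (t.m 0)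
  | .br c =>
    if h : ∃ p : Ultrafilter (ℕ → M), ∀ φ y, (Ev p fun x => φ.Realize (Sum.elim x y)) ↔
        (sc.θB φ).Realize (Sum.elim y (e (.nd (seg c (sc.jB φ))))) then h.choose
    else pure (t.m 0)
  | .E k c i r => rep L (range (blk t e k c i)) r

end

variable {L : FirstOrder.Language.{0, 0}} {M : Type u} [L.Structure M] [Nonempty M]
variable {Y : Type u} {t : Tmp L M}

private noncomputable def Build_N (t : Tmp L M) (θ : L.Formula (ℕ ⊕ ℕ) → L.Formula (ℕ ⊕ ℕ))
    (b : L.Formula (ℕ ⊕ ℕ) → ℕ → M) : Ultrafilter (ℕ → M) :=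
  if h : ∃ p : Ultrafilter (ℕ → M), ∀ φ y, (Ev p fun x => φ.Realize (Sum.elim x y)) ↔
      (θ φ).Realize (Sum.elim y (b φ)) then h.choose else pure (t.m 0)

private theorem Build_alm {A : Set M} (h0 : ∀ i, t.m 0 i ∈ A)
    (θ : L.Formula (ℕ ⊕ ℕ) → L.Formula (ℕ ⊕ ℕ)) (b : L.Formula (ℕ ⊕ ℕ) → ℕ → M)
    (hb : ∀ φ i, b φ i ∈ A) : AlmT L A (Build_N t θ b) := by
  unfold Build_N
  split_ifs with h
  · refine almT_of_defU fun R hR => ?_
    obtain ⟨φ, hφ⟩ := hR
    have h1 : Dfn2 L fun (y : ℕ → M) (z : ℕ → M) => (θ φ).Realize (Sum.elim y z) := by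
      refine ⟨θ φ, fun z => ?_⟩
      refine iff_of_eq (congrArg (θ φ).Realize ?_)
      funext i
      cases i <;> rfl
    have h2 : DefU2 L A fun (y : ℕ → M) (z : ℕ → M) => (θ φ).Realize (Sum.elim y z) :=
      DefU.of_dfn h1
    refine (h2.subst (b φ) (hb φ)).congr fun y => ?_
    rw [← h.choose_spec φ y]
    exact ev_congr fun x => hφ (Sum.elim x y)
  · exact almT_pure _ h0

theorem ty_congr (sc : Sch t) (ν : Nm Y) (e e' : Nm Y → ℕ → M)
    (h : ∀ μ ∈ ν.S, e μ = e' μ) : Ty sc ν e = Ty sc ν e' := by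
  cases ν with
  | nd s =>
    cases s with
    | nil => rfl
    | cons a s =>
      have h1 : e (.nd s) = e' (.nd s) := h _ rfl
      exact congrArg (fun x => Build_N t (sc.θN s.length) fun _ => x) h1
  | br c =>
    have h1 : (fun n => e (.nd (seg c n))) = fun n => e' (.nd (seg c n)) :=
      funext fun n => h _ ⟨n, rfl⟩
    exact congrArg (fun x : ℕ → ℕ → M => Build_N t sc.θB fun φ => x (sc.jB φ)) h1
  | E k c i r =>
    have h1 : blk t e k c i = blk t e' k c i := by
      funext j
      unfold blk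
      split_ifs with hj
      · rw [h (c ⟨j, hj⟩) (mem_range_self _)]
      · rfl
    exact congrArg (fun x => rep L (range x) r) h1

/-- Proof.  `pure (t.m 0)`: `almT_pure`.  The schemes: `Ev p (R · y)` is definable over `range (e (nd s))`, resp. over `range (e (nd (seg c j)))`, contained in `MlS …` (`almT_of_defU`).
`E k c i r`: `rep_spec` and `AlmT.mono`: `range (blk …)` is countable and contained in `MlS …`. -/
theorem ty_alm [Countable L.Symbols] (sc : Sch t) (ν : Nm Y) (e : Nm Y → ℕ → M) :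
    AlmT L (MlS (range (t.m 0)) e ν.S) (Ty sc ν e) := by
  cases ν with
  | nd s =>
    cases s with
    | nil => exact almT_pure _ fun i => Or.inl (mem_range_self i)
    | cons a s =>
      exact Build_alm (t := t) (A := MlS (range (t.m 0)) e (Nm.S (.nd (a :: s))))
        (fun i => Or.inl (mem_range_self i)) (sc.θN s.length) (fun _ => e (.nd s))
        fun φ i => Or.inr ⟨.nd s, rfl, i, rfl⟩
  | br c =>
    exact Build_alm (t := t) (A := MlS (range (t.m 0)) e (Nm.S (.br c)))
      (fun i => Or.inl (mem_range_self i)) sc.θB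
      (fun φ => e (.nd (seg c (sc.jB φ)))) fun φ i => Or.inr ⟨_, ⟨_, rfl⟩, i, rfl⟩
  | E k c i r =>
    have h1 := (rep_spec (L := L) (countable_range (blk t e k c i))
      (range_nonempty (blk t e k c i))).1 r
    refine AlmT.mono ?_ h1
    rintro _ ⟨j, rfl⟩
    unfold blk
    split_ifs with hj
    · exact Or.inr ⟨c ⟨j, hj⟩, mem_range_self _, _, rfl⟩
    · exact Or.inl (mem_range_self 0)

end MP8f
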