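import Pool.Agent.Lib_MP_8da2c8_full.Core

/-! STEP Chain: limits of elementary chains. -/

namespace MP8f

open Cardinal Set FirstOrder Filter
open scoped Classical

universe u v w x

variable {L : FirstOrder.Language.{0, 0}}

/-- Tarski's elementary chain theorem, the inductive step. -/
theorem chain_aux {G : ℕ → Type u} [∀ n, L.Structure (G n)] {M : Type u} [L.Structure M]
    (J : ∀ n, G n ↪[L] M)
    (e : ∀ m n, m ≤ n → G m ↪ₑ[L] G n)
    (hJ : ∀ m n (h : m ≤ n) x, J n (e m n h x) = J m x)
    (hsurj : ∀ x : M, ∃ n y, J n y = x)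
    {α : Type} {k : ℕ} (φ : L.BoundedFormula α k) :
    ∀ n (x : α → G n) (xs : Fin k → G n), φ.Realize (J n ∘ x) (J n ∘ xs) ↔ φ.Realize x xs := by
  induction φ with
  | falsum => intro n x xs; exact Iff.rfl
  | equal t₁ t₂ =>
    intro n x xs
    exact (FirstOrder.Language.BoundedFormula.IsAtomic.equal t₁ t₂).isQF.realize_embedding (J n)
  | rel R ts =>
    intro n x xs
    exact (FirstOrder.Language.BoundedFormula.IsAtomic.rel R ts).isQF.realize_embedding (J n)
  | imp φ ψ h1 h2 =>
    intro n x xs
    rw [FirstOrder.Language.BoundedFormula.realize_imp, FirstOrder.Language.BoundedFormula.realize_imp,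
      h1, h2]
  | @all k φ ih =>
    intro n x xs
    rw [FirstOrder.Language.BoundedFormula.realize_all, FirstOrder.Language.BoundedFormula.realize_all]
    constructor
    · intro h a
      have h1 := h (J n a)
      rw [← ih n x (Fin.snoc xs a)]
      have h2 : (J n ∘ (Fin.snoc xs a : Fin (k + 1) → G n) : Fin (k + 1) → M) = Fin.snoc (J n ∘ xs) (J n a) :=
        Fin.comp_snoc _ _ _
      rw [h2]
      exact h1
    · intro h a
      obtain ⟨m, y, rfl⟩ := hsurj a
      have hn : n ≤ max n m := le_max_left _ _
      have hm : m ≤ max n m := le_max_right _ _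
      have h1 : (φ.all).Realize (e n (max n m) hn ∘ x) (e n (max n m) hn ∘ xs) := by
        rw [FirstOrder.Language.ElementaryEmbedding.map_boundedFormula]
        exact h
      have h2 := h1 (e m (max n m) hm y)
      rw [← ih (max n m)] at h2
      have h3 : (J (max n m) ∘ (Fin.snoc (e n (max n m) hn ∘ xs) (e m (max n m) hm y) : Fin (k + 1) → G (max n m)) :
          Fin (k + 1) → M) = Fin.snoc (J n ∘ xs) (J m y) := by
        rw [Fin.comp_snoc, hJ]
        congr 1
        funext i
        exact hJ _ _ _ _
      have h4 : (J (max n m) ∘ (e n (max n m) hn ∘ x)) = J n ∘ x := by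
        funext i
        exact hJ _ _ _ _
      rw [h3, h4] at h2
      exact h2

/-- Proof.  Use Mathlib.ModelTheory.DirectLimit: `DirectedSystem.natLERec` for the embeddings `(f n).toEmbedding`, `M = DirectLimit`, `j n = of n`.  Elementarity
(Tarski's theorem on elementary chains): show by induction on the bounded formula `φ`, for all `n` and all `x : α → G n`, `xs : Fin k → G n`, that `φ` is realized in `G n` at `x, xs` iff it is
realized in `M` at the images.  For `∀`: an element of `M` is the image of some element of `G m` with `m ≥ n`, and `G n → G m` is elementary (by composition), so the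
induction hypothesis for `m` applies. -/
theorem exists_chain_limit (G : ℕ → Type u) [∀ n, L.Structure (G n)] [∀ n, Nonempty (G n)]
    (f : ∀ n, G n ↪ₑ[L] G (n + 1)) :
    ∃ (M : Type u) (_ : L.Structure M) (j : ∀ n, G n ↪ₑ[L] M),
      (∀ n x, j (n + 1) (f n x) = j n x) ∧ ∀ x, ∃ n y, j n y = x := by
  let F : ∀ m n, m ≤ n → G m ↪[L] G n :=
    FirstOrder.Language.DirectedSystem.natLERec (fun n => (f n).toEmbedding)
  have hFx : ∀ m n (h : m ≤ n) x, F m n h x = Nat.leRecOn h (fun {k} => (f k).toEmbedding) x :=
    fun m n h x => congrFun (FirstOrder.Language.DirectedSystem.coe_natLERec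
      (fun n => (f n).toEmbedding) m n h) x
  have hF : ∀ m n (h : m ≤ n), ∃ e : G m ↪ₑ[L] G n, ∀ x, e x = F m n h x := by
    intro m n h
    induction n, h using Nat.le_induction with
    | base =>
      refine ⟨FirstOrder.Language.ElementaryEmbedding.refl L _, fun x => ?_⟩
      rw [hFx, Nat.leRecOn_self]
      rfl
    | succ n h ih =>
      obtain ⟨e, he⟩ := ih
      refine ⟨(f n).comp e, fun x => ?_⟩
      rw [hFx, Nat.leRecOn_succ h, ← hFx, ← he]
      rfl
  choose e he using hF
  let J : ∀ n, G n ↪[L] FirstOrder.Language.DirectLimit G F := fun n =>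
    FirstOrder.Language.DirectLimit.of L ℕ G F n
  have hJ : ∀ m n (h : m ≤ n) x, J n (e m n h x) = J m x := by
    intro m n h x
    rw [he]
    exact FirstOrder.Language.DirectLimit.of_f
  have hsurj : ∀ x : FirstOrder.Language.DirectLimit G F, ∃ n y, J n y = x :=
    fun x => FirstOrder.Language.DirectLimit.exists_of x
  refine ⟨FirstOrder.Language.DirectLimit G F, inferInstance, fun n => ⟨J n, ?_⟩, ?_, hsurj⟩
  · intro k φ x
    have h1 := chain_aux J e hJ hsurj φ n x default
    have h2 : (J n ∘ (default : Fin 0 → G n)) = default := Subsingleton.elim _ _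
    rw [h2] at h1
    exact h1
  · intro n x
    have h1 := hJ n (n + 1) (Nat.le_succ n) x
    have h2 : e n (n + 1) (Nat.le_succ n) x = f n x := by
      rw [he, hFx, Nat.leRecOn_succ le_rfl, Nat.leRecOn_self]
      rfl
    rw [h2] at h1
    exact h1

end MP8f
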