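import Pool.Agent.Lib_MP_8da2c8.LinkA
import Pool.Agent.Lib_MP_8da2c8.ClubA

/-! STEP CombA: symbols with labels, links, good branches.

A symbol `y : YY K` is a pair of a label `y.1 : K` and of `y.2 : US K`, which is `x α` (allowed if `α ∈ D`) or `y h β i`.
`hitY π c j`: at `j` the branch `c` has `x α`, and the label `ρ` at `j + 1` satisfies `π ρ = α`. -/

namespace MP8f

open Cardinal Set MP8da
open scoped Classical

universe u v

variable {K : Type u}

abbrev YY (K : Type u) : Type u := K × US K

/-- the reversed list of the first `n` values -/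
def seg {Y : Type v} (c : ℕ → Y) : ℕ → List Y
  | 0 => []
  | n + 1 => c n :: seg c n

/-- the ordinal in a symbol -/
def usr : US K → K
  | .x α => α
  | .y _ β _ => β

/-- label and ordinal of `y` are below `γ` -/
def Ylt [LinearOrder K] (y : YY K) (γ : K) : Prop := y.1 < γ ∧ usr y.2 < γ

def hitY (π : K → K) (c : ℕ → YY K) (j : ℕ) : Prop := (c j).2 = .x (π (c (j + 1)).1)

noncomputable def HY (π : K → K) (c : ℕ → YY K) (k : ℕ) : Finset ℕ :=
  (Finset.range k).filter (hitY π c)

/-- the link between branches: labels are kept -/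
def LinkY (π : K → K) (β : K → K) (D E : Set K) (b c : ℕ → YY K) : Prop :=
  ∀ k, (c k).1 = (b k).1 ∧ Lk β D E (HY π b k) (HY π c k) (b k).2 (c k).2

/-- basic branches: for certain `δ` a set `D δ` and a branch `b δ` consisting of hits -/
structure BD (K : Type u) [LinearOrder K] (π : K → K) where
  ok : K → Prop
  D : K → Set K
  b : K → ℕ → YY K
  hit : ∀ δ, ok δ → ∀ k, hitY π (b δ) k
  mem : ∀ δ, ok δ → ∀ k α, (b δ k).2 = .x α → α ∈ D δ ∧ α < δ
  lt : ∀ δ, ok δ → ∀ k, (b δ k).1 < δ
  cof : ∀ δ, ok δ → ∀ ξ < δ, ∃ k, ξ < (b δ k).1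

/-- good branches for `D`: from the basic branches with `D δ = D` below `δ`, by links -/
inductive Good [LinearOrder K] {π : K → K} (B : BD K π) : Set K → (ℕ → YY K) → Prop
  | base (D : Set K) (δ : K) : B.ok δ → (∀ α < δ, (α ∈ B.D δ ↔ α ∈ D)) → Good B D (B.b δ)
  | link (D E : Set K) (β : K → K) (b c : ℕ → YY K) : Good B D b → Reg β D E →
      LinkY π β D E b c → Good B E c

variable [LinearOrder K] {π : K → K} {B : BD K π}

/-- Proof: induction on `Good`; link: `Lk.uok`. -/
theorem good_uok {D : Set K} {c : ℕ → YY K} (h : Good B D c) (k : ℕ) : uok D (c k).2 := by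
  cases h with
  | base _ δ hok hD =>
    cases hv : (B.b δ k).2 with
    | x α =>
      have h1 := B.mem δ hok k α hv
      exact (hD α h1.2).1 h1.1
    | y g β i => trivial
  | link D' _ β b _ hb hr hl =>
    have : Inhabited K := ⟨(c k).1⟩
    exact (hl k).2.uok

/-- the labels of a good branch are those of a basic branch.  Proof: induction on `Good`. -/
theorem good_label {D : Set K} {c : ℕ → YY K} (h : Good B D c) :
    ∃ δ, B.ok δ ∧ ∀ k, (c k).1 = (B.b δ k).1 := by
  induction h with
  | base _ δ hok hD => exact ⟨δ, hok, fun _ => rfl⟩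
  | link D' _ β b _ hb hr hl ih =>
    obtain ⟨δ, hok, h1⟩ := ih
    exact ⟨δ, hok, fun k => (hl k).1.trans (h1 k)⟩

/-- Proof.  `#K = #(K × K)` gives an equivalence `e : K ≃ K × K`; `π ρ = (e ρ).1`.  The fiber of `α` has size `#K > l`, so it is not contained in `Iic ξ` (size `≤ l`). -/
theorem exists_pi {l : Cardinal.{u}} [WellFoundedLT K] (hK : KOK l K) :
    ∃ π : K → K, ∀ α ξ : K, ∃ ρ, ξ < ρ ∧ π ρ = α := by
  have h0 : ℵ₀ ≤ #K := by
    rw [hK.card]
    exact hK.inf.trans (Order.le_succ l)
  have h1 : #K = #(K × K) := by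
    rw [Cardinal.mk_prod, Cardinal.lift_id, Cardinal.mul_eq_self h0]
  obtain ⟨e⟩ := Cardinal.eq.1 h1
  refine ⟨fun ρ => (e ρ).1, fun α ξ => ?_⟩
  by_contra hcon
  push Not at hcon
  have h2 : ∀ κ : K, e.symm (α, κ) ∈ Iic ξ := by
    intro κ
    rw [mem_Iic]
    by_contra h3
    push Not at h3
    refine hcon _ h3 ?_
    rw [Equiv.apply_symm_apply]
  have h3 : #K ≤ #(Iic ξ) := by
    refine Cardinal.mk_le_of_injective (f := fun κ : K => (⟨e.symm (α, κ), h2 κ⟩ : Iic ξ)) ?_
    intro κ κ' hk
    have h4 := congrArg Subtype.val hk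
    have h5 := e.symm.injective h4
    exact congrArg Prod.snd h5
  have h4 : #(Iic ξ) ≤ l := by
    have h5 : Iic ξ = insert ξ (Iio ξ) := by
      ext y
      simp [le_iff_eq_or_lt]
    rw [h5]
    refine (mk_insert_le).trans ?_
    exact add_le_of_le hK.inf (hK.init ξ) (one_le_aleph0.trans hK.inf)
  have h5 := h3.trans h4
  rw [hK.card] at h5
  exact absurd h5 (not_le.2 (Order.lt_succ l))

omit [LinearOrder K] in
private theorem mem_HY {c : ℕ → YY K} {j k : ℕ} : j ∈ HY π c k ↔ j < k ∧ hitY π c j := by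
  unfold HY
  rw [Finset.mem_filter, Finset.mem_range]

/-- The invariant: `t k` is the last time at which `k` was a hit, `n` the present time.  Proof: as `MP8da.gd_inv` in Lib_MP_8da2c8/Key.lean, by induction on `Good`.
Base: `n = 0`, `t = 0`.  Link `b → c`, with `n, t` for `b`: take `n + 1` and `t' k = if hitY π c k then n + 1 else t k`.  Third clause: `j < k`, `t' j = t' k < n + 1`, so `k` and `j` are not hits of `c`.
If `t k = n` then `k, j` are hits of `b`: `(b k).2 = .x α` with `α = π (b (k+1)).1 = π (c (k+1)).1`; the link at `k` is `xx` (then `k` is a hit of `c`, contradiction) or `out0`: `(c k).2 = .y (HY π b k) (β α) 0`, with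
`j ∈ HY π b k` and `β α < α` by `Reg`.  If `t k < n`, by induction `(b k).2 = .y g γ 0` with `j ∈ g`, `γ < π (b (k+1)).1`, and `j` is not a hit of `b`; the link at `k` must be `id`. -/
theorem good_inv {D : Set K} {c : ℕ → YY K} (h : Good B D c) :
    ∃ (n : ℕ) (t : ℕ → ℕ), (∀ k, t k ≤ n) ∧ (∀ k, t k = n ↔ hitY π c k) ∧
      ∀ j k, j < k → t j = t k → t k < n →
        ∃ g γ, (c k).2 = .y g γ 0 ∧ γ < π (c (k + 1)).1 ∧ j ∈ g := by
  induction h with
  | base _ δ hok hD =>
    refine ⟨0, fun _ => 0, fun _ => le_rfl, fun k => ⟨fun _ => B.hit δ hok k, fun _ => rfl⟩, ?_⟩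
    intro j k _ _ h
    exact absurd h (Nat.not_lt_zero 0)
  | link D E β b c _ hr hl ih =>
    obtain ⟨n, t, h1, h2, h3⟩ := ih
    refine ⟨n + 1, fun k => if hitY π c k then n + 1 else t k, ?_, ?_, ?_⟩
    · intro k
      dsimp only
      split_ifs
      · exact le_rfl
      · exact (h1 k).trans (Nat.le_succ n)
    · intro k
      dsimp only
      split_ifs with h
      · exact ⟨fun _ => h, fun _ => rfl⟩
      · constructor
        · intro h4
          have := h1 k
          omega
        · intro h4
          exact absurd h4 h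
    · intro j k hjk h4 h5
      dsimp only at h4 h5
      have hk : ¬ hitY π c k := by
        intro h6
        rw [if_pos h6] at h5
        exact lt_irrefl _ h5
      rw [if_neg hk] at h4 h5
      have hj : ¬ hitY π c j := by
        intro h6
        rw [if_pos h6] at h4
        omega
      rw [if_neg hj] at h4
      have hlab : (c (k + 1)).1 = (b (k + 1)).1 := (hl (k + 1)).1
      have hlk := (hl k).2
      by_cases h6 : t k = n
      · have hbk : hitY π b k := (h2 k).1 h6
        have hbj : hitY π b j := (h2 j).1 (h4.trans h6)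
        have hbk2 : (b k).2 = .x (π (c (k + 1)).1) := by
          rw [hlab]
          exact hbk
        rw [hbk2] at hlk
        generalize hv : (c k).2 = v at hlk
        cases hlk with
        | xx _ _ _ => exact absurd hv hk
        | out0 _ hD hE =>
          refine ⟨HY π b k, β (π (c (k + 1)).1), rfl, ?_, mem_HY.2 ⟨hjk, hbj⟩⟩
          exact hr.1 _ fun hiff => hE (hiff.1 hD)
      · have h7 : t k < n := lt_of_le_of_ne (h1 k) h6
        obtain ⟨g, γ, e1, hlt, hg⟩ := h3 j k hjk h4 h7
        have hbj : ¬ hitY π b j := by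
          intro h8
          have h9 := (h2 j).2 h8
          omega
        rw [← hlab] at hlt
        rw [e1] at hlk
        generalize hv : (c k).2 = v at hlk
        cases hlk with
        | outS _ _ _ _ => exact absurd (mem_HY.1 hg).2 hbj
        | in0 _ _ _ => exact absurd (mem_HY.1 hg).2 hj
        | id _ _ _ _ _ => exact ⟨g, γ, rfl, hlt, hg⟩

/-- all but finitely many positions are hits or carry `y g γ i` with `γ` below `π` of the next label.
Proof.  From `good_inv`: an exceptional `k` has `t k < n`, and two exceptional `j < k` have `t j ≠ t k`.  So `t` is injective from the set of exceptional positions to `Fin n`: this set is finite, hence bounded. -/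
theorem good_ok {D : Set K} {c : ℕ → YY K} (h : Good B D c) :
    ∃ k0, ∀ k ≥ k0, hitY π c k ∨ ∃ g γ i, (c k).2 = .y g γ i ∧ γ < π (c (k + 1)).1 := by
  obtain ⟨n, t, h1, h2, h3⟩ := good_inv h
  let X : Set ℕ := {k | ¬ (hitY π c k ∨ ∃ g γ i, (c k).2 = .y g γ i ∧ γ < π (c (k + 1)).1)}
  have hlt : ∀ k ∈ X, t k < n := by
    intro k hk
    refine lt_of_le_of_ne (h1 k) fun h4 => ?_
    exact hk (Or.inl ((h2 k).1 h4))
  have hne : ∀ j k, j < k → j ∈ X → k ∈ X → t j ≠ t k := by
    intro j k hjk _ hk e
    obtain ⟨g, γ, e1, e2, _⟩ := h3 j k hjk e (hlt k hk)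
    exact hk (Or.inr ⟨g, γ, 0, e1, e2⟩)
  have hinj : InjOn t X := by
    intro j hj k hk e
    rcases lt_trichotomy j k with h4 | h4 | h4
    · exact absurd e (hne j k h4 hj hk)
    · exact h4
    · exact absurd e.symm (hne k j h4 hk hj)
  have hfin : X.Finite := by
    refine Set.Finite.of_finite_image ?_ hinj
    refine (Set.finite_lt_nat n).subset ?_
    rintro _ ⟨k, hk, rfl⟩
    exact hlt k hk
  obtain ⟨k0, hk0⟩ := hfin.bddAbove
  refine ⟨k0 + 1, fun k hk => ?_⟩
  by_contra hcon
  have h4 : k ≤ k0 := hk0 hcon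
  omega

end MP8f
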