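import Pool.Agent.Lib_MP_8da2c8_full.DiaB

/-! STEP DiaC: Shelah's theorem: diamond on the points of cofinality `ω`, for `K` of type `λ⁺ = 2^λ`, `λ` regular uncountable. -/

namespace MP8f

open Cardinal Set MP8da
open scoped Classical

universe u v

variable {l : Cardinal.{u}} {K : Type u} [LinearOrder K] [WellFoundedLT K]

section defs

variable {K : Type u} [LinearOrder K] {I : Type u} [LinearOrder I] {Θ : Type u}

def DiaC_V (A : K → I → Set (K × K)) (en : K → K → I → I → K → Θ) (δ : K) (i τ : I)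
    (Z : I → I → K → Θ) : Set (K × K) :=
  {v | v ∈ A δ i ∧ ∀ σ < τ, ∀ j, ∀ ξ < v.1, en v.1 v.2 j σ ξ = Z σ j ξ}

noncomputable def DiaC_guess (d0 : Θ) (A : K → I → Set (K × K)) (en : K → K → I → I → K → Θ)
    (i τ : I) (Z : I → I → K → Θ) (δ ξ : K) : Θ :=
  if h : ∃ v, v ∈ DiaC_V A en δ i τ Z ∧ ξ < v.1 then en h.choose.1 h.choose.2 i τ ξ else d0

theorem DiaC_V_congr {A : K → I → Set (K × K)} {en : K → K → I → I → K → Θ} {i τ : I}
    {Z Z' : I → I → K → Θ} (h : ∀ σ < τ, Z σ = Z' σ) (δ : K) :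
    DiaC_V A en δ i τ Z = DiaC_V A en δ i τ Z' := by
  ext v
  constructor
  · rintro ⟨h1, h2⟩
    refine ⟨h1, fun σ hσ j ξ hξ => ?_⟩
    rw [h2 σ hσ j ξ hξ, h σ hσ]
  · rintro ⟨h1, h2⟩
    refine ⟨h1, fun σ hσ j ξ hξ => ?_⟩
    rw [h2 σ hσ j ξ hξ, h σ hσ]

theorem DiaC_guess_congr {d0 : Θ} {A : K → I → Set (K × K)} {en : K → K → I → I → K → Θ}
    {i τ : I} {Z Z' : I → I → K → Θ} (h : ∀ σ < τ, Z σ = Z' σ) :
    DiaC_guess d0 A en i τ Z = DiaC_guess d0 A en i τ Z' := by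
  funext δ ξ
  unfold DiaC_guess
  rw [DiaC_V_congr h δ]

end defs

/-- Proof.  Suppose not.  Choose `Zf : (K → K → Θ) → (K → Θ)` and `Cf` such that for all `g`: `Cf g` is a club and for all `δ ∈ Cf g` with `CofW δ` there is `ξ < δ` with
`g δ ξ ≠ Zf g ξ`.  Let `I`, `A`, `en` be as in DiaB.  For `Z : I → I → K → Θ`, `i τ : I`, `δ : K` let
`V δ i τ Z = {v ∈ A δ i | ∀ σ < τ, ∀ j, ∀ ξ < v.1, en v.1 v.2 j σ ξ = Z σ j ξ}`, and let `guess i τ Z δ ξ = en v.1 v.2 i τ ξ` for a chosen `v ∈ V δ i τ Z` with `ξ < v.1`, if there is one (arbitrary otherwise).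
By well-founded recursion on `τ` (`V` uses only `Z σ` with `σ < τ`) there is `Z` with `Z τ i = Zf (guess i τ Z)` for all `i, τ`.  For `α : K` let `f α` satisfy `∀ j σ, ∀ ξ < α, en α (f α) j σ ξ = Z σ j ξ`.
Let `δ` with `CofW δ` be in all `Cf (guess i τ Z)` (`club_small` for the index `I × I`) and closed under `f` (`f γ < δ` for `γ < δ`, `club_closed`), by `exists_cofw`.  Let `d` be
as in `CofW`.  Each `(d n, f (d n))` is in some `A δ (i n)`; so there is `i` with `(d n, f (d n)) ∈ A δ i` for all `n`, and then `(d n, f (d n)) ∈ V δ i τ Z` for all `n, τ`.  For every `τ` there is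
`ξ < δ` with `guess i τ Z δ ξ ≠ Z τ i ξ`; as `ξ < d n` for some `n`, the value is `en v.1 v.2 i τ ξ` for some `v = v τ ∈ V δ i τ Z` with `ξ < v.1`.  So `v τ ∉ V δ i τ' Z` for `τ < τ'`,
`v` is injective from `I` to `A δ i`, contradicting `#(A δ i) < l = #I`. -/
theorem diamond (hK : KOK l K) (hreg : l.IsRegular) (hunc : ℵ₀ < l) (Θ : Type u) [Nonempty Θ]
    (hΘ : #Θ ≤ #K) : ∃ g : K → K → Θ, ∀ (Z : K → Θ) (C : Set K), IsClub C →
      ∃ δ ∈ C, CofW δ ∧ ∀ ξ < δ, g δ ξ = Z ξ := by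
  by_contra hcon
  push Not at hcon
  choose Zf Cf hCf hno using hcon
  obtain ⟨d0⟩ := ‹Nonempty Θ›
  have h0 : ℵ₀ ≤ #K := by
    rw [hK.card]
    exact hK.inf.trans (Order.le_succ l)
  obtain ⟨k0⟩ : Nonempty K := mk_ne_zero_iff.1 (ne_of_gt (aleph0_pos.trans_le h0))
  obtain ⟨I, _, _, hI, hI2, hI3⟩ := exists_index hreg hunc
  obtain ⟨A, hA1, hA2, hA3⟩ := exists_matrix hK I hI hI2
  haveI : Nonempty Θ := ⟨d0⟩
  obtain ⟨en, hen⟩ := exists_enum hK I hI Θ hΘ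
  -- the recursion
  obtain ⟨Z, hZ⟩ : ∃ Z : I → I → K → Θ, ∀ τ i, Z τ i = Zf (DiaC_guess d0 A en i τ Z) := by
    let F : (τ : I) → ((σ : I) → σ < τ → I → K → Θ) → I → K → Θ := fun τ prev i =>
      Zf (DiaC_guess d0 A en i τ (fun σ j ξ => if h : σ < τ then prev σ h j ξ else d0))
    refine ⟨(wellFounded_lt (α := I)).fix F, fun τ i => ?_⟩
    rw [(wellFounded_lt (α := I)).fix_eq F τ]
    show Zf _ = Zf _
    congr 1
    refine DiaC_guess_congr fun σ hσ => ?_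
    funext j ξ
    rw [dif_pos hσ]
  choose f hf using fun α : K => hen α (fun j σ ξ => Z σ j ξ)
  have hcl1 : IsClub (⋂ p : I × I, Cf (DiaC_guess d0 A en p.1 p.2 Z)) := by
    refine club_small hK ?_ fun p => hCf _
    rw [mk_prod, lift_id, hI]
    exact (mul_eq_self hK.inf).le
  obtain ⟨C2, hC2, hC2'⟩ := club_closed hK (fun _ L => f (L.headD k0))
  obtain ⟨δ, ⟨hδ1, hδ2⟩, -, hδ⟩ := exists_cofw hK (club_inter hK hcl1 hC2) k0
  have hfd : ∀ γ < δ, f γ < δ := by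
    intro γ hγ
    have := (hC2' δ hδ2).2.2 0 [γ] (by
      intro x hx
      rw [List.mem_singleton.1 hx]
      exact hγ)
    simpa using this
  obtain ⟨d, hd1, hd2, hd3⟩ := id hδ
  choose ii hii using fun n : ℕ => hA3 δ (d n) (f (d n)) (hd2 n) (hfd _ (hd2 n))
  obtain ⟨i, hi⟩ := hI3 ii
  have hmem : ∀ n τ, (d n, f (d n)) ∈ DiaC_V A en δ i τ Z := fun n τ =>
    ⟨hA1 δ _ _ (hi n) (hii n), fun σ _ j ξ hξ => hf (d n) j σ ξ hξ⟩
  have hkey : ∀ τ : I, ∃ v ∈ DiaC_V A en δ i τ Z, ∃ ξ < v.1, en v.1 v.2 i τ ξ ≠ Z τ i ξ := by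
    intro τ
    have h1 : δ ∈ Cf (DiaC_guess d0 A en i τ Z) := mem_iInter.1 hδ1 (i, τ)
    obtain ⟨ξ, hξ, hne⟩ := hno _ δ h1 hδ
    obtain ⟨n, hn⟩ := hd3 ξ hξ
    have h2 : ∃ v, v ∈ DiaC_V A en δ i τ Z ∧ ξ < v.1 := ⟨_, hmem n τ, hn⟩
    refine ⟨h2.choose, h2.choose_spec.1, ξ, h2.choose_spec.2, ?_⟩
    rw [← hZ τ i] at hne
    have h3 : DiaC_guess d0 A en i τ Z δ ξ = en h2.choose.1 h2.choose.2 i τ ξ := dif_pos h2
    rw [← h3]
    exact hne
  choose v hv ξ hξ hne using hkey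
  have hinj : Function.Injective v := by
    have h1 : ∀ τ τ', τ < τ' → v τ ≠ v τ' := by
      intro τ τ' hlt he
      have h2 := (hv τ').2 τ hlt i (ξ τ) (he ▸ hξ τ)
      rw [← he] at h2
      exact hne τ h2
    intro τ τ' he
    rcases lt_trichotomy τ τ' with h | h | h
    · exact absurd he (h1 _ _ h)
    · exact h
    · exact absurd he.symm (h1 _ _ h)
  have h5 : #I ≤ #(A δ i) :=
    mk_le_of_injective (f := fun τ => (⟨v τ, (hv τ).1⟩ : A δ i))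
      (fun τ τ' h => hinj (congrArg Subtype.val h))
  rw [hI] at h5
  exact absurd (hA2 δ i) (not_lt.2 h5)

end MP8f
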