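import Pool.Agent.Lib_MP_8da2c8_full.CombA
import Pool.Agent.Lib_MP_8da2c8_full.DiaC

/-! STEP CombC: the basic branches, from the diamond. -/

namespace MP8f

open Cardinal Set MP8da
open scoped Classical

universe u v

variable {l : Cardinal.{u}} {K : Type u} [LinearOrder K] [WellFoundedLT K]

/-- the branch given by `α` and `ρ` -/
def brn (α ρ : ℕ → K) : ℕ → YY K
  | 0 => (α 0, .x (α 0))
  | k + 1 => (ρ k, .x (α (k + 1)))

/-- the list `[α k, ρ (k - 1), …, ρ 0, α 0]` -/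
def CombC_LL (α ρ : ℕ → K) : ℕ → List K
  | 0 => [α 0]
  | k + 1 => α (k + 1) :: ρ k :: CombC_LL α ρ k

/-- the list of symbols coded by a list -/
def CombC_dec : List K → List (YY K)
  | [] => []
  | [a] => [(a, .x a)]
  | a :: r :: L => (r, .x a) :: CombC_dec L

omit [LinearOrder K] [WellFoundedLT K] in
theorem CombC_dec_LL (α ρ : ℕ → K) (k : ℕ) :
    CombC_dec (CombC_LL α ρ k) = seg (brn α ρ) (k + 1) := by
  induction k with
  | zero => rfl
  | succ k ih =>
    show (ρ k, US.x (α (k + 1))) :: CombC_dec (CombC_LL α ρ k) = _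
    rw [ih]
    rfl

omit [WellFoundedLT K] in
theorem CombC_LL_lt {α ρ : ℕ → K} {δ : K} (h1 : ∀ k, α k < δ) (h2 : ∀ k, ρ k < δ) (k : ℕ) :
    ∀ x ∈ CombC_LL α ρ k, x < δ := by
  induction k with
  | zero =>
    intro x hx
    simp only [CombC_LL, List.mem_singleton] at hx
    rw [hx]
    exact h1 0
  | succ k ih =>
    intro x hx
    simp only [CombC_LL, List.mem_cons] at hx
    rcases hx with rfl | rfl | hx
    · exact h1 _
    · exact h2 _
    · exact ih x hx

theorem CombC_card (hK : KOK l K) : #(Bool × Bool × Bool × (ℕ → K)) ≤ #K := by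
  have h0 : ℵ₀ ≤ #K := by
    rw [hK.card]
    exact hK.inf.trans (Order.le_succ l)
  have h1 : #(ℕ → K) ≤ #K := by
    have e1 : #(ℕ → K) = #K ^ (ℵ₀ : Cardinal.{u}) := by simp
    rw [e1]
    have e2 : #K = 2 ^ l := by rw [hK.card, hK.gch]
    rw [e2, ← power_mul, mul_aleph0_eq hK.inf]
  have hb : ∀ X : Type u, #X ≤ #K → #(Bool × X) ≤ #K := by
    intro X hX
    rw [mk_prod, lift_uzero]
    refine (mul_le_mul' (b := #K) ?_ hX).trans (mul_eq_self h0).le
    refine le_trans ?_ h0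
    rw [mk_bool]
    simp
  exact hb _ (hb _ (hb _ h1))

/-- `(α, ρ)` fits -/
def CombC_Fits (π : K → K) (cd : List K → K) (gd : K → Bool × Bool × Bool × (ℕ → K)) (δ : K)
    (p : (ℕ → K) × (ℕ → K)) : Prop :=
  (∀ k, (gd (p.1 k)).1 = true ∧ (gd (p.1 k)).2.1 = false ∧ (gd (p.1 k)).2.2.1 = true ∧
    p.1 k < p.2 k ∧ p.2 k < p.1 (k + 1) ∧ p.1 k < δ ∧ π (p.2 k) = p.1 k ∧
    p.2 k ∉ range (gd (cd (CombC_LL p.1 p.2 k))).2.2.2) ∧ ∀ ξ < δ, ∃ k, ξ < p.1 k

theorem CombC_unbdd (hK : KOK l K) {A C : Set K} (hA : IsStationary A) (hC : IsClub C) (γ : K) :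
    ∃ α, γ < α ∧ α ∈ A ∧ α ∈ C := by
  obtain ⟨γ', hγ'⟩ := bdd_small hK {γ} (by rw [mk_singleton]; exact one_le_aleph0.trans hK.inf)
  have h1 : γ < γ' := hγ' γ rfl
  obtain ⟨C', hC', h2⟩ := club_closed hK (fun _ _ => γ')
  obtain ⟨x, hxA, hxC, hxC'⟩ := hA (club_inter hK hC hC')
  exact ⟨x, h1.trans ((h2 x hxC').2.2 0 [] (fun y hy => absurd hy List.not_mem_nil)), hxA, hxC⟩

theorem CombC_rho (hK : KOK l K) {π : K → K} (hπ : ∀ α ξ : K, ∃ ρ, ξ < ρ ∧ π ρ = α)
    (f : ℕ → K) (α : K) : ∃ ρ, α < ρ ∧ π ρ = α ∧ ρ ∉ range f := by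
  obtain ⟨ξ, hξ⟩ := bdd_small hK (insert α (range f)) (by
    refine (mk_insert_le).trans ?_
    refine add_le_of_le hK.inf ?_ (one_le_aleph0.trans hK.inf)
    exact le_trans (countable_range f).le_aleph0 hK.inf)
  obtain ⟨ρ, h1, h2⟩ := hπ α ξ
  refine ⟨ρ, (hξ α (mem_insert _ _)).trans h1, h2, fun h3 => ?_⟩
  exact absurd (h1.trans (hξ ρ (mem_insert_of_mem _ h3))) (lt_irrefl _)

/-- Proof.  Let `Θ = Bool × Bool × Bool × (ℕ → K)` (`#Θ ≤ #K`: `#(ℕ → K) = (2 ^ l) ^ ℵ₀ = 2 ^ l`), `g` as in `diamond`, `cd : List K → K` injective (`#(List K) ≤ #K`), `π` from `exists_pi`. -/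
theorem exists_BD (hK : KOK l K) (hreg : l.IsRegular) (hunc : ℵ₀ < l) :
    ∃ (π : K → K) (B : BD K π), ∀ D E C : Set K, IsStationary (D \ E) → IsClub C →
      ∀ S : List (YY K) → Set K, (∀ s, (S s).Countable) →
      ∃ (δ : K) (α ρ : ℕ → K), B.ok δ ∧ (∀ γ < δ, (γ ∈ B.D δ ↔ γ ∈ D)) ∧ B.b δ = brn α ρ ∧
        (∀ k, α k ∈ D \ E ∧ α k ∈ C ∧ α k < ρ k ∧ ρ k < α (k + 1) ∧ α k < δ ∧ π (ρ k) = α k ∧
          ρ k ∉ S (seg (brn α ρ) (k + 1))) ∧ ∀ ξ < δ, ∃ k, ξ < α k := by
  have h0 : ℵ₀ ≤ #K := by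
    rw [hK.card]
    exact hK.inf.trans (Order.le_succ l)
  have hne : Nonempty K := mk_ne_zero_iff.1 (ne_of_gt (aleph0_pos.trans_le h0))
  haveI : Infinite K := infinite_iff.2 h0
  obtain ⟨k0⟩ := hne
  haveI : Inhabited K := ⟨k0⟩
  obtain ⟨π, hπ⟩ := exists_pi hK
  obtain ⟨g, hg⟩ := diamond hK hreg hunc (Bool × Bool × Bool × (ℕ → K)) (CombC_card hK)
  obtain ⟨cd, hcd⟩ : ∃ cd : List K → K, Function.Injective cd := by
    obtain ⟨e⟩ := (le_def (List K) K).1 (mk_list_eq_mk K).le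
    exact ⟨e, e.injective⟩
  let B : BD K π :=
    { ok := fun δ => ∃ p, CombC_Fits π cd (g δ) δ p
      D := fun δ => {α | (g δ α).1 = true}
      b := fun δ => if h : ∃ p, CombC_Fits π cd (g δ) δ p then brn h.choose.1 h.choose.2
        else brn (fun _ => k0) (fun _ => k0)
      hit := by
        intro δ hok k
        rw [dif_pos hok]
        have h1 := hok.choose_spec
        unfold hitY
        cases k with
        | zero => exact congrArg US.x (h1.1 0).2.2.2.2.2.2.1.symm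
        | succ k => exact congrArg US.x (h1.1 (k + 1)).2.2.2.2.2.2.1.symm
      mem := by
        intro δ hok k α hα
        rw [dif_pos hok] at hα
        have h1 := hok.choose_spec
        have h2 : α = hok.choose.1 k := by
          cases k with
          | zero => exact (US.x.inj hα).symm
          | succ k => exact (US.x.inj hα).symm
        rw [h2]
        exact ⟨(h1.1 k).1, (h1.1 k).2.2.2.2.2.1⟩
      lt := by
        intro δ hok k
        rw [dif_pos hok]
        have h1 := hok.choose_spec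
        cases k with
        | zero => exact (h1.1 0).2.2.2.2.2.1
        | succ k => exact (h1.1 k).2.2.2.2.1.trans (h1.1 (k + 1)).2.2.2.2.2.1
      cof := by
        intro δ hok ξ hξ
        rw [dif_pos hok]
        have h1 := hok.choose_spec
        obtain ⟨k, hk⟩ := h1.2 ξ hξ
        exact ⟨k + 1, hk.trans (h1.1 k).2.2.2.1⟩ }
  refine ⟨π, B, ?_⟩
  intro D E C hDE hC S hS
  have hen : ∀ L : List K, ∃ f : ℕ → K, S (CombC_dec L) ⊆ range f := fun L =>
    countable_iff_exists_subset_range.1 (hS _)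
  choose en hen using hen
  choose f0 hf0 using CombC_unbdd hK hDE hC
  choose r hr1 hr2 hr3 using fun (L : List K) (α : K) => CombC_rho hK hπ (en L) α
  let Z : K → Bool × Bool × Bool × (ℕ → K) := fun ξ =>
    (decide (ξ ∈ D), decide (ξ ∈ E), decide (ξ ∈ C), en (Function.invFun cd ξ))
  obtain ⟨C1, hC1, hC1'⟩ := club_closed hK (fun n L =>
    match n with
    | 0 => f0 (L.headD k0)
    | 1 => cd L
    | _ => r L (L.headD k0))
  obtain ⟨δ, hδ, ⟨d, hd1, hd2, hd3⟩, hgδ⟩ := hg Z C1 hC1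
  obtain ⟨-, -, hcl⟩ := hC1' δ hδ
  have hcl0 : ∀ γ < δ, f0 γ < δ := by
    intro γ hγ
    have := hcl 0 [γ] (by
      intro x hx
      rw [List.mem_singleton.1 hx]
      exact hγ)
    simpa using this
  have hcl1 : ∀ L : List K, (∀ x ∈ L, x < δ) → cd L < δ := fun L hL => hcl 1 L hL
  have hcl2 : ∀ L : List K, (∀ x ∈ L, x < δ) → r L (L.headD k0) < δ := fun L hL => hcl 2 L hL
  have hZcd : ∀ L : List K, (∀ x ∈ L, x < δ) → (g δ (cd L)).2.2.2 = en L := by
    intro L hL
    rw [hgδ _ (hcl1 L hL)]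
    show en (Function.invFun cd (cd L)) = en L
    rw [Function.leftInverse_invFun hcd]
  -- the recursion
  let st : ℕ → List K := fun n => Nat.rec [f0 (d 0)]
    (fun n L => f0 (max (r L (L.headD k0)) (d (n + 1))) :: r L (L.headD k0) :: L) n
  let al : ℕ → K := fun n => (st n).headD k0
  let rh : ℕ → K := fun n => r (st n) (al n)
  have hst0 : st 0 = [f0 (d 0)] := rfl
  have hst1 : ∀ n, st (n + 1) = f0 (max (rh n) (d (n + 1))) :: rh n :: st n := fun n => rfl
  have hal0 : al 0 = f0 (d 0) := rfl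
  have hal1 : ∀ n, al (n + 1) = f0 (max (rh n) (d (n + 1))) := fun n => rfl
  have hstL : ∀ n, st n = CombC_LL al rh n := by
    intro n
    induction n with
    | zero => rfl
    | succ n ih =>
      rw [hst1, ih]
      rfl
  have hstlt : ∀ n, ∀ x ∈ st n, x < δ := by
    intro n
    induction n with
    | zero =>
      intro x hx
      rw [hst0, List.mem_singleton] at hx
      rw [hx]
      exact hcl0 _ (hd2 0)
    | succ n ih =>
      have h1 : rh n < δ := hcl2 _ ih
      intro x hx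
      rw [hst1, List.mem_cons, List.mem_cons] at hx
      rcases hx with rfl | rfl | hx
      · exact hcl0 _ (max_lt h1 (hd2 _))
      · exact h1
      · exact ih x hx
  have hrh : ∀ n, rh n < δ := fun n => hcl2 _ (hstlt n)
  have hal : ∀ n, al n < δ := by
    intro n
    cases n with
    | zero => exact hcl0 _ (hd2 0)
    | succ n => exact hcl0 _ (max_lt (hrh n) (hd2 _))
  have hald : ∀ n, d n < al n ∧ al n ∈ D \ E ∧ al n ∈ C := by
    intro n
    cases n with
    | zero => exact hf0 _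
    | succ n =>
      have h1 := hf0 (max (rh n) (d (n + 1)))
      exact ⟨(le_max_right _ _).trans_lt h1.1, h1.2⟩
  have hfit : CombC_Fits π cd (g δ) δ (al, rh) := by
    refine ⟨fun k => ?_, fun ξ hξ => ?_⟩
    · have h1 := hald k
      have h2 : g δ (al k) = Z (al k) := hgδ _ (hal k)
      refine ⟨?_, ?_, ?_, hr1 _ _, ?_, hal k, hr2 _ _, ?_⟩
      · show (g δ (al k)).1 = true
        rw [h2]
        exact decide_eq_true h1.2.1.1
      · show (g δ (al k)).2.1 = false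
        rw [h2]
        exact decide_eq_false h1.2.1.2
      · show (g δ (al k)).2.2.1 = true
        rw [h2]
        exact decide_eq_true h1.2.2
      · show rh k < al (k + 1)
        exact (le_max_left _ _).trans_lt (hf0 (max (rh k) (d (k + 1)))).1
      · show rh k ∉ range (g δ (cd (CombC_LL al rh k))).2.2.2
        rw [← hstL, hZcd _ (hstlt k)]
        exact hr3 _ _
    · obtain ⟨n, hn⟩ := hd3 ξ hξ
      exact ⟨n, hn.trans (hald n).1⟩
  have hok : ∃ p, CombC_Fits π cd (g δ) δ p := ⟨_, hfit⟩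
  have h1 := hok.choose_spec
  have hb : B.b δ = brn hok.choose.1 hok.choose.2 := dif_pos hok
  refine ⟨δ, hok.choose.1, hok.choose.2, hok, ?_, hb, ?_, h1.2⟩
  · intro γ hγ
    show (g δ γ).1 = true ↔ γ ∈ D
    rw [hgδ γ hγ]
    show decide (γ ∈ D) = true ↔ γ ∈ D
    exact decide_eq_true_iff
  · generalize hok.choose = p at h1
    obtain ⟨α, ρ⟩ := p
    dsimp only at h1 ⊢
    intro k
    obtain ⟨a1, a2, a3, a4, a5, a6, a7, a8⟩ := h1.1 k
    dsimp only at a1 a2 a3 a4 a5 a6 a7 a8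
    have h2 : g δ (α k) = Z (α k) := hgδ _ a6
    rw [h2] at a1 a2 a3
    have hρ : ∀ k, ρ k < δ := fun k => (h1.1 k).2.2.2.2.1.trans (h1.1 (k + 1)).2.2.2.2.2.1
    have hLL := CombC_LL_lt (fun k => (h1.1 k).2.2.2.2.2.1) hρ k
    rw [hZcd _ hLL] at a8
    refine ⟨⟨of_decide_eq_true a1, of_decide_eq_false a2⟩, of_decide_eq_true a3, a4, a5, a6, a7, ?_⟩
    intro h3
    rw [← CombC_dec_LL] at h3
    exact a8 (hen _ h3)

end MP8f
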