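import Pool.Agent.Lib_MP_8da2c8_full.CombC

/-! STEP CombD: the combinatorial theorem. -/

namespace MP8f

open Cardinal Set MP8da
open scoped Classical

universe u v

variable {l : Cardinal.{u}} {K : Type u} [LinearOrder K] [WellFoundedLT K]

/-- Proof.  Let `δ, α, ρ` be as in `exists_BD`, `c` good for `E` with `h1`, `h2`.  By `good_label` the labels of `c` are those of `B.b δ'` for some ok `δ'`.
(a) `δ' ≤ δ`: otherwise `δ < (B.b δ' k).1 = (c k).1` for some `k` (`B.cof`), but `(c k).1 < α j < δ` for some `j` by `h1`.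
(b) `δ' = δ`: suppose `δ' < δ`.  `π (c (k+1)).1 < δ'` for all `k`: `B.hit` says `(B.b δ' k).2 = .x (π (B.b δ' (k + 1)).1)`, use `B.mem`.  By `good_ok` there is `k0` such that for `k ≥ k0` the ordinal `usr (c k).2` is `≤ π (c (k + 1)).1 < δ'`.  Labels are
`< δ'` (`B.lt`).  By `h1` for `m = k0` and `δ' < α j` for some `j` there is `i` with `Ylt (c k) (α i)` for all `k`, contradicting `h2`.
(c) So `(c (k + 1)).1 = ρ k` for all `k` and `(c 0).1 = α 0`.  By `good_ok` there is `k0` such that for `k ≥ k0` either `(c k).2 = .x (π (ρ k)) = .x (α k)`, impossible as `α k ∉ E` (`good_uok`), or `usr (c k).2 < π (ρ k) = α k`.  By `h1` there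
is `i` with `Ylt (c j) (α i)` for `j < k0`.  For `k ≥ max k0 i + 1`: `(c j).1 < α k` for `j ≤ k` (`ρ (j - 1) < α j`), and `usr (c j).2 < α k` for `j ≤ k`. -/
theorem comb_key {π : K → K} {B : BD K π} {E : Set K} {δ : K} {α ρ : ℕ → K} (hok : B.ok δ)
    (hb : B.b δ = brn α ρ) (hE : ∀ k, α k ∉ E) (h3 : ∀ k, α k < ρ k ∧ ρ k < α (k + 1))
    (hlt : ∀ k, α k < δ) (hπ : ∀ k, π (ρ k) = α k) (hcof : ∀ ξ < δ, ∃ k, ξ < α k)
    {c : ℕ → YY K} (hc : Good B E c) (h1 : ∀ m, ∃ k, ∀ j < m, Ylt (c j) (α k))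
    (h2 : ∀ k, ∃ j, ¬ Ylt (c j) (α k)) :
    ∃ k0, ∀ k ≥ k0, (c (k + 1)).1 = ρ k ∧ ∀ j ≤ k, Ylt (c j) (α k) := by
  have hmono : StrictMono α := strictMono_nat_of_lt_succ fun k => (h3 k).1.trans (h3 k).2
  obtain ⟨δ', hok', hlab⟩ := good_label hc
  have ha : ¬ δ < δ' := by
    intro hlt'
    obtain ⟨k, hk⟩ := B.cof δ' hok' δ hlt'
    obtain ⟨i, hi⟩ := h1 (k + 1)
    have h4 := (hi k (Nat.lt_succ_self k)).1
    rw [hlab k] at h4
    exact absurd ((hk.trans h4).trans (hlt i)) (lt_irrefl δ)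
  have hb' : ¬ δ' < δ := by
    intro hlt'
    have hπ' : ∀ k, π (c (k + 1)).1 < δ' := by
      intro k
      rw [hlab (k + 1)]
      exact (B.mem δ' hok' k _ (B.hit δ' hok' k)).2
    obtain ⟨k0, hk0⟩ := good_ok hc
    have husr : ∀ k ≥ k0, usr (c k).2 < δ' := by
      intro k hk
      rcases hk0 k hk with h4 | ⟨g, γ, i, h4, h5⟩
      · have h6 : (c k).2 = .x (π (c (k + 1)).1) := h4
        rw [h6]
        exact hπ' k
      · rw [h4]
        exact h5.trans (hπ' k)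
    obtain ⟨i1, hi1⟩ := h1 k0
    obtain ⟨i2, hi2⟩ := hcof δ' hlt'
    obtain ⟨j, hj⟩ := h2 (max i1 i2)
    apply hj
    by_cases hjk : j < k0
    · have h4 := hi1 j hjk
      have h5 : α i1 ≤ α (max i1 i2) := hmono.monotone (le_max_left _ _)
      exact ⟨h4.1.trans_le h5, h4.2.trans_le h5⟩
    · have h5 : α i2 ≤ α (max i1 i2) := hmono.monotone (le_max_right _ _)
      have h6 : δ' < α (max i1 i2) := hi2.trans_le h5
      refine ⟨?_, (husr j (not_lt.1 hjk)).trans h6⟩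
      rw [hlab j]
      exact (B.lt δ' hok' j).trans h6
  have hδ : δ' = δ := le_antisymm (not_lt.1 ha) (not_lt.1 hb')
  subst hδ
  have hl0 : (c 0).1 = α 0 := by
    rw [hlab 0, hb]
    rfl
  have hls : ∀ k, (c (k + 1)).1 = ρ k := by
    intro k
    rw [hlab (k + 1), hb]
    rfl
  obtain ⟨k0, hk0⟩ := good_ok hc
  have husr : ∀ k ≥ k0, usr (c k).2 < α k := by
    intro k hk
    rcases hk0 k hk with h4 | ⟨g, γ, i, h4, h5⟩
    · have h6 : (c k).2 = .x (π (c (k + 1)).1) := h4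
      have h7 := good_uok hc k
      rw [h6, hls k, hπ k] at h7
      exact absurd h7 (hE k)
    · rw [hls k, hπ k] at h5
      rw [h4]
      exact h5
  obtain ⟨i, hi⟩ := h1 k0
  refine ⟨max k0 i + 1, fun k hk => ⟨hls k, fun j hjk => ⟨?_, ?_⟩⟩⟩
  · cases j with
    | zero =>
      rw [hl0]
      exact hmono (by omega)
    | succ j =>
      rw [hls j]
      exact (h3 j).2.trans_le (hmono.monotone hjk)
  · by_cases hj : j < k0
    · exact (hi j hj).2.trans_le (hmono.monotone (by omega))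
    · exact (husr j (not_lt.1 hj)).trans_le (hmono.monotone hjk)

/-- The combinatorial theorem, from `exists_BD` and `comb_key`. -/
theorem comb (hK : KOK l K) (hreg : l.IsRegular) (hunc : ℵ₀ < l) :
    ∃ (π : K → K) (B : BD K π), ∀ D E C : Set K, IsStationary (D \ E) → IsClub C →
      ∀ S : List (YY K) → Set K, (∀ s, (S s).Countable) →
      ∃ α ρ : ℕ → K, Good B D (brn α ρ) ∧
        (∀ k, α k ∈ C ∧ α k < ρ k ∧ ρ k < α (k + 1) ∧ ρ k ∉ S (seg (brn α ρ) (k + 1))) ∧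
        ∀ c, Good B E c → (∀ m, ∃ k, ∀ j < m, Ylt (c j) (α k)) →
          (∀ k, ∃ j, ¬ Ylt (c j) (α k)) →
          ∃ k0, ∀ k ≥ k0, (c (k + 1)).1 = ρ k ∧ ∀ j ≤ k, Ylt (c j) (α k) := by
  obtain ⟨π, B, h⟩ := exists_BD hK hreg hunc
  refine ⟨π, B, fun D E C hDE hC S hS => ?_⟩
  obtain ⟨δ, α, ρ, h1, h2, h3, h4, h5⟩ := h D E C hDE hC S hS
  refine ⟨α, ρ, ?_, fun k => ⟨(h4 k).2.1, (h4 k).2.2.1, (h4 k).2.2.2.1, (h4 k).2.2.2.2.2.2⟩, ?_⟩
  · rw [← h3]
    exact Good.base D δ h1 h2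
  · intro c hc hc1 hc2
    exact comb_key h1 h3 (fun k => (h4 k).1.2) (fun k => ⟨(h4 k).2.2.1, (h4 k).2.2.2.1⟩)
      (fun k => (h4 k).2.2.2.2.1) (fun k => (h4 k).2.2.2.2.2.1) h5 hc hc1 hc2

end MP8f
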