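import Pool.Agent.Lib_MP_8da2c8_full.Sys

/-! STEP CrA: the ladder argument. -/

namespace MP8f

open Cardinal Set FirstOrder Filter
open scoped Classical

universe u v w x

variable {L : FirstOrder.Language.{0, 0}} {M : Type u} [L.Structure M] [Nonempty M]
variable {N : Type v} {Λ : Type} [LinearOrder Λ]

/-- `no_ladder` for relations with parameters: `P x y ↔ Q x (y, params)` -/
theorem no_ladderU (hS : Stb L M) {β : Type w} {P : (ℕ → M) → (β → M) → Prop}
    (hP : DefU2 L univ P) : ∃ n : ℕ, ∀ (x : ℕ → ℕ → M) (y : ℕ → β → M),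
      ¬ ∀ i < n, ∀ j < n, (P (x i) (y j) ↔ i < j) := by
  obtain ⟨Q, hQ, hPQ⟩ := hP
  have hR : Dfn2 L fun (x : ℕ → M) (y : β ⊕ (univ : Set M) → M) =>
      Q (Sum.elim (Sum.elim x fun j => y (.inl j)) fun a => y (.inr a)) := by
    refine (hQ.at (Sum.elim (Sum.elim Sum.inl fun j => Sum.inr (Sum.inl j))
      fun a => Sum.inr (Sum.inr a))).congr fun z => ?_
    refine iff_of_eq (congrArg Q ?_)
    funext i
    rcases i with (i | i) | i <;> rfl
  obtain ⟨N, hN⟩ := hS.no_ladder hR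
  refine ⟨N, fun x y h => hN x (fun j => Sum.elim (y j) fun a => a.1) fun i hi j hj => ?_⟩
  rw [← h i hi j hj]
  exact (hPQ (Sum.elim (x i) (y j))).symm

/-- The ladder argument.  `M0` is elementary, `E` is an equivalence relation on blocks, definable over `M0`, with finitely many
classes, `P x v` is definable over `M0`; any `n` elements of the class of `a` have a common `v`; `P` has no ladder of length `n`.
Then there is `v` in `M0` with `P a v`.
Proof.  Suppose not.  By `FinEq.reps` and `Elt.ex` (the condition `∀ x, ∃ i, E (w i) x` on `w : Fin k × ℕ → M`) there are representatives in `M0`;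
so there is `a0` in `M0` with `E a0 a`.  Apply `build_ladder` with `A x = (x is in M0) ∧ E x a0`, `B v = (v is in M0)`: `h1`: given `x i` (`i < m < n`)
in `A`, there is `v` with `P (x i) v` for all `i < m` (`hv`, fill up with `a`), so there is such a `v` in `M0` (`Elt.ex`, the `x i` are parameters from `M0`);
`h2`: given `v j` (`j ≤ m`) in `M0`, `a` satisfies `E x a0 ∧ ∀ j ≤ m, ¬ P x (v j)`, so some `x` in `M0` does. -/
theorem ladder_arg {M0 : Set M} (he : Elt L M0) {E P : (ℕ → M) → (ℕ → M) → Prop}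
    (hE : DefU2 L M0 E) (hEf : FinEq E) (hP : DefU2 L M0 P) (a : ℕ → M) (n : ℕ)
    (hv : ∀ x : Fin n → ℕ → M, (∀ i, E (x i) a) → ∃ v, ∀ i, P (x i) v)
    (hn : ∀ x v : ℕ → ℕ → M, ¬ ∀ i < n, ∀ j < n, (P (x i) (v j) ↔ i < j)) :
    ∃ v, (∀ i, v i ∈ M0) ∧ P a v := by
  obtain ⟨k, w, hw⟩ := hEf.reps
  have hdef : DefU L M0 fun z : Fin k × ℕ → M => ∀ x : ℕ → M, ∃ i : Fin k, E (fun m => z (i, m)) x := by
    refine DefU.allB (P := fun (z : Fin k × ℕ → M) (x : ℕ → M) =>
      ∃ i : Fin k, E (fun m => z (i, m)) x) ?_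
    exact DefU.ex_fin fun i => hE.at (fun m => Sum.inl (i, m)) Sum.inr
  obtain ⟨z, hzM, hz⟩ := he.ex hdef ⟨fun q => w q.1 q.2, fun x => hw x⟩
  obtain ⟨i0, hi0⟩ := hz a
  obtain ⟨a0, ha0M, ha0⟩ : ∃ a0 : ℕ → M, (∀ m, a0 m ∈ M0) ∧ E a0 a :=
    ⟨fun m => z (i0, m), fun m => hzM _, hi0⟩
  by_contra hcon
  push Not at hcon
  obtain ⟨x, v, hxv⟩ := build_ladder P (fun x => (∀ m, x m ∈ M0) ∧ E x a0)
    (fun v => ∀ m, v m ∈ M0) n
    (fun m hm x hx => by
      obtain ⟨v, hv'⟩ := hv (fun i => if (i : ℕ) < m then x i else a) (fun i => by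
        by_cases h : (i : ℕ) < m
        · simp only [h, if_true]
          exact hEf.1.trans (hx i h).2 ha0
        · simp only [h, if_false]
          exact hEf.1.refl a)
      have hd : DefU L M0 fun v : ℕ → M => ∀ i : Fin m, P (x i) v :=
        DefU.all_fin fun i => hP.subst' (x i) (hx i i.2).1
      obtain ⟨v', hv1, hv2⟩ := he.ex hd ⟨v, fun i => by
        have h1 := hv' ⟨i, lt_trans i.2 hm⟩
        have h2 : ((⟨i, lt_trans i.2 hm⟩ : Fin n) : ℕ) < m := i.2
        simp only [h2, if_true] at h1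
        exact h1⟩
      exact ⟨v', hv1, fun i hi => hv2 ⟨i, hi⟩⟩)
    (fun m _ y hy => by
      have hd : DefU L M0 fun x : ℕ → M => E x a0 ∧ ∀ j : Fin (m + 1), ¬ P x (y j) :=
        (hE.subst a0 ha0M).and (DefU.all_fin fun j =>
          (hP.subst (y j) (hy j (Nat.lt_succ_iff.1 j.2))).not)
      obtain ⟨x', hx1, hx2, hx3⟩ := he.ex hd ⟨a, hEf.1.symm ha0, fun j =>
        hcon (y j) (hy j (Nat.lt_succ_iff.1 j.2))⟩
      exact ⟨x', ⟨hx1, hx2⟩, fun j hj => hx3 ⟨j, Nat.lt_succ_iff.2 hj⟩⟩)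
  exact hn x v hxv

end MP8f
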