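import Pool.Agent.Lib_MP_8da2c8_full.Fr
import Pool.Agent.Lib_MP_8da2c8_full.CrA

/-! STEP CrB: the coheir lemma. -/

namespace MP8f

open Cardinal Set FirstOrder Filter
open scoped Classical

universe u v w x

variable {L : FirstOrder.Language.{0, 0}} {M : Type u} [L.Structure M] [Nonempty M]
variable {N : Type v} {Λ : Type} [LinearOrder Λ]

/-- the block `y` with the coordinates in `I` taken from `v` -/
private noncomputable def kap (I : Set ℕ) (jj : ℕ → ℕ) (v y : ℕ → M) : ℕ → M :=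
  fun i => if i ∈ I then v (jj i) else y i

omit [Nonempty M] in
private theorem kap_def {A : Set M} {P : (ℕ → M) → (ℕ → M) → Prop} (hP : DefU2 L A P)
    (I : Set ℕ) (jj : ℕ → ℕ) {γ : Type w} (f1 fv fu : ℕ → γ) :
    DefU L A fun z : γ → M =>
      P (fun j => z (f1 j)) (kap I jj (fun j => z (fv j)) fun j => z (fu j)) := by
  refine (DefU2.at hP f1 fun j => if j ∈ I then fv (jj j) else fu j).congr fun z => ?_
  refine iff_of_eq (congrArg (P _) ?_)
  funext j
  unfold kap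
  by_cases hj : j ∈ I
  · rw [if_pos hj, if_pos hj]
  · rw [if_neg hj, if_neg hj]

omit [Nonempty M] in
private theorem rel_def {A : Set M} {δ : Type w} {Q : (δ ⊕ δ → M) → (ℕ → M) → Prop}
    (hQ : DefU2 L A Q) {γ : Type x} (f1 f2 : δ → γ) (g : ℕ → γ) :
    DefU L A fun z : γ → M =>
      Q (Sum.elim (fun i => z (f1 i)) fun i => z (f2 i)) fun i => z (g i) := by
  refine (DefU2.at hQ (Sum.elim f1 f2) g).congr fun z => ?_
  refine iff_of_eq (congrArg (fun b => Q b _) ?_)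
  funext j
  cases j <;> rfl

private theorem few_defB {A : Set M} {δ : Type w} {Q : (δ ⊕ δ → M) → (ℕ → M) → Prop}
    (hQ : DefU2 L A Q) (r : ℕ) {γ : Type x} (g : ℕ → γ) :
    DefU L A fun z : γ → M => FewEq r fun t t' : δ → M => Q (Sum.elim t t') fun i => z (g i) := by
  have e1 : DefU L A fun z : γ → M => ∀ t : δ → M,
      Q (Sum.elim (fun i => t i) fun i => t i) fun i => z (g i) :=
    DefU.allB (rel_def hQ Sum.inr Sum.inr fun i => Sum.inl (g i))
  have e2 : DefU L A fun z : γ → M => ∀ y : δ ⊕ δ → M,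
      (Q (Sum.elim (fun i => y (.inl i)) fun i => y (.inr i)) fun i => z (g i)) →
      Q (Sum.elim (fun i => y (.inr i)) fun i => y (.inl i)) fun i => z (g i) :=
    DefU.allB ((rel_def hQ (fun i => Sum.inr (Sum.inl i)) (fun i => Sum.inr (Sum.inr i))
      fun i => Sum.inl (g i)).imp (rel_def hQ (fun i => Sum.inr (Sum.inr i))
      (fun i => Sum.inr (Sum.inl i)) fun i => Sum.inl (g i)))
  have e3 : DefU L A fun z : γ → M => ∀ y : δ ⊕ δ ⊕ δ → M,
      (Q (Sum.elim (fun i => y (.inl i)) fun i => y (.inr (.inl i))) fun i => z (g i)) →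
      (Q (Sum.elim (fun i => y (.inr (.inl i))) fun i => y (.inr (.inr i))) fun i => z (g i)) →
      Q (Sum.elim (fun i => y (.inl i)) fun i => y (.inr (.inr i))) fun i => z (g i) :=
    DefU.allB ((rel_def hQ (fun i => Sum.inr (Sum.inl i))
      (fun i => Sum.inr (Sum.inr (Sum.inl i))) fun i => Sum.inl (g i)).imp
      ((rel_def hQ (fun i => Sum.inr (Sum.inr (Sum.inl i)))
      (fun i => Sum.inr (Sum.inr (Sum.inr i))) fun i => Sum.inl (g i)).imp
      (rel_def hQ (fun i => Sum.inr (Sum.inl i))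
      (fun i => Sum.inr (Sum.inr (Sum.inr i))) fun i => Sum.inl (g i))))
  have e4 : DefU L A fun z : γ → M => ∀ y : Fin (r + 1) × δ → M, ∃ i j : Fin (r + 1), i ≠ j ∧
      Q (Sum.elim (fun a => y (i, a)) fun a => y (j, a)) fun i => z (g i) := by
    refine DefU.allB (DefU.ex_fin fun i => DefU.ex_fin fun j => (DefU.const _).and ?_)
    exact rel_def hQ (fun a => Sum.inr (i, a)) (fun a => Sum.inr (j, a)) fun i => Sum.inl (g i)
  refine (((e1.and e2).and e3).and e4).congr fun z => ?_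
  constructor
  · rintro ⟨⟨h1, h2, h3⟩, h4⟩
    exact ⟨⟨⟨fun x => h1 x, fun y h => h2 h⟩, fun y h h' => h3 h h'⟩,
      fun y => h4 fun i a => y (i, a)⟩
  · rintro ⟨⟨⟨h1, h2⟩, h3⟩, h4⟩
    refine ⟨⟨h1, fun {x y} h => h2 (Sum.elim x y) h, fun {x y t} h h' => ?_⟩, fun f => ?_⟩
    · exact h3 (Sum.elim x (Sum.elim y t)) h h'
    · exact h4 fun p => f p.1 p.2

private theorem gam_def {A : Set M} {P : (ℕ → M) → (ℕ → M) → Prop} (hP : DefU2 L A P)
    (I : Set ℕ) (jj : ℕ → ℕ) {Q : ((ℕ ⊕ ℕ) ⊕ (ℕ ⊕ ℕ) → M) → (ℕ → M) → Prop} (hQ : DefU2 L A Q)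
    (n : ℕ) {γ : Type x} (fx fu fc : ℕ → γ) :
    DefU L A fun z : γ → M => ∀ y : Fin n × ℕ → M,
      (∀ i : Fin n, Q (Sum.elim (Sum.elim (fun j => y (i, j)) fun j => z (fu j))
        (Sum.elim (fun j => z (fx j)) fun j => z (fu j))) fun j => z (fc j)) →
      ∃ v : ℕ → M, ∀ i : Fin n, P (fun j => y (i, j)) (kap I jj v fun j => z (fu j)) := by
  refine DefU.allB (DefU.imp (DefU.all_fin fun i => ?_) (DefU.exB (DefU.all_fin fun i => ?_)))
  · refine (rel_def hQ (Sum.elim (fun j => Sum.inr (i, j)) fun j => Sum.inl (fu j))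
      (Sum.elim (fun j => Sum.inl (fx j)) fun j => Sum.inl (fu j))
      fun j => Sum.inl (fc j)).congr fun z => ?_
    refine iff_of_eq (congrArg (fun b => Q b _) ?_)
    refine congrArg₂ Sum.elim ?_ ?_ <;>
    · funext j
      cases j <;> rfl
  · exact kap_def hP I jj (fun j => Sum.inl (Sum.inr (i, j))) Sum.inr
      fun j => Sum.inl (Sum.inl (fu j))

/-- Proof.  `stage_induction` on `F`; `M0 = MlS … (X ∩ Y)`.  `F = ∅`: `y` is in `M0`.  Step: `μ ∈ F` of maximal stage.  If `μ ∈ X` the elements of `σ.e μ` are in `M0`, use the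
induction hypothesis for `F.erase μ`.  Let `μ ∉ X`.  Let `I` be the set of `i` such that `y i` is an element `σ.e μ (j i)` of the block of `μ`, `m0 ∈ M0`,
`u i = y i` for `i ∉ I`, `u i = m0` for `i ∈ I`, and `κ v u' = fun i => if i ∈ I then v (j i) else u' i`; so `κ (σ.e μ) u = y`, and `u` is in
`M0 ∪ MlS … (F.erase μ)`.  Let `X' = X ∪ {μ' | σ.st μ' < σ.st μ} ∪ {μ' | σ.st μ' = σ.st μ ∧ μ' ≠ μ}`; it is closed (`σ.low`), contains `σ.S μ` and not `μ`.  By `fr` for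
`μ`, `X'` and `Z v = P a (κ v u)` (definable over `MlS … X'`, `Alm.of_defU`) we get `Ψ a u`, where `Ψ x u' = Ev (σ.p μ) (fun v => P x (κ v u'))`.
`Ψ` is almost over `M0 ∪ MlS … (σ.S μ) = MlS … ((X ∩ Y) ∪ σ.S μ)` (`AlmT.gen`); let `E` be as in `Alm`; as in `alm_names` there is a finite `F1 ⊆ σ.S μ` such that
`E` is definable over `M0 ∪ MlS … F1`.  Let `c : ℕ → M` be a block of elements of `M0 ∪ {elements named by F1}` whose range contains the elements named by `F1`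
(`F1 × ℕ` is countable); by `DefU.split` `E z z' ↔ E' z z' c`, `E'` definable over `M0`.  Let `FewEq k E` (`finEq_iff`) and let `n` be given by `no_ladderU` for
`fun x (z : ℕ ⊕ ℕ → M) => P x (κ (z ∘ inl) (z ∘ inr))`.  Let `Γ x u' c'` be the conjunction of `FewEq k (E' · · c')` and of
`∀ x 1 … x n, (∀ i, E' (x i, u') (x, u') c') → ∃ v, ∀ i, P (x i) (κ v u')`.  It is definable over `M0`, and true for `a, u, c` (`Ψ` is invariant under `E`,
`ev_all_fin`, `Ev.exists`).  Apply the induction hypothesis to `F.erase μ ∪ F1`, to the block `(u, c)` (coded as one block `ℕ → M` by `Equiv.natSumNatEquivNat`), and to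
`Γ`: there are `u'', c''` in `M0` with `Γ a u'' c''`.  Apply `ladder_arg` to `fun x x' => E' (x, u'') (x', u'') c''` (finitely many classes by `FewEq k` and `finEq_iff`), `fun x v => P x (κ v u'')`: there is `v` in `M0`
with `P a (κ v u'')`; `y0 = κ v u''`. -/
theorem cr_aux [WellFoundedLT Λ] (σ : Sys L M N Λ) (hS : Stb L M) {X Y : Set N}
    (hX : Cl σ.S X) (hY : Cl σ.S Y) (he : Elt L (σ.Ml (X ∩ Y))) {a : ℕ → M}
    (ha : ∀ i, a i ∈ σ.Ml X) (F : Finset N) : (↑F : Set N) ⊆ Y →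
    ∀ P : (ℕ → M) → (ℕ → M) → Prop, DefU2 L (σ.Ml (X ∩ Y)) P →
    ∀ y : ℕ → M, (∀ i, y i ∈ σ.Ml (X ∩ Y) ∪ MlS σ.B σ.e (↑F : Set N)) → P a y →
    ∃ y0 : ℕ → M, (∀ i, y0 i ∈ σ.Ml (X ∩ Y)) ∧ P a y0 := by
  have hB0 : σ.B ⊆ σ.Ml (X ∩ Y) := subset_union_left
  refine stage_induction σ.st (fun F => (↑F : Set N) ⊆ Y →
    ∀ P : (ℕ → M) → (ℕ → M) → Prop, DefU2 L (σ.Ml (X ∩ Y)) P →
    ∀ y : ℕ → M, (∀ i, y i ∈ σ.Ml (X ∩ Y) ∪ MlS σ.B σ.e (↑F : Set N)) → P a y →
    ∃ y0 : ℕ → M, (∀ i, y0 i ∈ σ.Ml (X ∩ Y)) ∧ P a y0) ?_ ?_ F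
  · intro _ P hP y hy h
    refine ⟨y, fun i => ?_, h⟩
    rcases hy i with h1 | h1 | ⟨μ, hμ, -⟩
    · exact h1
    · exact hB0 h1
    · exact absurd (Finset.mem_coe.1 hμ) (Finset.notMem_empty μ)
  intro F μ hμ hmax ih hFY P hP y hy h
  have hμY : μ ∈ Y := hFY (Finset.mem_coe.2 hμ)
  by_cases hμX : μ ∈ X
  · refine ih (F.erase μ) (fun ν hν => Or.inl ⟨(Finset.mem_erase.1 hν).2, (Finset.mem_erase.1 hν).1⟩)
      (fun ν hν => hFY (Finset.mem_coe.2 (Finset.mem_erase.1 (Finset.mem_coe.1 hν)).2)) P hP y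
      (fun i => ?_) h
    rcases hy i with h1 | h1 | ⟨κ, hκ, j, hj⟩
    · exact Or.inl h1
    · exact Or.inl (hB0 h1)
    · by_cases hk : κ = μ
      · subst hk
        exact Or.inl (Or.inr ⟨κ, ⟨hμX, hμY⟩, j, hj⟩)
      · exact Or.inr (Or.inr ⟨κ, Finset.mem_coe.2 (Finset.mem_erase.2 ⟨hk, hκ⟩), j, hj⟩)
  obtain ⟨m0, hm0⟩ := he.1
  let I : Set ℕ := {i | ∃ j, σ.e μ j = y i}
  have hjj : ∃ jj : ℕ → ℕ, ∀ i ∈ I, σ.e μ (jj i) = y i := by
    refine ⟨fun i => if h : ∃ j, σ.e μ j = y i then h.choose else 0, fun i hi => ?_⟩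
    have hi' : ∃ j, σ.e μ j = y i := hi
    simp only [dif_pos hi']
    exact hi'.choose_spec
  obtain ⟨jj, hjj⟩ := hjj
  let u : ℕ → M := fun i => if i ∈ I then m0 else y i
  have hκu : kap I jj (σ.e μ) u = y := by
    funext i
    by_cases hi : i ∈ I
    · simp only [kap, if_pos hi]
      exact hjj i hi
    · simp only [kap, u, if_neg hi]
  have hu : ∀ i, u i ∈ σ.Ml (X ∩ Y) ∪ MlS σ.B σ.e (↑(F.erase μ) : Set N) := by
    intro i
    by_cases hi : i ∈ I
    · simp only [u, if_pos hi]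
      exact Or.inl hm0
    · simp only [u, if_neg hi]
      rcases hy i with h1 | h1 | ⟨κ, hκ, j, hj⟩
      · exact Or.inl h1
      · exact Or.inl (hB0 h1)
      · refine Or.inr (Or.inr ⟨κ, Finset.mem_coe.2 (Finset.mem_erase.2 ⟨?_, hκ⟩), j, hj⟩)
        rintro rfl
        exact hi ⟨j, hj⟩
  -- almost everywhere
  let X' : Set N := X ∪ {κ | σ.st κ ≤ σ.st μ ∧ κ ≠ μ}
  have hX' : Cl σ.S X' := by
    rintro ν (hν | hν) κ hκ
    · exact Or.inl (hX ν hν hκ)
    · have h1 := lt_of_lt_of_le (σ.low ν κ hκ) hν.1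
      exact Or.inr ⟨h1.le, fun hh => absurd h1 (by rw [hh]; exact lt_irrefl _)⟩
  have hμX' : μ ∉ X' := by
    rintro (h1 | h1)
    · exact hμX h1
    · exact h1.2 rfl
  have hSX' : σ.S μ ⊆ X' := fun κ hκ => by
    have h1 := σ.low μ κ hκ
    exact Or.inr ⟨h1.le, fun hh => absurd h1 (by rw [hh]; exact lt_irrefl _)⟩
  have hMX' : σ.Ml (X ∩ Y) ⊆ σ.Ml X' := MlS.mono fun κ hκ => Or.inl hκ.1
  have hFX' : MlS σ.B σ.e (↑(F.erase μ) : Set N) ⊆ σ.Ml X' := MlS.mono fun κ hκ => by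
    have h1 := Finset.mem_erase.1 (Finset.mem_coe.1 hκ)
    exact Or.inr ⟨hmax κ h1.2, h1.1⟩
  have hZ : DefU L (σ.Ml X') fun v : ℕ → M => P a (kap I jj v u) := by
    have h1 : DefU2 L (σ.Ml X') fun (v : ℕ → M) (z : ℕ ⊕ ℕ → M) =>
        P (fun i => z (.inl i)) (kap I jj v fun i => z (.inr i)) :=
      kap_def (DefU.mono hMX' hP) I jj (fun i => Sum.inr (Sum.inl i)) Sum.inl
        fun i => Sum.inr (Sum.inr i)
    refine h1.subst (Sum.elim a u) ?_
    rintro (i | i)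
    · exact MlS.mono subset_union_left (ha i)
    · rcases hu i with h2 | h2
      · exact hMX' h2
      · exact hFX' h2
  have hev : Ev (σ.p μ) fun v => P a (kap I jj v u) := by
    refine (fr σ hS hX' hμX' hSX' (Alm.of_defU hZ)).1 ?_
    rw [hκu]
    exact h
  -- the relation is almost over the names of `X ∩ Y` and of the support
  have hD : MlS σ.B σ.e (σ.S μ) ⊆ MlS σ.B σ.e ((X ∩ Y) ∪ σ.S μ) := MlS.mono subset_union_right
  have hΨ : Alm L (MlS σ.B σ.e ((X ∩ Y) ∪ σ.S μ)) fun z : ℕ ⊕ ℕ → M =>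
      Ev (σ.p μ) fun v => P (fun i => z (.inl i)) (kap I jj v fun i => z (.inr i)) :=
    ((σ.alm μ).mono hD).gen (kap_def (DefU.mono (MlS.mono subset_union_left) hP) I jj
      (fun i => Sum.inr (Sum.inl i)) Sum.inl fun i => Sum.inr (Sum.inr i))
  obtain ⟨F2, hF2, E, hE, hEf, hEΨ⟩ := alm_names hΨ
  obtain ⟨k, hk⟩ := finEq_iff.1 hEf
  let F1 : Finset N := F2.filter fun κ => κ ∈ σ.S μ
  have hcT : ∃ c : ℕ → M, {b | ∃ κ ∈ F1, ∃ i, σ.e κ i = b} ∪ {m0} = range c := by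
    refine Set.Countable.exists_eq_range ?_ ⟨m0, Or.inr rfl⟩
    refine Set.Countable.union ?_ (countable_singleton m0)
    have h1 : {b | ∃ κ ∈ F1, ∃ i, σ.e κ i = b} = ⋃ κ ∈ (↑F1 : Set N), range (σ.e κ) := by
      ext b
      simp
    rw [h1]
    exact F1.countable_toSet.biUnion fun κ _ => countable_range _
  obtain ⟨c, hc⟩ := hcT
  have hsub : MlS σ.B σ.e (↑F2 : Set N) ⊆ σ.Ml (X ∩ Y) ∪ range c := by
    rintro b (hb | ⟨κ, hκ, i, rfl⟩)
    · exact Or.inl (hB0 hb)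
    · rcases hF2 hκ with h1 | h1
      · exact Or.inl (Or.inr ⟨κ, h1, i, rfl⟩)
      · refine Or.inr ?_
        rw [← hc]
        exact Or.inl ⟨κ, Finset.mem_filter.2 ⟨Finset.mem_coe.1 hκ, h1⟩, i, rfl⟩
  obtain ⟨Q, hQ, hQE⟩ := DefU.split (c := c) (DefU.mono hsub hE)
  have hQE' : (fun z z' : ℕ ⊕ ℕ → M => Q (Sum.elim z z') c) = E := by
    funext z z'
    exact propext (hQE (Sum.elim z z')).symm
  obtain ⟨n, hn⟩ := no_ladderU hS (P := fun (x : ℕ → M) (z : ℕ ⊕ ℕ → M) =>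
    P x (kap I jj (fun i => z (.inl i)) fun i => z (.inr i)))
    (kap_def (DefU.mono (subset_univ _) hP) I jj Sum.inl (fun i => Sum.inr (Sum.inl i))
      fun i => Sum.inr (Sum.inr i))
  -- the induction hypothesis
  let q : ℕ ⊕ ℕ ≃ ℕ := Equiv.natSumNatEquivNat
  let Γ : (ℕ → M) → (ℕ → M) → Prop := fun x t =>
    (FewEq k fun z z' : ℕ ⊕ ℕ → M => Q (Sum.elim z z') fun i => t (q (.inr i))) ∧
    ∀ w : Fin n × ℕ → M,
      (∀ i : Fin n, Q (Sum.elim (Sum.elim (fun j => w (i, j)) fun j => t (q (.inl j)))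
        (Sum.elim (fun j => x j) fun j => t (q (.inl j)))) fun j => t (q (.inr j))) →
      ∃ v : ℕ → M, ∀ i : Fin n, P (fun j => w (i, j)) (kap I jj v fun j => t (q (.inl j)))
  have hΓ : DefU2 L (σ.Ml (X ∩ Y)) Γ :=
    DefU.and (few_defB hQ k fun i => Sum.inr (q (.inr i)))
      (gam_def hP I jj hQ n Sum.inl (fun j => Sum.inr (q (.inl j))) fun j => Sum.inr (q (.inr j)))
  let t0 : ℕ → M := fun i => Sum.elim u c (q.symm i)
  have ht0u : (fun j => t0 (q (.inl j))) = u := by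
    funext j
    simp [t0]
  have ht0c : (fun j => t0 (q (.inr j))) = c := by
    funext j
    simp [t0]
  have hΓt : Γ a t0 := by
    show (FewEq k fun z z' : ℕ ⊕ ℕ → M => Q (Sum.elim z z') fun i => t0 (q (.inr i))) ∧
      ∀ w : Fin n × ℕ → M,
      (∀ i : Fin n, Q (Sum.elim (Sum.elim (fun j => w (i, j)) fun j => t0 (q (.inl j)))
        (Sum.elim (fun j => a j) fun j => t0 (q (.inl j)))) fun j => t0 (q (.inr j))) →
      ∃ v : ℕ → M, ∀ i : Fin n, P (fun j => w (i, j)) (kap I jj v fun j => t0 (q (.inl j)))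
    rw [ht0u, ht0c, hQE']
    refine ⟨hk, fun w hw => ?_⟩
    have h1 : ∀ i : Fin n, Ev (σ.p μ) fun v => P (fun j => w (i, j)) (kap I jj v u) := by
      intro i
      have h2 : E (Sum.elim (fun j => w (i, j)) u) (Sum.elim a u) := by
        rw [← hQE']
        exact hw i
      exact hEΨ _ _ (hEf.1.symm h2) hev
    exact (ev_all_fin.2 h1).exists
  obtain ⟨t, ht, hΓ2⟩ := ih (F.erase μ ∪ F1)
    (by
      intro ν hν
      rcases Finset.mem_union.1 hν with h1 | h1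
      · exact Or.inl ⟨(Finset.mem_erase.1 h1).2, (Finset.mem_erase.1 h1).1⟩
      · exact Or.inr (σ.low μ ν (Finset.mem_filter.1 h1).2))
    (by
      intro ν hν
      rcases Finset.mem_union.1 (Finset.mem_coe.1 hν) with h1 | h1
      · exact hFY (Finset.mem_coe.2 (Finset.mem_erase.1 h1).2)
      · exact hY μ hμY (Finset.mem_filter.1 h1).2)
    Γ hΓ t0
    (by
      intro i
      show Sum.elim u c (q.symm i) ∈ _
      rcases q.symm i with j | j
      · rcases hu j with h1 | h1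
        · exact Or.inl h1
        · exact Or.inr (MlS.mono (fun κ hκ => Finset.mem_coe.2
            (Finset.mem_union_left _ (Finset.mem_coe.1 hκ))) h1)
      · have h1 : c j ∈ {b | ∃ κ ∈ F1, ∃ i, σ.e κ i = b} ∪ {m0} := by
          rw [hc]
          exact ⟨j, rfl⟩
        rcases h1 with ⟨κ, hκ, i, hi⟩ | h1
        · exact Or.inr (Or.inr ⟨κ, Finset.mem_coe.2 (Finset.mem_union_right _ hκ), i, hi⟩)
        · rw [mem_singleton_iff] at h1
          left
          show c j ∈ _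
          rw [h1]
          exact hm0)
    hΓt
  obtain ⟨hfew, hlad⟩ := hΓ2
  obtain ⟨v, hv, hPv⟩ := ladder_arg he
    (E := fun x x' => Q (Sum.elim (Sum.elim x fun j => t (q (.inl j)))
      (Sum.elim x' fun j => t (q (.inl j)))) fun j => t (q (.inr j)))
    (P := fun x v => P x (kap I jj v fun j => t (q (.inl j))))
    (by
      have h1 : DefU2 L (σ.Ml (X ∩ Y)) fun (z : ℕ ⊕ ℕ → M) (s : ℕ → M) =>
          Q (Sum.elim (Sum.elim (fun i => z (.inl i)) fun j => s (q (.inl j)))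
            (Sum.elim (fun i => z (.inr i)) fun j => s (q (.inl j)))) fun j => s (q (.inr j)) := by
        refine (rel_def hQ (Sum.elim (fun j => Sum.inl (Sum.inl j)) fun j => Sum.inr (q (.inl j)))
          (Sum.elim (fun j => Sum.inl (Sum.inr j)) fun j => Sum.inr (q (.inl j)))
          fun j => Sum.inr (q (.inr j))).congr fun z => ?_
        refine iff_of_eq (congrArg (fun b => Q b _) ?_)
        refine congrArg₂ Sum.elim ?_ ?_ <;>
        · funext j
          cases j <;> rfl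
      exact h1.subst t ht)
    ((finEq_iff.2 ⟨k, hfew⟩).comap fun x : ℕ → M => Sum.elim x fun j => t (q (.inl j)))
    (by
      have h1 : DefU2 L (σ.Ml (X ∩ Y)) fun (z : ℕ ⊕ ℕ → M) (s : ℕ → M) =>
          P (fun i => z (.inl i)) (kap I jj (fun i => z (.inr i)) fun j => s (q (.inl j))) :=
        kap_def hP I jj (fun i => Sum.inl (Sum.inl i)) (fun i => Sum.inl (Sum.inr i))
          fun j => Sum.inr (q (.inl j))
      exact h1.subst t ht)
    a n
    (fun x hx => hlad (fun p => x p.1 p.2) fun i => hx i)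
    (fun x v h1 => hn x (fun j => Sum.elim (v j) fun j => t (q (.inl j))) h1)
  refine ⟨_, fun i => ?_, hPv⟩
  unfold kap
  by_cases hi : i ∈ I
  · rw [if_pos hi]
    exact hv _
  · rw [if_neg hi]
    exact ht _

/-- The coheir lemma.
Proof.  `fun y => P a y` depends on finitely many coordinates (`DefU2.at`, `DefU.supp`); change the other coordinates of `y` to some `m0` in `σ.Ml (X ∩ Y)`; the remaining
ones are in `σ.B` or named by finitely many names in `Y`.  Apply `cr_aux`. -/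
theorem cr [WellFoundedLT Λ] (σ : Sys L M N Λ) (hS : Stb L M) {X Y : Set N}
    (hX : Cl σ.S X) (hY : Cl σ.S Y) (he : Elt L (σ.Ml (X ∩ Y))) {a : ℕ → M}
    (ha : ∀ i, a i ∈ σ.Ml X) {P : (ℕ → M) → (ℕ → M) → Prop}
    (hP : DefU2 L (σ.Ml (X ∩ Y)) P) {y : ℕ → M} (hy : ∀ i, y i ∈ σ.Ml Y) (h : P a y) :
    ∃ y0 : ℕ → M, (∀ i, y0 i ∈ σ.Ml (X ∩ Y)) ∧ P a y0 := by
  obtain ⟨m0, hm0⟩ := he.1
  obtain ⟨G, hG⟩ := DefU.supp hP
  have h1 : ∀ i, ∃ F : Finset N, (↑F : Set N) ⊆ Y ∧ y i ∈ MlS σ.B σ.e (↑F : Set N) := by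
    intro i
    rcases hy i with h | ⟨μ, hμ, j, hj⟩
    · exact ⟨∅, by simp, Or.inl h⟩
    · exact ⟨{μ}, by simpa using hμ, Or.inr ⟨μ, by simp, j, hj⟩⟩
  choose f hf1 hf2 using h1
  have h2 : P a fun i => if i ∈ G.toRight then y i else m0 := by
    refine (hG (Sum.elim a y) (Sum.elim a fun i => if i ∈ G.toRight then y i else m0) ?_).1 h
    rintro (i | i) hi
    · rfl
    · show y i = if i ∈ G.toRight then y i else m0
      rw [if_pos (Finset.mem_toRight.2 hi)]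
  refine cr_aux σ hS hX hY he ha (G.toRight.biUnion f) ?_ P hP _ ?_ h2
  · intro ν hν
    obtain ⟨i, -, hν'⟩ := Finset.mem_biUnion.1 (Finset.mem_coe.1 hν)
    exact hf1 i (Finset.mem_coe.2 hν')
  · intro i
    by_cases hi : i ∈ G.toRight
    · rw [if_pos hi]
      exact Or.inr (MlS.mono (fun κ hκ => Finset.mem_coe.2
        (Finset.mem_biUnion.2 ⟨i, hi, Finset.mem_coe.1 hκ⟩)) (hf2 i))
    · rw [if_neg hi]
      exact Or.inl hm0

end MP8f
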