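import Mathlib

/-!
MP_8da2c8_lc, full positive answer: definable relations on blocks.

A *block* is a function `α → M`.  `Dfn L R`: the relation `R` on blocks is definable without
parameters.  `DefU L A P`: `P` is definable with parameters in the set `A`.
-/

namespace MP8f

open Cardinal Set FirstOrder Filter
open scoped Classical

universe u v w x

section defs
variable (L : FirstOrder.Language.{0, 0}) {M : Type u} [L.Structure M]

/-- definable without parameters -/
def Dfn {α : Type v} (R : (α → M) → Prop) : Prop :=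
  ∃ φ : L.Formula α, ∀ x, R x ↔ φ.Realize x

/-- a relation between blocks, definable without parameters -/
def Dfn2 {α : Type v} {β : Type w} (R : (α → M) → (β → M) → Prop) : Prop :=
  Dfn L fun z : α ⊕ β → M => R (fun i => z (.inl i)) fun j => z (.inr j)

/-- definable with parameters from `A` -/
def DefU (A : Set M) {α : Type v} (P : (α → M) → Prop) : Prop :=
  ∃ Q : (α ⊕ A → M) → Prop, Dfn L Q ∧ ∀ x, P x ↔ Q (Sum.elim x fun a => a.1)

/-- a relation between blocks, definable with parameters from `A` -/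
def DefU2 (A : Set M) {α : Type v} {β : Type w} (P : (α → M) → (β → M) → Prop) : Prop :=
  DefU L A fun z : α ⊕ β → M => P (fun i => z (.inl i)) fun j => z (.inr j)

end defs

section api
variable {L : FirstOrder.Language.{0, 0}} {M : Type u} [L.Structure M]
variable {α : Type v} {β : Type w} {γ : Type x}

theorem Dfn.congr {R R' : (α → M) → Prop} (h : Dfn L R) (e : ∀ x, R' x ↔ R x) : Dfn L R' := by
  obtain ⟨φ, hφ⟩ := h
  exact ⟨φ, fun x => (e x).trans (hφ x)⟩

/-- the coordinates of `R` may be taken from a block `z` in any way -/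
theorem Dfn.at {R : (α → M) → Prop} (h : Dfn L R) (f : α → γ) :
    Dfn L fun z : γ → M => R fun i => z (f i) := by
  obtain ⟨φ, hφ⟩ := h
  refine ⟨φ.relabel f, fun z => ?_⟩
  rw [FirstOrder.Language.Formula.realize_relabel]
  exact hφ _

theorem Dfn2.at {R : (α → M) → (β → M) → Prop} (h : Dfn2 L R) (f : α → γ) (g : β → γ) :
    Dfn L fun z : γ → M => R (fun i => z (f i)) fun j => z (g j) :=
  Dfn.at h (Sum.elim f g)

theorem Dfn.not {R : (α → M) → Prop} (h : Dfn L R) : Dfn L fun x => ¬ R x := by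
  obtain ⟨φ, hφ⟩ := h
  exact ⟨φ.not, fun x => by
    rw [FirstOrder.Language.Formula.realize_not]
    exact not_congr (hφ x)⟩

theorem Dfn.and {R R' : (α → M) → Prop} (h : Dfn L R) (h' : Dfn L R') :
    Dfn L fun x => R x ∧ R' x := by
  obtain ⟨φ, hφ⟩ := h
  obtain ⟨ψ, hψ⟩ := h'
  refine ⟨φ ⊓ ψ, fun x => ?_⟩
  unfold FirstOrder.Language.Formula.Realize
  rw [FirstOrder.Language.BoundedFormula.realize_inf]
  exact and_congr (hφ x) (hψ x)

theorem Dfn.or {R R' : (α → M) → Prop} (h : Dfn L R) (h' : Dfn L R') :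
    Dfn L fun x => R x ∨ R' x :=
  ((h.not.and h'.not).not).congr fun x => by tauto

theorem Dfn.imp {R R' : (α → M) → Prop} (h : Dfn L R) (h' : Dfn L R') :
    Dfn L fun x => R x → R' x :=
  (h.not.or h').congr fun x => by tauto

theorem Dfn.iff {R R' : (α → M) → Prop} (h : Dfn L R) (h' : Dfn L R') :
    Dfn L fun x => (R x ↔ R' x) :=
  ((h.imp h').and (h'.imp h)).congr fun x => by tauto

theorem Dfn.const (P : Prop) : Dfn L fun _ : α → M => P := by
  by_cases h : P
  · exact ⟨⊤, fun x => by simp [h]⟩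
  · refine ⟨⊥, fun x => ?_⟩
    simp only [h, false_iff]
    exact fun h => h

theorem Dfn.eq (i j : α) : Dfn L fun x : α → M => x i = x j :=
  ⟨(FirstOrder.Language.Term.var i).equal (FirstOrder.Language.Term.var j), fun x => by
    rw [FirstOrder.Language.Formula.realize_equal]
    rfl⟩

theorem Dfn.rel {n : ℕ} (r : L.Relations n) (f : Fin n → α) :
    Dfn L fun x : α → M => FirstOrder.Language.Structure.RelMap r fun k => x (f k) :=
  ⟨r.formula fun k => FirstOrder.Language.Term.var (f k), fun x => by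
    rw [FirstOrder.Language.Formula.realize_rel]
    rfl⟩

/-- a definable relation depends on finitely many coordinates -/
theorem Dfn.supp {R : (α → M) → Prop} (h : Dfn L R) :
    ∃ F : Finset α, ∀ x x' : α → M, (∀ i ∈ F, x i = x' i) → (R x ↔ R x') := by
  obtain ⟨φ, hφ⟩ := h
  refine ⟨φ.freeVarFinset, fun x x' hxx' => ?_⟩
  rw [hφ, hφ]
  unfold FirstOrder.Language.Formula.Realize
  rw [← FirstOrder.Language.BoundedFormula.realize_restrictFreeVar (φ := φ) (f := id)
    (v := fun a => x a) (xs := default) x fun a => rfl]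
  rw [← FirstOrder.Language.BoundedFormula.realize_restrictFreeVar (φ := φ) (f := id)
    (v := fun a => x a) (xs := default) x' fun a => hxx' a a.2]

/-- a formula for quantification over blocks of any size, in all structures at once -/
theorem exists_exF (φ : L.Formula (α ⊕ β)) : ∃ ψ : L.Formula α,
    ∀ (N : Type u) [L.Structure N] [Nonempty N] (x : α → N),
      ψ.Realize x ↔ ∃ y : β → N, φ.Realize (Sum.elim x y) := by
  let B : Type w := {b : β // (Sum.inr b : α ⊕ β) ∈ φ.freeVarFinset}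
  have hfin : Finite B := by
    refine Finite.of_injective (fun b : B => (⟨Sum.inr b.1, b.2⟩ : φ.freeVarFinset)) ?_
    intro b b' hbb
    apply Subtype.ext
    simpa [Subtype.ext_iff] using hbb
  let f : φ.freeVarFinset → α ⊕ B := fun a => match a with
    | ⟨Sum.inl a, _⟩ => Sum.inl a
    | ⟨Sum.inr b, h⟩ => Sum.inr ⟨b, h⟩
  refine ⟨FirstOrder.Language.Formula.iExs B
    (FirstOrder.Language.BoundedFormula.restrictFreeVar φ f), fun N _ _ x => ?_⟩
  have key : ∀ (y : B → N) (z : β → N), (∀ b : B, y b = z b.1) →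
      (FirstOrder.Language.Formula.Realize (FirstOrder.Language.BoundedFormula.restrictFreeVar φ f)
        (Sum.elim x y) ↔ φ.Realize (Sum.elim x z)) := by
    intro y z hyz
    unfold FirstOrder.Language.Formula.Realize
    refine FirstOrder.Language.BoundedFormula.realize_restrictFreeVar _ ?_
    rintro ⟨a | b, h⟩
    · rfl
    · exact hyz ⟨b, h⟩
  rw [FirstOrder.Language.Formula.realize_iExs]
  constructor
  · rintro ⟨y, hy⟩
    let z : β → N := fun b => if hb : (Sum.inr b : α ⊕ β) ∈ φ.freeVarFinset then y ⟨b, hb⟩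
      else Classical.arbitrary N
    refine ⟨z, ?_⟩
    rw [← key y z fun b => ?_]
    · exact hy
    · have hb : (Sum.inr b.1 : α ⊕ β) ∈ φ.freeVarFinset := b.2
      simp only [z, hb, dif_pos]
      rfl
  · rintro ⟨z, hz⟩
    refine ⟨fun b => z b.1, ?_⟩
    rw [key _ z fun b => rfl]
    exact hz

/-- quantification over blocks of any size -/
theorem Dfn.ex [Nonempty M] {R : (α ⊕ β → M) → Prop} (h : Dfn L R) :
    Dfn L fun x : α → M => ∃ y : β → M, R (Sum.elim x y) := by
  obtain ⟨φ, hφ⟩ := h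
  obtain ⟨ψ, hψ⟩ := exists_exF.{u} φ
  refine ⟨ψ, fun x => ?_⟩
  rw [hψ M x]
  exact exists_congr fun y => hφ _

theorem Dfn.exB [Nonempty M] {R : (α → M) → (β → M) → Prop} (h : Dfn2 L R) :
    Dfn L fun x : α → M => ∃ y : β → M, R x y :=
  Dfn.ex h

theorem Dfn.allB [Nonempty M] {R : (α → M) → (β → M) → Prop} (h : Dfn2 L R) :
    Dfn L fun x : α → M => ∀ y : β → M, R x y := by
  have h1 : Dfn2 L fun (x : α → M) (y : β → M) => ¬ R x y := Dfn.not h
  exact (Dfn.exB h1).not.congr fun x => by push Not; rfl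

theorem Dfn.ex_fin {ι : Type} [Finite ι] {R : ι → (α → M) → Prop} (h : ∀ i, Dfn L (R i)) :
    Dfn L fun x => ∃ i, R i x := by
  choose φ hφ using h
  refine ⟨FirstOrder.Language.Formula.iSup φ, fun x => ?_⟩
  rw [FirstOrder.Language.Formula.realize_iSup]
  exact exists_congr fun i => hφ i x

theorem Dfn.all_fin {ι : Type} [Finite ι] {R : ι → (α → M) → Prop} (h : ∀ i, Dfn L (R i)) :
    Dfn L fun x => ∀ i, R i x := by
  have := Dfn.ex_fin (fun i => (h i).not)
  exact this.not.congr fun x => by push Not; rfl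

/-! ### definability with parameters -/

theorem DefU.congr {A : Set M} {P P' : (α → M) → Prop} (h : DefU L A P) (e : ∀ x, P' x ↔ P x) :
    DefU L A P' := by
  obtain ⟨Q, hQ, hP⟩ := h
  exact ⟨Q, hQ, fun x => (e x).trans (hP x)⟩

/-- a parameter-free relation applied to coordinates and parameters -/
theorem DefU.mk {A : Set M} {R : (β → M) → Prop} (h : Dfn L R) (f : β → α ⊕ A) :
    DefU L A fun x : α → M => R fun i => Sum.elim x (fun a => a.1) (f i) :=
  ⟨fun z => R fun i => z (f i), h.at f, fun _ => Iff.rfl⟩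

theorem DefU.of_dfn {A : Set M} {R : (α → M) → Prop} (h : Dfn L R) : DefU L A R :=
  DefU.mk h Sum.inl

theorem DefU.mono {A B : Set M} (hAB : A ⊆ B) {P : (α → M) → Prop} (h : DefU L A P) :
    DefU L B P := by
  obtain ⟨Q, hQ, hP⟩ := h
  refine (DefU.mk hQ (Sum.elim Sum.inl fun a => Sum.inr ⟨a.1, hAB a.2⟩)).congr fun x => ?_
  rw [hP]
  refine iff_of_eq (congrArg Q ?_)
  funext i
  cases i <;> rfl

theorem DefU.at {A : Set M} {P : (α → M) → Prop} (h : DefU L A P) (f : α → γ) :
    DefU L A fun z : γ → M => P fun i => z (f i) := by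
  obtain ⟨Q, hQ, hP⟩ := h
  refine (DefU.mk hQ (Sum.elim (fun i => Sum.inl (f i)) Sum.inr)).congr fun x => ?_
  rw [hP]
  refine iff_of_eq (congrArg Q ?_)
  funext i
  cases i <;> rfl

theorem DefU2.at {A : Set M} {P : (α → M) → (β → M) → Prop} (h : DefU2 L A P) (f : α → γ)
    (g : β → γ) : DefU L A fun z : γ → M => P (fun i => z (f i)) fun j => z (g j) :=
  DefU.at h (Sum.elim f g)

/-- substitution of parameters -/
theorem DefU2.subst {A : Set M} {P : (α → M) → (β → M) → Prop} (h : DefU2 L A P) (y : β → M)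
    (hy : ∀ i, y i ∈ A) : DefU L A fun x => P x y := by
  obtain ⟨Q, hQ, hP⟩ := h
  refine (DefU.mk hQ (Sum.elim (Sum.elim Sum.inl fun b => Sum.inr ⟨y b, hy b⟩)
    Sum.inr)).congr fun x => ?_
  have h1 := hP (Sum.elim x y)
  refine h1.trans (iff_of_eq (congrArg Q ?_))
  funext i
  rcases i with (i | i) | i <;> rfl

theorem DefU2.subst' {A : Set M} {P : (α → M) → (β → M) → Prop} (h : DefU2 L A P) (x : α → M)
    (hx : ∀ i, x i ∈ A) : DefU L A fun y => P x y := by
  have h1 : DefU2 L A fun (y : β → M) (x : α → M) => P x y := DefU2.at h Sum.inr Sum.inl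
  exact h1.subst x hx

theorem DefU.not {A : Set M} {P : (α → M) → Prop} (h : DefU L A P) : DefU L A fun x => ¬ P x := by
  obtain ⟨Q, hQ, hP⟩ := h
  exact ⟨_, hQ.not, fun x => not_congr (hP x)⟩

theorem DefU.and {A : Set M} {P P' : (α → M) → Prop} (h : DefU L A P) (h' : DefU L A P') :
    DefU L A fun x => P x ∧ P' x := by
  obtain ⟨Q, hQ, hP⟩ := h
  obtain ⟨Q', hQ', hP'⟩ := h'
  exact ⟨_, hQ.and hQ', fun x => and_congr (hP x) (hP' x)⟩

theorem DefU.or {A : Set M} {P P' : (α → M) → Prop} (h : DefU L A P) (h' : DefU L A P') :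
    DefU L A fun x => P x ∨ P' x :=
  ((h.not.and h'.not).not).congr fun x => by tauto

theorem DefU.imp {A : Set M} {P P' : (α → M) → Prop} (h : DefU L A P) (h' : DefU L A P') :
    DefU L A fun x => P x → P' x :=
  (h.not.or h').congr fun x => by tauto

theorem DefU.iff {A : Set M} {P P' : (α → M) → Prop} (h : DefU L A P) (h' : DefU L A P') :
    DefU L A fun x => (P x ↔ P' x) :=
  ((h.imp h').and (h'.imp h)).congr fun x => by tauto

theorem DefU.const {A : Set M} (P : Prop) : DefU L A fun _ : α → M => P :=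
  DefU.of_dfn (Dfn.const P)

theorem DefU.exB [Nonempty M] {A : Set M} {P : (α → M) → (β → M) → Prop} (h : DefU2 L A P) :
    DefU L A fun x : α → M => ∃ y : β → M, P x y := by
  obtain ⟨Q, hQ, hP⟩ := h
  have h1 : Dfn2 L fun (x : α ⊕ A → M) (y : β → M) =>
      Q (fun i => Sum.elim (Sum.elim (fun a => x (.inl a)) y) (fun a => x (.inr a)) i) := by
    refine (hQ.at (Sum.elim (Sum.elim (fun a => Sum.inl (Sum.inl a)) Sum.inr)
      fun a => Sum.inl (Sum.inr a))).congr fun z => ?_
    refine iff_of_eq (congrArg Q ?_)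
    funext i
    rcases i with (i | i) | i <;> rfl
  refine ⟨_, Dfn.exB h1, fun x => exists_congr fun y => ?_⟩
  exact hP (Sum.elim x y)

theorem DefU.allB [Nonempty M] {A : Set M} {P : (α → M) → (β → M) → Prop} (h : DefU2 L A P) :
    DefU L A fun x : α → M => ∀ y : β → M, P x y := by
  have h1 : DefU2 L A fun (x : α → M) (y : β → M) => ¬ P x y := DefU.not h
  exact (DefU.exB h1).not.congr fun x => by push Not; rfl

theorem DefU.ex_fin {ι : Type} [Finite ι] {A : Set M} {P : ι → (α → M) → Prop}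
    (h : ∀ i, DefU L A (P i)) : DefU L A fun x => ∃ i, P i x := by
  choose Q hQ hP using h
  exact ⟨_, Dfn.ex_fin hQ, fun x => exists_congr fun i => hP i x⟩

theorem DefU.all_fin {ι : Type} [Finite ι] {A : Set M} {P : ι → (α → M) → Prop}
    (h : ∀ i, DefU L A (P i)) : DefU L A fun x => ∀ i, P i x := by
  choose Q hQ hP using h
  exact ⟨_, Dfn.all_fin hQ, fun x => forall_congr' fun i => hP i x⟩

theorem DefU.supp {A : Set M} {P : (α → M) → Prop} (h : DefU L A P) :
    ∃ F : Finset α, ∀ x x' : α → M, (∀ i ∈ F, x i = x' i) → (P x ↔ P x') := by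
  obtain ⟨Q, hQ, hP⟩ := h
  obtain ⟨F, hF⟩ := hQ.supp
  refine ⟨F.toLeft, fun x x' hx => ?_⟩
  rw [hP, hP]
  refine hF _ _ ?_
  rintro (i | i) hi
  · exact hx i (Finset.mem_toLeft.2 hi)
  · rfl

/-- finitely many parameters suffice -/
theorem DefU.fin [Nonempty M] {A : Set M} {P : (α → M) → Prop} (h : DefU L A P) :
    ∃ F : Finset M, ↑F ⊆ A ∧ DefU L (↑F : Set M) P := by
  obtain ⟨Q, hQ, hP⟩ := h
  obtain ⟨F, hF⟩ := hQ.supp
  let F0 : Finset M := F.toRight.image fun a => a.1
  have hF0 : (↑F0 : Set M) ⊆ A := by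
    intro a ha
    simp only [F0, Finset.coe_image, mem_image] at ha
    obtain ⟨b, -, rfl⟩ := ha
    exact b.2
  refine ⟨F0, hF0, ?_⟩
  by_cases hne : Nonempty (α ⊕ (↑F0 : Set M))
  · obtain ⟨d⟩ := hne
    let f : α ⊕ A → α ⊕ (↑F0 : Set M) := fun i => match i with
      | Sum.inl i => Sum.inl i
      | Sum.inr a => if ha : a.1 ∈ (↑F0 : Set M) then Sum.inr ⟨a.1, ha⟩ else d
    refine (DefU.mk hQ f).congr fun x => ?_
    rw [hP]
    refine hF _ _ ?_
    rintro (i | a) hi
    · rfl
    · have ha : a.1 ∈ (↑F0 : Set M) := by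
        simp only [F0, Finset.coe_image, mem_image]
        exact ⟨a, Finset.mem_coe.2 (Finset.mem_toRight.2 hi), rfl⟩
      simp only [f, ha, dif_pos]
      rfl
  · have hα : IsEmpty α := ⟨fun a => hne ⟨Sum.inl a⟩⟩
    have : ∀ x x' : α → M, P x ↔ P x' := fun x x' => by
      rw [Subsingleton.elim x x']
    by_cases hP' : ∃ x, P x
    · obtain ⟨x, hx⟩ := hP'
      exact (DefU.const True).congr fun x' => by simp [this x' x, hx]
    · push Not at hP'
      exact (DefU.const False).congr fun x' => by simp [hP' x']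

/-- test of the calculus -/
example [Nonempty M] {χ θ : (ℕ → M) → (ℕ → M) → Prop} (hχ : Dfn2 L χ) (hθ : Dfn2 L θ) :
    Dfn2 L fun x y => ∃ z : ℕ → M, χ z y ∧ θ x z := by
  refine Dfn.exB ?_
  exact (hχ.at _ _).and (hθ.at _ _)

end api

end MP8f
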