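import Pool.Agent.Lib_MP_8da2c8.ClubA
import Pool.Agent.Lib_MP_8da2c8.ClubB

/-! STEP DiaA: clubs.  `K` is a well-order of type `λ⁺ = 2^λ` (`MP8da.KOK l K`). -/

namespace MP8f

open Cardinal Set MP8da
open scoped Classical

universe u v

variable {l : Cardinal.{u}} {K : Type u} [LinearOrder K] [WellFoundedLT K]

/-- `δ` has cofinality `ω` -/
def CofW {K : Type u} [LinearOrder K] (δ : K) : Prop :=
  ∃ d : ℕ → K, StrictMono d ∧ (∀ n, d n < δ) ∧ ∀ ξ < δ, ∃ n, ξ < d n

/-- Proof.  A cofinal set of size `cof K ≤ l` would contradict `bdd_small` (see `MP8da.cofK`). -/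
theorem lt_cof (hK : KOK l K) : l < Order.cof K := by
  by_contra h
  obtain ⟨s, hs, hs'⟩ := Order.exists_cof_eq K
  obtain ⟨δ, hδ⟩ := bdd_small hK s (by rw [hs']; exact not_lt.1 h)
  obtain ⟨x, hx, hx'⟩ := hs δ
  exact absurd (hδ x hx) (not_lt.2 hx')

/-- by `IsClub.iInter` (`MP8da.cofK`, `lt_cof`) -/
theorem club_small (hK : KOK l K) {ι : Type u} (hι : #ι ≤ l) {C : ι → Set K}
    (hC : ∀ i, IsClub (C i)) : IsClub (⋂ i, C i) := by
  refine IsClub.iInter (cofK hK) ?_ hC
  rw [Cardinal.lift_lt]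
  exact hι.trans_lt (lt_cof hK)

/-- by `IsClub.inter` or `club_small` -/
theorem club_inter (hK : KOK l K) {C D : Set K} (hC : IsClub C) (hD : IsClub D) :
    IsClub (C ∩ D) :=
  IsClub.inter (cofK hK) hC hD

private theorem DiaA_above (hK : KOK l K) (a : K) : ∃ b, a < b := by
  obtain ⟨b, hb⟩ := bdd_small hK {a} (by
    rw [mk_singleton]
    exact one_le_aleph0.trans hK.inf)
  exact ⟨b, hb a rfl⟩

/-- Proof.  Choose `d 0 < d 1 < …` in `C` above `a` (`C` is cofinal and `K` has no largest element, `bdd_small`); let `δ` be the least upper bound of the `d n` (bounded by `bdd_small`; the least upper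
bound exists by well-foundedness, see the proof of `MP8da.club_closure`); `δ ∈ C` by `IsClub.isLUB_mem`. -/
theorem exists_cofw (hK : KOK l K) {C : Set K} (hC : IsClub C) (a : K) :
    ∃ δ ∈ C, a < δ ∧ CofW δ := by
  have hstep : ∀ a : K, ∃ b ∈ C, a < b := by
    intro a
    obtain ⟨b, hb⟩ := DiaA_above hK a
    obtain ⟨c, hc, hbc⟩ := hC.isCofinal b
    exact ⟨c, hc, lt_of_lt_of_le hb hbc⟩
  choose F hF1 hF2 using hstep
  let s : ℕ → K := fun n => F^[n] (F a)
  have hs : ∀ n, s (n + 1) = F (s n) := fun n => Function.iterate_succ_apply' F n (F a)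
  have hsm : StrictMono s := strictMono_nat_of_lt_succ fun n => by
    rw [hs]
    exact hF2 (s n)
  have hsC : ∀ n, s n ∈ C := by
    intro n
    cases n with
    | zero => exact hF1 a
    | succ n =>
      rw [hs]
      exact hF1 (s n)
  obtain ⟨b, hb⟩ := bdd_small hK (range s) (by
    refine le_trans ?_ hK.inf
    exact (countable_range s).le_aleph0)
  have hne : (upperBounds (range s)).Nonempty := ⟨b, fun x hx => (hb x hx).le⟩
  have hlub : IsLUB (range s)
      (WellFounded.min (wellFounded_lt (α := K)) (upperBounds (range s)) hne) := by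
    refine ⟨WellFounded.min_mem _ _ _, fun x hx => ?_⟩
    exact not_lt.1 (WellFounded.not_lt_min (wellFounded_lt (α := K)) _ hx)
  generalize WellFounded.min (wellFounded_lt (α := K)) (upperBounds (range s)) hne = δ at hlub
  have hlt : ∀ n, s n < δ := fun n =>
    lt_of_lt_of_le (hsm (Nat.lt_succ_self n)) (hlub.1 (mem_range_self (n + 1)))
  have hsub : range s ⊆ C := by
    rintro _ ⟨n, rfl⟩
    exact hsC n
  refine ⟨δ, hC.isLUB_mem hsub ⟨s 0, mem_range_self 0⟩ hlub, lt_trans (hF2 a) (hlt 0), s, hsm,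
    hlt, ?_⟩
  · intro ξ hξ
    obtain ⟨_, ⟨n, rfl⟩, hn⟩ := (lt_isLUB_iff hlub).1 hξ
    exact ⟨n, hn⟩

/-- Points closed under countably many functions of finite sequences.
Proof.  Let `G γ` be a strict upper bound of `{γ}` and of all `f n s` with `∀ x ∈ s, x ≤ γ`: there are at most `l` of them (`#(List (Iic γ)) ≤ l`, `ℕ` countable; `bdd_small`).  Take the closure points `δ`
of `G` (`MP8da.club_closure`) which are in the club `Ioi γ0`-like set of the `δ` with some element below them, and such that `γ < δ` implies `G γ < δ`: to get `<` apply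
`club_closure` to `fun γ => (a strict upper bound of G γ)`.  If `s` is nonempty with largest element `γ < δ` then `f n s < G γ < δ`; if `s = []` use any `γ < δ`.  That the `δ` with an element below them contain a
club: `MP8da.club_C0`, or directly. -/
theorem club_closed (hK : KOK l K) (f : ℕ → List K → K) : ∃ C : Set K, IsClub C ∧
    ∀ δ ∈ C, (∃ γ, γ < δ) ∧ (∀ γ < δ, ∃ γ', γ < γ' ∧ γ' < δ) ∧
      ∀ n (s : List K), (∀ x ∈ s, x < δ) → f n s < δ := by
  have hG : ∀ γ : K, ∃ δ, γ < δ ∧ ∀ n (s : List K), (∀ x ∈ s, x ≤ γ) → f n s < δ := by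
    intro γ
    have hIic : #(Iic γ) ≤ l := by
      have h3 : Iic γ = insert γ (Iio γ) := by
        ext y
        simp [le_iff_eq_or_lt]
      rw [h3]
      refine (mk_insert_le).trans ?_
      exact add_le_of_le hK.inf (hK.init γ) (one_le_aleph0.trans hK.inf)
    have hcard : #(ℕ × List (Iic γ)) ≤ l := by
      rw [mk_prod, lift_uzero, mk_nat, lift_aleph0]
      calc ℵ₀ * #(List (Iic γ)) ≤ l * l :=
            mul_le_mul' hK.inf ((mk_list_le_max _).trans (max_le hK.inf hIic))
        _ = l := mul_eq_self hK.inf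
    obtain ⟨δ, hδ⟩ := bdd_small hK
      (insert γ (range fun p : ℕ × List (Iic γ) => f p.1 (p.2.map Subtype.val))) (by
        refine (mk_insert_le).trans ?_
        exact add_le_of_le hK.inf (mk_range_le.trans hcard) (one_le_aleph0.trans hK.inf))
    refine ⟨δ, hδ γ (mem_insert _ _), fun n s hs => hδ _ (mem_insert_of_mem _ ?_)⟩
    refine ⟨(n, s.attach.map fun x => ⟨x.1, hs x.1 x.2⟩), ?_⟩
    show f n ((s.attach.map fun x => (⟨x.1, hs x.1 x.2⟩ : Iic γ)).map Subtype.val) = f n s
    congr 1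
    rw [List.map_map]
    exact List.attach_map_subtype_val s
  choose G hG1 hG2 using hG
  choose H hH using DiaA_above hK
  refine ⟨{δ : K | ∀ γ < δ, H (G γ) ≤ δ} ∩ C0 l K,
    club_inter hK (club_closure hK _) (club_C0 hK), ?_⟩
  rintro δ ⟨h1, h2⟩
  obtain ⟨γ0, hγ0⟩ := h2.1
  have hlt : ∀ γ < δ, G γ < δ := fun γ hγ => lt_of_lt_of_le (hH (G γ)) (h1 γ hγ)
  refine ⟨⟨γ0, hγ0⟩, fun γ hγ => ⟨G γ, hG1 γ, hlt γ hγ⟩, fun n s hs => ?_⟩
  have hmax : ∀ s : List K, (∀ x ∈ s, x < δ) → ∃ γ < δ, ∀ x ∈ s, x ≤ γ := by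
    intro s
    induction s with
    | nil => exact fun _ => ⟨γ0, hγ0, fun x hx => absurd hx List.not_mem_nil⟩
    | cons a s ih =>
      intro hs
      obtain ⟨γ, hγ, hγ'⟩ := ih fun x hx => hs x (List.mem_cons_of_mem _ hx)
      refine ⟨max a γ, max_lt (hs a List.mem_cons_self) hγ, fun x hx => ?_⟩
      rcases List.mem_cons.1 hx with rfl | hx
      · exact le_max_left _ _
      · exact (hγ' x hx).trans (le_max_right _ _)
  obtain ⟨γ, hγ, hγ'⟩ := hmax s hs
  exact lt_trans (hG2 γ n s hγ') (hlt γ hγ)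

end MP8f
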