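import Pool.Agent.Lib_MP_8da2c8_full.DiaA

/-! STEP DiaB: preparations for the diamond principle. -/

namespace MP8f

open Cardinal Set MP8da
open scoped Classical

universe u v

variable {l : Cardinal.{u}} {K : Type u} [LinearOrder K] [WellFoundedLT K]

/-- Proof.  `I = l.ord.ToType` (initial segments: `Cardinal.mk_Iio_ord_toType` or similar).  A countable sequence is bounded because the cofinality of `l.ord` is `l > ℵ₀` (`hreg`). -/
theorem exists_index (hreg : l.IsRegular) (hunc : ℵ₀ < l) :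
    ∃ (I : Type u) (_ : LinearOrder I) (_ : WellFoundedLT I), #I = l ∧
      (∀ i : I, #(Iio i) < l) ∧ ∀ d : ℕ → I, ∃ i, ∀ n, d n ≤ i := by
  refine ⟨l.ord.ToType, inferInstance, inferInstance, mk_ord_toType l,
    fun i => ?_, ?_⟩
  · have h := mk_Iio_lt (α := l.ord.ToType) i (by rw [mk_ord_toType, Ordinal.type_toType])
    rwa [mk_ord_toType] at h
  intro d
  by_contra hcon
  push Not at hcon
  have h1 : IsCofinal (range d) := by
    intro i
    obtain ⟨n, hn⟩ := hcon i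
    exact ⟨d n, mem_range_self n, hn.le⟩
  have h2 : Order.cof l.ord.ToType ≤ #(range d) := Order.cof_le h1
  rw [Ordinal.cof_toType, hreg.cof_ord] at h2
  have h3 : #(range d) ≤ ℵ₀ := (countable_range d).le_aleph0
  exact absurd hunc (not_lt.2 (h2.trans h3))

/-- Proof.  `#(Iio δ × Iio δ) ≤ l = #I`, so there is an injection `j` of the pairs below `δ` into `I`; let `A δ i` be the set of the pairs `(α, β)` below `δ` with
`j (α, β) ≤ i`; `#(Iic i) < l`. -/
theorem exists_matrix (hK : KOK l K) (I : Type u) [LinearOrder I] (hI : #I = l)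
    (hI2 : ∀ i : I, #(Iio i) < l) : ∃ A : K → I → Set (K × K),
      (∀ δ i j, i ≤ j → A δ i ⊆ A δ j) ∧ (∀ δ i, #(A δ i) < l) ∧
      ∀ δ α β, α < δ → β < δ → ∃ i, (α, β) ∈ A δ i := by
  have hcard : ∀ δ : K, #{p : K × K // p.1 < δ ∧ p.2 < δ} ≤ #I := by
    intro δ
    rw [hI]
    have h1 : #{p : K × K // p.1 < δ ∧ p.2 < δ} ≤ #(Iio δ × Iio δ) := by
      refine mk_le_of_injective
        (f := fun p : {p : K × K // p.1 < δ ∧ p.2 < δ} =>
          ((⟨p.1.1, p.2.1⟩, ⟨p.1.2, p.2.2⟩) : Iio δ × Iio δ)) ?_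
      rintro ⟨⟨a, b⟩, hab⟩ ⟨⟨a', b'⟩, hab'⟩ h
      simp only [Prod.mk.injEq, Subtype.mk.injEq] at h
      obtain ⟨rfl, rfl⟩ := h
      rfl
    refine h1.trans ?_
    rw [mk_prod, lift_id]
    exact (mul_le_mul' (hK.init δ) (hK.init δ)).trans (mul_eq_self hK.inf).le
  have hemb : ∀ δ : K, ∃ j : {p : K × K // p.1 < δ ∧ p.2 < δ} → I, Function.Injective j := by
    intro δ
    obtain ⟨j⟩ := hcard δ
    exact ⟨j, j.injective⟩
  choose j hj using hemb
  have hIic : ∀ i : I, #(Iic i) < l := by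
    intro i
    have h3 : Iic i = insert i (Iio i) := by
      ext y
      simp [le_iff_eq_or_lt]
    rw [h3]
    refine (mk_insert_le).trans_lt ?_
    exact add_lt_of_lt hK.inf (hI2 i) (one_lt_aleph0.trans_le hK.inf)
  refine ⟨fun δ i => {p | ∃ h : p.1 < δ ∧ p.2 < δ, j δ ⟨p, h⟩ ≤ i}, ?_, ?_, ?_⟩
  · rintro δ i i' hii' p ⟨h, hp⟩
    exact ⟨h, hp.trans hii'⟩
  · intro δ i
    refine lt_of_le_of_lt ?_ (hIic i)
    refine mk_le_of_injective
      (f := fun p : {p : K × K | ∃ h : p.1 < δ ∧ p.2 < δ, j δ ⟨p, h⟩ ≤ i} =>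
        (⟨j δ ⟨p.1, p.2.choose⟩, p.2.choose_spec⟩ : Iic i)) ?_
    intro p p' h
    simp only [Subtype.mk.injEq] at h
    have h4 := hj δ h
    simp only [Subtype.mk.injEq] at h4
    exact Subtype.ext h4
  · intro δ α β hα hβ
    exact ⟨j δ ⟨(α, β), hα, hβ⟩, ⟨hα, hβ⟩, le_rfl⟩

/-- Proof.  For fixed `α`: `#(I → I → Iio α → Θ) ≤ (succ l) ^ (l * l * l) = (2 ^ l) ^ l = 2 ^ l = #K` (`hK.gch`), so there is a surjection of `K` onto this type; extend the functions by a constant. -/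
theorem exists_enum (hK : KOK l K) (I : Type u) (hI : #I = l) (Θ : Type u) [Nonempty Θ]
    (hΘ : #Θ ≤ #K) : ∃ en : K → K → I → I → K → Θ,
      ∀ (α : K) (z : I → I → K → Θ), ∃ β, ∀ j σ, ∀ ξ < α, en α β j σ ξ = z j σ ξ := by
  have hinf : ℵ₀ ≤ l := hK.inf
  have hcard : ∀ α : K, #(I × I × Iio α → Θ) ≤ #K := by
    intro α
    have h1 : #(I × I × Iio α → Θ) = #Θ ^ #(I × I × Iio α) := by
      rw [Cardinal.power_def]
    rw [h1, hK.card, ← hK.gch]
    have h2 : #(I × I × Iio α) ≤ l := by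
      rw [mk_prod, lift_id, lift_id, mk_prod, lift_id, lift_id, hI]
      calc l * (l * #(Iio α)) ≤ l * (l * l) :=
            mul_le_mul' le_rfl (mul_le_mul' le_rfl (hK.init α))
        _ = l := by rw [mul_eq_self hinf, mul_eq_self hinf]
    have h3 : #Θ ≤ 2 ^ l := by
      rw [hK.gch, ← hK.card]
      exact hΘ
    have h4 : (2 : Cardinal.{u}) ^ l ≠ 0 := power_ne_zero _ two_ne_zero
    calc #Θ ^ #(I × I × Iio α) ≤ (2 ^ l) ^ #(I × I × Iio α) := power_le_power_right h3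
      _ ≤ (2 ^ l) ^ l := power_le_power_left h4 h2
      _ = 2 ^ (l * l) := (power_mul).symm
      _ = 2 ^ l := by rw [mul_eq_self hinf]
  have hemb : ∀ α : K, ∃ e : (I × I × Iio α → Θ) → K, Function.Injective e := by
    intro α
    obtain ⟨e⟩ := hcard α
    exact ⟨e, e.injective⟩
  choose e he using hemb
  let d0 : Θ := Classical.arbitrary Θ
  refine ⟨fun α β j σ ξ => if h : ξ < α then Function.invFun (e α) β (j, σ, ⟨ξ, h⟩) else d0, ?_⟩
  intro α z
  refine ⟨e α fun p => z p.1 p.2.1 p.2.2.1, fun j σ ξ hξ => ?_⟩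
  simp only [hξ, dif_pos]
  rw [Function.leftInverse_invFun (he α)]

end MP8f
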