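import Pool.Agent.Lib_MP_8da2c8_full.Core

/-! STEP Elem: elementary subsets. -/

namespace MP8f

open Cardinal Set FirstOrder Filter
open scoped Classical

universe u v w x

variable {L : FirstOrder.Language.{0, 0}} {M : Type u} [L.Structure M] [Nonempty M]
variable {α : Type v} {β : Type w}

/-- a finite set of coordinates can be numbered -/
theorem elem_number {α : Type v} [Nonempty α] (F : Finset α) :
    ∃ (g : α → ℕ) (f : ℕ → α), ∀ i ∈ F, f (g i) = i := by
  refine ⟨fun i => if h : i ∈ F then (F.equivFin ⟨i, h⟩).val else 0,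
    fun n => if h : n < F.card then (F.equivFin.symm ⟨n, h⟩).val else Classical.arbitrary α, ?_⟩
  intro i hi
  beta_reduce
  rw [dif_pos hi]
  have h1 : (F.equivFin ⟨i, hi⟩).val < F.card := (F.equivFin ⟨i, hi⟩).isLt
  rw [dif_pos h1]
  have h2 : (⟨(F.equivFin ⟨i, hi⟩).val, h1⟩ : Fin F.card) = F.equivFin ⟨i, hi⟩ := rfl
  rw [h2, Equiv.symm_apply_apply]

/-- Blocks with any index type.
Proof.  Take a finite support `F` of `P` (`DefU.supp`).  If `α` is empty there is nothing to show.  Otherwise let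
`g : α → ℕ` be injective on `F` and `f : ℕ → α` with `f (g i) = i` for `i ∈ F` (`F.equivFin`).  Apply the definition of `Elt` to
`fun z : ℕ → M => P fun i => z (g i)` (`DefU.at`), which is satisfied by `z j = x (f j)`. -/
theorem Elt.ex {U : Set M} (hU : Elt L U) {P : (α → M) → Prop} (hP : DefU L U P)
    (h : ∃ x, P x) : ∃ x, (∀ i, x i ∈ U) ∧ P x := by
  rcases isEmpty_or_nonempty α with hα | hα
  · obtain ⟨x, hx⟩ := h
    exact ⟨x, fun i => hα.elim i, hx⟩
  obtain ⟨F, hF⟩ := hP.supp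
  obtain ⟨g, f, hgf⟩ := elem_number F
  obtain ⟨x, hx⟩ := h
  obtain ⟨z, hz, hz'⟩ := hU.2 (fun z : ℕ → M => P fun i => z (g i)) (hP.at g)
    ⟨fun j => x (f j), (hF _ _ fun i hi => by
      show x (f (g i)) = x i
      rw [hgf i hi]).2 hx⟩
  exact ⟨fun i => z (g i), fun i => hz _, hz'⟩

theorem Elt.all {U : Set M} (hU : Elt L U) {P : (α → M) → Prop} (hP : DefU L U P)
    (h : ∀ x, (∀ i, x i ∈ U) → P x) : ∀ x, P x := by
  by_contra hc
  push Not at hc
  obtain ⟨x, hx, hx'⟩ := hU.ex hP.not hc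
  exact hx' (h x hx)

theorem Elt.iff_of {U : Set M} (hU : Elt L U) {P P' : (α → M) → Prop} (hP : DefU L U P)
    (hP' : DefU L U P') (h : ∀ x, (∀ i, x i ∈ U) → (P x ↔ P' x)) : ∀ x, P x ↔ P' x :=
  hU.all (hP.iff hP') h

theorem elt_univ : Elt L (univ : Set M) :=
  ⟨univ_nonempty, fun P _ h => by
    obtain ⟨x, hx⟩ := h
    exact ⟨x, fun i => mem_univ _, hx⟩⟩

/-- realisations can be pulled back along an elementary embedding -/
theorem elem_pull {N : Type u} [L.Structure N] [Nonempty N] (j : N ↪ₑ[L] M) {A : Set M}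
    (s : A → N) (hs : ∀ a, j (s a) = a.1) (φ : L.Formula (ℕ ⊕ A)) {x : ℕ → M}
    (hx : φ.Realize (Sum.elim x fun a : A => a.1)) :
    ∃ x' : ℕ → N, φ.Realize (Sum.elim x' s) := by
  obtain ⟨ψ, hψ⟩ := exists_exF.{u} (φ.relabel Sum.swap : L.Formula (A ⊕ ℕ))
  have key : ∀ (N' : Type u) [L.Structure N'] (y : A → N') (z : ℕ → N'),
      (φ.relabel Sum.swap : L.Formula (A ⊕ ℕ)).Realize (Sum.elim y z) ↔
        φ.Realize (Sum.elim z y) := by
    intro N' _ y z
    rw [FirstOrder.Language.Formula.realize_relabel]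
    have : (Sum.elim y z) ∘ Sum.swap = Sum.elim z y := by
      funext i
      rcases i with i | i <;> rfl
    rw [this]
  have h1 : ψ.Realize (fun a : A => a.1) := (hψ M _).2 ⟨x, (key M _ _).2 hx⟩
  have h2 : (fun a : A => a.1) = j ∘ s := funext fun a => (hs a).symm
  rw [h2, j.map_formula] at h1
  obtain ⟨x', hx'⟩ := (hψ N _).1 h1
  exact ⟨x', (key N _ _).1 hx'⟩

theorem elem_push {N : Type u} [L.Structure N] [Nonempty N] (j : N ↪ₑ[L] M) {A : Set M}
    (s : A → N) (hs : ∀ a, j (s a) = a.1) (φ : L.Formula (ℕ ⊕ A)) {x' : ℕ → N}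
    (hx : φ.Realize (Sum.elim x' s)) :
    φ.Realize (Sum.elim (fun i => j (x' i)) fun a : A => a.1) := by
  rw [← j.map_formula] at hx
  have : j ∘ Sum.elim x' s = Sum.elim (fun i => j (x' i)) fun a : A => a.1 := by
    funext i
    rcases i with i | i
    · rfl
    · exact hs i
  rw [← this]
  exact hx

/-- Proof.  Let `P` be definable over `range j`: `P x ↔ φ.Realize (Sum.elim x (↑))` with `φ : L.Formula (ℕ ⊕ range j)`.
By `exists_exF` applied to the relabelled formula `φ.relabel Sum.swap` there is `ψ : L.Formula (range j)` with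
`ψ.Realize y ↔ ∃ x, φ.Realize (Sum.elim x y)` in `M` and in `N`.  Choose `s : range j → N` with `j (s a) = a`; so
`ψ.Realize (fun a => j (s a))` in `M`, hence `ψ.Realize s` in `N` (`j.map_formula`), hence there is
`x : ℕ → N` with `φ.Realize (Sum.elim x s)` in `N`, and `fun i => j (x i)` is as required (`j.map_formula`). -/
theorem elt_range {N : Type u} [L.Structure N] [Nonempty N] (j : N ↪ₑ[L] M) :
    Elt L (range j) := by
  refine ⟨range_nonempty _, ?_⟩
  rintro P ⟨Q, ⟨φ, hφ⟩, hP⟩ ⟨x, hx⟩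
  choose s hs using fun a : range j => a.2
  obtain ⟨x', hx'⟩ := elem_pull j s hs φ ((hφ _).1 ((hP x).1 hx))
  exact ⟨fun i => j (x' i), fun i => ⟨_, rfl⟩, (hP _).2 ((hφ _).2 (elem_push j s hs φ hx'))⟩

theorem elt_of_sub (S : L.ElementarySubstructure M) : Elt L (S : Set M) := by
  have := elt_range S.subtype
  simpa using this

/-- transitivity of elementarity: definable sets over `U` have the same meaning in an elementary extension.
If `U` is elementary in `N` and `j : N ↪ₑ[L] M` then `j '' U` is elementary in `M`.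
Proof.  Similar to `elt_range`: for `P` definable over `j '' U` and satisfied in `M`, `P x ↔ φ.Realize (Sum.elim x (↑))`;
let `s : j '' U → N` with `s a ∈ U`, `j (s a) = a`.  As above there is `x : ℕ → N` with `φ.Realize (Sum.elim x s)` in `N`;
`fun x : ℕ → N => φ.Realize (Sum.elim x s)` is definable over `U` (`DefU.mk`), so `x` may be taken in `U`. -/
theorem Elt.image {N : Type u} [L.Structure N] [Nonempty N] (j : N ↪ₑ[L] M) {U : Set N}
    (hU : Elt L U) : Elt L (j '' U) := by
  refine ⟨hU.1.image _, ?_⟩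
  rintro P ⟨Q, ⟨φ, hφ⟩, hP⟩ ⟨x, hx⟩
  choose s hs using fun a : j '' U => a.2
  obtain ⟨x', hx'⟩ := elem_pull j s (fun a => (hs a).2) φ ((hφ _).1 ((hP x).1 hx))
  have hdef : DefU L U fun z : ℕ → N => φ.Realize (Sum.elim z s) := by
    refine (DefU.mk (A := U) (R := fun z : ℕ ⊕ (j '' U) → N => φ.Realize z) ⟨φ, fun _ => Iff.rfl⟩
      (Sum.elim Sum.inl fun a => Sum.inr ⟨s a, (hs a).1⟩)).congr fun z => ?_
    refine iff_of_eq (congrArg φ.Realize ?_)
    funext i
    rcases i with i | i <;> rfl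
  obtain ⟨x'', h1, h2⟩ := hU.2 _ hdef ⟨x', hx'⟩
  exact ⟨fun i => j (x'' i), fun i => ⟨_, h1 i, rfl⟩,
    (hP _).2 ((hφ _).2 (elem_push j s (fun a => (hs a).2) φ h2))⟩

end MP8f
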