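import Pool.Agent.Lib_MP_8da2c8_full.Sys

/-! STEP Fr: the freeness lemma. -/

namespace MP8f

open Cardinal Set FirstOrder Filter
open scoped Classical

universe u v w x

variable {L : FirstOrder.Language.{0, 0}} {M : Type u} [L.Structure M] [Nonempty M]
variable {N : Type v} {Λ : Type} [LinearOrder Λ]

omit [Nonempty M] in
/-- the support is in the elementary sets of all stages from `st ν` on -/
theorem fr_sup (σ : Sys L M N Λ) {ν : N} {s : Λ} (h : σ.st ν ≤ s) :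
    MlS σ.B σ.e (σ.S ν) ⊆ σ.U s := by
  rintro a (ha | ⟨μ, hμ, i, rfl⟩)
  · exact σ.base _ ha
  · exact σ.mem μ _ (lt_of_lt_of_le (σ.low ν μ hμ) h) i

/-- The case of parameters of stages `≤ st ν`.
Proof.  Let `E` be as in the definition of `Alm` for `Z`.  It is enough that `Ev (σ.p ν) (fun x => E x (σ.e ν))` (then `E (σ.e ν) x`, so `Z x`).
Suppose not.  `MlS σ.B σ.e F ⊆ Oth …ν`.  The condition `W z = ¬ Ev (σ.p ν) (fun x => E x z)` is definable over `Oth …ν`, by `AlmT.evU` with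
`A = MlS σ.B σ.e (σ.S ν)` (contained in `σ.U (σ.st ν)` by `base`, `mem`, `low`), `U = σ.U (σ.st ν)`, `B = Oth …ν`.  `W (σ.e ν)` holds, so `Ev (σ.p ν) W` by
`σ.prod`, contradicting `finEq_ev` (`ev_and`, `Ev.exists`). -/
theorem fr_low (σ : Sys L M N Λ) {ν : N} {F : Finset N} (hν : ν ∉ F)
    (hF : ∀ μ ∈ F, σ.st μ ≤ σ.st ν) {Z : (ℕ → M) → Prop}
    (hZ : Alm L (MlS σ.B σ.e (↑F : Set N)) Z) (h : Z (σ.e ν)) : Ev (σ.p ν) Z := by
  obtain ⟨E, hE, hfin, hEZ⟩ := hZ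
  by_contra hcon
  have hsub : MlS σ.B σ.e (↑F : Set N) ⊆ Oth σ.U σ.st σ.e ν := by
    rintro a (ha | ⟨μ, hμ, i, rfl⟩)
    · exact Or.inl (σ.base _ ha)
    · rcases lt_or_eq_of_le (hF μ hμ) with h1 | h1
      · exact Or.inl (σ.mem μ _ h1 i)
      · exact Or.inr ⟨μ, h1, fun hh => hν (hh ▸ hμ), i, rfl⟩
  have hE' : DefU2 L (Oth σ.U σ.st σ.e ν) E := DefU.mono hsub hE
  have hW : DefU L (Oth σ.U σ.st σ.e ν) fun z => Ev (σ.p ν) fun x => E x z :=
    (σ.alm ν).evU (fr_sup σ (le_refl _)) (σ.elt _) subset_union_left hE'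
  have hWe : ¬ Ev (σ.p ν) fun x => E x (σ.e ν) := by
    intro h'
    apply hcon
    exact h'.mono fun x hx => hEZ _ _ (hfin.1.symm hx) h
  have h2 : Ev (σ.p ν) fun z => ¬ Ev (σ.p ν) fun x => E x z := (σ.prod ν _ hW.not).1 hWe
  have h3 := finEq_ev hfin (σ.p ν)
  obtain ⟨x, hx1, hx2⟩ := (ev_and.2 ⟨h2, h3⟩).exists
  exact hx1 hx2

/-- Proof.  `stage_induction` on `F`.  `F = ∅`: `fr_low`.  Step: let `μ ∈ F` have maximal stage.  If `σ.st μ ≤ σ.st ν` use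
`fr_low` (`ν ∉ F` as `ν ∉ X`).  Let `σ.st ν < σ.st μ`, `Fμ = F.erase μ`, `O = Oth σ.U σ.st σ.e μ`.  Let `E` be as in `Alm` for `Z`; it is enough
that `Ev (σ.p ν) (fun x => E x (σ.e ν))`; suppose not.  By `DefU.split` (`MlS … F ⊆ MlS … Fμ ∪ range (σ.e μ)`, `DefU.mono`) write
`E x x' ↔ E' x x' (σ.e μ)` where `E'` is definable over `MlS … Fμ ⊆ O`.  Let `Γ x y = ¬ Ev (σ.p ν) (fun x' => E' x' x y)`.
(1) `Γ` is definable over `O` as a relation between `x` and `y`: `AlmT.evU` for `σ.p ν` with `U = σ.U (σ.st μ)` (which contains `MlS … (σ.S ν)` as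
`σ.st ν < σ.st μ`) and `B = O`.  `Γ (σ.e ν) (σ.e μ)` holds, so by `σ.prod μ` (substitute `σ.e ν`, in `σ.U (σ.st μ)`)
`Z' (σ.e ν)`, where `Z' x = Ev (σ.p μ) (fun y => Γ x y)`.
(2) `Z'` is almost over `MlS … (σ.S ν ∪ σ.S μ ∪ Fμ)`: `Alm.of_defU`, `AlmT.ev` for `σ.p ν`, `Alm.not`, `AlmT.ev` for `σ.p μ` (use `AlmT.mono`, `Alm.at` to swap blocks).  By
`alm_names` it is almost over `MlS … F'` with `F' ⊆ σ.S ν ∪ σ.S μ ∪ Fμ ⊆ X` finite; all its elements are in `Fμ` or of stage `< σ.st μ`.  The induction hypothesis gives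
`Ev (σ.p ν) Z'`.
(3) By `ev_comm`, `Ev (σ.p μ) (fun y => Ev (σ.p ν) (fun x => Γ x y))`; the condition on `y` is definable over `O` (`AlmT.evU` again), so by
`σ.prod μ` `Ev (σ.p ν) (fun x => Γ x (σ.e μ))`, i.e. `Ev (σ.p ν) (fun x => ¬ Ev (σ.p ν) (fun x' => E x' x))`, contradicting `finEq_ev`. -/
theorem fr_aux [WellFoundedLT Λ] (σ : Sys L M N Λ) (hS : Stb L M) {X : Set N} (hX : Cl σ.S X) {ν : N}
    (hν : ν ∉ X) (hSν : σ.S ν ⊆ X) (F : Finset N) : (↑F : Set N) ⊆ X →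
    ∀ Z : (ℕ → M) → Prop, Alm L (MlS σ.B σ.e (↑F : Set N)) Z → Z (σ.e ν) → Ev (σ.p ν) Z := by
  refine stage_induction σ.st (fun F => (↑F : Set N) ⊆ X → ∀ Z : (ℕ → M) → Prop,
    Alm L (MlS σ.B σ.e (↑F : Set N)) Z → Z (σ.e ν) → Ev (σ.p ν) Z) ?_ ?_ F
  · intro _ Z hZ h
    exact fr_low σ (F := ∅) (by simp) (by simp) hZ h
  · intro F μ hμ hmax ih hFX Z hZ h
    by_cases hle : σ.st μ ≤ σ.st ν
    · exact fr_low σ (fun hh => hν (hFX hh)) (fun κ hκ => (hmax κ hκ).trans hle) hZ h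
    have hlt : σ.st ν < σ.st μ := lt_of_not_ge hle
    obtain ⟨E, hE, hfin, hEZ⟩ := hZ
    by_contra hcon
    have hsplit : MlS σ.B σ.e (↑F : Set N) ⊆
        MlS σ.B σ.e (↑(F.erase μ) : Set N) ∪ range (σ.e μ) := by
      rintro a (ha | ⟨κ, hκ, i, rfl⟩)
      · exact Or.inl (Or.inl ha)
      · by_cases hk : κ = μ
        · subst hk
          exact Or.inr ⟨i, rfl⟩
        · exact Or.inl (Or.inr ⟨κ, Finset.mem_coe.2 (Finset.mem_erase.2 ⟨hk, hκ⟩), i, rfl⟩)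
    obtain ⟨P, hP, hPE⟩ := DefU.split (c := σ.e μ) (DefU.mono hsplit hE)
    have hFO : MlS σ.B σ.e (↑(F.erase μ) : Set N) ⊆ Oth σ.U σ.st σ.e μ := by
      rintro a (ha | ⟨κ, hκ, i, rfl⟩)
      · exact Or.inl (σ.base _ ha)
      · have hκ' := Finset.mem_erase.1 (Finset.mem_coe.1 hκ)
        rcases lt_or_eq_of_le (hmax κ hκ'.2) with h1 | h1
        · exact Or.inl (σ.mem κ _ h1 i)
        · exact Or.inr ⟨κ, h1, hκ'.1, i, rfl⟩
    -- the relation as a relation between a block and a pair of blocks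
    have hP2 : ∀ {D : Set M}, MlS σ.B σ.e (↑(F.erase μ) : Set N) ⊆ D →
        DefU2 L D fun (x' : ℕ → M) (z : ℕ ⊕ ℕ → M) =>
          P (Sum.elim x' fun i => z (.inl i)) fun j => z (.inr j) := by
      intro D hD
      refine (DefU2.at (DefU.mono hD hP) (Sum.elim Sum.inl fun i => Sum.inr (Sum.inl i))
        fun j => Sum.inr (Sum.inr j)).congr fun z => ?_
      refine iff_of_eq (congrArg₂ P ?_ rfl)
      funext i
      rcases i with i | i <;> rfl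
    have hΓ : DefU2 L (Oth σ.U σ.st σ.e μ) fun (x y : ℕ → M) =>
        ¬ Ev (σ.p ν) fun x' => P (Sum.elim x' x) y :=
      DefU.not ((σ.alm ν).evU (fr_sup σ hlt.le) (σ.elt _) subset_union_left (hP2 hFO))
    have hΓe : ¬ Ev (σ.p ν) fun x' => P (Sum.elim x' (σ.e ν)) (σ.e μ) := by
      intro h'
      apply hcon
      exact h'.mono fun x hx => hEZ _ _ (hfin.1.symm ((hPE (Sum.elim x (σ.e ν))).2 hx)) h
    have hZe : Ev (σ.p μ) fun y => ¬ Ev (σ.p ν) fun x' => P (Sum.elim x' (σ.e ν)) y :=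
      (σ.prod μ _ (hΓ.subst' (σ.e ν) fun i => Or.inl (σ.mem ν _ hlt i))).1 hΓe
    -- (2)
    have hA0 : Alm L (MlS σ.B σ.e (σ.S ν ∪ σ.S μ ∪ (↑(F.erase μ) : Set N)))
        fun z : ℕ ⊕ ℕ → M => Ev (σ.p ν) fun x' =>
          P (Sum.elim x' fun i => z (.inl i)) fun j => z (.inr j) :=
      ((σ.alm ν).mono (MlS.mono fun κ hκ => Or.inl (Or.inl hκ))).ev
        (P := fun (x' : ℕ → M) (z : ℕ ⊕ ℕ → M) =>
          P (Sum.elim x' fun i => z (.inl i)) fun j => z (.inr j))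
        (Alm.of_defU (hP2 (MlS.mono fun κ hκ => Or.inr hκ)))
    have hA1 : Alm L (MlS σ.B σ.e (σ.S ν ∪ σ.S μ ∪ (↑(F.erase μ) : Set N)))
        fun x : ℕ → M => Ev (σ.p μ) fun y => ¬ Ev (σ.p ν) fun x' => P (Sum.elim x' x) y :=
      ((σ.alm μ).mono (MlS.mono fun κ hκ => Or.inl (Or.inr hκ))).ev
        (P := fun (y x : ℕ → M) => ¬ Ev (σ.p ν) fun x' => P (Sum.elim x' x) y)
        (hA0.not.at Sum.swap)
    obtain ⟨F', hF', hZF'⟩ := alm_names hA1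
    have hZp : Ev (σ.p ν) fun x => Ev (σ.p μ) fun y =>
        ¬ Ev (σ.p ν) fun x' => P (Sum.elim x' x) y := by
      refine ih F' ?_ ?_ _ hZF' hZe
      · intro κ hκ
        rcases hF' (Finset.mem_coe.2 hκ) with (h1 | h1) | h1
        · exact Or.inr ((σ.low ν κ h1).trans hlt)
        · exact Or.inr (σ.low μ κ h1)
        · have h2 := Finset.mem_erase.1 (Finset.mem_coe.1 h1)
          exact Or.inl ⟨h2.2, h2.1⟩
      · intro κ hκ
        rcases hF' hκ with (h1 | h1) | h1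
        · exact hSν h1
        · exact hX μ (hFX (Finset.mem_coe.2 hμ)) h1
        · exact hFX (Finset.mem_coe.2 (Finset.mem_erase.1 (Finset.mem_coe.1 h1)).2)
    -- (3)
    have h3 : Ev (σ.p μ) fun y => Ev (σ.p ν) fun x =>
        ¬ Ev (σ.p ν) fun x' => P (Sum.elim x' x) y :=
      (ev_comm hS (σ.p ν) (σ.p μ) (P := fun x y => ¬ Ev (σ.p ν) fun x' => P (Sum.elim x' x) y)
        (DefU.mono (subset_univ _) hΓ)).1 hZp
    have h4 : DefU L (Oth σ.U σ.st σ.e μ) fun y => Ev (σ.p ν) fun x =>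
        ¬ Ev (σ.p ν) fun x' => P (Sum.elim x' x) y :=
      (σ.alm ν).evU (fr_sup σ hlt.le) (σ.elt _) subset_union_left hΓ
    have h5 := (σ.prod μ _ h4).2 h3
    have h6 := finEq_ev hfin (σ.p ν)
    obtain ⟨x, hx1, hx2⟩ := (ev_and.2 ⟨h5, h6⟩).exists
    exact hx1 (hx2.mono fun x' hx' => (hPE (Sum.elim x' x)).1 hx')

/-- The freeness lemma: by `alm_names` and `fr_aux` for `Z` and for `¬ Z`. -/
theorem fr [WellFoundedLT Λ] (σ : Sys L M N Λ) (hS : Stb L M) {X : Set N} (hX : Cl σ.S X) {ν : N}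
    (hν : ν ∉ X) (hSν : σ.S ν ⊆ X) {Z : (ℕ → M) → Prop} (hZ : Alm L (σ.Ml X) Z) :
    Z (σ.e ν) ↔ Ev (σ.p ν) Z := by
  obtain ⟨F, hF, hZF⟩ := alm_names hZ
  constructor
  · exact fr_aux σ hS hX hν hSν F hF Z hZF
  · intro h
    by_contra hn
    exact ev_not.1 (fr_aux σ hS hX hν hSν F hF _ hZF.not hn) h

end MP8f
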