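import Pool.Agent.Lib_MP_8da2c8_full.AlmB2

/-! STEP GcA: countability. -/

namespace MP8f

open Cardinal Set FirstOrder Filter
open scoped Classical

universe u v w x

variable {L : FirstOrder.Language.{0, 0}} {M : Type u} [L.Structure M] [Nonempty M]

/-- by `FirstOrder.Language.BoundedFormula.card_le` -/
theorem countable_formula [Countable L.Symbols] (α : Type v) [Countable α] :
    Countable (L.Formula α) := inferInstance

/-- for a fixed equivalence relation with finitely many classes there are finitely many unions of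
classes -/
private theorem GcA_fin {X : Type v} [Nonempty X] {E : X → X → Prop} (hE : FinEq E) :
    {Z : X → Prop | ∀ x x', E x x' → Z x → Z x'}.Finite := by
  obtain ⟨n, w, hw⟩ := hE.reps
  refine Set.Finite.of_finite_image (f := fun Z : X → Prop => {i : Fin n | Z (w i)})
    (Set.toFinite _) ?_
  intro Z hZ Z' hZ' h
  funext x
  obtain ⟨i, hi⟩ := hw x
  have h1 : Z (w i) ↔ Z' (w i) := Set.ext_iff.1 h i
  refine propext ⟨fun hx => ?_, fun hx => ?_⟩
  · exact hZ' _ _ hi (h1.1 (hZ _ _ (hE.1.symm hi) hx))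
  · exact hZ _ _ hi (h1.2 (hZ' _ _ (hE.1.symm hi) hx))

/-- Proof.  For a fixed equivalence relation `E` with finitely many classes there are finitely many `Z` which are unions
of classes: `Z` is determined by the set of `i` with `Z (w i)`, `w` representatives (`FinEq.reps`).  `E` is given by a
formula in `L.Formula ((ℕ ⊕ ℕ) ⊕ A)`, a countable type. -/
theorem countable_alm [Countable L.Symbols] {A : Set M} (hA : A.Countable) :
    {Z : (ℕ → M) → Prop | Alm L A Z}.Countable := by
  have hA' : Countable A := hA.to_subtype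
  have hc : Countable (L.Formula ((ℕ ⊕ ℕ) ⊕ A)) := countable_formula _
  have hsub : {Z : (ℕ → M) → Prop | Alm L A Z} ⊆ ⋃ φ : L.Formula ((ℕ ⊕ ℕ) ⊕ A),
      {Z : (ℕ → M) → Prop | FinEq (fun x x' : ℕ → M =>
        φ.Realize (Sum.elim (Sum.elim x x') fun a : A => a.1)) ∧
        ∀ x x', φ.Realize (Sum.elim (Sum.elim x x') fun a : A => a.1) → Z x → Z x'} := by
    rintro Z ⟨E, ⟨Q, ⟨φ, hφ⟩, hQ⟩, hfin, hZ⟩
    have hE : E = fun x x' : ℕ → M =>
        φ.Realize (Sum.elim (Sum.elim x x') fun a : A => a.1) := by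
      funext x x'
      exact propext ((hQ (Sum.elim x x')).trans (hφ _))
    refine Set.mem_iUnion.2 ⟨φ, ?_⟩
    rw [hE] at hfin hZ
    exact ⟨hfin, hZ⟩
  refine Set.Countable.mono hsub (Set.countable_iUnion fun φ => ?_)
  by_cases h : FinEq (fun x x' : ℕ → M =>
      φ.Realize (Sum.elim (Sum.elim x x') fun a : A => a.1))
  · exact ((GcA_fin h).subset fun Z hZ => hZ.2).countable
  · refine Set.Countable.mono (fun Z hZ => absurd hZ.1 h) Set.countable_empty

/-- Proof.  `P` definable over `univ` is `φ (x, y)` for a formula `φ` and a block `y : ℕ → M`: `P x ↔ Q (x, params)`, then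
`Dfn2.reduce`. -/
theorem teq_iff {p q : Ultrafilter (ℕ → M)} : TEq L p q ↔
    ∀ (φ : L.Formula (ℕ ⊕ ℕ)) (y : ℕ → M),
      (Ev p fun x => φ.Realize (Sum.elim x y)) ↔ Ev q fun x => φ.Realize (Sum.elim x y) := by
  constructor
  · intro h φ y
    have h1 : Dfn2 L fun (x : ℕ → M) (y : ℕ → M) => φ.Realize (Sum.elim x y) := by
      refine ⟨φ, fun z => ?_⟩
      refine iff_of_eq (congrArg φ.Realize ?_)
      funext i
      cases i <;> rfl
    have h2 : DefU2 L (univ : Set M) fun (x : ℕ → M) (y : ℕ → M) =>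
        φ.Realize (Sum.elim x y) := DefU.of_dfn h1
    exact h _ (h2.subst y fun i => mem_univ _)
  · rintro h P ⟨Q, hQ, hP⟩
    have : Nonempty (univ : Set M) := ⟨⟨Classical.arbitrary M, mem_univ _⟩⟩
    have h1 : Dfn2 L fun (x : ℕ → M) (z : ↥(univ : Set M) → M) => Q (Sum.elim x z) := by
      refine Dfn.congr hQ fun z => ?_
      refine iff_of_eq (congrArg Q ?_)
      funext i
      cases i <;> rfl
    obtain ⟨R', ⟨φ, hφ⟩, f, hf⟩ := h1.reduce
    have h2 : ∀ x, P x ↔ φ.Realize (Sum.elim x fun j => (f j).1) := by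
      intro x
      refine (hP x).trans ((hf x _).trans ?_)
      exact hφ (Sum.elim x fun j => (f j).1)
    rw [ev_congr h2, ev_congr h2]
    exact h φ _

theorem TEq.refl (p : Ultrafilter (ℕ → M)) : TEq L p p := fun _ _ => Iff.rfl

theorem TEq.symm {p q : Ultrafilter (ℕ → M)} (h : TEq L p q) : TEq L q p :=
  fun P hP => (h P hP).symm

theorem TEq.trans {p q r : Ultrafilter (ℕ → M)} (h : TEq L p q) (h' : TEq L q r) : TEq L p r :=
  fun P hP => (h P hP).trans (h' P hP)

end MP8f
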