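import Pool.Agent.Lib_MP_8da2c8_full.Transp

/-! STEP GiA: images of definable sets and of types under an elementary map `G : U → M`. -/

namespace MP8f

open Cardinal Set FirstOrder Filter
open scoped Classical

universe u v w x

/-- `G` is elementary on `U` -/
def GEl (L : FirstOrder.Language.{0, 0}) {M : Type u} [L.Structure M] (U : Set M) (G : M → M) :
    Prop :=
  ∀ R : (U → M) → Prop, Dfn L R → (R (fun a => a.1) ↔ R fun a => G a.1)

/-- `P'` is the image under `G` of `P`, which is definable over `U` -/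
def GI (L : FirstOrder.Language.{0, 0}) {M : Type u} [L.Structure M] (U : Set M) (G : M → M)
    {α : Type v} (P P' : (α → M) → Prop) : Prop :=
  ∃ Q : (α ⊕ U → M) → Prop, Dfn L Q ∧ (∀ x, P x ↔ Q (Sum.elim x fun a => a.1)) ∧
    ∀ x, P' x ↔ Q (Sum.elim x fun a => G a.1)

/-- the type `q` is the image of the type `p` -/
def GRel (L : FirstOrder.Language.{0, 0}) {M : Type u} [L.Structure M] (U : Set M) (G : M → M)
    (p q : Ultrafilter (ℕ → M)) : Prop :=
  ∀ R : (ℕ → M) → (ℕ → M) → Prop, Dfn2 L R →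
    GI L U G (fun y => Ev p fun x => R x y) fun y => Ev q fun x => R x y

variable {L : FirstOrder.Language.{0, 0}} {M : Type u} [L.Structure M] [Nonempty M]
variable {U : Set M} {G : M → M} {α : Type v} {β : Type w}

theorem GI.at {P P' : (α → M) → Prop} (h : GI L U G P P') (f : α → β) :
    GI L U G (fun z : β → M => P fun i => z (f i)) fun z => P' fun i => z (f i) := by
  obtain ⟨Q, hQ, h1, h2⟩ := h
  refine ⟨_, hQ.at (Sum.elim (fun i => Sum.inl (f i)) Sum.inr), fun z => ?_, fun z => ?_⟩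
  · refine (h1 _).trans (iff_of_eq (congrArg Q ?_))
    funext i
    cases i <;> rfl
  · refine (h2 _).trans (iff_of_eq (congrArg Q ?_))
    funext i
    cases i <;> rfl

theorem GI.const (c : Prop) : GI L U G (fun _ : α → M => c) fun _ => c :=
  ⟨fun _ => c, Dfn.const c, fun _ => Iff.rfl, fun _ => Iff.rfl⟩

theorem GI.not {P P' : (α → M) → Prop} (h : GI L U G P P') :
    GI L U G (fun x => ¬ P x) fun x => ¬ P' x := by
  obtain ⟨Q, hQ, h1, h2⟩ := h
  exact ⟨_, hQ.not, fun x => not_congr (h1 x), fun x => not_congr (h2 x)⟩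

/-- blocks of elements of `U` and their images -/
theorem GEl.block (hG : GEl L U G) (u : α → M) (hu : ∀ i, u i ∈ U) {R : (α → M) → Prop}
    (hR : Dfn L R) : R u ↔ R fun i => G (u i) := by
  exact hG _ (hR.at fun i => (⟨u i, hu i⟩ : U))

/-- substituting parameters -/
theorem GI.subst {P P' : (α → M) → (β → M) → Prop}
    (h : GI L U G (fun z : α ⊕ β → M => P (fun i => z (.inl i)) fun j => z (.inr j))
      fun z : α ⊕ β → M => P' (fun i => z (.inl i)) fun j => z (.inr j))
    (u : β → M) (hu : ∀ i, u i ∈ U) :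
    GI L U G (fun x => P x u) fun x => P' x fun i => G (u i) := by
  obtain ⟨Q, hQ, h1, h2⟩ := h
  refine ⟨_, hQ.at (Sum.elim (Sum.elim Sum.inl fun j => Sum.inr ⟨u j, hu j⟩) Sum.inr),
    fun z => ?_, fun z => ?_⟩
  · refine (h1 (Sum.elim z u)).trans (iff_of_eq (congrArg Q ?_))
    funext i
    rcases i with (i | i) | i <;> rfl
  · refine (h2 (Sum.elim z fun i => G (u i))).trans (iff_of_eq (congrArg Q ?_))
    funext i
    rcases i with (i | i) | i <;> rfl

/-- Proof.  `∀ x, (Q (x, u) ↔ Q1 (x, u))` is a condition on the block `u` of all elements of `U`. -/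
theorem GI.congr_iff (hG : GEl L U G) {P P' P1 P1' : (α → M) → Prop} (h : GI L U G P P')
    (h1 : GI L U G P1 P1') : (∀ x, P x ↔ P1 x) ↔ ∀ x, P' x ↔ P1' x := by
  obtain ⟨Q, hQ, e1, e2⟩ := h
  obtain ⟨Q1, hQ1, f1, f2⟩ := h1
  have h3 : Dfn L fun w : U → M => ∀ x : α → M, (Q (Sum.elim x w) ↔ Q1 (Sum.elim x w)) := by
    refine Dfn.allB (R := fun (w : U → M) (x : α → M) =>
      (Q (Sum.elim x w) ↔ Q1 (Sum.elim x w))) ?_
    refine Dfn.iff ?_ ?_
    · refine (hQ.at (Sum.elim Sum.inr Sum.inl)).congr fun z => iff_of_eq (congrArg Q ?_)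
      funext i
      cases i <;> rfl
    · refine (hQ1.at (Sum.elim Sum.inr Sum.inl)).congr fun z => iff_of_eq (congrArg Q1 ?_)
      funext i
      cases i <;> rfl
  have h4 := hG _ h3
  constructor
  · intro h5 x
    have h6 := h4.1 (fun x => (e1 x).symm.trans ((h5 x).trans (f1 x))) x
    exact (e2 x).trans (h6.trans (f2 x).symm)
  · intro h5 x
    have h6 := h4.2 (fun x => (e2 x).symm.trans ((h5 x).trans (f2 x))) x
    exact (e1 x).trans (h6.trans (f1 x).symm)

/-- Proof.  `∀ x x', Q(x, u) ↔ Q(x', u)`; the truth value: `∀ x, Q (x, u)` transfers. -/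
theorem GI.closed (hG : GEl L U G) {P P' : (α → M) → Prop} (h : GI L U G P P')
    (hc : ∀ x x', P x ↔ P x') : ∀ x x', P x ↔ P' x' := by
  intro x x'
  have h1 := (GI.congr_iff hG h (GI.const (P x))).1 (fun y => hc y x) x'
  exact h1.symm

/-- Proof.  `P x y ↔ Q x (y, u)`, `u` the block of all elements of `U`; reduce by `Dfn2.reduce` to `Q' x (z ∘ f)`, `f : ℕ → β ⊕ U`; `GRel` for `Q'`, then `GI.at` and `GI.subst`. -/
theorem GRel.ev {p q : Ultrafilter (ℕ → M)} (h : GRel L U G p q) [Nonempty β]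
    {P P' : (ℕ → M) → (β → M) → Prop}
    (hP : GI L U G (fun z : ℕ ⊕ β → M => P (fun i => z (.inl i)) fun j => z (.inr j))
      fun z : ℕ ⊕ β → M => P' (fun i => z (.inl i)) fun j => z (.inr j)) :
    GI L U G (fun y => Ev p fun x => P x y) fun y => Ev q fun x => P' x y := by
  obtain ⟨Q, hQ, h1, h2⟩ := hP
  have h3 : Dfn2 L fun (x : ℕ → M) (w : β ⊕ U → M) =>
      Q (Sum.elim (Sum.elim x fun j => w (.inl j)) fun a => w (.inr a)) := by
    refine (hQ.at (Sum.elim (Sum.elim Sum.inl fun j => Sum.inr (Sum.inl j))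
      fun a => Sum.inr (Sum.inr a))).congr fun z => iff_of_eq (congrArg Q ?_)
    funext i
    rcases i with (i | i) | i <;> rfl
  obtain ⟨R, hR, f, hf⟩ := h3.reduce
  have h4 := (h R hR).at f
  have h5 := GI.subst (P := fun (y : β → M) (w : U → M) =>
      Ev p fun x => R x fun j => Sum.elim y w (f j))
    (P' := fun (y : β → M) (w : U → M) => Ev q fun x => R x fun j => Sum.elim y w (f j))
    (by
      obtain ⟨Q', hQ', g1, g2⟩ := h4
      refine ⟨Q', hQ', fun z => ?_, fun z => ?_⟩
      · refine Iff.trans (iff_of_eq ?_) (g1 z)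
        refine congrArg (Ev p) (funext fun x => congrArg (R x) (funext fun j => ?_))
        rcases f j with i | i <;> rfl
      · refine Iff.trans (iff_of_eq ?_) (g2 z)
        refine congrArg (Ev q) (funext fun x => congrArg (R x) (funext fun j => ?_))
        rcases f j with i | i <;> rfl) (fun a : U => a.1) (fun a => a.2)
  obtain ⟨Q', hQ', g1, g2⟩ := h5
  refine ⟨Q', hQ', fun y => ?_, fun y => ?_⟩
  · rw [← g1 y]
    refine ev_congr fun x => ?_
    exact (h1 (Sum.elim x y)).trans (hf x (Sum.elim y fun a => a.1))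
  · rw [← g2 y]
    refine ev_congr fun x => ?_
    exact (h2 (Sum.elim x y)).trans (hf x (Sum.elim y fun a => G a.1))

/-- a set definable over `U` (nonempty) is given by a formula with a block of parameters in `U` -/
theorem defU_block {P : (ℕ → M) → Prop} (h : DefU L U P) (hU : U.Nonempty) :
    ∃ θ : (ℕ → M) → (ℕ → M) → Prop, Dfn2 L θ ∧ ∃ m : ℕ → M, (∀ i, m i ∈ U) ∧
      ∀ x, P x ↔ θ x m := by
  obtain ⟨Q, hQ, hPQ⟩ := h
  have hne : Nonempty U := hU.to_subtype
  have h1 : Dfn2 L fun (x : ℕ → M) (w : U → M) => Q (Sum.elim x w) := by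
    refine hQ.congr fun z => iff_of_eq (congrArg Q ?_)
    funext k
    rcases k with k | k <;> rfl
  obtain ⟨R, hR, f, hf⟩ := h1.reduce
  exact ⟨R, hR, fun j => (f j).1, fun j => (f j).2, fun x => (hPQ x).trans (hf x fun a => a.1)⟩

end MP8f
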