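import Pool.Agent.Lib_MP_8da2c8_full.GiA
import Pool.Agent.Lib_MP_8da2c8_full.GcA

/-! STEP GiB: image and preimage of types. -/

namespace MP8f

open Cardinal Set FirstOrder Filter
open scoped Classical

universe u v w x

variable {L : FirstOrder.Language.{0, 0}} {M : Type u} [L.Structure M] [Nonempty M]
variable {U A : Set M} {G : M → M}

section gib
variable {α : Type v} {β : Type w} {W : Type x}

private theorem gib_few {Q : ((α ⊕ α) ⊕ W → M) → Prop} (hQ : Dfn L Q) (k : ℕ) :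
    Dfn L fun w : W → M => FewEq k fun x x' : α → M => Q (Sum.elim (Sum.elim x x') w) := by
  have key : ∀ {γ : Type (max v x)} (f g : α → γ) (h : W → γ), Dfn L fun z : γ → M =>
      Q (Sum.elim (Sum.elim (fun i => z (f i)) fun i => z (g i)) fun i => z (h i)) := by
    intro γ f g h
    refine (hQ.at (Sum.elim (Sum.elim f g) h)).congr fun z => iff_of_eq (congrArg Q ?_)
    funext i
    rcases i with (i | i) | i <;> rfl
  have e1 : Dfn L fun z : W → M => ∀ x : α → M, Q (Sum.elim (Sum.elim x x) z) :=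
    Dfn.allB (R := fun (z : W → M) (x : α → M) => Q (Sum.elim (Sum.elim x x) z))
      (key Sum.inr Sum.inr Sum.inl)
  have e2 : Dfn L fun z : W → M => ∀ y : α ⊕ α → M,
      Q (Sum.elim (Sum.elim (fun i => y (.inl i)) fun i => y (.inr i)) z) →
      Q (Sum.elim (Sum.elim (fun i => y (.inr i)) fun i => y (.inl i)) z) :=
    Dfn.allB (R := fun (z : W → M) (y : α ⊕ α → M) =>
      Q (Sum.elim (Sum.elim (fun i => y (.inl i)) fun i => y (.inr i)) z) →
      Q (Sum.elim (Sum.elim (fun i => y (.inr i)) fun i => y (.inl i)) z))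
      (Dfn.imp (key (fun i => Sum.inr (Sum.inl i)) (fun i => Sum.inr (Sum.inr i)) Sum.inl)
        (key (fun i => Sum.inr (Sum.inr i)) (fun i => Sum.inr (Sum.inl i)) Sum.inl))
  have e3 : Dfn L fun z : W → M => ∀ y : α ⊕ α ⊕ α → M,
      Q (Sum.elim (Sum.elim (fun i => y (.inl i)) fun i => y (.inr (.inl i))) z) →
      Q (Sum.elim (Sum.elim (fun i => y (.inr (.inl i))) fun i => y (.inr (.inr i))) z) →
      Q (Sum.elim (Sum.elim (fun i => y (.inl i)) fun i => y (.inr (.inr i))) z) :=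
    Dfn.allB (R := fun (z : W → M) (y : α ⊕ α ⊕ α → M) =>
      Q (Sum.elim (Sum.elim (fun i => y (.inl i)) fun i => y (.inr (.inl i))) z) →
      Q (Sum.elim (Sum.elim (fun i => y (.inr (.inl i))) fun i => y (.inr (.inr i))) z) →
      Q (Sum.elim (Sum.elim (fun i => y (.inl i)) fun i => y (.inr (.inr i))) z))
      (Dfn.imp (key (fun i => Sum.inr (Sum.inl i)) (fun i => Sum.inr (Sum.inr (Sum.inl i)))
        Sum.inl) (Dfn.imp (key (fun i => Sum.inr (Sum.inr (Sum.inl i)))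
        (fun i => Sum.inr (Sum.inr (Sum.inr i))) Sum.inl)
        (key (fun i => Sum.inr (Sum.inl i)) (fun i => Sum.inr (Sum.inr (Sum.inr i))) Sum.inl)))
  have e4 : Dfn L fun z : W → M => ∀ y : Fin (k + 1) × α → M, ∃ i j : Fin (k + 1), i ≠ j ∧
      Q (Sum.elim (Sum.elim (fun a => y (i, a)) fun a => y (j, a)) z) := by
    refine Dfn.allB (R := fun (z : W → M) (y : Fin (k + 1) × α → M) =>
      ∃ i j : Fin (k + 1), i ≠ j ∧
      Q (Sum.elim (Sum.elim (fun a => y (i, a)) fun a => y (j, a)) z)) ?_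
    refine Dfn.ex_fin fun i => Dfn.ex_fin fun j => (Dfn.const _).and ?_
    exact key (fun a => Sum.inr (i, a)) (fun a => Sum.inr (j, a)) Sum.inl
  refine (((e1.and e2).and e3).and e4).congr fun z => ?_
  constructor
  · rintro ⟨⟨h1, h2, h3⟩, h4⟩
    exact ⟨⟨⟨fun x => h1 x, fun y h => h2 h⟩, fun y h h' => h3 h h'⟩,
      fun y => h4 fun i a => y (i, a)⟩
  · rintro ⟨⟨⟨h1, h2⟩, h3⟩, h4⟩
    refine ⟨⟨h1, fun {x y} h => h2 (Sum.elim x y) h, fun {x y t} h h' => ?_⟩, fun f => ?_⟩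
    · exact h3 (Sum.elim x (Sum.elim y t)) h h'
    · exact h4 fun p => f p.1 p.2

private theorem gib_core (hG : GEl L U G) (u : W → M) (hu : ∀ i, u i ∈ U)
    {Q : ((α ⊕ α) ⊕ W → M) → Prop} (hQ : Dfn L Q) :
    (FinEq (fun x x' : α → M => Q (Sum.elim (Sum.elim x x') u)) ↔
      FinEq fun x x' : α → M => Q (Sum.elim (Sum.elim x x') fun i => G (u i))) ∧
    GI L U G (fun z : α ⊕ α → M =>
        Q (Sum.elim (Sum.elim (fun i => z (.inl i)) fun i => z (.inr i)) u))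
      fun z : α ⊕ α → M =>
        Q (Sum.elim (Sum.elim (fun i => z (.inl i)) fun i => z (.inr i)) fun i => G (u i)) := by
  refine ⟨?_, ?_⟩
  · rw [finEq_iff, finEq_iff]
    exact exists_congr fun k => hG.block u hu (gib_few hQ k)
  · refine ⟨_, hQ.at (Sum.elim Sum.inl fun i => Sum.inr (⟨u i, hu i⟩ : U)), fun z => ?_,
      fun z => ?_⟩
    · refine iff_of_eq (congrArg Q ?_)
      funext i
      rcases i with (i | i) | i <;> rfl
    · refine iff_of_eq (congrArg Q ?_)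
      funext i
      rcases i with (i | i) | i <;> rfl

omit [Nonempty M] in
private theorem gib_and {P P' P1 P1' : (α → M) → Prop} (h : GI L U G P P')
    (h1 : GI L U G P1 P1') : GI L U G (fun x => P x ∧ P1 x) fun x => P' x ∧ P1' x := by
  obtain ⟨Q, hQ, e1, e2⟩ := h
  obtain ⟨Q1, hQ1, f1, f2⟩ := h1
  exact ⟨_, hQ.and hQ1, fun x => and_congr (e1 x) (f1 x), fun x => and_congr (e2 x) (f2 x)⟩

omit [Nonempty M] in
private theorem gib_imp {P P' P1 P1' : (α → M) → Prop} (h : GI L U G P P')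
    (h1 : GI L U G P1 P1') : GI L U G (fun x => P x → P1 x) fun x => P' x → P1' x := by
  obtain ⟨Q, hQ, e1, e2⟩ := h
  obtain ⟨Q1, hQ1, f1, f2⟩ := h1
  exact ⟨_, hQ.imp hQ1, fun x => imp_congr (e1 x) (f1 x), fun x => imp_congr (e2 x) (f2 x)⟩

omit [Nonempty M] in
private theorem gib_ex {ι : Type} [Finite ι] {P P' : ι → (α → M) → Prop}
    (h : ∀ i, GI L U G (P i) (P' i)) : GI L U G (fun x => ∃ i, P i x) fun x => ∃ i, P' i x := by
  choose Q hQ e1 e2 using h
  exact ⟨_, Dfn.ex_fin hQ, fun x => exists_congr fun i => e1 i x,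
    fun x => exists_congr fun i => e2 i x⟩

private theorem gib_all (hG : GEl L U G) {P P' : (α → M) → Prop} (h : GI L U G P P') :
    (∀ x, P x) ↔ ∀ x, P' x := by
  have h1 := GI.congr_iff hG h (GI.const True)
  simpa using h1

omit [Nonempty M] in
private theorem gib_defU {P P' : (α → M) → Prop} (h : GI L U G P P') : DefU L U P := by
  obtain ⟨Q, hQ, e1, -⟩ := h
  exact ⟨Q, hQ, e1⟩

omit [Nonempty M] in
private theorem gib_theta {θ : (α → M) → (β → M) → Prop} (hθ : Dfn2 L θ) (m : β → M)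
    (hm : ∀ i, m i ∈ U) : GI L U G (fun y => θ y m) fun y => θ y fun i => G (m i) := by
  refine ⟨_, Dfn2.at hθ (Sum.inl : α → α ⊕ U) fun j => Sum.inr ⟨m j, hm j⟩, fun z => ?_,
    fun z => ?_⟩
  · exact Iff.rfl
  · exact Iff.rfl

omit [Nonempty M] in
private theorem gib_dfn2 (φ : L.Formula (ℕ ⊕ ℕ)) :
    Dfn2 L fun x y : ℕ → M => φ.Realize (Sum.elim x y) := by
  refine ⟨φ, fun z => iff_of_eq (congrArg φ.Realize ?_)⟩
  funext k
  rcases k with k | k <;> rfl

/-- invariance of a set under an equivalence relation transfers -/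
private theorem gib_inv (hG : GEl L U G) {E E' : (α → M) → (α → M) → Prop}
    (hE : GI L U G (fun z : α ⊕ α → M => E (fun i => z (.inl i)) fun i => z (.inr i))
        fun z : α ⊕ α → M => E' (fun i => z (.inl i)) fun i => z (.inr i))
    {P P' : (α → M) → Prop} (h : GI L U G P P') :
    (∀ x x', E x x' → P x → P x') ↔ ∀ x x', E' x x' → P' x → P' x' := by
  have h1 := gib_all hG (gib_imp hE (gib_imp (h.at (Sum.inl : α → α ⊕ α))
    (h.at (Sum.inr : α → α ⊕ α))))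
  constructor
  · intro h2 x x'
    exact h1.1 (fun z => h2 _ _) (Sum.elim x x')
  · intro h2 x x'
    exact h1.2 (fun z => h2 _ _) (Sum.elim x x')

end gib

/-- Finite equivalence relations over `A` and over `G '' A` correspond to each other.
Proof.  `E' z z' ↔ Q (z, z', a')` with `a'` the block of the elements of `G '' A`; choose preimages in `A`; `E z z' ↔ Q (z, z', a)` with the preimages.  `GI E E'`; `FewEq k` is a condition on the parameters
(`finEq_iff`, `GEl.block`). -/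
theorem finEq_pull (hG : GEl L U G) (hA : A ⊆ U) {α : Type v} {E' : (α → M) → (α → M) → Prop}
    (hE : DefU2 L (G '' A) E') (hf : FinEq E') : ∃ E : (α → M) → (α → M) → Prop,
      DefU2 L A E ∧ FinEq E ∧
      GI L U G (fun z : α ⊕ α → M => E (fun i => z (.inl i)) fun i => z (.inr i))
        fun z : α ⊕ α → M => E' (fun i => z (.inl i)) fun i => z (.inr i) := by
  obtain ⟨Q, hQ, hPQ⟩ := hE
  choose s hs hs' using fun a : G '' A => a.2
  have h1 := gib_core hG s (fun a => hA (hs a)) hQ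
  have e1 : (fun a : G '' A => G (s a)) = fun a => a.1 := funext fun a => hs' a
  rw [e1] at h1
  refine ⟨fun x x' => Q (Sum.elim (Sum.elim x x') s), ?_, h1.1.2 ?_, ?_⟩
  · refine (DefU.mk hQ (Sum.elim Sum.inl fun a => Sum.inr (⟨s a, hs a⟩ : A))).congr fun z =>
      iff_of_eq (congrArg Q ?_)
    funext i
    rcases i with (i | i) | i <;> rfl
  · have e2 : E' = fun x x' => Q (Sum.elim (Sum.elim x x') fun a : G '' A => a.1) := by
      funext x x'
      exact propext (hPQ (Sum.elim x x'))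
    rwa [e2] at hf
  · obtain ⟨Q', hQ', g1, g2⟩ := h1.2
    refine ⟨Q', hQ', g1, fun z => ((hPQ z).trans (iff_of_eq (congrArg Q ?_))).trans (g2 z)⟩
    funext i
    rcases i with (i | i) | i <;> rfl

theorem finEq_push (hG : GEl L U G) (hA : A ⊆ U) {α : Type v} {E : (α → M) → (α → M) → Prop}
    (hE : DefU2 L A E) (hf : FinEq E) : ∃ E' : (α → M) → (α → M) → Prop,
      DefU2 L (G '' A) E' ∧ FinEq E' ∧
      GI L U G (fun z : α ⊕ α → M => E (fun i => z (.inl i)) fun i => z (.inr i))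
        fun z : α ⊕ α → M => E' (fun i => z (.inl i)) fun i => z (.inr i) := by
  obtain ⟨Q, hQ, hPQ⟩ := hE
  have h1 := gib_core hG (fun a : A => a.1) (fun a => hA a.2) hQ
  refine ⟨fun x x' => Q (Sum.elim (Sum.elim x x') fun a : A => G a.1), ?_, h1.1.1 ?_, ?_⟩
  · refine (DefU.mk hQ (Sum.elim Sum.inl fun a =>
      Sum.inr (⟨G a.1, mem_image_of_mem G a.2⟩ : G '' A))).congr fun z =>
      iff_of_eq (congrArg Q ?_)
    funext i
    rcases i with (i | i) | i <;> rfl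
  · have e2 : E = fun x x' => Q (Sum.elim (Sum.elim x x') fun a : A => a.1) := by
      funext x x'
      exact propext (hPQ (Sum.elim x x'))
    rwa [e2] at hf
  · obtain ⟨Q', hQ', g1, g2⟩ := h1.2
    refine ⟨Q', hQ', fun z => ((hPQ z).trans (iff_of_eq (congrArg Q ?_))).trans (g1 z), g2⟩
    funext i
    rcases i with (i | i) | i <;> rfl

/-- Proof.  For `φ : L.Formula (ℕ ⊕ ℕ)`, `Ev p (φ · y)` is definable over `U` (`Alm.defU`), so `↔ θ φ y (m φ)` with `m φ` in `U` (`defU_block`).  `exists_transport` with `n φ = fun i => G (m φ i)` (`GEl.block` gives `Eqv`)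
gives `q` with `Ev q (φ · y) ↔ θ φ y (n φ)`; so `GRel`.  `AlmT L (G '' A) q`: `finEq_push` for the equivalence relation `E` of `Ev p (φ · y)`; that `Ev p (φ · y)` is a union of `E`-classes transfers: `∀ y y', E y y' → θ φ y m → θ φ y' m`. -/
theorem exists_image (hU : Elt L U) (hG : GEl L U G) (hA : A ⊆ U) {p : Ultrafilter (ℕ → M)}
    (hp : AlmT L A p) : ∃ q, GRel L U G p q ∧ AlmT L (G '' A) q := by
  have h1 : ∀ φ : L.Formula (ℕ ⊕ ℕ), ∃ θ : (ℕ → M) → (ℕ → M) → Prop, Dfn2 L θ ∧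
      ∃ m : ℕ → M, (∀ i, m i ∈ U) ∧
        ∀ y, (Ev p fun x => φ.Realize (Sum.elim x y)) ↔ θ y m := fun φ =>
    defU_block ((hp _ (gib_dfn2 φ)).defU hA hU) hU.1
  choose θ hθ m hm hθm using h1
  obtain ⟨q, hq⟩ := exists_transport hθ (m := m) (n := fun φ i => G (m φ i)) (fun φ =>
    hG.block (fun z : L.Formula (ℕ ⊕ ℕ) × ℕ => m z.1 z.2) (fun z => hm _ _)
      (R := fun z => φ.Realize z) ⟨φ, fun _ => Iff.rfl⟩) p hθm
  have hrel : GRel L U G p q := by
    rintro R ⟨φ, hφ⟩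
    obtain ⟨Q, hQ, e1, e2⟩ := gib_theta (G := G) (hθ φ) (m φ) (hm φ)
    refine ⟨Q, hQ, fun y => Iff.trans ?_ (e1 y), fun y => Iff.trans ?_ (e2 y)⟩
    · exact (ev_congr fun x => hφ (Sum.elim x y)).trans (hθm φ y)
    · exact (ev_congr fun x => hφ (Sum.elim x y)).trans (hq φ y)
  refine ⟨q, hrel, fun R hR => ?_⟩
  obtain ⟨E, hE, hf, hinv⟩ := hp R hR
  obtain ⟨E', hE', hf', hi⟩ := finEq_push hG hA hE hf
  exact ⟨E', hE', hf', (gib_inv hG hi (hrel R hR)).1 hinv⟩

/-- Proof.  For `φ` let `E'` be as in `Alm` for `P' y = Ev q (φ · y)`, `E` from `finEq_pull`.  Representatives `w : Fin n × ℕ → M` of `E` in `U` (`FinEq.reps`, `Elt.ex`); `∀ x, ∃ i, E (w i) x` transfers, so the images `G ∘ w i` represent the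
classes of `E'`.  `P' y ↔ ∃ i, P' (G ∘ w i) ∧ E' (G ∘ w i) y`, which is the image of `P y = ∃ i, P' (G ∘ w i) ∧ E (w i) y`, definable over `U`: `GI P P'`.  So `P' y ↔ θ φ y (G ∘ m φ)` with `m φ` in `U` (`defU_block` for `P`, and `GI.congr_iff`).  `exists_transport` from
`G ∘ m φ` to `m φ` gives `p` with `Ev p (φ · y) ↔ θ φ y (m φ)`; `GRel`; `AlmT L A p` because `P` is a union of `E`-classes. -/
theorem exists_preimage (hU : Elt L U) (hG : GEl L U G) (hA : A ⊆ U) {q : Ultrafilter (ℕ → M)}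
    (hq : AlmT L (G '' A) q) : ∃ p, GRel L U G p q ∧ AlmT L A p := by
  have h1 : ∀ φ : L.Formula (ℕ ⊕ ℕ), ∃ P : (ℕ → M) → Prop,
      GI L U G P (fun y => Ev q fun x => φ.Realize (Sum.elim x y)) ∧ Alm L A P := by
    intro φ
    obtain ⟨E', hE', hf', hinv'⟩ := hq _ (gib_dfn2 φ)
    obtain ⟨E, hE, hf, hi⟩ := finEq_pull hG hA hE' hf'
    obtain ⟨n, w0, hw0⟩ := hf.reps
    have hEU : DefU2 L U E := hE.mono hA
    have hd : DefU L U fun w : Fin n × ℕ → M => ∀ x : ℕ → M, ∃ i, E (fun a => w (i, a)) x :=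
      DefU.allB (P := fun (w : Fin n × ℕ → M) (x : ℕ → M) => ∃ i, E (fun a => w (i, a)) x)
        (DefU.ex_fin fun i => hEU.at (fun a => Sum.inl (i, a)) Sum.inr)
    obtain ⟨w, hwU, hw⟩ := hU.ex hd ⟨fun z => w0 z.1 z.2, hw0⟩
    have hE1 : ∀ i, GI L U G (fun x => E (fun a => w (i, a)) x)
        fun x => E' (fun a => G (w (i, a))) x := by
      intro i
      have h2 := hi.at (Sum.elim Sum.inr Sum.inl : ℕ ⊕ ℕ → ℕ ⊕ ℕ)
      exact GI.subst (P := fun x y => E y x) (P' := fun x y => E' y x) h2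
        (fun a => w (i, a)) fun a => hwU _
    have hw' : ∀ x, ∃ i, E' (fun a => G (w (i, a))) x := (gib_all hG (gib_ex hE1)).1 hw
    have h3 := gib_ex fun i => gib_and
      (GI.const (L := L) (U := U) (G := G) (α := ℕ)
        (Ev q fun x => φ.Realize (Sum.elim x fun a => G (w (i, a))))) (hE1 i)
    refine ⟨fun y => ∃ i, (Ev q fun x => φ.Realize (Sum.elim x fun a => G (w (i, a)))) ∧
      E (fun a => w (i, a)) y, ?_, ⟨E, hE, hf, ?_⟩⟩
    · obtain ⟨Q, hQ, e1, e2⟩ := h3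
      refine ⟨Q, hQ, e1, fun y => Iff.trans ?_ (e2 y)⟩
      constructor
      · intro h4
        obtain ⟨i, h5⟩ := hw' y
        exact ⟨i, hinv' _ _ (hf'.1.symm h5) h4, h5⟩
      · rintro ⟨i, h4, h5⟩
        exact hinv' _ _ h5 h4
    · rintro x x' hxx ⟨i, h4, h5⟩
      exact ⟨i, h4, hf.1.trans h5 hxx⟩
  choose P hP hPA using h1
  have h2 : ∀ φ : L.Formula (ℕ ⊕ ℕ), ∃ θ : (ℕ → M) → (ℕ → M) → Prop, Dfn2 L θ ∧
      ∃ m : ℕ → M, (∀ i, m i ∈ U) ∧ ∀ y, P φ y ↔ θ y m := fun φ =>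
    defU_block (gib_defU (hP φ)) hU.1
  choose θ hθ m hm hθm using h2
  have h3 : ∀ (φ : L.Formula (ℕ ⊕ ℕ)) (y : ℕ → M),
      (Ev q fun x => φ.Realize (Sum.elim x y)) ↔ θ φ y fun i => G (m φ i) := fun φ =>
    (GI.congr_iff hG (hP φ) (gib_theta (hθ φ) (m φ) (hm φ))).1 (hθm φ)
  obtain ⟨p, hp⟩ := exists_transport hθ (m := fun φ i => G (m φ i)) (n := m) (fun φ =>
    (hG.block (fun z : L.Formula (ℕ ⊕ ℕ) × ℕ => m z.1 z.2) (fun z => hm _ _)
      (R := fun z => φ.Realize z) ⟨φ, fun _ => Iff.rfl⟩).symm) q h3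
  have hpP : ∀ (φ : L.Formula (ℕ ⊕ ℕ)) (y : ℕ → M),
      (Ev p fun x => φ.Realize (Sum.elim x y)) ↔ P φ y := fun φ y =>
    (hp φ y).trans (hθm φ y).symm
  refine ⟨p, ?_, ?_⟩
  · rintro R ⟨φ, hφ⟩
    obtain ⟨Q, hQ, e1, e2⟩ := hP φ
    refine ⟨Q, hQ, fun y => Iff.trans ?_ (e1 y), fun y => Iff.trans ?_ (e2 y)⟩
    · exact (ev_congr fun x => hφ (Sum.elim x y)).trans (hpP φ y)
    · exact ev_congr fun x => hφ (Sum.elim x y)
  · rintro R ⟨φ, hφ⟩
    exact (hPA φ).congr fun y => (ev_congr fun x => hφ (Sum.elim x y)).trans (hpP φ y)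

/-- by `teq_iff` and `GI.congr_iff` -/
theorem GRel.teq_right (hG : GEl L U G) {p q q' : Ultrafilter (ℕ → M)} (h : GRel L U G p q)
    (h' : GRel L U G p q') : TEq L q q' := by
  rw [teq_iff]
  intro φ y
  exact (GI.congr_iff hG (h _ (gib_dfn2 φ)) (h' _ (gib_dfn2 φ))).1 (fun _ => Iff.rfl) y

theorem GRel.teq_left (hG : GEl L U G) {p p' q : Ultrafilter (ℕ → M)} (h : GRel L U G p q)
    (h' : GRel L U G p' q) : TEq L p p' := by
  rw [teq_iff]
  intro φ y
  exact (GI.congr_iff hG (h _ (gib_dfn2 φ)) (h' _ (gib_dfn2 φ))).2 (fun _ => Iff.rfl) y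

theorem GRel.congr {p p' q q' : Ultrafilter (ℕ → M)} (h : GRel L U G p q) (hp : TEq L p p')
    (hq : TEq L q q') : GRel L U G p' q' := by
  rintro R ⟨φ, hφ⟩
  obtain ⟨Q, hQ, e1, e2⟩ := h _ (gib_dfn2 φ)
  refine ⟨Q, hQ, fun y => Iff.trans ?_ (e1 y), fun y => Iff.trans ?_ (e2 y)⟩
  · exact (ev_congr fun x => hφ (Sum.elim x y)).trans ((teq_iff.1 hp φ y).symm)
  · exact (ev_congr fun x => hφ (Sum.elim x y)).trans ((teq_iff.1 hq φ y).symm)

end MP8f
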