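import Pool.Agent.Lib_MP_8da2c8_full.GiB
import Pool.Agent.Lib_MP_8da2c8_full.GcB

/-! STEP GiC: matching the numbers of the types. -/

namespace MP8f

open Cardinal Set FirstOrder Filter
open scoped Classical

universe u v w x

/-- Matching.  `≈` and `≈'` are equivalence relations on `A` with all classes of size `#A`, `ρ` is a relation which induces a bijection between the classes.
Proof.  `A ≃ Σ q : Quotient s, {a // ⟦a⟧ = q}` (`Equiv.sigmaFiberEquiv`), the same for `s'`; `ρ` gives an equivalence `e : Quotient s ≃ Quotient s'`, and fibers are equinumerous (`Cardinal.eq`); `Equiv.sigmaCongr`. -/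
theorem exists_match {A : Type v} (s s' : Setoid A) (ρ : A → A → Prop)
    (h1 : ∀ a, ∃ a', ρ a a') (h2 : ∀ a', ∃ a, ρ a a')
    (h3 : ∀ a b a' b', s.r a b → s'.r a' b' → ρ a a' → ρ b b')
    (h4 : ∀ a b a', ρ a a' → ρ b a' → s.r a b) (h5 : ∀ a a' b', ρ a a' → ρ a b' → s'.r a' b')
    (c : ∀ a, #{b // s.r b a} = #A) (c' : ∀ a, #{b // s'.r b a} = #A) :
    ∃ σ : A ≃ A, ∀ a, ρ a (σ a) := by
  choose f hf using h1
  choose g hg using h2
  let e : Quotient s ≃ Quotient s' :=
    { toFun := Quotient.map f (by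
        intro a b hab
        exact s'.symm (h5 b (f b) (f a) (hf b) (h3 a b (f a) (f a) hab (s'.refl _) (hf a))))
      invFun := Quotient.map g (by
        intro a b hab
        exact h4 (g a) (g b) b (h3 (g a) (g a) a b (s.refl _) hab (hg a)) (hg b))
      left_inv := by
        intro q
        induction q using Quotient.inductionOn with
        | h a =>
          exact Quotient.sound (h4 (g (f a)) a (f a) (hg (f a)) (hf a))
      right_inv := by
        intro q
        induction q using Quotient.inductionOn with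
        | h a =>
          exact Quotient.sound (h5 (g a) (f (g a)) a (hf (g a)) (hg a)) }
  have hF : ∀ q : Quotient s, Nonempty
      ({a // Quotient.mk s a = q} ≃ {a' // Quotient.mk s' a' = e q}) := by
    intro q
    induction q using Quotient.inductionOn with
    | h a =>
      have e1 : {b // s.r b a} ≃ {b // Quotient.mk s b = Quotient.mk s a} :=
        Equiv.subtypeEquivRight fun b => (Quotient.eq (r := s)).symm
      have e2 : {b // s'.r b (f a)} ≃ {b // Quotient.mk s' b = e (Quotient.mk s a)} :=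
        Equiv.subtypeEquivRight fun b => (Quotient.eq (r := s')).symm
      have h6 : Nonempty ({b // s.r b a} ≃ {b // s'.r b (f a)}) :=
        Cardinal.eq.1 ((c a).trans (c' (f a)).symm)
      obtain ⟨e3⟩ := h6
      exact ⟨(e1.symm.trans e3).trans e2⟩
  have F : ∀ q : Quotient s, ({a // Quotient.mk s a = q} ≃ {a' // Quotient.mk s' a' = e q}) :=
    fun q => (hF q).some
  let σ : A ≃ A := ((Equiv.sigmaFiberEquiv (Quotient.mk s)).symm.trans
    (Equiv.sigmaCongr e F)).trans (Equiv.sigmaFiberEquiv (Quotient.mk s'))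
  refine ⟨σ, fun a => ?_⟩
  have h7 : Quotient.mk s' (σ a) = e (Quotient.mk s a) :=
    (F (Quotient.mk s a) ⟨a, rfl⟩).2
  have h8 : s'.r (σ a) (f a) := Quotient.exact h7
  exact h3 a a (f a) (σ a) (s.refl _) (s'.symm h8) (hf a)

variable {L : FirstOrder.Language.{0, 0}} {M : Type u} [L.Structure M] [Nonempty M]
variable {U A : Set M} {G : M → M}

/-- Proof.  `exists_match` for `A = (ℕ → ℕ)`, `s` = `TEq` of `rep L A`, `s'` = `TEq` of `rep L (G '' A)`, `ρ r r' = GRel L U G (rep L A r) (rep L (G '' A) r')`; `rep_spec`, `exists_image`, `exists_preimage`. -/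
theorem exists_perm [Countable L.Symbols] (hU : Elt L U) (hG : GEl L U G) (hA : A ⊆ U)
    (hc : A.Countable) (hne : A.Nonempty) :
    ∃ σ : (ℕ → ℕ) ≃ (ℕ → ℕ), ∀ r, GRel L U G (rep L A r) (rep L (G '' A) (σ r)) := by
  have hc' : (G '' A).Countable := hc.image G
  have hne' : (G '' A).Nonempty := hne.image G
  obtain ⟨a1, a2, a3⟩ := rep_spec (L := L) hc hne
  obtain ⟨b1, b2, b3⟩ := rep_spec (L := L) hc' hne'
  have hcard : #(ℕ → ℕ) = 𝔠 := by
    rw [← power_def, mk_nat, aleph0_power_aleph0]
  let s : Setoid (ℕ → ℕ) := ⟨fun a b => TEq L (rep L A a) (rep L A b),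
    fun a => TEq.refl _, fun h => h.symm, fun h h' => h.trans h'⟩
  let s' : Setoid (ℕ → ℕ) := ⟨fun a b => TEq L (rep L (G '' A) a) (rep L (G '' A) b),
    fun a => TEq.refl _, fun h => h.symm, fun h h' => h.trans h'⟩
  refine exists_match s s' (fun r r' => GRel L U G (rep L A r) (rep L (G '' A) r')) ?_ ?_ ?_ ?_ ?_
    ?_ ?_
  · intro r
    obtain ⟨q, h1, h2⟩ := exists_image hU hG hA (a1 r)
    obtain ⟨r', hr'⟩ := b2 q h2
    exact ⟨r', h1.congr (TEq.refl _) hr'.symm⟩
  · intro r
    obtain ⟨p, h1, h2⟩ := exists_preimage hU hG hA (b1 r)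
    obtain ⟨r', hr'⟩ := a2 p h2
    exact ⟨r', h1.congr hr'.symm (TEq.refl _)⟩
  · intro a b a' b' h h' h1
    exact h1.congr h h'
  · intro a b a' h h'
    exact GRel.teq_left hG h h'
  · intro a a' b' h h'
    exact GRel.teq_right hG h h'
  · intro a
    rw [hcard]
    exact a3 a
  · intro a
    rw [hcard]
    exact b3 a

end MP8f
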