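import Pool.Agent.Lib_MP_8da2c8_full.Elem

/-! STEP HuA: Skolem hulls. -/

namespace MP8f

open Cardinal Set FirstOrder FirstOrder.Language Filter
open scoped Classical

universe u v w x

/-- a closure operator with elementary closures of the same size -/
structure Hull (L : FirstOrder.Language.{0, 0}) (M : Type u) [L.Structure M] where
  H : Set M → Set M
  sub : ∀ X, X ⊆ H X
  min : ∀ X Y, X ⊆ H Y → H X ⊆ H Y
  elt : ∀ X, X.Nonempty → Elt L (H X)
  card : ∀ (X : Set M) (μ : Cardinal.{u}), ℵ₀ ≤ μ → #X ≤ μ → #(H X) ≤ μ

/-- Proof.  `H X` = the closure of `X` in the language `L.sum L.skolem₁` (`FirstOrder.Language.Substructure.closure`); elementary by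
`FirstOrder.Language.Substructure.elementarySkolem₁Reduct` and `elt_of_sub`; cardinality: `FirstOrder.Language.Substructure.lift_card_closure_le` and `card_functions_sum_skolem₁_le`. -/
theorem exists_hull (L : FirstOrder.Language.{0, 0}) [Countable L.Symbols] (M : Type u)
    [L.Structure M] [Nonempty M] : Nonempty (Hull L M) := by
  refine ⟨⟨fun X => (FirstOrder.Language.Substructure.closure (L.sum L.skolem₁) X : Set M), fun X =>
    FirstOrder.Language.Substructure.subset_closure, fun X Y h => ?_, fun X _ => ?_, fun X μ hμ hX => ?_⟩⟩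
  · exact FirstOrder.Language.Substructure.closure_le.2 h
  · exact elt_of_sub (FirstOrder.Language.Substructure.closure (L.sum L.skolem₁) X).elementarySkolem₁Reduct
  · have h1 := FirstOrder.Language.Substructure.lift_card_closure_le (L := L.sum L.skolem₁) (s := X)
    have h2 : #(Σ n, (L.sum L.skolem₁).Functions n) ≤ ℵ₀ := by
      refine FirstOrder.Language.card_functions_sum_skolem₁_le.trans (max_le le_rfl ?_)
      exact Cardinal.mk_le_aleph0
    have h3 : Cardinal.lift.{u, 0} #(Σ n, (L.sum L.skolem₁).Functions n) ≤ ℵ₀ := by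
      rw [Cardinal.lift_le_aleph0]
      exact h2
    have h4 : #(FirstOrder.Language.Substructure.closure (L.sum L.skolem₁) X) ≤ μ := by
      have h5 := h1.trans (max_le hμ ((add_le_add (by rw [Cardinal.lift_uzero]; exact hX) (h3.trans hμ)).trans
        (Cardinal.add_eq_self hμ).le))
      rwa [Cardinal.lift_uzero] at h5
    exact h4

variable {L : FirstOrder.Language.{0, 0}} {M : Type u} [L.Structure M] [Nonempty M]

theorem Hull.mono (h : Hull L M) {X Y : Set M} (hXY : X ⊆ Y) : h.H X ⊆ h.H Y :=
  h.min X Y (hXY.trans (h.sub Y))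

theorem Hull.countable (h : Hull L M) {X : Set M} (hX : X.Countable) : (h.H X).Countable := by
  rw [← Cardinal.le_aleph0_iff_set_countable]
  exact h.card X ℵ₀ le_rfl (Cardinal.le_aleph0_iff_set_countable.2 hX)

end MP8f
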