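import Pool.Agent.Lib_MP_8da2c8_full.HuA
import Pool.Agent.Lib_MP_8da2c8_full.GcA

/-! STEP HuB: counting types which are definable over hulls of finite sets. -/

namespace MP8f

open Cardinal Set FirstOrder FirstOrder.Language Filter
open scoped Classical

universe u v w x

/-- at blocks in `U` the type `p` is definable over `B` -/
def DefOn (L : FirstOrder.Language.{0, 0}) {M : Type u} [L.Structure M] (U B : Set M)
    (p : Ultrafilter (ℕ → M)) : Prop :=
  ∀ φ : L.Formula (ℕ ⊕ ℕ), ∃ P : (ℕ → M) → Prop, DefU L B P ∧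
    ∀ y : ℕ → M, (∀ i, y i ∈ U) → ((Ev p fun x => φ.Realize (Sum.elim x y)) ↔ P y)

variable {L : FirstOrder.Language.{0, 0}} {M : Type u} [L.Structure M] [Nonempty M]

/-- a relation definable over a nonempty set is an instance of a formula -/
private theorem HuB_block {U : Set M} (hne : U.Nonempty) {P : (ℕ → M) → Prop}
    (hP : DefU L U P) : ∃ (φ : L.Formula (ℕ ⊕ ℕ)) (y : ℕ → M), (∀ i, y i ∈ U) ∧
      ∀ x, P x ↔ φ.Realize (Sum.elim x y) := by
  obtain ⟨Q, hQ, hP⟩ := hP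
  have hn : Nonempty ↥U := hne.to_subtype
  have h1 : Dfn2 L fun (x : ℕ → M) (z : ↥U → M) => Q (Sum.elim x z) := by
    refine Dfn.congr hQ fun z => ?_
    refine iff_of_eq (congrArg Q ?_)
    funext i
    cases i <;> rfl
  obtain ⟨R', ⟨φ, hφ⟩, f, hf⟩ := h1.reduce
  refine ⟨φ, fun j => (f j).1, fun j => (f j).2, fun x => ?_⟩
  refine (hP x).trans ((hf x _).trans ?_)
  exact hφ (Sum.elim x fun j => (f j).1)

private theorem HuB_finset {U : Set M} {μ : Cardinal.{u}} (hμ : ℵ₀ ≤ μ) (hU : #U ≤ μ) :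
    #{F : Finset M // (↑F : Set M) ⊆ U} ≤ μ := by
  have h1 : #{F : Finset M // (↑F : Set M) ⊆ U} ≤ #(Finset ↥U) := by
    refine Cardinal.mk_le_of_injective (f := fun F => F.1.subtype (· ∈ U)) ?_
    intro F F' h
    apply Subtype.ext
    have h2 : (F.1.subtype (· ∈ U)).map (Function.Embedding.subtype _) =
        (F'.1.subtype (· ∈ U)).map (Function.Embedding.subtype _) :=
      congrArg (fun S : Finset ↥U => S.map (Function.Embedding.subtype _)) h
    rw [Finset.subtype_map_of_mem (fun x hx => F.2 hx),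
      Finset.subtype_map_of_mem (fun x hx => F'.2 hx)] at h2
    exact h2
  have h2 : #(Finset ↥U) ≤ #(List ↥U) :=
    Cardinal.mk_le_of_surjective (f := (List.toFinset : List ↥U → Finset ↥U))
      List.toFinset_surjective
  exact h1.trans (h2.trans ((Cardinal.mk_list_le_max _).trans (max_le hμ hU)))

/-- Proof.  Suppose that for every `i : I` there is a finite `F i ⊆ U` such that `q i` is `DefOn` over `h.H (F i)`; `P i φ` as in `DefOn`, given by a formula with parameters in `h.H (F i)`: an element of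
`Θ (F i) = L.Formula (ℕ ⊕ h.H (F i))`, a countable type.  The map `i ↦ ⟨F i, P i⟩ : Σ F : {finite subsets of U}, (L.Formula (ℕ ⊕ ℕ) → Θ F)` is injective: if `i ≠ j` have the same image then `Ev (q i) (φ · y) ↔ Ev (q j) (φ · y)` for all `φ` and `y` in `U`, so
`Ev (q i) P ↔ Ev (q j) P` for `P` definable over `U` (`P x ↔ φ.Realize (Sum.elim x y)` for some `φ` and some `y : ℕ → M` in `U`: `Dfn2.reduce` or `defU_block`-like argument), contradicting `hq`.  The cardinality of the sum is at most `μ * 2 ^ ℵ₀ ≤ μ`. -/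
theorem exists_not_defOn [Countable L.Symbols] (h : Hull L M) {U : Set M} (hne : U.Nonempty)
    {μ : Cardinal.{u}} (hμ : Cardinal.continuum ≤ μ) (hU : #U ≤ μ) {I : Type u} (hI : μ < #I)
    (q : I → Ultrafilter (ℕ → M))
    (hq : ∀ i j, i ≠ j → ∃ P : (ℕ → M) → Prop, DefU L U P ∧ Ev (q i) P ∧ ¬ Ev (q j) P) :
    ∃ i, ∀ F : Finset M, ↑F ⊆ U → ¬ DefOn L U (h.H ↑F) (q i) := by
  by_contra hcon
  push Not at hcon
  choose F hF hD using hcon
  have hD' : ∀ i, ∃ θ : L.Formula (ℕ ⊕ ℕ) → L.Formula (ℕ ⊕ ↥(h.H (↑(F i) : Set M))),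
      ∀ (φ : L.Formula (ℕ ⊕ ℕ)) (y : ℕ → M), (∀ k, y k ∈ U) →
        ((Ev (q i) fun x => φ.Realize (Sum.elim x y)) ↔
          (θ φ).Realize (Sum.elim y fun a => a.1)) := by
    intro i
    have h1 : ∀ φ : L.Formula (ℕ ⊕ ℕ), ∃ ψ : L.Formula (ℕ ⊕ ↥(h.H (↑(F i) : Set M))),
        ∀ y : ℕ → M, (∀ k, y k ∈ U) →
        ((Ev (q i) fun x => φ.Realize (Sum.elim x y)) ↔
          ψ.Realize (Sum.elim y fun a => a.1)) := by
      intro φ
      obtain ⟨P, ⟨Q, ⟨ψ, hψ⟩, hQ⟩, hP⟩ := hD i φ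
      exact ⟨ψ, fun y hy => (hP y hy).trans ((hQ y).trans (hψ _))⟩
    choose θ hθ using h1
    exact ⟨θ, hθ⟩
  choose θ hθ using hD'
  let S : Type u := Σ G : {G : Finset M // (↑G : Set M) ⊆ U},
    (L.Formula (ℕ ⊕ ℕ) → L.Formula (ℕ ⊕ ↥(h.H (↑G.1 : Set M))))
  let r : S → L.Formula (ℕ ⊕ ℕ) → (ℕ → M) → Prop := fun s φ y =>
    (s.2 φ).Realize (Sum.elim y fun a => a.1)
  let g : I → S := fun i => ⟨⟨F i, hF i⟩, θ i⟩
  have hg : ∀ i φ (y : ℕ → M), (∀ k, y k ∈ U) →
      ((Ev (q i) fun x => φ.Realize (Sum.elim x y)) ↔ r (g i) φ y) := fun i φ y hy =>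
    hθ i φ y hy
  have hinj : Function.Injective g := by
    intro i j hij
    by_contra hne'
    obtain ⟨P, hP, h1, h2⟩ := hq i j hne'
    obtain ⟨φ, y, hy, hPy⟩ := HuB_block hne hP
    rw [ev_congr hPy] at h1 h2
    rw [hg i φ y hy] at h1
    rw [hg j φ y hy] at h2
    rw [hij] at h1
    exact h2 h1
  have hle : #I ≤ #S := Cardinal.mk_le_of_injective hinj
  have hμ0 : ℵ₀ ≤ μ := Cardinal.aleph0_le_continuum.trans hμ
  have hS : #S ≤ μ := by
    have h1 : #S = Cardinal.sum fun G : {G : Finset M // (↑G : Set M) ⊆ U} =>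
        #(L.Formula (ℕ ⊕ ℕ) → L.Formula (ℕ ⊕ ↥(h.H (↑G.1 : Set M)))) := Cardinal.mk_sigma _
    have h2 : ∀ G : {G : Finset M // (↑G : Set M) ⊆ U},
        #(L.Formula (ℕ ⊕ ℕ) → L.Formula (ℕ ⊕ ↥(h.H (↑G.1 : Set M)))) ≤ μ := by
      intro G
      have hc : (h.H (↑G.1 : Set M)).Countable := h.countable G.1.countable_toSet
      have hc' : Countable ↥(h.H (↑G.1 : Set M)) := hc.to_subtype
      have hc1 : Countable (L.Formula (ℕ ⊕ ↥(h.H (↑G.1 : Set M)))) := countable_formula _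
      have hc2 : Countable (L.Formula (ℕ ⊕ ℕ)) := countable_formula _
      rw [Cardinal.mk_arrow]
      refine le_trans ?_ hμ
      rw [← Cardinal.aleph0_power_aleph0]
      have h3 : Cardinal.lift.{0} #(L.Formula (ℕ ⊕ ↥(h.H (↑G.1 : Set M)))) ≤ ℵ₀ := by
        rw [Cardinal.lift_le_aleph0]
        exact Cardinal.mk_le_aleph0_iff.mpr hc1
      have h4 : Cardinal.lift.{u} #(L.Formula (ℕ ⊕ ℕ)) ≤ ℵ₀ := by
        rw [Cardinal.lift_le_aleph0]
        exact Cardinal.mk_le_aleph0_iff.mpr hc2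
      exact (Cardinal.power_le_power_right h3).trans
        (Cardinal.power_le_power_left Cardinal.aleph0_ne_zero h4)
    rw [h1]
    refine (Cardinal.sum_le_sum _ _ h2).trans ?_
    rw [Cardinal.sum_const']
    exact (mul_le_mul' (HuB_finset hμ0 hU) le_rfl).trans (Cardinal.mul_eq_self hμ0).le
  exact absurd (hle.trans hS) (not_le.mpr hI)

end MP8f
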