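import Pool.Agent.Lib_MP_8da2c8_full.RankA

/-! STEP RankB: ladders. -/

namespace MP8f

open Cardinal Set FirstOrder Filter
open scoped Classical

universe u v w x

variable {L : FirstOrder.Language.{0, 0}} {M : Type u} [L.Structure M] [Nonempty M]

private theorem ladder_tr_aux {X : Type v} {Y : Type w} {R : X → Y → Prop} (x : ℕ → X)
    (y : ℕ → Y) (n : ℕ) : ∀ a : ℕ,
    (∀ i, a ≤ i → i < a + 2 ^ n → ∀ j, a ≤ j → j < a + 2 ^ n → (R (x i) (y j) ↔ i < j)) →
    Tr R n fun z => ∃ i, a ≤ i ∧ i < a + 2 ^ n ∧ z = x i := by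
  induction n with
  | zero =>
    intro a _
    exact ⟨x a, a, le_rfl, by simp, rfl⟩
  | succ n ih =>
    intro a h
    have hp : (0 : ℕ) < 2 ^ n := by positivity
    have e : (2 : ℕ) ^ (n + 1) = 2 ^ n + 2 ^ n := by ring
    refine ⟨y (a + 2 ^ n), ?_, ?_⟩
    · refine Tr.mono (ih a ?_) ?_
      · intro i hi hi' j hj hj'
        exact h i hi (by omega) j hj (by omega)
      · rintro z ⟨i, hi, hi', rfl⟩
        refine ⟨⟨i, hi, by omega, rfl⟩, ?_⟩
        exact (h i hi (by omega) (a + 2 ^ n) (by omega) (by omega)).2 hi'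
    · refine Tr.mono (ih (a + 2 ^ n) ?_) ?_
      · intro i hi hi' j hj hj'
        exact h i (by omega) (by omega) j (by omega) (by omega)
      · rintro z ⟨i, hi, hi', rfl⟩
        refine ⟨⟨i, by omega, by omega, rfl⟩, ?_⟩
        intro hR
        have := (h i (by omega) (by omega) (a + 2 ^ n) (by omega) (by omega)).1 hR
        omega

/-- Proof.  Show by induction on `n`, for all `a`: if `R (x i) (y j) ↔ i < j` for all `i, j` in `[a, a + 2 ^ n)`
then `Tr R n (fun z => ∃ i, a ≤ i ∧ i < a + 2 ^ n ∧ z = x i)`.  Step: use `y (a + 2 ^ n)`: the `x i` with `i < a + 2 ^ n`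
satisfy `R (x i) (y (a + 2 ^ n))`, those with `i ≥ a + 2 ^ n` do not; `Tr.mono`. -/
theorem ladder_tr {X : Type v} {Y : Type w} {R : X → Y → Prop} (n : ℕ) (x : ℕ → X) (y : ℕ → Y)
    (h : ∀ i < 2 ^ n, ∀ j < 2 ^ n, (R (x i) (y j) ↔ i < j)) : Tr R n fun _ => True := by
  refine Tr.mono (ladder_tr_aux (R := R) x y n 0 ?_) fun _ _ => trivial
  intro i _ hi j _ hj
  rw [zero_add] at hi hj
  exact h i hi j hj

theorem Stb.no_ladder (hS : Stb L M) {β : Type w} {R : (ℕ → M) → (β → M) → Prop}
    (hR : Dfn2 L R) : ∃ N : ℕ, ∀ (x : ℕ → ℕ → M) (y : ℕ → β → M),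
      ¬ ∀ i < N, ∀ j < N, (R (x i) (y j) ↔ i < j) := by
  obtain ⟨n, hn⟩ := hS.gen hR
  exact ⟨2 ^ n, fun x y h => hn (ladder_tr n x y h)⟩

/-- Building a ladder.
Proof.  Induction on `n ≤ N`: there are `x, y` with `A (x i)`, `B (y i)` for `i < n` and `R (x i) (y j) ↔ i < j` for `i, j < n`.
Step from `n < N`: choose `b` by `h1` for the present `x`, put `y' = Function.update y n b`; then choose `a` by `h2` for `y'`, and
`x' = Function.update x n a`. -/
theorem build_ladder {X : Type v} {Y : Type w} [Nonempty X] [Nonempty Y] (R : X → Y → Prop)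
    (A : X → Prop) (B : Y → Prop) (N : ℕ)
    (h1 : ∀ n < N, ∀ x : ℕ → X, (∀ i < n, A (x i)) → ∃ y, B y ∧ ∀ i < n, R (x i) y)
    (h2 : ∀ n < N, ∀ y : ℕ → Y, (∀ j ≤ n, B (y j)) → ∃ x, A x ∧ ∀ j ≤ n, ¬ R x (y j)) :
    ∃ (x : ℕ → X) (y : ℕ → Y), ∀ i < N, ∀ j < N, (R (x i) (y j) ↔ i < j) := by
  have key : ∀ n ≤ N, ∃ (x : ℕ → X) (y : ℕ → Y), (∀ i < n, A (x i)) ∧ (∀ j < n, B (y j)) ∧
      ∀ i < n, ∀ j < n, (R (x i) (y j) ↔ i < j) := by
    intro n
    induction n with
    | zero =>
      intro _
      refine ⟨fun _ => Classical.arbitrary X, fun _ => Classical.arbitrary Y, ?_, ?_, ?_⟩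
      · intro i hi
        omega
      · intro i hi
        omega
      · intro i hi
        omega
    | succ n ih =>
      intro hn
      obtain ⟨x, y, hA, hB, hR⟩ := ih (by omega)
      obtain ⟨b, hb, hxb⟩ := h1 n (by omega) x hA
      have hB' : ∀ j ≤ n, B (Function.update y n b j) := by
        intro j hj
        by_cases hjn : j = n
        · subst hjn
          rw [Function.update_self]
          exact hb
        · rw [Function.update_of_ne hjn]
          exact hB j (by omega)
      obtain ⟨a, ha, hay⟩ := h2 n (by omega) (Function.update y n b) hB'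
      refine ⟨Function.update x n a, Function.update y n b, ?_, ?_, ?_⟩
      · intro i hi
        by_cases hin : i = n
        · subst hin
          rw [Function.update_self]
          exact ha
        · rw [Function.update_of_ne hin]
          exact hA i (by omega)
      · intro j hj
        exact hB' j (by omega)
      · intro i hi j hj
        by_cases hin : i = n
        · subst hin
          rw [Function.update_self]
          refine iff_of_false (hay j (by omega)) (by omega)
        · rw [Function.update_of_ne hin]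
          by_cases hjn : j = n
          · subst hjn
            rw [Function.update_self]
            exact iff_of_true (hxb i (by omega)) (by omega)
          · rw [Function.update_of_ne hjn]
            exact hR i (by omega) j (by omega)
  obtain ⟨x, y, -, -, h⟩ := key N le_rfl
  exact ⟨x, y, h⟩

end MP8f
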