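import Pool.Agent.Lib_MP_8da2c8_full.LocDefA
import Pool.Agent.Lib_MP_8da2c8_full.RankB

/-! STEP LocDefB: commutation. -/

namespace MP8f

open Cardinal Set FirstOrder Filter
open scoped Classical

universe u v w x

variable {L : FirstOrder.Language.{0, 0}} {M : Type u} [L.Structure M] [Nonempty M]

/-- one direction of the commutation -/
theorem LocDefB_aux (hS : Stb L M) (p q : Ultrafilter (ℕ → M)) {P : (ℕ → M) → (ℕ → M) → Prop}
    (hP : DefU2 L univ P) (hl : Ev p fun x => Ev q fun y => P x y) :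
    Ev q fun y => Ev p fun x => P x y := by
  by_contra hcon
  have hr : Ev q fun y => Ev p fun x => ¬ P x y := by
    rw [← ev_not] at hcon
    exact hcon.mono fun y hy => ev_not.2 hy
  obtain ⟨Q, hQ, hPQ⟩ := hP
  have hR : Dfn2 L fun (x : ℕ → M) (y : ℕ ⊕ (univ : Set M) → M) =>
      Q (Sum.elim (Sum.elim x fun j => y (.inl j)) fun a => y (.inr a)) := by
    refine (hQ.at (Sum.elim (Sum.elim Sum.inl fun j => Sum.inr (Sum.inl j))
      fun a => Sum.inr (Sum.inr a))).congr fun z => ?_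
    refine iff_of_eq (congrArg Q ?_)
    funext i
    rcases i with (i | i) | i <;> rfl
  obtain ⟨N, hN⟩ := hS.no_ladder hR
  have hA : Ev p fun x => Ev q fun y => P x y := hl
  obtain ⟨x, y, hxy⟩ := build_ladder P (fun x => Ev q fun y => P x y) (fun y => Ev p fun x => ¬ P x y) N
    (fun n _ x hx => by
      have h1 : Ev q fun y => (Ev p fun x => ¬ P x y) ∧ ∀ i : Fin n, P (x i) y :=
        ev_and.2 ⟨hr, ev_all_fin.2 fun i => hx i i.2⟩
      obtain ⟨y, hy, hy2⟩ := h1.exists
      exact ⟨y, hy, fun i hi => hy2 ⟨i, hi⟩⟩)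
    (fun n _ y hy => by
      have h1 : Ev p fun x => (Ev q fun y => P x y) ∧ ∀ j : Fin (n + 1), ¬ P x (y j) :=
        ev_and.2 ⟨hA, ev_all_fin.2 fun j => hy j (Nat.lt_succ_iff.1 j.2)⟩
      obtain ⟨x, hx, hx2⟩ := h1.exists
      exact ⟨x, hx, fun j hj => hx2 ⟨j, Nat.lt_succ_iff.2 hj⟩⟩)
  refine hN x (fun j => Sum.elim (y j) fun a => a.1) fun i hi j hj => ?_
  rw [← hxy i hi j hj]
  exact (hPQ (Sum.elim (x i) (y j))).symm

/-- Commutation.
Proof.  By symmetry it is enough to derive a contradiction from `Ev p (fun x => Ev q (P x ·))` and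
`¬ Ev q (fun y => Ev p (P · y))`, i.e. `Ev q (fun y => Ev p (fun x => ¬ P x y))`.  Write `P x y ↔ Q x (y, c)` with `Q` definable
without parameters and `c` a fixed block of parameters (index `ℕ ⊕ univ`), let `N` be given by `no_ladder` for `Q`.  Apply `build_ladder` with `A x = Ev q (P x ·)`, `B y = Ev p (¬ P · y)`: given `x i` (`i < n`) in `A`, the
condition `B y ∧ ∀ i < n, P (x i) y` holds `q`-almost everywhere, so some `y` satisfies it (`ev_and`, `ev_all_fin` over `Fin n`,
`Ev.exists`); similarly for `h2`. -/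
theorem ev_comm (hS : Stb L M) (p q : Ultrafilter (ℕ → M)) {P : (ℕ → M) → (ℕ → M) → Prop}
    (hP : DefU2 L univ P) :
    (Ev p fun x => Ev q fun y => P x y) ↔ (Ev q fun y => Ev p fun x => P x y) := by
  refine ⟨LocDefB_aux hS p q hP, fun hr => ?_⟩
  by_contra hcon
  have hl : Ev p fun x => Ev q fun y => ¬ P x y := by
    rw [← ev_not] at hcon
    exact hcon.mono fun x hx => ev_not.2 hx
  have hP' : DefU2 L univ fun x y => ¬ P x y := DefU.not hP
  have h1 := LocDefB_aux hS p q hP' hl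
  obtain ⟨y, hy1, hy2⟩ := (ev_and.2 ⟨h1, hr⟩).exists
  obtain ⟨x, hx1, hx2⟩ := (ev_and.2 ⟨hy1, hy2⟩).exists
  exact hx1 hx2

end MP8f
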