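import Pool.Agent.Lib_MP_8da2c8_full.HuB
import Pool.Agent.Lib_MP_8da2c8_full.LocDefB

/-! STEP HuC: an increasing sequence over which the type is not definable. -/

namespace MP8f

open Cardinal Set FirstOrder FirstOrder.Language Filter
open scoped Classical

universe u v w x

/-- the sequence -/
structure SqT (L : FirstOrder.Language.{0, 0}) (M : Type u) [L.Structure M]
    (p : Ultrafilter (ℕ → M)) where
  X : ℕ → Set M
  φ : ℕ → L.Formula (ℕ ⊕ ℕ)
  P : ℕ → (ℕ → M) → Prop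
  d : ℕ → ℕ → M
  cnt : ∀ n, (X n).Countable
  elt : ∀ n, Elt L (X n)
  mono : ∀ n, X n ⊆ X (n + 1)
  hd : ∀ n i, d n i ∈ X (n + 1)
  dfn : ∀ n, DefU L (X n) (P n)
  h1 : ∀ n, Ev p fun x => (φ n).Realize (Sum.elim x (d n))
  h2 : ∀ n (y : ℕ → M), (∀ i, y i ∈ X n) →
    ((Ev p fun x => (φ n).Realize (Sum.elim x y)) ↔ P n y)
  h3 : ∀ n, ¬ P n (d n)

variable {L : FirstOrder.Language.{0, 0}} {M : Type u} [L.Structure M] [Nonempty M]

/-- One step.
Proof.  By `hp` there is `φ` such that no `P` definable over `h.H F` agrees with `Ev p (φ · y)` on the blocks `y` in `U`.  Definability of the type over the elementary set `h.H F` (`exists_ext` in Transp or the lemma in LocDefA, for stable `M`): there is `P` definable over `h.H F` with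
`Ev p (φ · y) ↔ P y` for `y` in `h.H F`.  So there is `d` in `U` with `¬ (Ev p (φ · d) ↔ P d)`.  If `Ev p (φ · d)`, fine; otherwise replace `φ, P` by `φ.not`, `¬ P`.  Both sides depend on finitely many coordinates of the block (`DefU.supp`, `Dfn.supp` for `φ`); change the other ones to an element of `F`;
let `F'` be `F` and the finitely many remaining elements of `d`. -/
theorem sq_step (hS : Stb L M) (h : Hull L M) {U : Set M} {p : Ultrafilter (ℕ → M)}
    (hp : ∀ F : Finset M, ↑F ⊆ U → ¬ DefOn L U (h.H ↑F) p) (F : Finset M) (hF : ↑F ⊆ U)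
    (hne : F.Nonempty) : ∃ (F' : Finset M) (φ : L.Formula (ℕ ⊕ ℕ)) (P : (ℕ → M) → Prop)
      (d : ℕ → M), F ⊆ F' ∧ ↑F' ⊆ U ∧ (∀ i, d i ∈ F') ∧ DefU L (h.H ↑F) P ∧
      (Ev p fun x => φ.Realize (Sum.elim x d)) ∧ (¬ P d) ∧
      ∀ y : ℕ → M, (∀ i, y i ∈ h.H (↑F : Set M)) →
        ((Ev p fun x => φ.Realize (Sum.elim x y)) ↔ P y) := by
  have h0 := hp F hF
  unfold DefOn at h0
  push Not at h0
  obtain ⟨φ, hφ⟩ := h0
  have hR : Dfn2 L fun (x y : ℕ → M) => φ.Realize (Sum.elim x y) := by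
    refine ⟨φ, fun z => iff_of_eq (congrArg φ.Realize ?_)⟩
    funext i
    cases i <;> rfl
  obtain ⟨P, hP, hPy⟩ := locdef0 hS p (h.H ↑F) hR
  obtain ⟨d0, hd0, hne0⟩ := hφ P hP
  have hne1 : ¬ ((Ev p fun x => φ.Realize (Sum.elim x d0)) ↔ P d0) := by
    tauto
  obtain ⟨S1, hS1⟩ := hP.supp
  obtain ⟨S2, hS2⟩ := (show Dfn L fun z : ℕ ⊕ ℕ → M => φ.Realize z from ⟨φ, fun _ => Iff.rfl⟩).supp
  obtain ⟨m0, hm0⟩ := hne
  let S : Finset ℕ := S1 ∪ S2.toRight
  let d : ℕ → M := fun i => if i ∈ S then d0 i else m0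
  have hdS : ∀ i ∈ S, d i = d0 i := fun i hi => if_pos hi
  have hPd : P d ↔ P d0 := hS1 _ _ fun i hi => hdS i (Finset.mem_union_left _ hi)
  have hφd : ∀ x : ℕ → M, φ.Realize (Sum.elim x d) ↔ φ.Realize (Sum.elim x d0) := by
    intro x
    refine hS2 _ _ ?_
    rintro (i | i) hi
    · rfl
    · exact hdS i (Finset.mem_union_right _ (Finset.mem_toRight.2 hi))
  have hne2 : ¬ ((Ev p fun x => φ.Realize (Sum.elim x d)) ↔ P d) := by
    rw [hPd, ev_congr hφd]
    exact hne1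
  have hdF : ∀ i, d i ∈ F ∪ S.image d0 := by
    intro i
    by_cases hi : i ∈ S
    · rw [hdS i hi]
      exact Finset.mem_union_right _ (Finset.mem_image_of_mem _ hi)
    · have h1 : d i = m0 := if_neg hi
      rw [h1]
      exact Finset.mem_union_left _ hm0
  have hFU : ↑(F ∪ S.image d0) ⊆ U := by
    intro a ha
    rcases Finset.mem_union.1 (Finset.mem_coe.1 ha) with h1 | h1
    · exact hF h1
    · obtain ⟨i, -, rfl⟩ := Finset.mem_image.1 h1
      exact hd0 i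
  by_cases hE : Ev p fun x => φ.Realize (Sum.elim x d)
  · exact ⟨F ∪ S.image d0, φ, P, d, Finset.subset_union_left, hFU, hdF, hP, hE, fun h1 => hne2 ⟨fun _ => h1, fun _ => hE⟩, hPy⟩
  · have hPd' : P d := by
      by_contra h1
      exact hne2 ⟨fun h2 => absurd h2 hE, fun h2 => absurd h2 h1⟩
    have hnot : ∀ y : ℕ → M, (Ev p fun x => φ.not.Realize (Sum.elim x y)) ↔ ¬ Ev p fun x => φ.Realize (Sum.elim x y) := by
      intro y
      rw [← ev_not]
      exact ev_congr fun x => FirstOrder.Language.Formula.realize_not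
    exact ⟨F ∪ S.image d0, φ.not, fun y => ¬ P y, d, Finset.subset_union_left, hFU, hdF, hP.not, (hnot d).2 hE,
      not_not.2 hPd', fun y hy => (hnot y).trans (not_congr (hPy y hy))⟩

/-- Proof.  Iterate `sq_step` starting from one element of `U`; `X n = h.H (F n)`. -/
theorem exists_sq (hS : Stb L M) (h : Hull L M) {U : Set M} (hne : U.Nonempty)
    {p : Ultrafilter (ℕ → M)} (hp : ∀ F : Finset M, ↑F ⊆ U → ¬ DefOn L U (h.H ↑F) p) :
    Nonempty (SqT L M p) := by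
  obtain ⟨u, hu⟩ := hne
  let St : Type u := {F : Finset M // F.Nonempty ∧ ↑F ⊆ U}
  have step : ∀ F : St, ∃ (F' : St) (φ : L.Formula (ℕ ⊕ ℕ)) (P : (ℕ → M) → Prop)
      (d : ℕ → M), F.1 ⊆ F'.1 ∧ (∀ i, d i ∈ F'.1) ∧ DefU L (h.H ↑F.1) P ∧
      (Ev p fun x => φ.Realize (Sum.elim x d)) ∧ (¬ P d) ∧
      ∀ y : ℕ → M, (∀ i, y i ∈ h.H (↑F.1 : Set M)) →
        ((Ev p fun x => φ.Realize (Sum.elim x y)) ↔ P y) := by
    rintro ⟨F, hF1, hF2⟩
    obtain ⟨F', φ, P, d, h1, h2, h3, h4, h5, h6, h7⟩ := sq_step hS h hp F hF2 hF1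
    exact ⟨⟨F', hF1.mono h1, h2⟩, φ, P, d, h1, h3, h4, h5, h6, h7⟩
  choose nx φ P d h1 h2 h3 h4 h5 h6 using step
  let F : ℕ → St := fun n => n.rec ⟨{u}, Finset.singleton_nonempty u, by simpa using hu⟩ fun _ => nx
  have hFs : ∀ n, F (n + 1) = nx (F n) := fun n => rfl
  refine ⟨⟨fun n => h.H ↑(F n).1, fun n => φ (F n), fun n => P (F n), fun n => d (F n),
    fun n => h.countable (F n).1.countable_toSet, fun n => h.elt _ (F n).2.1, fun n => h.mono ?_, fun n i => ?_,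
    fun n => h3 (F n), fun n => h4 (F n), fun n => h6 (F n), fun n => h5 (F n)⟩⟩
  · rw [hFs]
    exact Finset.coe_subset.2 (h1 (F n))
  · rw [hFs]
    exact h.sub _ (h2 (F n) i)

end MP8f
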