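import Pool.Agent.Lib_MP_8da2c8_full.Transp

/-! STEP TmpD: templates. -/

namespace MP8f

open Cardinal Set FirstOrder Filter
open scoped Classical

universe u v w x

/-- A template: an increasing chain of countable elementary sets `range (m n)` and a finite tuple `a` such that for every
`n`, `φ n (a, ·)` agrees on `range (m n)` with `ψ n (·, m n)`, but not on `range (m (n + 1))`. -/
structure Tmp (L : FirstOrder.Language.{0, 0}) (M : Type u) [L.Structure M] where
  m : ℕ → ℕ → M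
  a : ℕ → M
  fr : ℕ
  φ : ℕ → L.Formula (ℕ ⊕ ℕ)
  ψ : ℕ → L.Formula (ℕ ⊕ ℕ)
  d : ℕ → ℕ → M
  ha : ∀ i, a i = a (min i fr)
  elt : ∀ n, Elt L (range (m n))
  mono : ∀ n, range (m n) ⊆ range (m (n + 1))
  hd : ∀ n i, d n i ∈ range (m (n + 1))
  h1 : ∀ n, (φ n).Realize (Sum.elim a (d n))
  h2 : ∀ n (y : ℕ → M), (∀ i, y i ∈ range (m n)) →
    ((φ n).Realize (Sum.elim a y) ↔ (ψ n).Realize (Sum.elim y (m n)))
  h3 : ∀ n, ¬ (ψ n).Realize (Sum.elim (d n) (m n))

/-- the definition schemes of the types of `m (n + 1)` over `m n`, and of `a` over all `m n` -/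
structure Sch {L : FirstOrder.Language.{0, 0}} {M : Type u} [L.Structure M] (t : Tmp L M) where
  rN : ℕ → Ultrafilter (ℕ → M)
  rB : Ultrafilter (ℕ → M)
  θN : ℕ → L.Formula (ℕ ⊕ ℕ) → L.Formula (ℕ ⊕ ℕ)
  θB : L.Formula (ℕ ⊕ ℕ) → L.Formula (ℕ ⊕ ℕ)
  jB : L.Formula (ℕ ⊕ ℕ) → ℕ
  hN : ∀ n φ (y : ℕ → M), (Ev (rN n) fun x => φ.Realize (Sum.elim x y)) ↔
    (θN n φ).Realize (Sum.elim y (t.m n))
  hN' : ∀ n φ (y : ℕ → M), (∀ i, y i ∈ range (t.m n)) →
    (φ.Realize (Sum.elim (t.m (n + 1)) y) ↔ (θN n φ).Realize (Sum.elim y (t.m n)))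
  hB : ∀ φ (y : ℕ → M), (Ev rB fun x => φ.Realize (Sum.elim x y)) ↔
    (θB φ).Realize (Sum.elim y (t.m (jB φ)))
  hB' : ∀ φ (y : ℕ → M), (∀ i, ∃ n, y i ∈ range (t.m n)) →
    (φ.Realize (Sum.elim t.a y) ↔ (θB φ).Realize (Sum.elim y (t.m (jB φ))))

variable {L : FirstOrder.Language.{0, 0}} {M : Type u} [L.Structure M] [Nonempty M]

omit [Nonempty M] [L.Structure M] in
private theorem tmpD_fin {S : ℕ → Set M} (hS : Monotone S) (F : Finset M)
    (hF : (↑F : Set M) ⊆ ⋃ n, S n) : ∃ j, (↑F : Set M) ⊆ S j := by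
  induction F using Finset.induction_on with
  | empty => exact ⟨0, by simp⟩
  | insert a s ha ih =>
    obtain ⟨j, hj⟩ := ih fun z hz => hF (by simp only [Finset.coe_insert]; exact Or.inr hz)
    obtain ⟨k, hk⟩ := mem_iUnion.1 (hF (show a ∈ (↑(insert a s) : Set M) by simp))
    refine ⟨max j k, fun z hz => ?_⟩
    rw [Finset.coe_insert] at hz
    rcases hz with rfl | hz
    · exact hS (le_max_right j k) hk
    · exact hS (le_max_left j k) (hj hz)

/-- a set definable over the range of a block is given by a formula at the block -/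
theorem defU_range {c : ℕ → M} {P : (ℕ → M) → Prop} (h : DefU L (range c) P) :
    ∃ θ : L.Formula (ℕ ⊕ ℕ), ∀ x, P x ↔ θ.Realize (Sum.elim x c) := by
  obtain ⟨Q, hQ, hP⟩ := h
  choose g hg using fun a : range c => a.2
  obtain ⟨θ, hθ⟩ := hQ.at (Sum.elim Sum.inl fun a => Sum.inr (g a) :
    ℕ ⊕ range c → ℕ ⊕ ℕ)
  refine ⟨θ, fun x => (hP x).trans (Iff.trans (iff_of_eq (congrArg Q ?_)) (hθ (Sum.elim x c)))⟩
  funext i
  rcases i with i | i
  · rfl
  · exact (hg i).symm

/-- Proof.  For `rN n`: `exists_ext` for `U = range (t.m n)`, `p0 = pure (t.m (n + 1))`, and `defU_range`; `hN'` because `fun x => φ.Realize (Sum.elim x y)` is definable over `range (t.m n)` for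
`y` in it, and `ev_pure`.  For `rB`: `U = ⋃ n, range (t.m n)` is elementary (a set definable over `U` is definable over a finite subset, `DefU.fin`, contained in some `range (t.m n)` by `t.mono`);
`exists_ext` for `U` and `p0 = pure t.a`; a set definable over `U` is definable over `range (t.m j)` for some `j`. -/
theorem exists_sch (hS : Stb L M) (t : Tmp L M) : Nonempty (Sch t) := by
  have hd2 : ∀ φ : L.Formula (ℕ ⊕ ℕ),
      Dfn2 L fun x y : ℕ → M => φ.Realize (Sum.elim x y) := fun φ => by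
    refine ⟨φ, fun z => iff_of_eq (congrArg φ.Realize ?_)⟩
    funext k
    rcases k with k | k <;> rfl
  have hsub : ∀ (A : Set M) (φ : L.Formula (ℕ ⊕ ℕ)) (y : ℕ → M), (∀ i, y i ∈ A) →
      DefU L A fun x : ℕ → M => φ.Realize (Sum.elim x y) := fun A φ y hy => by
    have h1 : DefU2 L A fun x y : ℕ → M => φ.Realize (Sum.elim x y) := DefU.of_dfn (hd2 φ)
    exact h1.subst y hy
  have hmono : Monotone fun n => range (t.m n) := monotone_nat_of_le_succ t.mono
  choose rN hrN hrN' using fun n => exists_ext hS (t.elt n) (pure (t.m (n + 1)))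
  choose θN hθN using fun n (φ : L.Formula (ℕ ⊕ ℕ)) => defU_range (hrN n _ (hd2 φ))
  have hU0 : ∀ {P : (ℕ → M) → Prop}, DefU L (⋃ n, range (t.m n)) P →
      ∃ j, DefU L (range (t.m j)) P := by
    intro P hP
    obtain ⟨F, hF, hF'⟩ := hP.fin
    obtain ⟨j, hj⟩ : ∃ j, (↑F : Set M) ⊆ range (t.m j) :=
      tmpD_fin hmono F hF
    exact ⟨j, hF'.mono hj⟩
  have hU : Elt L (⋃ n, range (t.m n)) := by
    refine ⟨⟨t.m 0 0, mem_iUnion.2 ⟨0, 0, rfl⟩⟩, fun P hP hex => ?_⟩
    obtain ⟨j, hj⟩ := hU0 hP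
    obtain ⟨x, hx, hx'⟩ := (t.elt j).2 P hj hex
    exact ⟨x, fun i => mem_iUnion.2 ⟨j, hx i⟩, hx'⟩
  obtain ⟨rB, hrB, hrB'⟩ := exists_ext hS hU (pure t.a)
  choose jB hjB using fun φ : L.Formula (ℕ ⊕ ℕ) => hU0 (hrB _ (hd2 φ))
  choose θB hθB using fun φ : L.Formula (ℕ ⊕ ℕ) => defU_range (hjB φ)
  refine ⟨⟨rN, rB, θN, θB, jB, hθN, fun n φ y hy => ?_, hθB, fun φ y hy => ?_⟩⟩
  · rw [← hθN n φ y, hrN' n _ (hsub _ φ y hy), ev_pure]
  · rw [← hθB φ y, hrB' _ (hsub _ φ y fun i => mem_iUnion.2 (hy i)), ev_pure]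

/-- the image of a template under an elementary embedding (`Elt.image`, `j.map_formula`) -/
theorem Tmp.map {N : Type u} [L.Structure N] [Nonempty N] (j : N ↪ₑ[L] M) (t : Tmp L N) :
    ∃ t' : Tmp L M, (∀ n i, t'.m n i = j (t.m n i)) ∧ (∀ i, t'.a i = j (t.a i)) ∧
      t'.fr = t.fr := by
  have key : ∀ (φ : L.Formula (ℕ ⊕ ℕ)) (x y : ℕ → N),
      φ.Realize (Sum.elim (fun i => j (x i)) fun i => j (y i)) ↔ φ.Realize (Sum.elim x y) := by
    intro φ x y
    rw [← j.map_formula]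
    refine iff_of_eq (congrArg φ.Realize ?_)
    funext i
    rcases i with i | i <;> rfl
  have hr : ∀ n, (range fun i => j (t.m n i)) = j '' range (t.m n) := fun n => by
    ext z
    simp only [mem_range, mem_image, exists_exists_eq_and]
  refine ⟨⟨fun n i => j (t.m n i), fun i => j (t.a i), t.fr, t.φ, t.ψ, fun n i => j (t.d n i),
    fun i => congrArg j (t.ha i), fun n => ?_, fun n => ?_, fun n i => ?_, fun n => ?_,
    fun n y hy => ?_, fun n => ?_⟩, fun _ _ => rfl, fun _ => rfl, rfl⟩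
  · show Elt L (range fun i => j (t.m n i))
    rw [hr]
    exact (t.elt n).image j
  · show (range fun i => j (t.m n i)) ⊆ range fun i => j (t.m (n + 1) i)
    rw [hr, hr]
    exact image_mono (t.mono n)
  · show j (t.d n i) ∈ range fun i => j (t.m (n + 1) i)
    rw [hr]
    exact mem_image_of_mem j (t.hd n i)
  · exact (key _ _ _).2 (t.h1 n)
  · have h1 : ∀ i, ∃ z ∈ range (t.m n), j z = y i := fun i => by
      have h2 := hy i
      have h3 : y i ∈ range fun i => j (t.m n i) := h2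
      rw [hr] at h3
      exact h3
    choose z hz hz' using h1
    have h4 : y = fun i => j (z i) := funext fun i => (hz' i).symm
    rw [h4]
    exact (key _ _ _).trans ((t.h2 n z hz).trans (key _ _ _).symm)
  · exact fun h => t.h3 n ((key _ _ _).1 h)

end MP8f
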