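import Pool.Agent.Lib_MP_8da2c8_full.Core

/-! STEP Ultra: an elementary extension realizing everything over `M` in the variables `V`. -/

namespace MP8f

open Cardinal Set FirstOrder Filter
open scoped Classical

universe u v w x

variable {L : FirstOrder.Language.{0, 0}}

/-- Proof.  Let `I = Finset (L.Formula (V ⊕ M))`, `u` an ultrafilter on `I` containing all the sets `{i | {φ} ⊆ i}`, e.g. `Ultrafilter.of (atTop : Filter I)`;
`M' = (u : Filter I).Product (fun _ => M)` with `FirstOrder.Language.Ultraproduct.structure`; `j` the diagonal map, elementary by Łoś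
(`FirstOrder.Language.Ultraproduct.realize_formula_cast`; the constructor of an elementary embedding asks for formulas in `Fin n`).  Given `W`, for `i : I` let `v i : V → M`
realize all `φ ∈ i` with `φ ∈ W` (a finite subset of `W`).  The class of `fun i => v i x`, `x : V`, gives `v' : V → M'`.  For `φ ∈ W`:
`{i | φ.Realize (Sum.elim (v i) id)} ⊇ {i | φ ∈ i} ∈ u`, and Łoś again. -/
theorem exists_ultra (M : Type u) [L.Structure M] [Nonempty M] (V : Type u) :
    ∃ (M' : Type u) (_ : L.Structure M') (j : M ↪ₑ[L] M'),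
      ∀ W : Set (L.Formula (V ⊕ M)),
        (∀ F : Finset (L.Formula (V ⊕ M)), ↑F ⊆ W →
          ∃ v : V → M, ∀ φ ∈ F, φ.Realize (Sum.elim v id)) →
        ∃ v : V → M', ∀ φ ∈ W, φ.Realize (Sum.elim v j) := by
  let U : Ultrafilter (Finset (L.Formula (V ⊕ M))) := Ultrafilter.of atTop
  have hU : ∀ φ : L.Formula (V ⊕ M), ∀ᶠ i in (U : Filter (Finset (L.Formula (V ⊕ M)))), φ ∈ i := by
    intro φ
    have h1 : ∀ᶠ i in (atTop : Filter (Finset (L.Formula (V ⊕ M)))), φ ∈ i := by
      filter_upwards [eventually_ge_atTop ({φ} : Finset (L.Formula (V ⊕ M)))] with i hi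
      exact hi (Finset.mem_singleton_self φ)
    exact (Ultrafilter.of_le _) h1
  let d : M → (U : Filter (Finset (L.Formula (V ⊕ M)))).Product (fun _ => M) := fun m =>
    ((fun _ => m : Finset (L.Formula (V ⊕ M)) → M) : (U : Filter (Finset (L.Formula (V ⊕ M)))).Product (fun _ => M))
  have hd : ∀ ⦃n⦄ (φ : L.Formula (Fin n)) (x : Fin n → M), φ.Realize (d ∘ x) ↔ φ.Realize x := by
    intro n φ x
    have h1 := FirstOrder.Language.Ultraproduct.realize_formula_cast (L := L) (u := U)
      (M := fun _ => M) φ (fun k _ => x k)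
    rw [eventually_const] at h1
    exact h1
  refine ⟨(U : Filter (Finset (L.Formula (V ⊕ M)))).Product (fun _ => M), inferInstance, ⟨d, hd⟩, ?_⟩
  intro W hW
  have h2 : ∀ i : Finset (L.Formula (V ⊕ M)), ∃ v : V → M, ∀ φ ∈ i, φ ∈ W →
      φ.Realize (Sum.elim v id) := by
    intro i
    obtain ⟨v, hv⟩ := hW (i.filter (· ∈ W)) (by
      intro φ hφ
      exact (Finset.mem_filter.1 hφ).2)
    exact ⟨v, fun φ h1 h2 => hv φ (Finset.mem_filter.2 ⟨h1, h2⟩)⟩
  choose v hv using h2
  refine ⟨fun x => ((fun i => v i x : Finset (L.Formula (V ⊕ M)) → M) :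
    (U : Filter (Finset (L.Formula (V ⊕ M)))).Product (fun _ => M)), ?_⟩
  intro φ hφ
  have h3 := FirstOrder.Language.Ultraproduct.realize_formula_cast (L := L) (u := U)
      (M := fun _ => M) φ (fun k i => Sum.elim (v i) id k)
  have h4 : ∀ᶠ i in (U : Filter (Finset (L.Formula (V ⊕ M)))), φ.Realize fun k => Sum.elim (v i) id k := by
    filter_upwards [hU φ] with i hi
    exact hv i φ hi hφ
  have h5 := h3.2 h4
  have h6 : (Sum.elim (fun x => ((fun i => v i x : Finset (L.Formula (V ⊕ M)) → M) :
      (U : Filter (Finset (L.Formula (V ⊕ M)))).Product (fun _ => M))) d :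
      V ⊕ M → (U : Filter (Finset (L.Formula (V ⊕ M)))).Product (fun _ => M)) =
      fun k => ((fun i => Sum.elim (v i) id k : Finset (L.Formula (V ⊕ M)) → M) :
      (U : Filter (Finset (L.Formula (V ⊕ M)))).Product (fun _ => M)) := by
    funext k
    rcases k with k | k
    · rfl
    · rfl
  change φ.Realize (Sum.elim _ d)
  rw [h6]
  exact h5

end MP8f
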