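import Pool.Agent.Lib_MP_8da2c8_full.HuC
import Pool.Agent.Lib_MP_8da2c8_full.TmpD
import Pool.Agent.Lib_MP_8da2c8_full.Ultra

/-! STEP HuD: realization of the type; the template. -/

namespace MP8f

open Cardinal Set FirstOrder FirstOrder.Language Filter
open scoped Classical

universe u v w x

variable {L : FirstOrder.Language.{0, 0}} {M : Type u} [L.Structure M] [Nonempty M]

/-- Proof.  `exists_ultra` for `V` a copy of `ℕ` in `Type u` (`ULift ℕ`) and `W` = the set of the formulas `χ` with `Ev p (fun x => χ.Realize (Sum.elim (x ∘ ULift.down) id))` (finitely satisfiable: `ev_all_fin` and `Ev.exists`); `W` contains `χ` or `χ.not`. -/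
theorem exists_realize (p : Ultrafilter (ℕ → M)) :
    ∃ (N : Type u) (_ : L.Structure N) (j : M ↪ₑ[L] N) (a : ℕ → N),
      ∀ χ : L.Formula (ℕ ⊕ M), χ.Realize (Sum.elim a j) ↔ Ev p fun x => χ.Realize (Sum.elim x id) := by
  obtain ⟨N, iN, j, hj⟩ := exists_ultra (L := L) M (ULift.{u} ℕ)
  let up : ℕ ⊕ M → ULift.{u} ℕ ⊕ M := Sum.map ULift.up id
  let W : Set (L.Formula (ULift.{u} ℕ ⊕ M)) := {χ | Ev p fun x => χ.Realize (Sum.elim (x ∘ ULift.down) id)}
  obtain ⟨v, hv⟩ := hj W (by
    intro F hF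
    have h1 : ∀ᶠ x in (p : Filter (ℕ → M)), ∀ χ ∈ F, χ.Realize (Sum.elim (x ∘ ULift.down) id) := by
      rw [Filter.eventually_all_finset]
      exact fun χ hχ => hF (Finset.mem_coe.2 hχ)
    obtain ⟨x, hx⟩ := h1.exists
    exact ⟨x ∘ ULift.down, hx⟩)
  have hrel : ∀ χ : L.Formula (ℕ ⊕ M), (χ.relabel up ∈ W ↔ Ev p fun x => χ.Realize (Sum.elim x id)) := by
    intro χ
    refine ev_congr fun x => ?_
    rw [FirstOrder.Language.Formula.realize_relabel]
    refine iff_of_eq (congrArg χ.Realize ?_)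
    funext i
    rcases i with i | i <;> rfl
  have hrel' : ∀ χ : L.Formula (ℕ ⊕ M), ((χ.relabel up).Realize (Sum.elim v j) ↔
      χ.Realize (Sum.elim (fun i => v (ULift.up i)) j)) := by
    intro χ
    rw [FirstOrder.Language.Formula.realize_relabel]
    refine iff_of_eq (congrArg χ.Realize ?_)
    funext i
    rcases i with i | i <;> rfl
  refine ⟨N, iN, j, fun i => v (ULift.up i), fun χ => ⟨fun h => ?_, fun h => ?_⟩⟩
  · by_contra hc
    rw [← ev_not] at hc
    have h1 : Ev p fun x => χ.not.Realize (Sum.elim x id) :=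
      hc.mono fun x hx => FirstOrder.Language.Formula.realize_not.2 hx
    have h2 := (hrel' χ.not).1 (hv _ ((hrel χ.not).2 h1))
    exact FirstOrder.Language.Formula.realize_not.1 h2 h
  · exact (hrel' χ).1 (hv _ ((hrel χ).2 h))

/-- Proof.  `exists_realize` gives `N, j, a`.  Let `m0 n : ℕ → M` enumerate `s.X n` (countable, nonempty), `t.m n = j ∘ m0 n`, `t.a = a`, `t.fr = fr` (`a i = a (min i fr)`: the formula `x i = x (min i fr)` and `hfr`), `t.φ = s.φ`, `t.d n = j ∘ s.d n`, `t.ψ n` = the formula given by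
`defU_range` for `s.P n` over `range (m0 n) = s.X n`.  `elt`: `Elt.image`.  `h1`, `h2`, `h3`: for `y' : ℕ → M`: `(s.φ n).Realize (Sum.elim a (j ∘ y')) ↔ Ev p (φ · y')` (relabel the formula), and formulas without `a` are preserved by `j` (`j.map_formula`); a block `y` in `range (t.m n)` is
`j ∘ y'` with `y'` in `s.X n`. -/
theorem exists_tmp {p : Ultrafilter (ℕ → M)} (s : SqT L M p) (fr : ℕ)
    (hfr : Ev p fun x => ∀ i, x i = x (min i fr)) :
    ∃ (N : Type u) (_ : L.Structure N) (_ : M ↪ₑ[L] N), Nonempty (Tmp L N) := by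
  obtain ⟨N, iN, j, a, ha⟩ := exists_realize (L := L) p
  have hN : Nonempty N := ⟨j (Classical.arbitrary M)⟩
  choose m0 hm0 using fun n => (s.cnt n).exists_eq_range (s.elt n).1
  have hdef : ∀ n, DefU L (range (m0 n)) (s.P n) := fun n => by
    rw [← hm0 n]
    exact s.dfn n
  choose ψ hψ using fun n => defU_range (hdef n)
  have key1 : ∀ (φ : L.Formula (ℕ ⊕ ℕ)) (y : ℕ → M), (φ.Realize (Sum.elim a fun i => j (y i)) ↔
      Ev p fun x => φ.Realize (Sum.elim x y)) := by
    intro φ y
    have h1 := ha (φ.relabel (Sum.map id y : ℕ ⊕ ℕ → ℕ ⊕ M))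
    rw [FirstOrder.Language.Formula.realize_relabel] at h1
    refine Iff.trans (iff_of_eq (congrArg φ.Realize ?_)) (h1.trans (ev_congr fun x => ?_))
    · funext i
      rcases i with i | i <;> rfl
    · rw [FirstOrder.Language.Formula.realize_relabel]
      refine iff_of_eq (congrArg φ.Realize ?_)
      funext i
      rcases i with i | i <;> rfl
  have key2 : ∀ (φ : L.Formula (ℕ ⊕ ℕ)) (x y : ℕ → M),
      φ.Realize (Sum.elim (fun i => j (x i)) fun i => j (y i)) ↔ φ.Realize (Sum.elim x y) := by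
    intro φ x y
    rw [← j.map_formula]
    refine iff_of_eq (congrArg φ.Realize ?_)
    funext i
    rcases i with i | i <;> rfl
  have hr : ∀ n, (range fun i => j (m0 n i)) = j '' s.X n := fun n => by
    rw [hm0 n]
    ext z
    simp only [mem_range, mem_image, exists_exists_eq_and]
  refine ⟨N, iN, j, ⟨⟨fun n i => j (m0 n i), a, fr, s.φ, ψ, fun n i => j (s.d n i),
    fun i => ?_, fun n => ?_, fun n => ?_, fun n i => ?_, fun n => ?_,
    fun n y hy => ?_, fun n => ?_⟩⟩⟩
  · have h1 := ha ((FirstOrder.Language.Term.var (Sum.inl i)).equal (FirstOrder.Language.Term.var (Sum.inl (min i fr))))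
    rw [FirstOrder.Language.Formula.realize_equal] at h1
    refine h1.2 (hfr.mono fun x hx => ?_)
    rw [FirstOrder.Language.Formula.realize_equal]
    exact hx i
  · show Elt L (range fun i => j (m0 n i))
    rw [hr]
    exact (s.elt n).image j
  · show (range fun i => j (m0 n i)) ⊆ range fun i => j (m0 (n + 1) i)
    rw [hr, hr]
    exact image_mono (s.mono n)
  · show j (s.d n i) ∈ range fun i => j (m0 (n + 1) i)
    rw [hr]
    exact mem_image_of_mem j (s.hd n i)
  · exact (key1 _ _).2 (s.h1 n)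
  · have h1 : ∀ i, ∃ z ∈ s.X n, j z = y i := fun i => by
      have h2 : y i ∈ range fun i => j (m0 n i) := hy i
      rw [hr] at h2
      exact h2
    choose z hz hz' using h1
    have h4 : y = fun i => j (z i) := funext fun i => (hz' i).symm
    rw [h4]
    exact (key1 _ _).trans ((s.h2 n z hz).trans ((hψ n z).trans (key2 _ _ _).symm))
  · exact fun h => s.h3 n ((hψ n _).2 ((key2 _ _ _).1 h))

end MP8f
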