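import Pool.Agent.Lib_MP_8da2c8_full.Ultra

/-! STEP StB: binary trees of parameters. -/

namespace MP8f

open Cardinal Set FirstOrder Filter
open scoped Classical

universe u v w x

/-- the finite tree.  Proof: induction on `n`: `b [] = y`, `b (true :: s)`, `a (true :: s)` from the tree for `P x ∧ R x y`, `b (false :: s)`, `a (false :: s)` from the other one. -/
theorem tr_tree {X : Type v} {Y : Type w} [Nonempty Y] {R : X → Y → Prop} {n : ℕ} {P : X → Prop}
    (h : Tr R n P) : ∃ (a : List Bool → X) (b : List Bool → Y), ∀ s : List Bool, s.length = n →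
      P (a s) ∧ ∀ j < n, (R (a s) (b (s.take j)) ↔ s[j]? = some true) := by
  induction n generalizing P with
  | zero =>
    obtain ⟨x, hx⟩ := h
    exact ⟨fun _ => x, fun _ => Classical.arbitrary Y, fun s _ =>
      ⟨hx, fun j hj => absurd hj (Nat.not_lt_zero j)⟩⟩
  | succ n ih =>
    obtain ⟨y, h1, h0⟩ := h
    obtain ⟨a1, b1, H1⟩ := ih h1
    obtain ⟨a0, b0, H0⟩ := ih h0
    refine ⟨fun s => match s with
      | [] => a1 []
      | true :: t => a1 t
      | false :: t => a0 t, fun s => match s with
      | [] => y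
      | true :: t => b1 t
      | false :: t => b0 t, ?_⟩
    intro s hs
    rcases s with _ | ⟨c, t⟩
    · simp at hs
    have ht : t.length = n := by simpa using hs
    rcases c with _ | _
    · obtain ⟨⟨hP, hR⟩, hj⟩ := H0 t ht
      refine ⟨hP, ?_⟩
      intro j hjn
      rcases j with _ | j
      · simpa using hR
      · simpa using hj j (by omega)
    · obtain ⟨⟨hP, hR⟩, hj⟩ := H1 t ht
      refine ⟨hP, ?_⟩
      intro j hjn
      rcases j with _ | j
      · simpa using hR
      · simpa using hj j (by omega)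

variable {L : FirstOrder.Language.{0, 0}}

/-- Compactness.
Proof.  `exists_ultra` with variables `V = ((I → Bool) × ℕ) ⊕ ((Σ i : I, (Iio i → Bool)) × ℕ)` and the conditions: for `f`, `i` the formula `R` or `R.not` (according to `f i`), relabelled by `Sum.elim (fun k => .inl (.inl (f, k))) (fun k => .inl (.inr (⟨i, fun j => f j⟩, k)))`
(`φ : L.Formula (V ⊕ M)` without parameters).  Finitely many conditions mention finitely many `i`; let `i 0 < … < i (n - 1)` be these, `a, b` the finite tree for `n` (`tr_tree`); to `f` assign `a [f (i 0), …, f (i (n - 1))]`, to `⟨i, g⟩` assign `b [g (i 0), …]` with the values of `g` at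
all the `i j < i`. -/
theorem exists_tree (M : Type u) [L.Structure M] [Nonempty M] (I : Type u) [LinearOrder I]
    (R : L.Formula (ℕ ⊕ ℕ))
    (h : ∀ n, Tr (fun x y : ℕ → M => R.Realize (Sum.elim x y)) n fun _ => True) :
    ∃ (M' : Type u) (_ : L.Structure M') (_ : M ↪ₑ[L] M') (a : (I → Bool) → ℕ → M')
      (b : (Σ i : I, (Iio i → Bool)) → ℕ → M'),
      ∀ (f : I → Bool) (i : I),
        R.Realize (Sum.elim (a f) (b ⟨i, fun j => f j⟩)) ↔ f i = true := by
  obtain ⟨M', s', j', H⟩ := exists_ultra (L := L) M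
    (((I → Bool) × ℕ) ⊕ ((Σ i : I, (Iio i → Bool)) × ℕ))
  let toV : (I → Bool) → I → ℕ ⊕ ℕ →
      (((I → Bool) × ℕ) ⊕ ((Σ i : I, (Iio i → Bool)) × ℕ)) ⊕ M := fun f i =>
    Sum.elim (fun k => Sum.inl (Sum.inl (f, k)))
      (fun k => Sum.inl (Sum.inr (⟨i, fun j => f j⟩, k)))
  let cnd : (I → Bool) → I →
      L.Formula ((((I → Bool) × ℕ) ⊕ ((Σ i : I, (Iio i → Bool)) × ℕ)) ⊕ M) := fun f i =>
    (if f i = true then R else R.not).relabel (toV f i)
  obtain ⟨v, hv⟩ := H {φ | ∃ f i, φ = cnd f i} (by
    intro F hF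
    have hF' : ∀ φ : F, ∃ (f : I → Bool) (i : I), φ.1 = cnd f i := fun φ => hF φ.2
    choose ff ii hfi using hF'
    let J : Finset I := Finset.univ.image ii
    obtain ⟨a, b, hab⟩ := tr_tree (h J.card)
    let e : Fin J.card ≃o J := J.orderIsoOfFin rfl
    let idx : I → ℕ := fun i => if h : i ∈ J then (e.symm ⟨i, h⟩).val else 0
    let path : (I → Bool) → List Bool := fun f => List.ofFn (fun k : Fin J.card => f (e k))
    let pth : (Σ i : I, (Iio i → Bool)) → List Bool := fun p =>
      List.ofFn (fun k : Fin J.card => if h : (e k : I) < p.1 then p.2 ⟨(e k : I), h⟩ else false)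
    refine ⟨Sum.elim (fun p => a (path p.1) p.2) (fun p => b ((pth p.1).take (idx p.1.1)) p.2), ?_⟩
    intro φ hφ
    have h1 := hfi ⟨φ, hφ⟩
    set f := ff ⟨φ, hφ⟩ with hf
    set i := ii ⟨φ, hφ⟩ with hi
    have hiJ : i ∈ J := Finset.mem_image.2 ⟨⟨φ, hφ⟩, Finset.mem_univ _, rfl⟩
    have h1' : φ = cnd f i := h1
    rw [h1']
    have hidx : idx i = (e.symm ⟨i, hiJ⟩).val := by
      simp only [idx, dif_pos hiJ]
    have hlt : idx i < J.card := by rw [hidx]; exact (e.symm ⟨i, hiJ⟩).isLt
    have hei : ((e ⟨idx i, hlt⟩ : J) : I) = i := by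
      have : (⟨idx i, hlt⟩ : Fin J.card) = e.symm ⟨i, hiJ⟩ := Fin.ext hidx
      rw [this, OrderIso.apply_symm_apply]
    have htake : (pth ⟨i, fun j => f j⟩).take (idx i) = (path f).take (idx i) := by
      apply List.ext_getElem?
      intro k
      rw [List.getElem?_take, List.getElem?_take]
      by_cases hk : k < idx i
      · rw [if_pos hk, if_pos hk]
        have hkJ : k < J.card := hk.trans hlt
        have hek : ((e ⟨k, hkJ⟩ : J) : I) < i := by
          rw [← hei]
          have : e ⟨k, hkJ⟩ < e ⟨idx i, hlt⟩ := e.lt_iff_lt.2 hk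
          exact this
        simp only [pth, path, List.getElem?_ofFn, hkJ, dif_pos, hek]
      · rw [if_neg hk, if_neg hk]
    have hlen : (path f).length = J.card := List.length_ofFn
    have h2 := (hab (path f) hlen).2 (idx i) hlt
    have h3 : (path f)[idx i]? = some (f i) := by
      simp only [path, List.getElem?_ofFn, hlt, dif_pos, hei]
    rw [h3] at h2
    have h4 : (Sum.elim (Sum.elim (fun p => a (path p.1) p.2)
        (fun p => b ((pth p.1).take (idx p.1.1)) p.2)) id) ∘ toV f i =
        Sum.elim (a (path f)) (b ((path f).take (idx i))) := by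
      funext k
      rcases k with k | k
      · rfl
      · show b ((pth ⟨i, fun j => f j⟩).take (idx i)) k = b ((path f).take (idx i)) k
        rw [htake]
    show ((if f i = true then R else R.not).relabel (toV f i)).Realize _
    rw [FirstOrder.Language.Formula.realize_relabel, h4]
    by_cases hfi' : f i = true
    · rw [if_pos hfi']
      exact h2.2 (by rw [hfi'])
    · rw [if_neg hfi', FirstOrder.Language.Formula.realize_not]
      intro h5
      exact hfi' (Option.some_injective _ (h2.1 h5)))
  refine ⟨M', s', j', fun f k => v (Sum.inl (f, k)), fun s k => v (Sum.inr (s, k)), ?_⟩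
  intro f i
  have h1 := hv (cnd f i) ⟨f, i, rfl⟩
  have h2 : (Sum.elim v j') ∘ toV f i =
      Sum.elim (fun k => v (Sum.inl (f, k))) (fun k => v (Sum.inr (⟨i, fun j => f j⟩, k))) := by
    funext k
    rcases k with k | k
    · rfl
    · rfl
  have h3 : ((if f i = true then R else R.not).relabel (toV f i)).Realize (Sum.elim v j') := h1
  rw [FirstOrder.Language.Formula.realize_relabel, h2] at h3
  by_cases hfi : f i = true
  · rw [if_pos hfi] at h3
    exact ⟨fun _ => hfi, fun _ => h3⟩
  · rw [if_neg hfi, FirstOrder.Language.Formula.realize_not] at h3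
    exact ⟨fun h4 => absurd h4 h3, fun h4 => absurd h4 hfi⟩

end MP8f
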