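import Pool.Agent.Lib_MP_8da2c8_full.StA
import Pool.Agent.Lib_MP_8da2c8_full.StB

/-! STEP StC: stable theories have bounded ranks. -/

namespace MP8f

open Cardinal Set FirstOrder FirstOrder.Language Filter
open scoped Classical

universe u v w x

private theorem StC_pow (J : Type u) : #(J → Bool) = 2 ^ #J := by
  simp

/-- Proof.  `ν` is the least cardinal with `μ < 2 ^ ν` (`Cardinal.cantor`), `I = ν.ord.ToType`; `ν ≤ μ`; `#(Iio i) < ν` (`Cardinal.mk_Iio_ord_toType` or `mk_Iio_toType_ord_lt`), so `2 ^ #(Iio i) ≤ μ`, and the sum over `i` is `≤ ν * μ`. -/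
theorem exists_order (μ : Cardinal.{u}) (hμ : ℵ₀ ≤ μ) : ∃ (I : Type u) (_ : LinearOrder I)
    (_ : WellFoundedLT I), μ < #(I → Bool) ∧ #(Σ i : I, (Iio i → Bool)) ≤ μ := by
  obtain ⟨ν, hν, hmin⟩ := WellFounded.has_min (wellFounded_lt (α := Cardinal.{u})) {ν : Cardinal.{u} | μ < 2 ^ ν}
    ⟨μ, Cardinal.cantor μ⟩
  have hνμ : ν ≤ μ := not_lt.1 fun h => hmin μ (Cardinal.cantor μ) h
  have hI : #ν.ord.ToType = ν := by simp
  refine ⟨ν.ord.ToType, inferInstance, inferInstance, ?_, ?_⟩
  · rw [StC_pow, hI]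
    exact hν
  · rw [Cardinal.mk_sigma]
    have h1 : ∀ i : ν.ord.ToType, #(Iio i → Bool) ≤ μ := by
      intro i
      rw [StC_pow]
      have h2 : #(Iio i) < ν := by
        have h3 := Cardinal.mk_Iio_lt i (by simp)
        rwa [hI] at h3
      exact not_lt.1 fun h => hmin _ h h2
    refine (Cardinal.sum_le_sum _ (fun _ => μ) h1).trans ?_
    rw [Cardinal.sum_const', hI]
    exact (mul_le_mul' hνμ le_rfl).trans (Cardinal.mul_eq_self hμ).le

variable {L : FirstOrder.Language.{0, 0}} {M : Type u} [L.Structure M] [Nonempty M]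

/-- Proof.  Suppose `R` (given by a formula `φ`) has `Tr R n ⊤` for all `n`.  `exists_order`, `exists_tree` for `I`: `M'`, `a`, `b`; `M'` is a model of `T` (elementary embedding: `FirstOrder.Language.ElementaryEmbedding.theory_model_iff` or similar).
Let `A` be the set of all elements `b s j`, `#A ≤ #(Σ i, …) * ℵ₀ ≤ μ`.  `φ` depends on finitely many coordinates (`Dfn.supp`): there is `k` such that the `x`-coordinates used are `< k`.  The `k`-tuples `fun i : Fin k => a f i`, `f : I → Bool`, are distinguished by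
sets definable over `A`: for `f ≠ g` let `i` be least with `f i ≠ g i`; then `⟨i, f ↾⟩ = ⟨i, g ↾⟩ =: s`, take `P v` (or its negation) `= φ.Realize (Sum.elim (v extended by an arbitrary element, see below) (b s))`; the extension: as `φ` does not depend on the other coordinates
use `fun j => if h : j < k then v ⟨j, h⟩ else b s 0`, definable over `A` by `DefU.mk`.  `mk_le_types` gives `#(I → Bool) ≤ μ`. -/
theorem stb_of_stable {T : L.Theory} {μ : Cardinal.{u}} (hμ : ℵ₀ ≤ μ) (h : StableIn T μ)
    [M ⊨ T] : Stb L M := by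
  intro R hR
  by_contra hcon
  push Not at hcon
  obtain ⟨φ, hφ⟩ := hR
  have hRφ : ∀ x y, R x y ↔ φ.Realize (Sum.elim x y) := fun x y => hφ (Sum.elim x y)
  obtain ⟨I, _, _, hI1, hI2⟩ := exists_order μ hμ
  have hTr : ∀ n, Tr (fun x y : ℕ → M => φ.Realize (Sum.elim x y)) n fun _ => True := by
    intro n
    have h1 := hcon n
    have h2 : R = fun x y : ℕ → M => φ.Realize (Sum.elim x y) := by
      funext x y
      exact propext (hRφ x y)
    rwa [h2] at h1
  obtain ⟨M', _, j, a, b, hab⟩ := exists_tree M I φ hTr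
  have hne : Nonempty M' := ⟨j (Classical.arbitrary M)⟩
  have hT : M' ⊨ T := j.elementarilyEquivalent.theory_model
  set A : Set M' := range fun p : (Σ i : I, (Iio i → Bool)) × ℕ => b p.1 p.2 with hA
  have hAμ : #A ≤ μ := by
    refine Cardinal.mk_range_le.trans ?_
    rw [Cardinal.mk_prod, Cardinal.mk_nat, Cardinal.lift_aleph0, Cardinal.lift_id']
    exact (mul_le_mul' hI2 hμ).trans (Cardinal.mul_eq_self hμ).le
  have hbA : ∀ s n, b s n ∈ A := fun s n => ⟨(s, n), rfl⟩
  have hD : Dfn L fun z : ℕ ⊕ ℕ → M' => φ.Realize z := ⟨φ, fun _ => Iff.rfl⟩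
  obtain ⟨F, hF⟩ := hD.supp
  set k : ℕ := (F.toLeft.sup id) + 1 with hk
  have hFk : ∀ n, (Sum.inl n : ℕ ⊕ ℕ) ∈ F → n < k := by
    intro n hn
    have h1 : n ∈ F.toLeft := Finset.mem_toLeft.2 hn
    have h2 := Finset.le_sup (f := id) h1
    exact Nat.lt_succ_of_le h2
  have hle := mk_le_types (L := L) A k (I := I → Bool) (fun f i => a f i) ?_
  · exact absurd (hle.trans (h M' A hAμ k)) (not_le.2 hI1)
  · intro f g hfg
    have hex : ∃ i, f i ≠ g i := by
      by_contra h1
      push Not at h1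
      exact hfg (funext h1)
    obtain ⟨i, hi, hmin⟩ := WellFounded.has_min (wellFounded_lt (α := I)) {i | f i ≠ g i} hex
    have hs : (fun j : Iio i => f j) = fun j : Iio i => g j := by
      funext j
      by_contra h1
      exact hmin j h1 j.2
    have hf := hab f i
    have hg := hab g i
    rw [← hs] at hg
    set s : Σ i : I, (Iio i → Bool) := ⟨i, fun j => f j⟩ with hsd
    have hP := DefU.mk (A := A) hD (α := Fin k) (Sum.elim
      (fun n => if h : n < k then Sum.inl ⟨n, h⟩ else Sum.inr ⟨b s 0, hbA s 0⟩)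
      fun n => Sum.inr ⟨b s n, hbA s n⟩)
    have hval : ∀ f' : I → Bool, (φ.Realize fun n => Sum.elim (fun i : Fin k => a f' i) (fun c : A => c.1)
        ((Sum.elim (fun n => if h : n < k then Sum.inl ⟨n, h⟩ else Sum.inr ⟨b s 0, hbA s 0⟩)
          fun n => Sum.inr ⟨b s n, hbA s n⟩ : ℕ ⊕ ℕ → Fin k ⊕ A) n)) ↔
        φ.Realize (Sum.elim (a f') (b s)) := by
      intro f'
      refine hF _ _ ?_
      rintro (n | n) hn
      · have h1 := hFk n hn
        simp only [Sum.elim_inl, dif_pos h1]
      · rfl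
    by_cases hfi : f i = true
    · refine ⟨_, hP, (hval f).2 (hf.2 hfi), fun hh => ?_⟩
      have h1 := hg.1 ((hval g).1 hh)
      exact hi (hfi.trans h1.symm)
    · refine ⟨_, hP.not, fun hh => hfi (hf.1 ((hval f).1 hh)), fun hh => hh ?_⟩
      refine (hval g).2 (hg.2 ?_)
      have h1 : f i = false := by simpa using hfi
      by_contra h2
      have h3 : g i = false := by simpa using h2
      exact hi (h1.trans h3.symm)

end MP8f
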