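import Pool.Agent.Lib_MP_8da2c8_full.HuD
import Pool.Agent.Lib_MP_8da2c8_full.StC

/-! STEP HuE: a template for a stable theory which is not superstable. -/

namespace MP8f

open Cardinal Set FirstOrder FirstOrder.Language Filter
open scoped Classical

universe u v w x

variable {L : FirstOrder.Language.{0, 0}}

/-- Proof.  `¬ Superstable` for `μ0 = continuum`: there are `μ ≥ continuum`, a model `M`, `A` with `#A ≤ μ` and `n` with more than `μ` types; `n = n' + 1` by `types_zero`.  `Stb L M` by `stb_of_stable`.  `h` = a hull (`exists_hull`), `a0 : M`, `U = h.H (A ∪ {a0})`,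
`#U ≤ μ`.  `types_nat` gives the family `q` for `n'`, with sets definable over `A ⊆ U` (`DefU.mono`).  `exists_not_defOn` gives `p = q i`; `exists_sq`; `exists_tmp` with `fr = n'`.  The structure `N` is a model of `T` as an elementary extension of `M`. -/
theorem exists_template [Countable L.Symbols] (T : L.Theory) (hs : Stable.{u} T)
    (hn : ¬ Superstable.{u} T) : ∃ (N : Type u) (_ : L.Structure N) (_ : Nonempty N),
      N ⊨ T ∧ Nonempty (Tmp L N) := by
  have hn0 : ∃ μ : Cardinal.{u}, Cardinal.continuum ≤ μ ∧ ¬ StableIn T μ := by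
    by_contra hcon
    push Not at hcon
    exact hn ⟨Cardinal.continuum, hcon⟩
  obtain ⟨μ, hμ, hns⟩ := hn0
  unfold StableIn at hns
  push Not at hns
  obtain ⟨M, hM, hM', hMT, A, hA, n, hlt⟩ := hns
  have hμ0 : ℵ₀ ≤ μ := Cardinal.aleph0_le_continuum.trans hμ
  obtain ⟨μ', hμ', hs'⟩ := hs
  have hS : Stb L M := stb_of_stable hμ' hs'
  obtain ⟨h⟩ := exists_hull L M
  rcases n with _ | n'
  · exfalso
    have h1 := types_zero (L := L) A
    exact absurd (h1.trans (Cardinal.one_le_aleph0.trans hμ0)) (not_le.mpr hlt)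
  · let a0 : M := Classical.arbitrary M
    have hAU : A ⊆ h.H (A ∪ {a0}) := Set.subset_union_left.trans (h.sub _)
    have hne : (h.H (A ∪ {a0})).Nonempty := ⟨a0, h.sub _ (Or.inr rfl)⟩
    have hU : #(h.H (A ∪ {a0})) ≤ μ := by
      refine h.card _ μ hμ0 ((Cardinal.mk_union_le _ _).trans ?_)
      rw [Cardinal.mk_singleton]
      exact Cardinal.add_le_of_le hμ0 hA (Cardinal.one_le_aleph0.trans hμ0)
    obtain ⟨q, hfr, hq⟩ := types_nat (L := L) A n'
    obtain ⟨i, hi⟩ := exists_not_defOn h hne hμ hU hlt q (fun i j hij => by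
      obtain ⟨P, hP, h1, h2⟩ := hq i j hij
      exact ⟨P, hP.mono hAU, h1, h2⟩)
    obtain ⟨s⟩ := exists_sq hS h hne hi
    obtain ⟨N, hN, j, ht⟩ := exists_tmp s n' (hfr i)
    exact ⟨N, hN, ⟨j a0⟩, (j.theory_model_iff T).mp hMT, ht⟩

end MP8f
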