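import Pool.Agent.Lib_MP_8da2c8_full.World
import Pool.Agent.Lib_MP_8da2c8_full.GiA

/-! STEP IsoD: partial isomorphisms given by maps of names. -/

namespace MP8f

open Cardinal Set FirstOrder Filter
open scoped Classical

universe u v w x

/-- the valid names of rank at most `n` -/
def XJ {Y : Type u} (JN : Set (List Y)) (JB : Set (ℕ → Y)) (n : ℕ) : Set (Nm Y) :=
  {ν | Nm.Vld JN JB ν ∧ ν.rk ≤ n}

/-- `h` maps the valid names of rank at most `n` for one tree onto those for another one, and the corresponding map of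
elements is elementary -/
structure PI {L : FirstOrder.Language.{0, 0}} {M : Type u} [L.Structure M] [Nonempty M]
    {Y : Type u} (w : World L M Y) (JN JN' : Set (List Y)) (JB JB' : Set (ℕ → Y)) (n : ℕ)
    (h : Nm Y → Nm Y) : Prop where
  bij : BijOn h (XJ JN JB n) (XJ JN' JB' n)
  rk : ∀ ν ∈ XJ JN JB n, (h ν).rk = ν.rk
  root : h (.nd []) = .nd []
  el : Eqv L (fun z : XJ JN JB n × ℕ => w.σ.e z.1.1 z.2) fun z => w.σ.e (h z.1.1) z.2

variable {L : FirstOrder.Language.{0, 0}} {M : Type u} [L.Structure M] [Nonempty M]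
variable {Y : Type u} {JN JN' : Set (List Y)} {JB JB' : Set (ℕ → Y)}

/-- Proof: `ν.st < (true, n + 1)` if `ν.rk ≤ n`. -/
theorem e_mem (w : World L M Y) {ν : Nm Y} {n : ℕ} (h : ν.rk ≤ n) (i : ℕ) :
    w.σ.e ν i ∈ w.U true (n + 1) := by
  have h1 : w.σ.st ν < toLex (true, n + 1) := by
    rw [w.hst]
    refine lt_of_le_of_lt (Nm.Names_st_le ν) ?_
    rw [Prod.Lex.toLex_lt_toLex]
    exact Or.inr ⟨rfl, Nat.lt_succ_of_le h⟩
  have h2 := w.σ.mem ν _ h1 i
  rw [w.hU] at h2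
  exact h2

/-- Extension of a partial elementary map to an elementary map on `U true (n + 1)`.
Proof.  Write `U = w.U true (n + 1)`.  Apply `w.amb.sat true (n + 1)` (`SatStep.comap` for `U ↪ U ⊕ V`) to the conditions on `v : U → M`: (1) `R v`, for all `R` definable without parameters with `R (fun a => a.1)`; (2) `v ⟨w.σ.e ν i, _⟩ = w.σ.e (h ν) i` for `ν ∈ XJ JN JB n`
(the right hand side is a parameter in `U`, `e_mem` and `hh.rk`).  Finite satisfiability: for one `R` (a conjunction) and pairs `(ν j, i j)`: `∃ v, R v ∧ ∀ j, v a_j = y_j` (`a_j = ⟨w.σ.e (ν j) (i j), _⟩`) is a condition on `y` definable without parameters, true for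
`y_j = a_j`, hence for `y_j = w.σ.e (h (ν j)) (i j)` by `hh.el`.  Let `G a = v a` on `U`, `G a = a` elsewhere.  `GEl`: `R` or `¬ R` is in (1). -/
theorem exists_G (w : World L M Y) {n : ℕ} {h : Nm Y → Nm Y} (hh : PI w JN JN' JB JB' n h) :
    ∃ G : M → M, GEl L (w.U true (n + 1)) G ∧
      ∀ ν ∈ XJ JN JB n, ∀ i, G (w.σ.e ν i) = w.σ.e (h ν) i := by
  have hmem : ∀ ν ∈ XJ JN JB n, ∀ i, w.σ.e ν i ∈ w.U true (n + 1) :=
    fun ν hν i => e_mem w hν.2 i
  have hmem' : ∀ ν ∈ XJ JN JB n, ∀ i, w.σ.e (h ν) i ∈ w.U true (n + 1) :=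
    fun ν hν i => e_mem w ((hh.rk ν hν).le.trans hν.2) i
  have hR : ∀ R : (XJ JN JB n × ℕ → M) → Prop, Dfn L R →
      R (fun z => w.σ.e z.1.1 z.2) → R fun z => w.σ.e (h z.1.1) z.2 := by
    rintro R ⟨φ, hφ⟩ h1
    exact (hφ _).2 ((hh.el φ).1 ((hφ _).1 h1))
  let C1 : Set ((w.U true (n + 1) → M) → Prop) := {P | Dfn L P ∧ P fun a => a.1}
  let C2 : Set ((w.U true (n + 1) → M) → Prop) :=
    {P | ∃ (z : XJ JN JB n × ℕ), P = fun v => v ⟨w.σ.e z.1.1 z.2, hmem z.1.1 z.1.2 z.2⟩ =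
      w.σ.e (h z.1.1) z.2}
  have hfin : ∀ F : Finset ((w.U true (n + 1) → M) → Prop), ↑F ⊆ C1 ∪ C2 →
      ∃ R : (XJ JN JB n × ℕ → M) → (w.U true (n + 1) → M) → Prop, Dfn2 L R ∧
        R (fun z => w.σ.e z.1.1 z.2) (fun a => a.1) ∧
        ∀ v, R (fun z => w.σ.e (h z.1.1) z.2) v → ∀ P ∈ F, P v := by
    intro F
    induction F using Finset.induction_on with
    | empty =>
      intro _
      exact ⟨fun _ _ => True, Dfn.const True, trivial, fun v _ P hP =>
        absurd hP (Finset.notMem_empty P)⟩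
    | insert P F hP ih =>
      intro hF
      obtain ⟨R, hR1, hR2, hR3⟩ := ih fun Q hQ => hF (by
        rw [Finset.coe_insert]
        exact Or.inr hQ)
      have hP1 : P ∈ C1 ∪ C2 := hF (by
        rw [Finset.coe_insert]
        exact Or.inl rfl)
      rcases hP1 with ⟨h1, h2⟩ | ⟨z, rfl⟩
      · refine ⟨fun y v => R y v ∧ P v, Dfn.and hR1 (h1.at Sum.inr), ⟨hR2, h2⟩,
          fun v hv Q hQ => ?_⟩
        rcases Finset.mem_insert.1 hQ with rfl | hQ
        · exact hv.2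
        · exact hR3 v hv.1 Q hQ
      · refine ⟨fun y v => R y v ∧ v ⟨w.σ.e z.1.1 z.2, hmem z.1.1 z.1.2 z.2⟩ = y z,
          Dfn.and hR1 (Dfn.eq (α := (XJ JN JB n × ℕ) ⊕ w.U true (n + 1))
            (Sum.inr ⟨w.σ.e z.1.1 z.2, hmem z.1.1 z.1.2 z.2⟩) (Sum.inl z)),
          ⟨hR2, rfl⟩, fun v hv Q hQ => ?_⟩
        rcases Finset.mem_insert.1 hQ with rfl | hQ
        · exact hv.2
        · exact hR3 v hv.1 Q hQ
  obtain ⟨v, -, hv⟩ := SatStep.comap ⟨Sum.inl, Sum.inl_injective⟩ (w.amb.sat true (n + 1))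
    (C1 ∪ C2)
    (by
      rintro P (⟨h1, -⟩ | ⟨z, rfl⟩)
      · exact DefU.of_dfn h1
      · have h2 : Dfn L fun x : Bool → M => x false = x true := Dfn.eq false true
        let f : Bool → w.U true (n + 1) ⊕ w.U true (n + 1) := fun b => cond b
          (Sum.inr ⟨w.σ.e (h z.1.1) z.2, hmem' z.1.1 z.1.2 z.2⟩)
          (Sum.inl ⟨w.σ.e z.1.1 z.2, hmem z.1.1 z.1.2 z.2⟩)
        exact DefU.mk h2 f)
    (by
      intro F hF
      obtain ⟨R, hR1, hR2, hR3⟩ := hfin F hF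
      obtain ⟨v, hv⟩ := hR _ (Dfn.exB hR1) ⟨_, hR2⟩
      exact ⟨v, hR3 v hv⟩)
  refine ⟨fun a => if ha : a ∈ w.U true (n + 1) then v ⟨a, ha⟩ else a, ?_, fun ν hν i => ?_⟩
  · intro R hRd
    have h1 : (fun a : w.U true (n + 1) =>
        if ha : a.1 ∈ w.U true (n + 1) then v ⟨a.1, ha⟩ else a.1) = v := by
      funext a
      rw [dif_pos a.2]
    rw [h1]
    constructor
    · intro h2
      exact hv R (Or.inl ⟨hRd, h2⟩)
    · intro h2
      by_contra h3
      exact hv _ (Or.inl ⟨hRd.not, h3⟩) h2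
  · beta_reduce
    rw [dif_pos (hmem ν hν i)]
    exact hv _ (Or.inr ⟨(⟨ν, hν⟩, i), rfl⟩)

end MP8f
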