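import Pool.Agent.Lib_MP_8da2c8_full.ItB
import Pool.Agent.Lib_MP_8da2c8_full.GiA

/-! STEP ItC: iterated quantifiers, realizations and images. -/

namespace MP8f

open Cardinal Set FirstOrder Filter
open scoped Classical

universe u v w x

variable {L : FirstOrder.Language.{0, 0}} {M : Type u} [L.Structure M] [Nonempty M]
variable {N : Type v} {U : Set M} {G : M → M}

omit [Nonempty M] in
private theorem gi_congr {α : Type w} {P P' P1 P1' : (α → M) → Prop} (h : GI L U G P P')
    (e : ∀ x, P1 x ↔ P x) (e' : ∀ x, P1' x ↔ P' x) : GI L U G P1 P1' := by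
  obtain ⟨Q, hQ, h1, h2⟩ := h
  exact ⟨Q, hQ, fun x => (e x).trans (h1 x), fun x => (e' x).trans (h2 x)⟩

/-- Proof.  Induction on `l`, for all `W` and `a`.  `l = []`: `hdep`.  `l = ν :: l'`: let `W1 b = Ev (p ν) (fun x => W (update b ν x))`; it is `DefN` over `U` (`defN_ev` with `A = U`) and depends only on `l'`.  `W e ↔ W1 e` by `hprod ν` for the
condition `fun x => W (update e' ν x)`, where `e'` agrees with `e` on `l'` and is constant (in `U`) elsewhere (`W` depends only on `ν :: l'`), definable over `U ∪ {a | ∃ μ ∈ l, μ ≠ ν ∧ ∃ i, e μ i = a}`.  By induction (the hypothesis `hprod` for `l'` follows from that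
for `l`) `W1 e ↔ It p l' W1 a ↔ It p (l' ++ [ν]) W a` (`it_append`) `↔ It p (ν :: l') W a` (`it_perm`). -/
theorem it_of_prod (hS : Stb L M) (hU : Elt L U) (p : N → Ultrafilter (ℕ → M))
    (e : N → ℕ → M) (l : List N) (hl : l.Nodup) (hp : ∀ ν ∈ l, AlmT L U (p ν))
    (hprod : ∀ ν ∈ l, ∀ P : (ℕ → M) → Prop,
      DefU L (U ∪ {a | ∃ μ ∈ l, μ ≠ ν ∧ ∃ i, e μ i = a}) P → (P (e ν) ↔ Ev (p ν) P))
    {W : (N → ℕ → M) → Prop} (hW : DefN L U W) (hdep : Dep l W) (a : N → ℕ → M) :
    W e ↔ It p l W a := by
  induction l generalizing W a with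
  | nil => exact hdep e a fun ν hν => absurd hν List.not_mem_nil
  | cons ν l ih =>
    have hνl : ν ∉ l := (List.nodup_cons.1 hl).1
    have hW1 : DefN L U fun b => Ev (p ν) fun x => W (Function.update b ν x) :=
      defN_ev (hp ν List.mem_cons_self) (subset_refl U) hU (subset_refl U) hW
    have hagr : ∀ b b' : N → ℕ → M, (∀ κ ∈ l, b κ = b' κ) → ∀ x,
        (W (Function.update b ν x) ↔ W (Function.update b' ν x)) := by
      intro b b' hb x
      refine hdep _ _ fun κ hκ => ?_
      by_cases hk : κ = ν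
      · subst hk
        rw [Function.update_self, Function.update_self]
      · rw [Function.update_of_ne hk, Function.update_of_ne hk]
        exact hb κ ((List.mem_cons.1 hκ).resolve_left hk)
    have hdep1 : Dep l fun b => Ev (p ν) fun x => W (Function.update b ν x) :=
      fun b b' hb => ev_congr fun x => hagr b b' hb x
    obtain ⟨u0, hu0⟩ := hU.1
    let e' : N → ℕ → M := fun κ => if κ ∈ l then e κ else fun _ => u0
    have he' : ∀ κ ∈ l, e' κ = e κ := fun κ hκ => if_pos hκ
    have h1 : W e ↔ W (Function.update e' ν (e ν)) := by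
      refine hdep _ _ fun κ hκ => ?_
      by_cases hk : κ = ν
      · subst hk
        rw [Function.update_self]
      · rw [Function.update_of_ne hk, he' κ ((List.mem_cons.1 hκ).resolve_left hk)]
    have h2 : DefU L (U ∪ {a | ∃ μ ∈ ν :: l, μ ≠ ν ∧ ∃ i, e μ i = a}) fun x =>
        W (Function.update e' ν x) := by
      have h3 : DefU2 L (U ∪ {a | ∃ μ ∈ ν :: l, μ ≠ ν ∧ ∃ i, e μ i = a})
          fun (x : ℕ → M) (z : N × ℕ → M) => W (Function.update (fun μ i => z (μ, i)) ν x) :=
        DefU.mono subset_union_left (defN_update hW ν)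
      refine h3.subst (fun q => e' q.1 q.2) fun q => ?_
      by_cases hq : q.1 ∈ l
      · refine Or.inr ⟨q.1, List.mem_cons_of_mem ν hq, fun hh => hνl (hh ▸ hq), q.2, ?_⟩
        rw [he' q.1 hq]
      · left
        have h4 : e' q.1 = fun _ => u0 := if_neg hq
        show e' q.1 q.2 ∈ U
        rw [h4]
        exact hu0
    have h3 := hprod ν List.mem_cons_self _ h2
    have h4 : (Ev (p ν) fun x => W (Function.update e' ν x)) ↔
        Ev (p ν) fun x => W (Function.update e ν x) := ev_congr fun x => hagr e' e he' x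
    have h5 := ih (List.nodup_cons.1 hl).2 (fun κ hκ => hp κ (List.mem_cons_of_mem ν hκ))
      (fun κ hκ P hP => hprod κ (List.mem_cons_of_mem ν hκ) P (hP.mono (by
        rintro b (hb | ⟨μ, hμ, hne, i, hi⟩)
        · exact Or.inl hb
        · exact Or.inr ⟨μ, List.mem_cons_of_mem ν hμ, hne, i, hi⟩))) hW1 hdep1 a
    have h6 : It p (l ++ [ν]) W a ↔
        It p l (fun b => Ev (p ν) fun x => W (Function.update b ν x)) a := it_append a
    have h7 : It p (ν :: l) W a ↔ It p (l ++ [ν]) W a :=
      it_perm hS (List.perm_append_singleton ν l).symm hl (DefU.mono (subset_univ U) hW) a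
    exact h1.trans (h3.trans (h4.trans (h5.trans (h6.symm.trans h7.symm))))

/-- Proof.  Induction on `l`: `It p (ν :: l) W a = Ev (p ν) (fun x => It p l W (update a ν x))`; show `GI L U G (It p l W) (It q l W')` (as conditions on blocks with index `N × ℕ`) by `GRel.ev` and `GI.at`. -/
theorem gi_it (p q : N → Ultrafilter (ℕ → M)) (l : List N) (h : ∀ ν ∈ l, GRel L U G (p ν) (q ν))
    {W W' : (N → ℕ → M) → Prop}
    (hW : GI L U G (fun z : N × ℕ → M => W fun ν i => z (ν, i)) fun z => W' fun ν i => z (ν, i)) :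
    GI L U G (fun z : N × ℕ → M => It p l W fun ν i => z (ν, i))
      fun z => It q l W' fun ν i => z (ν, i) := by
  induction l with
  | nil => exact hW
  | cons ν l ih =>
    have ih' := ih fun κ hκ => h κ (List.mem_cons_of_mem ν hκ)
    have hne : Nonempty (N × ℕ) := ⟨(ν, 0)⟩
    refine (h ν List.mem_cons_self).ev
      (P := fun (x : ℕ → M) (z : N × ℕ → M) => It p l W
        (Function.update (fun μ i => z (μ, i)) ν x))
      (P' := fun (x : ℕ → M) (z : N × ℕ → M) => It q l W'
        (Function.update (fun μ i => z (μ, i)) ν x)) ?_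
    have hf : ∀ z : ℕ ⊕ (N × ℕ) → M,
        Function.update (fun μ i => z (.inr (μ, i))) ν (fun i => z (.inl i)) =
          fun μ i => z (if μ = ν then (Sum.inl i : ℕ ⊕ (N × ℕ)) else Sum.inr (μ, i)) := by
      intro z
      funext μ i
      by_cases hμ : μ = ν
      · subst hμ
        rw [Function.update_self, if_pos rfl]
      · rw [Function.update_of_ne hμ, if_neg hμ]
    refine gi_congr (GI.at ih' fun r : N × ℕ =>
      if r.1 = ν then (Sum.inl r.2 : ℕ ⊕ (N × ℕ)) else Sum.inr r) (fun z => ?_) fun z => ?_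
    · rw [hf z]
    · rw [hf z]

/-- Proof.  `gi_it`, `GI.closed`, `it_dep`. -/
theorem it_trn (hG : GEl L U G) (p q : N → Ultrafilter (ℕ → M)) (l : List N)
    (h : ∀ ν ∈ l, GRel L U G (p ν) (q ν)) {W W' : (N → ℕ → M) → Prop}
    (hW : GI L U G (fun z : N × ℕ → M => W fun ν i => z (ν, i)) fun z => W' fun ν i => z (ν, i))
    (hdep : Dep l W) (a a' : N → ℕ → M) : It p l W a ↔ It q l W' a' := by
  exact GI.closed hG (gi_it p q l h hW) (fun x x' => it_dep hdep _ _)
    (fun r => a r.1 r.2) fun r => a' r.1 r.2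

end MP8f
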