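import Pool.Agent.Lib_MP_8da2c8_full.IsoD
import Pool.Agent.Lib_MP_8da2c8_full.ItC

/-! STEP IsoE2: extending a partial isomorphism by one rank, elementarity. -/

namespace MP8f

open Cardinal Set FirstOrder Filter
open scoped Classical

universe u v w x

variable {L : FirstOrder.Language.{0, 0}} {M : Type u} [L.Structure M] [Nonempty M]
variable {Y : Type u} {JN JN' : Set (List Y)} {JB JB' : Set (ℕ → Y)}

/-- Elementarity.
Proof.  Let `R` be a relation on blocks with index `XJ JN JB (n + 1) × ℕ`, given by a formula; it depends on finitely many names; let `l` be a list without repetition of those of rank `n + 1` among them.  `U = w.U true (n + 1)`, `u0 ∈ U`.  For an assignment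
`a : Nm Y → ℕ → M` let `W a = R (fun z => if z.1 ∈ l then a z.1 z.2 else if z.1.rk ≤ n then w.σ.e z.1 z.2 else u0)` and
`W' a = R (fun z => if z.1 ∈ l then a z.1 z.2 else if z.1.rk ≤ n then w.σ.e (h' z.1) z.2 else G u0)`.  `DefN L U W`, `DefN L U W'` for `G u0` replaced by `u0` (`R` does not depend on these coordinates; `e_mem` and `rk`), `Dep l W`, and `W'` is the image of `W` (`GI`, by `hG2` with `h' = h` on rank `≤ n`).
`R (e) ↔ W w.σ.e ↔ It w.σ.p l W a` by `it_of_prod` (the names in `l` have stage `(true, n + 1)`, `w.σ.prod`, `w.hU`; `w.σ.alm` and `AlmT.mono` for `AlmT L U`); the same for `e' ν = w.σ.e (h' ν)`, `q ν = w.σ.p (h' ν)`, `W'` (`h'` is injective on `l`);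
and `It w.σ.p l W a ↔ It q l W' a` by `it_trn`. -/
theorem el_step (w : World L M Y) {n : ℕ} {h : Nm Y → Nm Y}
    (hh : PI w JN JN' JB JB' n h) {G : M → M} (hG : GEl L (w.U true (n + 1)) G)
    (hG2 : ∀ ν ∈ XJ JN JB n, ∀ i, G (w.σ.e ν i) = w.σ.e (h ν) i)
    {h' : Nm Y → Nm Y} (h1 : ∀ ν ∈ XJ JN JB n, h' ν = h ν)
    (h2 : BijOn h' (XJ JN JB (n + 1)) (XJ JN' JB' (n + 1)))
    (h3 : ∀ ν ∈ XJ JN JB (n + 1), (h' ν).rk = ν.rk)
    (h4 : ∀ ν ∈ XJ JN JB (n + 1), ν.rk = n + 1 →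
      GRel L (w.U true (n + 1)) G (w.σ.p ν) (w.σ.p (h' ν))) :
    Eqv L (fun z : XJ JN JB (n + 1) × ℕ => w.σ.e z.1.1 z.2) fun z => w.σ.e (h' z.1.1) z.2 := by
  intro φ
  -- the relation, its support, and the names of rank `n + 1`
  obtain ⟨R, hRdef⟩ : ∃ R : (XJ JN JB (n + 1) × ℕ → M) → Prop, ∀ z, R z ↔ φ.Realize z :=
    ⟨fun z => φ.Realize z, fun z => Iff.rfl⟩
  rw [← hRdef, ← hRdef]
  have hR : Dfn L R := ⟨φ, hRdef⟩
  obtain ⟨F, hF⟩ := hR.supp
  let l : List (Nm Y) := ((F.image fun z => z.1.1).filter fun ν => ν.rk = n + 1).toList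
  have hl : l.Nodup := Finset.nodup_toList _
  have hmem : ∀ ν, ν ∈ l ↔ (∃ z ∈ F, z.1.1 = ν) ∧ ν.rk = n + 1 := by
    intro ν
    simp only [l, Finset.mem_toList, Finset.mem_filter, Finset.mem_image]
  have hlX : ∀ ν ∈ l, ν ∈ XJ JN JB (n + 1) := by
    intro ν hν
    obtain ⟨⟨z, -, rfl⟩, -⟩ := (hmem ν).1 hν
    exact z.1.2
  have hlrk : ∀ ν ∈ l, ν.rk = n + 1 := fun ν hν => ((hmem ν).1 hν).2
  -- the names of the support which are not in `l` have rank `≤ n`
  have hFl : ∀ z ∈ F, z.1.1 ∉ l → z.1.1.rk ≤ n := by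
    intro z hz hzl
    have h5 : z.1.1.rk ≤ n + 1 := z.1.2.2
    rcases Nat.lt_or_ge z.1.1.rk (n + 1) with h6 | h6
    · exact Nat.lt_succ_iff.1 h6
    · exact absurd ((hmem _).2 ⟨⟨z, hz, rfl⟩, le_antisymm h5 h6⟩) hzl
  have hlow : ∀ z : XJ JN JB (n + 1) × ℕ, z.1.1.rk ≤ n → z.1.1 ∈ XJ JN JB n :=
    fun z hz => ⟨z.1.2.1, hz⟩
  -- the elementary set
  have hUe : Elt L (w.U true (n + 1)) := w.hU true (n + 1) ▸ w.σ.elt (toLex (true, n + 1))
  obtain ⟨u0, hu0⟩ := hUe.1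
  -- the assignments
  let b : XJ JN JB (n + 1) × ℕ → M := fun z => if z.1.1.rk ≤ n then w.σ.e z.1.1 z.2 else u0
  have hb : ∀ z, b z ∈ w.U true (n + 1) := by
    intro z
    by_cases hz : z.1.1.rk ≤ n
    · simp only [b, if_pos hz]
      exact e_mem w hz _
    · simp only [b, if_neg hz]
      exact hu0
  let b' : XJ JN JB (n + 1) × ℕ → M := fun z => if z.1.1.rk ≤ n then w.σ.e (h z.1.1) z.2 else u0
  have hb' : ∀ z, b' z ∈ w.U true (n + 1) := by
    intro z
    by_cases hz : z.1.1.rk ≤ n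
    · simp only [b', if_pos hz]
      exact e_mem w ((hh.rk _ (hlow z hz)).trans_le hz) _
    · simp only [b', if_neg hz]
      exact hu0
  have hGb : ∀ z, z.1.1.rk ≤ n → G (b z) = b' z := by
    intro z hz
    simp only [b, b', if_pos hz]
    exact hG2 _ (hlow z hz) _
  let W : (Nm Y → ℕ → M) → Prop := fun a => R fun z => if z.1.1 ∈ l then a z.1.1 z.2 else b z
  let W' : (Nm Y → ℕ → M) → Prop := fun a => R fun z => if z.1.1 ∈ l then a z.1.1 z.2 else b' z
  have hWd : Dep l W := by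
    intro a a' haa
    refine iff_of_eq (congrArg R ?_)
    funext z
    by_cases hz : z.1.1 ∈ l
    · rw [if_pos hz, if_pos hz, haa _ hz]
    · rw [if_neg hz, if_neg hz]
  have hWd' : Dep l W' := by
    intro a a' haa
    refine iff_of_eq (congrArg R ?_)
    funext z
    by_cases hz : z.1.1 ∈ l
    · rw [if_pos hz, if_pos hz, haa _ hz]
    · rw [if_neg hz, if_neg hz]
  -- definability
  let f : XJ JN JB (n + 1) × ℕ → (Nm Y × ℕ) ⊕ (w.U true (n + 1)) := fun z =>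
    if z.1.1 ∈ l then Sum.inl (z.1.1, z.2) else Sum.inr ⟨b z, hb z⟩
  let f' : XJ JN JB (n + 1) × ℕ → (Nm Y × ℕ) ⊕ (w.U true (n + 1)) := fun z =>
    if z.1.1 ∈ l then Sum.inl (z.1.1, z.2) else Sum.inr ⟨b' z, hb' z⟩
  have hWdef : DefN L (w.U true (n + 1)) W := by
    refine ⟨fun s => R fun z => s (f z), hR.at f, fun x => ?_⟩
    refine iff_of_eq (congrArg R ?_)
    funext z
    by_cases hz : z.1.1 ∈ l
    · simp only [f, if_pos hz, Sum.elim_inl]
    · simp only [f, if_neg hz, Sum.elim_inr]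
  have hWdef' : DefN L (w.U true (n + 1)) W' := by
    refine ⟨fun s => R fun z => s (f' z), hR.at f', fun x => ?_⟩
    refine iff_of_eq (congrArg R ?_)
    funext z
    by_cases hz : z.1.1 ∈ l
    · simp only [f', if_pos hz, Sum.elim_inl]
    · simp only [f', if_neg hz, Sum.elim_inr]
  have hGI : GI L (w.U true (n + 1)) G (fun z : Nm Y × ℕ → M => W fun ν i => z (ν, i))
      fun z => W' fun ν i => z (ν, i) := by
    refine ⟨fun s => R fun z => s (f z), hR.at f, fun x => ?_, fun x => ?_⟩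
    · refine iff_of_eq (congrArg R ?_)
      funext z
      by_cases hz : z.1.1 ∈ l
      · simp only [f, if_pos hz, Sum.elim_inl]
      · simp only [f, if_neg hz, Sum.elim_inr]
    · refine hF _ _ fun z hzF => ?_
      by_cases hz : z.1.1 ∈ l
      · simp only [f, if_pos hz, Sum.elim_inl]
      · simp only [f, if_neg hz, Sum.elim_inr]
        exact (hGb z (hFl z hzF hz)).symm
  -- stages
  have hst : ∀ ν : Nm Y, ν.rk = n + 1 → w.σ.st ν = toLex (true, n + 1) := by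
    intro ν hν
    rw [w.hst]
    cases ν with
    | nd s => exact absurd hν (by simp [Nm.rk])
    | br c => exact absurd hν (by simp [Nm.rk])
    | E k c i r =>
      show toLex (true, Nm.rk (Nm.E k c i r)) = _
      rw [hν]
  have halm : ∀ ν : Nm Y, ν.rk = n + 1 → AlmT L (w.U true (n + 1)) (w.σ.p ν) := by
    intro ν hν
    refine AlmT.mono ?_ (w.σ.alm ν)
    rw [← w.hU true (n + 1)]
    rintro a (ha | ⟨μ, hμ, i, rfl⟩)
    · exact w.σ.base _ ha
    · refine w.σ.mem μ _ ?_ i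
      rw [← hst ν hν]
      exact w.σ.low ν μ hμ
  -- the value at the blocks is given by the iterated quantifier
  have hgen : ∀ g : Nm Y → Nm Y, (∀ ν ∈ l, (g ν).rk = n + 1) →
      (∀ ν ∈ l, ∀ μ ∈ l, g ν = g μ → ν = μ) → ∀ V : (Nm Y → ℕ → M) → Prop,
      DefN L (w.U true (n + 1)) V → Dep l V →
      (V (fun ν => w.σ.e (g ν)) ↔ It (fun ν => w.σ.p (g ν)) l V w.σ.e) := by
    intro g hg1 hg2 V hV hVd
    refine it_of_prod w.hS hUe (fun ν => w.σ.p (g ν)) (fun ν => w.σ.e (g ν)) l hl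
      (fun ν hν => halm _ (hg1 ν hν)) ?_ hV hVd w.σ.e
    intro ν hν P hP
    refine w.σ.prod (g ν) P (DefU.mono ?_ hP)
    rintro a (ha | ⟨μ, hμ, hne, i, rfl⟩)
    · left
      rw [hst _ (hg1 ν hν), w.hU]
      exact ha
    · right
      refine ⟨g μ, ?_, fun hh' => hne (hg2 μ hμ ν hν hh'), i, rfl⟩
      rw [hst _ (hg1 ν hν), hst _ (hg1 μ hμ)]
  have e1 : R (fun z => w.σ.e z.1.1 z.2) ↔ W w.σ.e := by
    refine hF _ _ fun z hzF => ?_
    by_cases hz : z.1.1 ∈ l
    · rw [if_pos hz]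
    · rw [if_neg hz]
      simp only [b, if_pos (hFl z hzF hz)]
  have e2 : R (fun z => w.σ.e (h' z.1.1) z.2) ↔ W' fun ν => w.σ.e (h' ν) := by
    refine hF _ _ fun z hzF => ?_
    by_cases hz : z.1.1 ∈ l
    · rw [if_pos hz]
    · rw [if_neg hz]
      simp only [b', if_pos (hFl z hzF hz)]
      rw [h1 _ (hlow z (hFl z hzF hz))]
  have e3 : W w.σ.e ↔ It w.σ.p l W w.σ.e :=
    hgen id (fun ν hν => hlrk ν hν) (fun ν _ μ _ hh' => hh') W hWdef hWd
  have e4 : W' (fun ν => w.σ.e (h' ν)) ↔ It (fun ν => w.σ.p (h' ν)) l W' w.σ.e :=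
    hgen h' (fun ν hν => (h3 ν (hlX ν hν)).trans (hlrk ν hν))
      (fun ν hν μ hμ hh' => h2.injOn (hlX ν hν) (hlX μ hμ) hh') W' hWdef' hWd'
  have e5 : It w.σ.p l W w.σ.e ↔ It (fun ν => w.σ.p (h' ν)) l W' w.σ.e :=
    it_trn hG w.σ.p (fun ν => w.σ.p (h' ν)) l (fun ν hν => h4 ν (hlX ν hν) (hlrk ν hν)) hGI hWd
      w.σ.e w.σ.e
  exact e1.trans (e3.trans (e5.trans (e4.symm.trans e2.symm)))

end MP8f
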