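import Pool.Agent.Lib_MP_8da2c8_full.IsoE1
import Pool.Agent.Lib_MP_8da2c8_full.IsoE2

/-! STEP IsoE: extending a partial isomorphism by one rank. -/

namespace MP8f

open Cardinal Set FirstOrder Filter
open scoped Classical

universe u v w x

variable {L : FirstOrder.Language.{0, 0}} {M : Type u} [L.Structure M] [Nonempty M]
variable {Y : Type u} {JN JN' : Set (List Y)} {JB JB' : Set (ℕ → Y)}

theorem pi_step [Countable L.Symbols] (w : World L M Y) (h0 : [] ∈ JN)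
    {n : ℕ} {h : Nm Y → Nm Y} (hh : PI w JN JN' JB JB' n h) :
    ∃ h' : Nm Y → Nm Y, PI w JN JN' JB JB' (n + 1) h' ∧ ∀ ν ∈ XJ JN JB n, h' ν = h ν := by
  obtain ⟨G, hG, hG2⟩ := exists_G w hh
  obtain ⟨h', h1, h2, h3, h4, h5⟩ := exists_names_step w h0 hh hG hG2
  exact ⟨h', ⟨h3, h4, h2, el_step w hh hG hG2 h1 h3 h4 h5⟩, h1⟩

end MP8f
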