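import Pool.Agent.Lib_MP_8da2c8_full.Sys
import Pool.Agent.Lib_MP_8da2c8_full.RankA

/-! STEP TransN: transport along names. -/

namespace MP8f

open Cardinal Set FirstOrder Filter
open scoped Classical

universe u v w x

variable {L : FirstOrder.Language.{0, 0}} {M : Type u} [L.Structure M] [Nonempty M]

/-- Two assignments `e, e'` of blocks to the names in `X` which satisfy the same definition schemes give blocks of the same type over `B`.
Proof.  `stage_induction` on finite sets `F` of names with the statement: if `↑F ⊆ X`, then for every `R : (N × ℕ → M) → Prop` which is definable over `B` and depends only on the coordinates `z` with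
`z.1 ∈ F`, `R` holds at `fun z => e z.1 z.2` iff it holds at `fun z => e' z.1 z.2`.  `F = ∅`: `R` is constant.  Step: `μ ∈ F` of maximal stage.  First case of `h`: replace `R` by
`fun z => R (fun q => if q.1 = μ then e μ q.2 else z q)`, definable over `B`, with `F.erase μ`.  Second case: let `b ∈ B`, and for `x : ℕ → M`, `y : N × ℕ → M` consider
`R (fun q => if q.1 = μ then x q.2 else if q.1 ∈ F then y q else b)`, a relation between `x` and `y` definable over `B`; write it as `Q x (y, b')` with the block `b'` of all elements of `B` and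
reduce it (`Dfn2.reduce`) to `φ.Realize (Sum.elim x (fun i => w (f i)))`, `f : ℕ → (N × ℕ) ⊕ B`, `w = Sum.elim y b'`; make sure that the entries used are in `B` or named by elements of `F.erase μ` (replace the coordinates of names outside `F.erase μ` by
`b`).  Let `θ, ν` be given by `h` for `μ` and `φ`.  The condition becomes `θ.Realize (Sum.elim (the same block) (e ν))`, which as a condition on `e` is definable over `B` and depends only on
the names in `insert ν (F.erase μ)`; the same for `e'`.  Use the induction hypothesis.  Finally a relation on the index `X × ℕ` has finite support. -/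
theorem transport_names {N : Type u} {Λ : Type} [LinearOrder Λ] [WellFoundedLT Λ] (st : N → Λ)
    (X : Set N) (e e' : N → ℕ → M) (B : Set M) (hB : B.Nonempty)
    (h : ∀ μ ∈ X, (∀ i, e μ i = e' μ i ∧ e μ i ∈ B) ∨
      ∀ φ : L.Formula (ℕ ⊕ ℕ), ∃ θ : L.Formula (ℕ ⊕ ℕ), ∃ ν ∈ X, st ν < st μ ∧
        (∀ y : ℕ → M, (∀ i, y i ∈ B ∨ ∃ μ' ∈ X, μ' ≠ μ ∧ st μ' ≤ st μ ∧ ∃ j, e μ' j = y i) →
          (φ.Realize (Sum.elim (e μ) y) ↔ θ.Realize (Sum.elim y (e ν)))) ∧
        (∀ y : ℕ → M, (∀ i, y i ∈ B ∨ ∃ μ' ∈ X, μ' ≠ μ ∧ st μ' ≤ st μ ∧ ∃ j, e' μ' j = y i) →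
          (φ.Realize (Sum.elim (e' μ) y) ↔ θ.Realize (Sum.elim y (e' ν))))) :
    EqvA L B (fun z : X × ℕ => e z.1.1 z.2) fun z => e' z.1.1 z.2 := by
  have key : ∀ F : Finset N, (↑F : Set N) ⊆ X → ∀ R : (N × ℕ → M) → Prop, DefU L B R →
      (∀ z z' : N × ℕ → M, (∀ q : N × ℕ, q.1 ∈ F → z q = z' q) → (R z ↔ R z')) →
      (R (fun q => e q.1 q.2) ↔ R fun q => e' q.1 q.2) := by
    refine stage_induction st (fun F : Finset N => (↑F : Set N) ⊆ X →
      ∀ R : (N × ℕ → M) → Prop, DefU L B R →
      (∀ z z' : N × ℕ → M, (∀ q : N × ℕ, q.1 ∈ F → z q = z' q) → (R z ↔ R z')) →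
      (R (fun q => e q.1 q.2) ↔ R fun q => e' q.1 q.2)) ?_ ?_
    · intro _ R _ hdep
      exact hdep _ _ fun q hq => absurd hq (Finset.notMem_empty _)
    · intro F μ hμF hmax ih hFX R hR hdep
      have hμX : μ ∈ X := hFX (Finset.mem_coe.2 hμF)
      rcases h μ hμX with h1 | h2
      · have hP2 : DefU2 L B fun (z : N × ℕ → M) (x : ℕ → M) =>
            R fun q => if q.1 = μ then x q.2 else z q := by
          refine (DefU.at hR fun q : N × ℕ => if q.1 = μ then
            (Sum.inr q.2 : (N × ℕ) ⊕ ℕ) else Sum.inl q).congr fun z => ?_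
          refine iff_of_eq (congrArg R ?_)
          funext q
          by_cases hq : q.1 = μ
          · simp only [hq, if_true]
          · simp only [hq, if_false]
        have hR' := hP2.subst (e μ) fun i => (h1 i).2
        have h3 := ih (F.erase μ) (fun ν hν => Or.inl ⟨Finset.mem_of_mem_erase hν,
          Finset.ne_of_mem_erase hν⟩) (fun ν hν => hFX (Finset.mem_coe.2
            (Finset.mem_of_mem_erase (Finset.mem_coe.1 hν)))) _ hR' (by
              intro z z' hz
              refine hdep _ _ fun q hq => ?_
              by_cases hqμ : q.1 = μ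
              · simp only [hqμ, if_true]
              · simp only [hqμ, if_false]
                exact hz q (Finset.mem_erase.2 ⟨hqμ, hq⟩))
        have h4 : (fun q : N × ℕ => if q.1 = μ then e μ q.2 else e q.1 q.2) =
            fun q => e q.1 q.2 := by
          funext q
          by_cases hq : q.1 = μ
          · simp only [hq, if_true]
          · simp only [hq, if_false]
        have h5 : (fun q : N × ℕ => if q.1 = μ then e μ q.2 else e' q.1 q.2) =
            fun q => e' q.1 q.2 := by
          funext q
          by_cases hq : q.1 = μ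
          · simp only [hq, if_true]
            exact (h1 q.2).1
          · simp only [hq, if_false]
        simp only at h3
        rw [h4, h5] at h3
        exact h3
      · obtain ⟨b, hb⟩ := hB
        have hP2 : DefU2 L B fun (x : ℕ → M) (y : N × ℕ → M) =>
            R fun q => if q.1 = μ then x q.2 else if q.1 ∈ F then y q else b := by
          obtain ⟨Q, hQ, hRQ⟩ := hR
          refine ⟨_, hQ.at (Sum.elim (fun q : N × ℕ => if q.1 = μ then
            (Sum.inl (Sum.inl q.2) : (ℕ ⊕ (N × ℕ)) ⊕ B) else if q.1 ∈ F then
              Sum.inl (Sum.inr q) else Sum.inr ⟨b, hb⟩) Sum.inr), fun z => ?_⟩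
          refine (hRQ _).trans (iff_of_eq (congrArg Q ?_))
          funext i
          rcases i with q | a
          · show (if q.1 = μ then z (Sum.inl q.2) else if q.1 ∈ F then z (Sum.inr q) else b) =
              Sum.elim z (fun a : B => a.1) (if q.1 = μ then
                (Sum.inl (Sum.inl q.2) : (ℕ ⊕ (N × ℕ)) ⊕ B) else
                if q.1 ∈ F then Sum.inl (Sum.inr q) else Sum.inr ⟨b, hb⟩)
            by_cases hq : q.1 = μ
            · simp only [hq, if_true, Sum.elim_inl]
            · by_cases hqF : q.1 ∈ F
              · simp only [hq, hqF, if_true, if_false, Sum.elim_inl]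
              · simp only [hq, hqF, if_false, Sum.elim_inr]
          · rfl
        obtain ⟨Q, hQ, hPQ⟩ := hP2
        have hQ2 : Dfn2 L fun (x : ℕ → M) (w : (N × ℕ) ⊕ B → M) =>
            Q (Sum.elim (Sum.elim x fun q => w (Sum.inl q)) fun a => w (Sum.inr a)) := by
          refine (hQ.at (Sum.elim (Sum.elim Sum.inl fun q => Sum.inr (Sum.inl q))
            fun a => Sum.inr (Sum.inr a))).congr fun z => iff_of_eq (congrArg Q ?_)
          funext i
          rcases i with (i | i) | i <;> rfl
        have hne : Nonempty ((N × ℕ) ⊕ B) := ⟨Sum.inr ⟨b, hb⟩⟩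
        obtain ⟨R', ⟨φ, hφ⟩, f, hf⟩ := hQ2.reduce
        obtain ⟨g, hg⟩ : ∃ g : ℕ → (N × ℕ) ⊕ B, ∀ j, g j = (match f j with
          | Sum.inl q => if q.1 ∈ F ∧ q.1 ≠ μ then Sum.inl q else Sum.inr ⟨b, hb⟩
          | Sum.inr a => Sum.inr a) := ⟨_, fun _ => rfl⟩
        have hP3 : ∀ (x : ℕ → M) (y : N × ℕ → M),
            (R (fun q => if q.1 = μ then x q.2 else if q.1 ∈ F then y q else b) ↔
              φ.Realize (Sum.elim x fun j => Sum.elim y (fun a : B => a.1) (g j))) := by
          intro x y
          have h3 : R (fun q => if q.1 = μ then x q.2 else if q.1 ∈ F then y q else b) ↔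
              R (fun q => if q.1 = μ then x q.2 else if q.1 ∈ F then
                (if q.1 ∈ F ∧ q.1 ≠ μ then y q else b) else b) := by
            refine iff_of_eq (congrArg R ?_)
            funext q
            by_cases hq : q.1 = μ
            · simp only [hq, if_true]
            · by_cases hqF : q.1 ∈ F
              · simp only [hq, hqF, if_true, if_false, ne_eq, not_false_eq_true, and_self]
              · simp only [hq, hqF, if_false]
          have h4 := hPQ (Sum.elim x fun q => if q.1 ∈ F ∧ q.1 ≠ μ then y q else b)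
          have h5 := hf x (Sum.elim (fun q => if q.1 ∈ F ∧ q.1 ≠ μ then y q else b)
            fun a : B => a.1)
          have h6 := hφ (Sum.elim x fun j => Sum.elim (fun q : N × ℕ =>
            if q.1 ∈ F ∧ q.1 ≠ μ then y q else b) (fun a : B => a.1) (f j))
          refine h3.trans (h4.trans (h5.trans (h6.trans (iff_of_eq (congrArg φ.Realize ?_)))))
          funext i
          rcases i with i | j
          · rfl
          · show Sum.elim (fun q : N × ℕ => if q.1 ∈ F ∧ q.1 ≠ μ then y q else b)
              (fun a : B => a.1) (f j) = Sum.elim y (fun a : B => a.1) (g j)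
            rw [hg j]
            rcases f j with q | a
            · show (if q.1 ∈ F ∧ q.1 ≠ μ then y q else b) = Sum.elim y (fun a : B => a.1)
                (if q.1 ∈ F ∧ q.1 ≠ μ then Sum.inl q else Sum.inr ⟨b, hb⟩)
              by_cases hq : q.1 ∈ F ∧ q.1 ≠ μ
              · rw [if_pos hq, if_pos hq]
                rfl
              · rw [if_neg hq, if_neg hq]
                rfl
            · rfl
        obtain ⟨θ, ν, hνX, hνμ, hθ1, hθ2⟩ := h2 φ
        have hB2 : ∀ (e0 : N → ℕ → M) (j : ℕ),
            Sum.elim (fun q : N × ℕ => e0 q.1 q.2) (fun a : B => a.1) (g j) ∈ B ∨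
            ∃ μ' ∈ X, μ' ≠ μ ∧ st μ' ≤ st μ ∧ ∃ j', e0 μ' j' =
              Sum.elim (fun q : N × ℕ => e0 q.1 q.2) (fun a : B => a.1) (g j) := by
          intro e0 j
          rw [hg j]
          rcases f j with q | a
          · by_cases hq : q.1 ∈ F ∧ q.1 ≠ μ
            · refine Or.inr ⟨q.1, hFX (Finset.mem_coe.2 hq.1), hq.2, hmax _ hq.1, q.2, ?_⟩
              show e0 q.1 q.2 = Sum.elim (fun q : N × ℕ => e0 q.1 q.2) (fun a : B => a.1)
                (if q.1 ∈ F ∧ q.1 ≠ μ then Sum.inl q else Sum.inr ⟨b, hb⟩)
              rw [if_pos hq]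
              rfl
            · refine Or.inl ?_
              show Sum.elim (fun q : N × ℕ => e0 q.1 q.2) (fun a : B => a.1)
                (if q.1 ∈ F ∧ q.1 ≠ μ then Sum.inl q else Sum.inr ⟨b, hb⟩) ∈ B
              rw [if_neg hq]
              exact hb
          · exact Or.inl a.2
        have hR2 : DefU L B fun z : N × ℕ → M => θ.Realize
            (Sum.elim (fun j => Sum.elim z (fun a : B => a.1) (g j)) fun i => z (ν, i)) := by
          refine (DefU.mk (R := fun z => θ.Realize z) ⟨θ, fun _ => Iff.rfl⟩
            (Sum.elim g fun i => Sum.inl (ν, i))).congr fun z => ?_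
          refine iff_of_eq (congrArg θ.Realize ?_)
          funext i
          rcases i with i | i <;> rfl
        have h7 := ih (insert ν (F.erase μ)) (by
            intro κ hκ
            rcases Finset.mem_insert.1 hκ with rfl | hκ
            · exact Or.inr hνμ
            · exact Or.inl ⟨Finset.mem_of_mem_erase hκ, Finset.ne_of_mem_erase hκ⟩)
          (by
            intro κ hκ
            rcases Finset.mem_insert.1 (Finset.mem_coe.1 hκ) with rfl | hκ
            · exact hνX
            · exact hFX (Finset.mem_coe.2 (Finset.mem_of_mem_erase hκ))) _ hR2 (by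
            intro z z' hz
            refine iff_of_eq (congrArg θ.Realize ?_)
            funext i
            rcases i with j | i
            · show Sum.elim z (fun a : B => a.1) (g j) = Sum.elim z' (fun a : B => a.1) (g j)
              rw [hg j]
              rcases f j with q | a
              · show Sum.elim z (fun a : B => a.1)
                  (if q.1 ∈ F ∧ q.1 ≠ μ then Sum.inl q else Sum.inr ⟨b, hb⟩) =
                  Sum.elim z' (fun a : B => a.1)
                  (if q.1 ∈ F ∧ q.1 ≠ μ then Sum.inl q else Sum.inr ⟨b, hb⟩)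
                by_cases hq : q.1 ∈ F ∧ q.1 ≠ μ
                · rw [if_pos hq]
                  exact hz q (Finset.mem_insert_of_mem (Finset.mem_erase.2 ⟨hq.2, hq.1⟩))
                · rw [if_neg hq]
                  rfl
              · rfl
            · exact hz (ν, i) (Finset.mem_insert_self _ _))
        have hfin : ∀ e0 : N → ℕ → M, (R (fun q => e0 q.1 q.2) ↔
            R fun q => if q.1 = μ then e0 μ q.2 else if q.1 ∈ F then e0 q.1 q.2 else b) := by
          intro e0
          refine hdep _ _ fun q hq => ?_
          by_cases hqμ : q.1 = μ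
          · simp only [hqμ, if_true]
          · simp only [hqμ, hq, if_true, if_false]
        have h8 : R (fun q => e q.1 q.2) ↔ θ.Realize (Sum.elim
            (fun j => Sum.elim (fun q : N × ℕ => e q.1 q.2) (fun a : B => a.1) (g j))
            fun i => e ν i) :=
          (hfin e).trans ((hP3 (e μ) fun q => e q.1 q.2).trans (hθ1 _ (hB2 e)))
        have h9 : R (fun q => e' q.1 q.2) ↔ θ.Realize (Sum.elim
            (fun j => Sum.elim (fun q : N × ℕ => e' q.1 q.2) (fun a : B => a.1) (g j))
            fun i => e' ν i) :=
          (hfin e').trans ((hP3 (e' μ) fun q => e' q.1 q.2).trans (hθ2 _ (hB2 e')))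
        exact h8.trans (h7.trans h9.symm)
  intro P hP
  obtain ⟨F0, hF0⟩ := hP.supp
  refine key (F0.image fun z => z.1.1) ?_ (fun z => P fun q : X × ℕ => z (q.1.1, q.2))
    (hP.at fun q : X × ℕ => (q.1.1, q.2)) ?_
  · intro ν hν
    obtain ⟨z, -, rfl⟩ := Finset.mem_image.1 (Finset.mem_coe.1 hν)
    exact z.1.2
  · intro z z' hz
    refine hF0 _ _ fun q hq => hz (q.1.1, q.2) ?_
    exact Finset.mem_image.2 ⟨q, hq, rfl⟩

end MP8f
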