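import Pool.Agent.Lib_MP_8da2c8_full.World
import Pool.Agent.Lib_MP_8da2c8_full.TransN

/-! STEP TreeA: the blocks of the nodes and branches look like the template. -/

namespace MP8f

open Cardinal Set FirstOrder Filter
open scoped Classical

universe u v w x

variable {L : FirstOrder.Language.{0, 0}} {M : Type u} [L.Structure M] [Nonempty M]
variable {Y : Type u}

omit [Nonempty M] in
private theorem treeA_dfn2 (φ : L.Formula (ℕ ⊕ ℕ)) :
    Dfn2 L fun x y : ℕ → M => φ.Realize (Sum.elim x y) := by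
  refine ⟨φ, fun z => iff_of_eq (congrArg φ.Realize ?_)⟩
  funext k
  rcases k with k | k <;> rfl

omit [Nonempty M] in
private theorem treeA_sub {A : Set M} (φ : L.Formula (ℕ ⊕ ℕ)) (y : ℕ → M) (hy : ∀ i, y i ∈ A) :
    DefU L A fun x : ℕ → M => φ.Realize (Sum.elim x y) := by
  have h1 : DefU2 L A fun x y : ℕ → M => φ.Realize (Sum.elim x y) := DefU.of_dfn (treeA_dfn2 φ)
  exact h1.subst y hy

omit [Nonempty M] in
private theorem treeA_at {α : Type v} {β : Type w} {x x' : α → M} (h : Eqv L x x')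
    (f : β → α) : Eqv L (fun i => x (f i)) fun i => x' (f i) := by
  intro φ
  have h1 := h (φ.relabel f)
  rw [FirstOrder.Language.Formula.realize_relabel,
    FirstOrder.Language.Formula.realize_relabel] at h1
  exact h1

omit [Nonempty M] in
private theorem treeA_elim (x y : ℕ → M) : (Sum.elim x y : ℕ ⊕ ℕ → M) =
    fun i => Sum.elim x y i := rfl

omit [Nonempty M] in
private theorem treeA_inl (φ : L.Formula ℕ) (x y : ℕ → M) :
    (φ.relabel (Sum.inl : ℕ → ℕ ⊕ ℕ)).Realize (Sum.elim x y) ↔ φ.Realize x := by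
  rw [FirstOrder.Language.Formula.realize_relabel]
  rfl

private theorem treeA_oth (w : World L M Y) {μ : Nm Y} {y : ℕ → M}
    (hy : ∀ i, y i ∈ w.σ.B ∨ ∃ μ', μ' ≠ μ ∧ w.σ.st μ' ≤ w.σ.st μ ∧ ∃ j, w.σ.e μ' j = y i) (i : ℕ) :
    y i ∈ Oth w.σ.U w.σ.st w.σ.e μ := by
  rcases hy i with h | ⟨μ', h1, h2, j, h3⟩
  · exact Or.inl (w.σ.base _ h)
  · rcases lt_or_eq_of_le h2 with h4 | h4
    · refine Or.inl ?_
      rw [← h3]
      exact w.σ.mem μ' _ h4 j
    · exact Or.inr ⟨μ', h4, h1, j, h3⟩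

/-- Proof.  `w.σ.p (nd []) = pure (w.t.m 0)`; apply `w.σ.prod` to `P x = (x i = w.t.m 0 i)`, definable over `w.U false 0` (`w.tin`). -/
theorem w_root (w : World L M Y) : w.σ.e (.nd []) = w.t.m 0 := by
  funext i
  have h1 : w.σ.p (.nd []) = pure (w.t.m 0) := w.hp _
  have hmem : w.t.m 0 i ∈ Oth w.σ.U w.σ.st w.σ.e (.nd []) := by
    refine Or.inl (w.σ.base _ ?_)
    rw [w.hB]
    exact ⟨i, rfl⟩
  have h2 : DefU2 L (Oth w.σ.U w.σ.st w.σ.e (.nd [])) fun (x : ℕ → M) (y : ℕ → M) =>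
      x i = y 0 := DefU.of_dfn (Dfn.eq (Sum.inl i) (Sum.inr 0))
  have h3 := h2.subst (fun _ => w.t.m 0 i) fun _ => hmem
  have h4 := w.σ.prod (.nd []) _ h3
  rw [h1, ev_pure] at h4
  exact h4.2 rfl

/-- Proof.  `w.hp`; the condition of the `if` in `Ty` holds by `exists_transport` with `θ φ y c = (w.sc.θN s.length φ).Realize (Sum.elim y c)`, `m φ = w.t.m s.length`,
`n φ = w.σ.e (.nd s)`, `p = w.sc.rN s.length`, `w.sc.hN`. -/
theorem w_node_scheme (w : World L M Y) (a : Y) (s : List Y)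
    (h : Eqv L (w.σ.e (.nd s)) (w.t.m s.length)) (φ : L.Formula (ℕ ⊕ ℕ)) (y : ℕ → M) :
    (Ev (w.σ.p (.nd (a :: s))) fun x => φ.Realize (Sum.elim x y)) ↔
      (w.sc.θN s.length φ).Realize (Sum.elim y (w.σ.e (.nd s))) := by
  have h1 : Eqv L (fun z : L.Formula (ℕ ⊕ ℕ) × ℕ => (fun _ => w.t.m s.length :
      L.Formula (ℕ ⊕ ℕ) → ℕ → M) z.1 z.2) fun z => (fun _ => w.σ.e (.nd s) :
      L.Formula (ℕ ⊕ ℕ) → ℕ → M) z.1 z.2 := by
    have h2 := treeA_at (L := L) (fun φ => (h φ).symm : Eqv L (w.t.m s.length) (w.σ.e (.nd s)))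
      (Prod.snd : L.Formula (ℕ ⊕ ℕ) × ℕ → ℕ)
    exact h2
  have hex : ∃ p : Ultrafilter (ℕ → M), ∀ φ y, (Ev p fun x => φ.Realize (Sum.elim x y)) ↔
      (w.sc.θN s.length φ).Realize (Sum.elim y (w.σ.e (.nd s))) :=
    exists_transport (θ := fun φ y c => (w.sc.θN s.length φ).Realize (Sum.elim y c))
      (fun φ => treeA_dfn2 _) h1 (w.sc.rN s.length) (w.sc.hN s.length)
  have h2 : w.σ.p (.nd (a :: s)) = hex.choose := (w.hp _).trans (dif_pos hex)
  rw [h2]
  exact hex.choose_spec φ y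

/-- Proof.  Induction on `s`; `w_root`.  Step: for `φ : L.Formula ℕ` let `φ' = φ.relabel Sum.inl`.  `φ.Realize (w.σ.e (.nd (a :: s)))` iff (`w.σ.prod`, no parameters) `Ev p (φ' · y)` with
`y = w.σ.e (.nd s)` (any `y`), iff `θN φ' (y, w.σ.e (.nd s))` iff (induction hypothesis) `θN φ' (w.t.m n, w.t.m n)` iff (`w.sc.hN'`) `φ.Realize (w.t.m (n + 1))`. -/
theorem w_node_eqv (w : World L M Y) (s : List Y) :
    Eqv L (w.σ.e (.nd s)) (w.t.m s.length) := by
  induction s with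
  | nil =>
    rw [w_root]
    exact fun φ => Iff.rfl
  | cons a s ih =>
    intro φ
    have h1 : DefU L (Oth w.σ.U w.σ.st w.σ.e (.nd (a :: s))) fun x : ℕ → M => φ.Realize x :=
      DefU.of_dfn ⟨φ, fun _ => Iff.rfl⟩
    have h2 := w.σ.prod _ _ h1
    have h3 : (Ev (w.σ.p (.nd (a :: s))) fun x => φ.Realize x) ↔
        Ev (w.σ.p (.nd (a :: s))) fun x =>
          (φ.relabel (Sum.inl : ℕ → ℕ ⊕ ℕ)).Realize (Sum.elim x (w.σ.e (.nd s))) :=
      ev_congr fun x => (treeA_inl φ x _).symm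
    have h4 := w_node_scheme w a s ih (φ.relabel (Sum.inl : ℕ → ℕ ⊕ ℕ)) (w.σ.e (.nd s))
    have h5 := treeA_at ih (fun i : ℕ ⊕ ℕ => Sum.elim id id i)
      (w.sc.θN s.length (φ.relabel (Sum.inl : ℕ → ℕ ⊕ ℕ)))
    have h6 : ∀ x : ℕ → M, (fun i : ℕ ⊕ ℕ => x (Sum.elim id id i)) = Sum.elim x x := by
      intro x
      funext i
      rcases i with i | i <;> rfl
    rw [h6, h6] at h5
    have h7 := w.sc.hN' s.length (φ.relabel (Sum.inl : ℕ → ℕ ⊕ ℕ)) (w.t.m s.length)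
      fun i => ⟨i, rfl⟩
    rw [treeA_inl] at h7
    exact h2.trans (h3.trans (h4.trans (h5.trans h7.symm)))

/-- Proof.  As `w_node_scheme`, once it is known that `(φ, i) ↦ w.t.m (jB φ) i` and `(φ, i) ↦ w.σ.e (.nd (seg c (jB φ))) i` have the same type; see `w_chain0`. -/
theorem w_br_scheme (w : World L M Y) (c : ℕ → Y)
    (h : Eqv L (fun z : ℕ × ℕ => w.σ.e (.nd (seg c z.1)) z.2) fun z => w.t.m z.1 z.2)
    (φ : L.Formula (ℕ ⊕ ℕ)) (y : ℕ → M) :
    (Ev (w.σ.p (.br c)) fun x => φ.Realize (Sum.elim x y)) ↔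
      (w.sc.θB φ).Realize (Sum.elim y (w.σ.e (.nd (seg c (w.sc.jB φ))))) := by
  have h1 : Eqv L (fun z : L.Formula (ℕ ⊕ ℕ) × ℕ => (fun φ => w.t.m (w.sc.jB φ) :
      L.Formula (ℕ ⊕ ℕ) → ℕ → M) z.1 z.2) fun z => (fun φ => w.σ.e (.nd (seg c (w.sc.jB φ))) :
      L.Formula (ℕ ⊕ ℕ) → ℕ → M) z.1 z.2 := by
    have h2 := treeA_at h (fun z : L.Formula (ℕ ⊕ ℕ) × ℕ => (w.sc.jB z.1, z.2))
    exact fun φ => (h2 φ).symm
  have hex : ∃ p : Ultrafilter (ℕ → M), ∀ φ y, (Ev p fun x => φ.Realize (Sum.elim x y)) ↔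
      (w.sc.θB φ).Realize (Sum.elim y (w.σ.e (.nd (seg c (w.sc.jB φ))))) :=
    exists_transport (θ := fun φ y c => (w.sc.θB φ).Realize (Sum.elim y c))
      (fun φ => treeA_dfn2 _) h1 w.sc.rB w.sc.hB
  have h2 : w.σ.p (.br c) = hex.choose := (w.hp _).trans (dif_pos hex)
  rw [h2]
  exact hex.choose_spec φ y

/-- Proof.  `transport_names` for `N = Nm Y`, `X = {ν | ∃ n, ν = .nd (seg c n)}`, `B = range (w.t.m 0)`, `e' (.nd s) = w.t.m s.length`.  For `μ = .nd []`: first case (`w_root`).  For `μ = .nd (seg c (n + 1))`: `θ = w.sc.θN n φ`,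
`ν = .nd (seg c n)`.  For `e`: the entries of `y` are in `Oth …` (`B ⊆ U`, `w.σ.mem`), so `w.σ.prod` and `w_node_scheme`, `w_node_eqv`.  For `e'`: the entries of `y` are in `range (w.t.m n)` (`w.t.mono`), so `w.sc.hN'`. -/
theorem w_chain0 (w : World L M Y) (c : ℕ → Y) :
    Eqv L (fun z : ℕ × ℕ => w.σ.e (.nd (seg c z.1)) z.2) fun z => w.t.m z.1 z.2 := by
  have hmono : Monotone fun n => range (w.t.m n) := monotone_nat_of_le_succ w.t.mono
  obtain ⟨e', he'⟩ : ∃ e' : Nm Y → ℕ → M, ∀ s, e' (.nd s) = w.t.m s.length :=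
    ⟨fun ν => match ν with
      | .nd s => w.t.m s.length
      | _ => w.t.m 0, fun _ => rfl⟩
  have key := transport_names (L := L) (M := M) (Nm.st (Y := Y)) {ν | ∃ n, ν = Nm.nd (seg c n)}
    w.σ.e e' (range (w.t.m 0)) ⟨_, 0, rfl⟩ (by
      rintro μ ⟨n, rfl⟩
      cases n with
      | zero =>
        refine Or.inl fun i => ?_
        have h1 : w.σ.e (.nd (seg c 0)) = w.t.m 0 := w_root w
        have h2 : e' (.nd (seg c 0)) = w.t.m 0 := he' _
        rw [h1, h2]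
        exact ⟨rfl, i, rfl⟩
      | succ n =>
        refine Or.inr fun φ => ⟨w.sc.θN (seg c n).length φ, .nd (seg c n), ⟨n, rfl⟩,
          Nm.st_lt (show Nm.nd (seg c n) ∈ Nm.S (Nm.nd (c n :: seg c n)) from rfl), ?_, ?_⟩
        · intro y hy
          have h1 : ∀ i, y i ∈ Oth w.σ.U w.σ.st w.σ.e (.nd (seg c (n + 1))) :=
            treeA_oth w fun i => by
              rcases hy i with h | ⟨μ', -, h1, h2, h3⟩
              · left
                rw [w.hB]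
                exact h
              · right
                refine ⟨μ', h1, ?_, h3⟩
                rw [w.hst]
                exact h2
          have h2 := w.σ.prod _ _ (treeA_sub φ y h1)
          exact h2.trans (w_node_scheme w (c n) (seg c n) (w_node_eqv w _) φ y)
        · intro y hy
          have h1 : e' (.nd (seg c (n + 1))) = w.t.m ((seg c n).length + 1) := he' _
          have h2 : e' (.nd (seg c n)) = w.t.m (seg c n).length := he' _
          rw [h1, h2]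
          refine w.sc.hN' _ φ y fun i => ?_
          rw [seg_length]
          rcases hy i with h | ⟨μ', ⟨k, rfl⟩, h3, h4, j, h5⟩
          · exact hmono (Nat.zero_le n) h
          · rw [he', seg_length] at h5
            have h6 : k ≤ n := by
              have h7 : k ≤ n + 1 := by
                have h8 : toLex (false, (seg c k).length) ≤
                    (toLex (false, (seg c (n + 1)).length) : Bool ×ₗ ℕ) := h4
                rw [Prod.Lex.toLex_le_toLex, seg_length, seg_length] at h8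
                rcases h8 with h8 | h8
                · exact absurd h8 (lt_irrefl _)
                · exact h8.2
              rcases Nat.lt_or_eq_of_le h7 with h8 | h8
              · exact Nat.le_of_lt_succ h8
              · exact absurd (by rw [h8]) h3
            exact hmono h6 ⟨j, h5⟩)
  intro φ
  have h1 : DefU L (range (w.t.m 0)) fun x : {ν : Nm Y | ∃ n, ν = Nm.nd (seg c n)} × ℕ → M =>
      φ.Realize fun q : ℕ × ℕ => x (⟨.nd (seg c q.1), q.1, rfl⟩, q.2) :=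
    DefU.of_dfn (Dfn.at (R := fun z => φ.Realize z) ⟨φ, fun _ => Iff.rfl⟩
      fun q : ℕ × ℕ => ((⟨.nd (seg c q.1), q.1, rfl⟩, q.2) :
        {ν : Nm Y | ∃ n, ν = Nm.nd (seg c n)} × ℕ))
  have h2 := key _ h1
  refine h2.trans (iff_of_eq (congrArg φ.Realize ?_))
  funext q
  show e' (.nd (seg c q.1)) q.2 = w.t.m q.1 q.2
  rw [he', seg_length]

/-- the same with the branch: use `w_br_scheme`, `w_chain0` and `w.sc.hB'`, directly or by `transport_names` again -/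
theorem w_chain (w : World L M Y) (c : ℕ → Y) :
    Eqv L (fun z : (ℕ × ℕ) ⊕ ℕ =>
      Sum.elim (fun q : ℕ × ℕ => w.σ.e (.nd (seg c q.1)) q.2) (w.σ.e (.br c)) z)
      fun z => Sum.elim (fun q : ℕ × ℕ => w.t.m q.1 q.2) w.t.a z := by
  intro φ
  have h0 : Dfn2 L fun (x : ℕ → M) (z : ℕ × ℕ → M) => φ.Realize (Sum.elim z x) := by
    refine (Dfn.at (R := fun z => φ.Realize z) ⟨φ, fun _ => Iff.rfl⟩
      (Sum.elim Sum.inr Sum.inl)).congr fun z => iff_of_eq (congrArg φ.Realize ?_)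
    funext i
    rcases i with i | i <;> rfl
  obtain ⟨R', ⟨ψ, hψ⟩, f, hf⟩ := h0.reduce
  have h1 : ∀ (x : ℕ → M) (z : ℕ × ℕ → M), φ.Realize (Sum.elim z x) ↔
      ψ.Realize (Sum.elim x fun j => z (f j)) := fun x z => (hf x z).trans
        (hψ (Sum.elim x fun j => z (f j)))
  have hz : ∀ z : (ℕ × ℕ) ⊕ ℕ → M, z = fun i => z i := fun _ => rfl
  have e1 : (fun z : (ℕ × ℕ) ⊕ ℕ => Sum.elim (fun q : ℕ × ℕ => w.σ.e (.nd (seg c q.1)) q.2)
      (w.σ.e (.br c)) z) = Sum.elim (fun q : ℕ × ℕ => w.σ.e (.nd (seg c q.1)) q.2)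
      (w.σ.e (.br c)) := rfl
  have e2 : (fun z : (ℕ × ℕ) ⊕ ℕ => Sum.elim (fun q : ℕ × ℕ => w.t.m q.1 q.2) w.t.a z) =
      Sum.elim (fun q : ℕ × ℕ => w.t.m q.1 q.2) w.t.a := rfl
  rw [e1, e2, h1, h1]
  have h2 : ∀ j, w.σ.e (.nd (seg c (f j).1)) (f j).2 ∈ Oth w.σ.U w.σ.st w.σ.e (.br c) := by
    intro j
    refine Or.inl (w.σ.mem _ _ ?_ _)
    rw [w.hst]
    exact Nm.st_lt (show Nm.nd (seg c (f j).1) ∈ Nm.S (Nm.br c) from ⟨_, rfl⟩)
  have h3 := w.σ.prod _ _ (treeA_sub ψ (fun j => w.σ.e (.nd (seg c (f j).1)) (f j).2) h2)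
  have h4 := w_br_scheme w c (w_chain0 w c) ψ fun j => w.σ.e (.nd (seg c (f j).1)) (f j).2
  have h5 := treeA_at (w_chain0 w c) (Sum.elim f fun i => (w.sc.jB ψ, i) : ℕ ⊕ ℕ → ℕ × ℕ)
    (w.sc.θB ψ)
  have e3 : (fun i : ℕ ⊕ ℕ => (fun z : ℕ × ℕ => w.σ.e (.nd (seg c z.1)) z.2)
      ((Sum.elim f fun i => (w.sc.jB ψ, i) : ℕ ⊕ ℕ → ℕ × ℕ) i)) =
      Sum.elim (fun j => w.σ.e (.nd (seg c (f j).1)) (f j).2)
        (w.σ.e (.nd (seg c (w.sc.jB ψ)))) := by
    funext i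
    rcases i with i | i <;> rfl
  have e4 : (fun i : ℕ ⊕ ℕ => (fun z : ℕ × ℕ => w.t.m z.1 z.2)
      ((Sum.elim f fun i => (w.sc.jB ψ, i) : ℕ ⊕ ℕ → ℕ × ℕ) i)) =
      Sum.elim (fun j => w.t.m (f j).1 (f j).2) (w.t.m (w.sc.jB ψ)) := by
    funext i
    rcases i with i | i <;> rfl
  rw [e3, e4] at h5
  have h6 := w.sc.hB' ψ (fun j => w.t.m (f j).1 (f j).2) fun i => ⟨_, _, rfl⟩
  exact h3.trans (h4.trans (h5.trans h6.symm))

end MP8f
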