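import Pool.Agent.Lib_MP_8da2c8_full.IsoD
import Pool.Agent.Lib_MP_8da2c8_full.GiC
import Pool.Agent.Lib_MP_8da2c8_full.TreeA

/-! STEP IsoE1: extending a partial isomorphism by one rank, the map of names. -/

namespace MP8f

open Cardinal Set FirstOrder Filter
open scoped Classical

universe u v w x

variable {L : FirstOrder.Language.{0, 0}} {M : Type u} [L.Structure M] [Nonempty M]
variable {Y : Type u} {JN JN' : Set (List Y)} {JB JB' : Set (ℕ → Y)}

/-- the elements of the parameter block of a name -/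
private theorem blk_mem (w : World L M Y) {n k : ℕ} {c : Fin k → Nm Y}
    (hc : ∀ j, (c j).rk ≤ n) (i : Fin k → ℕ) :
    range (blk w.t w.σ.e k c i) ⊆ w.U true (n + 1) := by
  have mono' : ∀ m m', m ≤ m' → w.U true m ⊆ w.U true m' := by
    intro m m' h
    induction m', h using Nat.le_induction with
    | base => exact subset_rfl
    | succ m' _ ih => exact ih.trans (w.amb.mono true m')
  rintro _ ⟨j, rfl⟩
  unfold blk
  split_ifs with hj
  · exact e_mem w (hc _) _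
  · exact mono' 0 (n + 1) (Nat.zero_le _) (w.amb.lim 0 (w.tin 0 0))

private theorem nm_rank {ν : Nm Y} {n : ℕ} (h : ν.rk = n + 1) :
    ∃ k c i r, ν = .E k c i r := by
  cases ν with
  | nd s => exact absurd h (by simp [Nm.rk])
  | br c => exact absurd h (by simp [Nm.rk])
  | E k c i r => exact ⟨k, c, i, r, rfl⟩

private theorem rk_comp {h : Nm Y → Nm Y} {k : ℕ} (c : Fin k → Nm Y)
    (hc : ∀ j, (h (c j)).rk = (c j).rk) (i : Fin k → ℕ) (r r' : ℕ → ℕ) :
    (Nm.E k (fun j => h (c j)) i r).rk = (Nm.E k c i r').rk := by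
  show (Finset.univ.sup fun j => Nm.rk (h (c j))) + 1 = (Finset.univ.sup fun j => Nm.rk (c j)) + 1
  rw [show (fun j => Nm.rk (h (c j))) = fun j => Nm.rk (c j) from funext hc]

private noncomputable def stepMap (JN : Set (List Y)) (JB : Set (ℕ → Y)) (n : ℕ)
    (h : Nm Y → Nm Y) (s : (k : ℕ) → (Fin k → Nm Y) → (Fin k → ℕ) → (ℕ → ℕ) ≃ (ℕ → ℕ)) :
    Nm Y → Nm Y
  | .nd t => h (.nd t)
  | .br c => h (.br c)
  | .E k c i r => if Nm.Vld JN JB (.E k c i r) ∧ (Nm.E k c i r).rk = n + 1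
      then .E k (fun j => h (c j)) i (s k c i r) else h (.E k c i r)

/-- The map on names.
Proof.  For `k, c, i` with `c j ∈ XJ JN JB n` let `A = range (blk w.t w.σ.e k c i)`, contained in `U = w.U true (n + 1)` (`e_mem`, `w.tin`, `w.amb`), countable, nonempty.  `G '' A = range (blk w.t w.σ.e k (h ∘ c) i)`: `hG2`, and `G (w.t.m 0 0) = w.t.m 0 0` by
`w_root`, `hh.root` (`.nd [] ∈ XJ` by `h0`).  `exists_perm` gives `σ`; `w.σ.p (.E k c i r) = rep L A r` (`w.hp`).  Choose such a `σ k c i` for all `k, c, i`, and let `h' (.E k c i r) = .E k (h ∘ c) i (σ k c i r)` if this name is valid of rank `n + 1`, `h' ν = h ν` in all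
other cases. -/
theorem exists_names_step [Countable L.Symbols] (w : World L M Y) (h0 : [] ∈ JN)
    {n : ℕ} {h : Nm Y → Nm Y} (hh : PI w JN JN' JB JB' n h) {G : M → M}
    (hG : GEl L (w.U true (n + 1)) G)
    (hG2 : ∀ ν ∈ XJ JN JB n, ∀ i, G (w.σ.e ν i) = w.σ.e (h ν) i) :
    ∃ h' : Nm Y → Nm Y, (∀ ν ∈ XJ JN JB n, h' ν = h ν) ∧ h' (.nd []) = .nd [] ∧
      BijOn h' (XJ JN JB (n + 1)) (XJ JN' JB' (n + 1)) ∧
      (∀ ν ∈ XJ JN JB (n + 1), (h' ν).rk = ν.rk) ∧
      ∀ ν ∈ XJ JN JB (n + 1), ν.rk = n + 1 →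
        GRel L (w.U true (n + 1)) G (w.σ.p ν) (w.σ.p (h' ν)) := by
  have hroot : (Nm.nd [] : Nm Y) ∈ XJ JN JB n := ⟨h0, Nat.zero_le n⟩
  have hG0 : G (w.t.m 0 0) = w.t.m 0 0 := by
    have h1 := hG2 (.nd []) hroot 0
    rw [hh.root, w_root] at h1
    exact h1
  have hperm : ∀ (k : ℕ) (c : Fin k → Nm Y) (i : Fin k → ℕ), (∀ j, c j ∈ XJ JN JB n) →
      ∃ σ : (ℕ → ℕ) ≃ (ℕ → ℕ), ∀ r, GRel L (w.U true (n + 1)) G (w.σ.p (.E k c i r))
        (w.σ.p (.E k (fun j => h (c j)) i (σ r))) := by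
    intro k c i hc
    have h1 : G '' range (blk w.t w.σ.e k c i) = range (blk w.t w.σ.e k (fun j => h (c j)) i) := by
      rw [← range_comp]
      refine congrArg range ?_
      funext j
      show G (blk w.t w.σ.e k c i j) = blk w.t w.σ.e k (fun j => h (c j)) i j
      unfold blk
      split_ifs with hj
      · exact hG2 _ (hc _) _
      · exact hG0
    obtain ⟨σ, hσ⟩ := exists_perm (w.amb.elt true (n + 1)) hG
      (blk_mem w (fun j => (hc j).2) i) (countable_range _) (range_nonempty _)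
    refine ⟨σ, fun r => ?_⟩
    have h2 := hσ r
    rw [h1] at h2
    rw [w.hp, w.hp]
    exact h2
  choose! s hs using hperm
  let h' : Nm Y → Nm Y := stepMap JN JB n h s
  have hlow : ∀ ν : Nm Y, ν.rk ≤ n → h' ν = h ν := by
    intro ν hν
    cases ν with
    | nd t => rfl
    | br c => rfl
    | E k c i r =>
      show (if _ then _ else _) = _
      rw [if_neg]
      rintro ⟨-, h2⟩
      omega
  have hhigh : ∀ (k : ℕ) (c : Fin k → Nm Y) (i : Fin k → ℕ) (r : ℕ → ℕ),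
      Nm.Vld JN JB (.E k c i r) → (Nm.E k c i r).rk = n + 1 →
      h' (.E k c i r) = .E k (fun j => h (c j)) i (s k c i r) := by
    intro k c i r h1 h2
    exact if_pos ⟨h1, h2⟩
  have hcase : ∀ (J : Set (List Y)) (J' : Set (ℕ → Y)) (ν : Nm Y), ν ∈ XJ J J' (n + 1) →
      ν.rk ≤ n ∨ ν.rk = n + 1 := fun J J' ν hν => by
    have h1 := hν.2
    omega
  have hc : ∀ (J : Set (List Y)) (J' : Set (ℕ → Y)) (k : ℕ) (c : Fin k → Nm Y)
      (i : Fin k → ℕ) (r : ℕ → ℕ), Nm.E k c i r ∈ XJ J J' (n + 1) ↔ ∀ j, c j ∈ XJ J J' n := by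
    intro J J' k c i r
    constructor
    · intro h1 j
      exact ⟨h1.1 j, (Nm.rk_le_iff c i r).1 h1.2 j⟩
    · intro h1
      exact ⟨fun j => (h1 j).1, (Nm.rk_le_iff c i r).2 fun j => (h1 j).2⟩
  have hrk : ∀ ν ∈ XJ JN JB (n + 1), (h' ν).rk = ν.rk := by
    intro ν hν
    rcases hcase _ _ ν hν with h1 | h1
    · rw [hlow ν h1]
      exact hh.rk ν ⟨hν.1, h1⟩
    · obtain ⟨k, c, i, r, rfl⟩ := nm_rank h1
      rw [hhigh k c i r hν.1 h1]
      exact rk_comp c (fun j => hh.rk _ ((hc _ _ k c i r).1 hν j)) i _ _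
  refine ⟨h', fun ν hν => hlow ν hν.2, (hlow (.nd []) (Nat.zero_le n)).trans hh.root, ⟨?_, ?_, ?_⟩, hrk,
    ?_⟩
  · intro ν hν
    rcases hcase _ _ ν hν with h1 | h1
    · rw [hlow ν h1]
      have h2 := hh.bij.mapsTo ⟨hν.1, h1⟩
      exact ⟨h2.1, h2.2.trans (Nat.le_succ n)⟩
    · obtain ⟨k, c, i, r, rfl⟩ := nm_rank h1
      rw [hhigh k c i r hν.1 h1, hc]
      exact fun j => hh.bij.mapsTo ((hc _ _ k c i r).1 hν j)
  · intro ν hν ν' hν' heq
    have h1 := hrk ν hν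
    have h2 := hrk ν' hν'
    rw [heq, h2] at h1
    rcases hcase _ _ ν hν with h3 | h3
    · have h4 : ν'.rk ≤ n := by rw [h1]; exact h3
      rw [hlow ν h3, hlow ν' h4] at heq
      exact hh.bij.injOn ⟨hν.1, h3⟩ ⟨hν'.1, h4⟩ heq
    · have h4 : ν'.rk = n + 1 := by rw [h1]; exact h3
      obtain ⟨k, c, i, r, rfl⟩ := nm_rank h3
      obtain ⟨k', c', i', r', rfl⟩ := nm_rank h4
      rw [hhigh k c i r hν.1 h3, hhigh k' c' i' r' hν'.1 h4] at heq
      rw [Nm.E.injEq] at heq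
      obtain ⟨h5, h6, h7, h8⟩ := heq
      subst h5
      have h9 : c = c' := by
        funext j
        exact hh.bij.injOn ((hc _ _ k c i r).1 hν j) ((hc _ _ k c' i' r').1 hν' j)
          (congrFun (eq_of_heq h6) j)
      subst h9
      have h10 := eq_of_heq h7
      subst h10
      rw [(s k c i).injective h8]
  · intro ν' hν'
    rcases hcase _ _ ν' hν' with h1 | h1
    · obtain ⟨ν, hν, h2⟩ := hh.bij.surjOn ⟨hν'.1, h1⟩
      exact ⟨ν, ⟨hν.1, hν.2.trans (Nat.le_succ n)⟩, by rw [hlow ν hν.2, h2]⟩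
    · obtain ⟨k, c', i, r', rfl⟩ := nm_rank h1
      have h2 := (hc _ _ k c' i r').1 hν'
      choose c hc1 hc2 using fun j => hh.bij.surjOn (h2 j)
      have h3 : (fun j => h (c j)) = c' := funext hc2
      have h4 : Nm.E k c i ((s k c i).symm r') ∈ XJ JN JB (n + 1) := (hc _ _ _ _ _ _).2 hc1
      have h5 : (Nm.E k c i ((s k c i).symm r')).rk = n + 1 := by
        rw [← rk_comp c (fun j => hh.rk _ (hc1 j)) i r' ((s k c i).symm r'), h3]
        exact h1
      refine ⟨_, h4, ?_⟩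
      rw [hhigh k c i _ h4.1 h5, h3, Equiv.apply_symm_apply]
  · intro ν hν h1
    obtain ⟨k, c, i, r, rfl⟩ := nm_rank h1
    rw [hhigh k c i r hν.1 h1]
    exact hs k c i ((hc _ _ k c i r).1 hν) r

end MP8f
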