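import Pool.Agent.Lib_MP_8da2c8_full.IsoD
import Pool.Agent.Lib_MP_8da2c8_full.TreeA

/-! STEP IsoF1: the tree part. -/

namespace MP8f

open Cardinal Set FirstOrder Filter
open scoped Classical

universe u v w x

variable {L : FirstOrder.Language.{0, 0}} {M : Type u} [L.Structure M] [Nonempty M]
variable {Y : Type u} {JN JN' : Set (List Y)} {JB JB' : Set (ℕ → Y)}

private theorem isoF1_prod (w : World L M Y) (μ : Nm Y) (φ : L.Formula (ℕ ⊕ ℕ)) (y : ℕ → M)
    (hy : ∀ i, y i ∈ range (w.t.m 0) ∨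
      ∃ μ', μ' ≠ μ ∧ μ'.st ≤ μ.st ∧ ∃ j, w.σ.e μ' j = y i) :
    φ.Realize (Sum.elim (w.σ.e μ) y) ↔ Ev (w.σ.p μ) fun x => φ.Realize (Sum.elim x y) := by
  refine w.σ.prod μ (fun x => φ.Realize (Sum.elim x y)) ?_
  have h1 : DefU2 L (Oth w.σ.U w.σ.st w.σ.e μ) fun x y : ℕ → M =>
      φ.Realize (Sum.elim x y) := by
    refine DefU.of_dfn ⟨φ, fun z => iff_of_eq (congrArg φ.Realize ?_)⟩
    funext k
    rcases k with k | k <;> rfl
  refine h1.subst y fun i => ?_
  rcases hy i with h | ⟨μ', hne, hst, j, hj⟩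
  · left
    refine w.σ.base _ ?_
    rw [w.hB]
    exact h
  · rcases lt_or_eq_of_le hst with h | h
    · left
      rw [← hj]
      refine w.σ.mem μ' _ ?_ j
      rw [w.hst]
      exact h
    · right
      refine ⟨μ', ?_, hne, j, hj⟩
      rw [w.hst]
      exact h

/-- the map of names of rank zero -/
private def isoF1_h (T : TreeIso JN JN' JB JB') : Nm Y → Nm Y
  | .nd s => .nd (T.hN s)
  | .br c => .br (T.hB c)
  | .E k c i r => .E k c i r

private theorem isoF1_len (T : TreeIso JN JN' JB JB') (h1 : ∀ a s, a :: s ∈ JN → s ∈ JN) :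
    ∀ s ∈ JN, (T.hN s).length = s.length := by
  intro s
  induction s with
  | nil =>
    intro _
    rw [T.nil]
  | cons a s ih =>
    intro hs
    obtain ⟨b, hb⟩ := T.cons a s hs
    rw [hb, List.length_cons, List.length_cons, ih (h1 a s hs)]

private theorem isoF1_cases {ν : Nm Y} (hν : ν ∈ XJ JN JB 0) :
    (∃ s ∈ JN, ν = .nd s) ∨ ∃ c ∈ JB, ν = .br c := by
  cases ν with
  | nd s => exact Or.inl ⟨s, hν.1, rfl⟩
  | br c => exact Or.inr ⟨c, hν.1, rfl⟩
  | E k c i r =>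
    have h := hν.2
    exact absurd h (by simp [Nm.rk])

private theorem isoF1_nd {s : List Y} (hs : s ∈ JN) : (.nd s : Nm Y) ∈ XJ JN JB 0 :=
  ⟨hs, le_refl _⟩

private theorem isoF1_br {c : ℕ → Y} (hc : c ∈ JB) : (.br c : Nm Y) ∈ XJ JN JB 0 :=
  ⟨hc, le_refl _⟩

private theorem isoF1_inj (T : TreeIso JN JN' JB JB') :
    InjOn (isoF1_h T) (XJ JN JB 0) := by
  intro ν hν μ hμ he
  rcases isoF1_cases hν with ⟨s, hs, rfl⟩ | ⟨c, hc, rfl⟩
  · rcases isoF1_cases hμ with ⟨s', hs', rfl⟩ | ⟨c', hc', rfl⟩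
    · have h3 : T.hN s = T.hN s' := by
        simpa [isoF1_h] using he
      rw [T.bijN.injOn hs hs' h3]
    · simp [isoF1_h] at he
  · rcases isoF1_cases hμ with ⟨s', hs', rfl⟩ | ⟨c', hc', rfl⟩
    · simp [isoF1_h] at he
    · have h3 : T.hB c = T.hB c' := by
        simpa [isoF1_h] using he
      rw [T.bijB.injOn hc hc' h3]

private theorem isoF1_st (T : TreeIso JN JN' JB JB') (h1 : ∀ a s, a :: s ∈ JN → s ∈ JN)
    {ν : Nm Y} (hν : ν ∈ XJ JN JB 0) : (isoF1_h T ν).st = ν.st := by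
  rcases isoF1_cases hν with ⟨s, hs, rfl⟩ | ⟨c, hc, rfl⟩
  · show toLex (false, (T.hN s).length) = toLex (false, s.length)
    rw [isoF1_len T h1 s hs]
  · rfl

/-- The tree part.
Proof.  `h (.nd s) = .nd (T.hN s)`, `h (.br c) = .br (T.hB c)`, `h ν = ν` otherwise.  `T.hN` preserves the length on `JN` (by induction, `T.nil`, `T.cons`; `JN` is closed).  `el`: `transport_names` for `X = XJ JN JB 0` (nodes in `JN` and branches in `JB`), `e = w.σ.e`, `e' ν = w.σ.e (h ν)`,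
`B = range (w.t.m 0)`: `.nd []`: first case (`w_root`).  `.nd (a :: s)`: `θ = w.sc.θN s.length φ`, `ν = .nd s`; for `e`: `w.σ.prod` (the entries of `y` are in `Oth …`: `B ⊆ U`, names of smaller stage by `w.σ.mem`, other names of the same stage), `w_node_scheme`,
`w_node_eqv`; for `e'` the same with `h (.nd (a :: s)) = .nd (b :: T.hN s)` (`h` is injective on `X` and preserves stages).  `.br c`: `θ = w.sc.θB φ`, `ν = .nd (seg c (w.sc.jB φ))`, `w_br_scheme`, `w_chain0`, `T.seg`.  `Eqv` follows from `EqvA`. -/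
theorem pi_zero (w : World L M Y) (T : TreeIso JN JN' JB JB') (h0 : [] ∈ JN)
    (h1 : ∀ a s, a :: s ∈ JN → s ∈ JN) (h2 : ∀ c ∈ JB, ∀ n, seg c n ∈ JN) :
    ∃ h, PI w JN JN' JB JB' 0 h := by
  have hinj := isoF1_inj T
  have hst := fun {ν : Nm Y} (hν : ν ∈ XJ JN JB 0) => isoF1_st T h1 hν
  refine ⟨isoF1_h T, ⟨⟨?_, hinj, ?_⟩, ?_, ?_, ?_⟩⟩
  · intro ν hν
    rcases isoF1_cases hν with ⟨s, hs, rfl⟩ | ⟨c, hc, rfl⟩
    · exact ⟨T.bijN.mapsTo hs, le_refl _⟩
    · exact ⟨T.bijB.mapsTo hc, le_refl _⟩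
  · intro ν hν
    rcases isoF1_cases hν with ⟨s, hs, rfl⟩ | ⟨c, hc, rfl⟩
    · obtain ⟨s', hs', rfl⟩ := T.bijN.surjOn hs
      exact ⟨.nd s', isoF1_nd hs', rfl⟩
    · obtain ⟨c', hc', rfl⟩ := T.bijB.surjOn hc
      exact ⟨.br c', isoF1_br hc', rfl⟩
  · intro ν hν
    rcases isoF1_cases hν with ⟨s, hs, rfl⟩ | ⟨c, hc, rfl⟩
    · rfl
    · rfl
  · show Nm.nd (T.hN []) = .nd []
    rw [T.nil]
  · have key : EqvA L (range (w.t.m 0)) (fun z : XJ JN JB 0 × ℕ => w.σ.e z.1.1 z.2)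
        fun z => w.σ.e (isoF1_h T z.1.1) z.2 := by
      refine transport_names (Λ := Bool ×ₗ ℕ) Nm.st (XJ JN JB 0) w.σ.e
        (fun ν => w.σ.e (isoF1_h T ν)) (range (w.t.m 0)) (range_nonempty _) ?_
      intro μ hμ
      have hy' : ∀ y : ℕ → M, (∀ i, y i ∈ range (w.t.m 0) ∨ ∃ μ' ∈ XJ JN JB 0, μ' ≠ μ ∧
          μ'.st ≤ μ.st ∧ ∃ j, w.σ.e (isoF1_h T μ') j = y i) →
          ∀ i, y i ∈ range (w.t.m 0) ∨ ∃ μ', μ' ≠ isoF1_h T μ ∧
            μ'.st ≤ (isoF1_h T μ).st ∧ ∃ j, w.σ.e μ' j = y i := by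
        intro y hy i
        rcases hy i with h | ⟨μ', hX, hne, hle, j, hj⟩
        · exact Or.inl h
        · refine Or.inr ⟨isoF1_h T μ', fun h => hne (hinj hX hμ h), ?_, j, hj⟩
          rw [hst hX, hst hμ]
          exact hle
      have hy0 : ∀ y : ℕ → M, (∀ i, y i ∈ range (w.t.m 0) ∨ ∃ μ' ∈ XJ JN JB 0, μ' ≠ μ ∧
          μ'.st ≤ μ.st ∧ ∃ j, w.σ.e μ' j = y i) →
          ∀ i, y i ∈ range (w.t.m 0) ∨ ∃ μ', μ' ≠ μ ∧
            μ'.st ≤ μ.st ∧ ∃ j, w.σ.e μ' j = y i := by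
        intro y hy i
        rcases hy i with h | ⟨μ', -, hne, hle, j, hj⟩
        · exact Or.inl h
        · exact Or.inr ⟨μ', hne, hle, j, hj⟩
      rcases isoF1_cases hμ with ⟨s, hs, rfl⟩ | ⟨c, hc, rfl⟩
      · cases s with
        | nil =>
          left
          intro i
          refine ⟨?_, ?_⟩
          · show w.σ.e (.nd []) i = w.σ.e (.nd (T.hN [])) i
            rw [T.nil]
          · rw [w_root]
            exact mem_range_self i
        | cons a s =>
          right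
          intro φ
          refine ⟨w.sc.θN s.length φ, .nd s, isoF1_nd (h1 a s hs), ?_, ?_, ?_⟩
          · exact Nm.st_lt (show (Nm.nd s : Nm Y) ∈ Nm.S (.nd (a :: s)) from rfl)
          · intro y hy
            exact (isoF1_prod w _ φ y (hy0 y hy)).trans
              (w_node_scheme w a s (w_node_eqv w s) φ y)
          · intro y hy
            obtain ⟨b, hb⟩ := T.cons a s hs
            have h3 := isoF1_prod w _ φ y (hy' y hy)
            have h4 : isoF1_h T (.nd (a :: s)) = .nd (b :: T.hN s) := by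
              show Nm.nd (T.hN (a :: s)) = _
              rw [hb]
            have h5 := w_node_scheme w b (T.hN s) (w_node_eqv w _) φ y
            rw [isoF1_len T h1 s (h1 a s hs)] at h5
            rw [h4] at h3
            show φ.Realize (Sum.elim (w.σ.e (isoF1_h T (.nd (a :: s)))) y) ↔ _
            rw [h4]
            exact h3.trans h5
      · right
        intro φ
        refine ⟨w.sc.θB φ, .nd (seg c (w.sc.jB φ)), isoF1_nd (h2 c hc _), ?_, ?_, ?_⟩
        · exact Nm.st_lt (show (Nm.nd (seg c (w.sc.jB φ)) : Nm Y) ∈ Nm.S (.br c) from ⟨_, rfl⟩)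
        · intro y hy
          exact (isoF1_prod w _ φ y (hy0 y hy)).trans
            (w_br_scheme w c (w_chain0 w c) φ y)
        · intro y hy
          have h3 := isoF1_prod w _ φ y (hy' y hy)
          have h5 := w_br_scheme w (T.hB c) (w_chain0 w _) φ y
          rw [T.seg c hc] at h5
          exact h3.trans h5
    intro φ
    exact key _ (DefU.of_dfn ⟨φ, fun _ => Iff.rfl⟩)

end MP8f
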