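import Pool.Agent.Lib_MP_8da2c8_full.IsoE
import Pool.Agent.Lib_MP_8da2c8_full.IsoF1

/-! STEP IsoF2: isomorphic trees give an elementary map of the names. -/

namespace MP8f

open Cardinal Set FirstOrder Filter
open scoped Classical

universe u v w x

variable {L : FirstOrder.Language.{0, 0}} {M : Type u} [L.Structure M] [Nonempty M]
variable {Y : Type u} {JN JN' : Set (List Y)} {JB JB' : Set (ℕ → Y)}

/-- the chain of partial isomorphisms -/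
private theorem isoF2_chain [Countable L.Symbols] (w : World L M Y)
    (T : TreeIso JN JN' JB JB') (h0 : [] ∈ JN) (h1 : ∀ a s, a :: s ∈ JN → s ∈ JN)
    (h2 : ∀ c ∈ JB, ∀ n, seg c n ∈ JN) :
    ∃ h : ℕ → Nm Y → Nm Y, (∀ n, PI w JN JN' JB JB' n (h n)) ∧
      ∀ n, ∀ ν ∈ XJ JN JB n, h (n + 1) ν = h n ν := by
  obtain ⟨g0, hg0⟩ := pi_zero w T h0 h1 h2
  have hs : ∀ n, ∀ h : {h // PI w JN JN' JB JB' n h}, ∃ h' : {h // PI w JN JN' JB JB' (n + 1) h},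
      ∀ ν ∈ XJ JN JB n, h'.1 ν = h.1 ν := by
    intro n h
    obtain ⟨h', hh', he⟩ := pi_step w h0 h.2
    exact ⟨⟨h', hh'⟩, he⟩
  choose S hS using hs
  let f : ∀ n, {h // PI w JN JN' JB JB' n h} := fun n => Nat.rec ⟨g0, hg0⟩ (fun n h => S n h) n
  exact ⟨fun n => (f n).1, fun n => (f n).2, fun n ν hν => hS n (f n) ν hν⟩

/-- Proof.  Choose `h 0` by `pi_zero` and `h (n + 1)` from `h n` by `pi_step` (recursion on the subtype `{h // PI w … n h}`).  `H ν = h ν.rk ν`; for `ν ∈ XJ JN JB n`, `h n ν = H ν`.  Bijectivity and `Eqv` (a formula involves finitely many names, of rank `≤ n`). -/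
theorem exists_names_iso [Countable L.Symbols] (w : World L M Y)
    (T : TreeIso JN JN' JB JB') (h0 : [] ∈ JN) (h1 : ∀ a s, a :: s ∈ JN → s ∈ JN)
    (h2 : ∀ c ∈ JB, ∀ n, seg c n ∈ JN) :
    ∃ H : Nm Y → Nm Y, BijOn H {ν | Nm.Vld JN JB ν} {ν | Nm.Vld JN' JB' ν} ∧
      Eqv L (fun z : {ν | Nm.Vld JN JB ν} × ℕ => w.σ.e z.1.1 z.2)
        fun z => w.σ.e (H z.1.1) z.2 := by
  obtain ⟨h, hPI, hext⟩ := isoF2_chain w T h0 h1 h2
  have hmono : ∀ n m : ℕ, n ≤ m → XJ JN JB n ⊆ XJ JN JB m := fun n m hnm ν hν =>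
    ⟨hν.1, hν.2.trans hnm⟩
  have hagree : ∀ n m : ℕ, n ≤ m → ∀ ν ∈ XJ JN JB n, h m ν = h n ν := by
    intro n m hnm
    induction m, hnm using Nat.le_induction with
    | base => exact fun _ _ => rfl
    | succ m hm ih => exact fun ν hν => (hext m ν (hmono n m hm hν)).trans (ih ν hν)
  have hself : ∀ ν : Nm Y, Nm.Vld JN JB ν → ν ∈ XJ JN JB ν.rk := fun ν hν => ⟨hν, le_refl _⟩
  let H : Nm Y → Nm Y := fun ν => h ν.rk ν
  have hH : ∀ n, ∀ ν ∈ XJ JN JB n, H ν = h n ν := fun n ν hν =>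
    (hagree _ n hν.2 ν (hself ν hν.1)).symm
  refine ⟨H, ⟨?_, ?_, ?_⟩, ?_⟩
  · intro ν hν
    exact ((hPI ν.rk).bij.mapsTo (hself ν hν)).1
  · intro ν hν μ hμ he
    have h3 : ν ∈ XJ JN JB (max ν.rk μ.rk) := hmono _ _ (le_max_left _ _) (hself ν hν)
    have h4 : μ ∈ XJ JN JB (max ν.rk μ.rk) := hmono _ _ (le_max_right _ _) (hself μ hμ)
    rw [hH _ ν h3, hH _ μ h4] at he
    exact (hPI _).bij.injOn h3 h4 he
  · intro ν hν
    obtain ⟨μ, hμ, he⟩ := (hPI ν.rk).bij.surjOn (show ν ∈ XJ JN' JB' ν.rk from ⟨hν, le_refl _⟩)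
    exact ⟨μ, hμ.1, (hH _ μ hμ).trans he⟩
  · intro φ
    have hR : Dfn L fun x : {ν | Nm.Vld JN JB ν} × ℕ → M => φ.Realize x := ⟨φ, fun _ => Iff.rfl⟩
    obtain ⟨F, hF⟩ := hR.supp
    obtain ⟨n, hn⟩ : ∃ n, ∀ z ∈ F, z.1.1.rk ≤ n :=
      ⟨F.sup fun z => z.1.1.rk, fun z hz => Finset.le_sup (f := fun z => z.1.1.rk) hz⟩
    have hnd : (.nd [] : Nm Y) ∈ XJ JN JB n := ⟨h0, Nat.zero_le _⟩
    let f : {ν | Nm.Vld JN JB ν} × ℕ → XJ JN JB n × ℕ := fun z =>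
      if hz : z.1.1.rk ≤ n then (⟨z.1.1, z.1.2, hz⟩, z.2) else (⟨.nd [], hnd⟩, 0)
    have hf : ∀ z, z.1.1.rk ≤ n → ((f z).1.1 = z.1.1 ∧ (f z).2 = z.2) := by
      intro z hz
      simp only [f, dif_pos hz, and_self]
    have h3 := hF (fun z => w.σ.e z.1.1 z.2) (fun z => w.σ.e (f z).1.1 (f z).2) (by
      intro z hz
      rw [(hf z (hn z hz)).1, (hf z (hn z hz)).2])
    have h4 := hF (fun z => w.σ.e (H z.1.1) z.2) (fun z => w.σ.e (h n (f z).1.1) (f z).2) (by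
      intro z hz
      rw [(hf z (hn z hz)).1, (hf z (hn z hz)).2, hH n z.1.1 ⟨z.1.2, hn z hz⟩])
    refine h3.trans (Iff.trans ?_ h4.symm)
    have h5 : Dfn L fun y : XJ JN JB n × ℕ → M => φ.Realize fun z => y (f z) := hR.at f
    obtain ⟨ψ, hψ⟩ := h5
    have h6 := (hPI n).el ψ
    rw [← hψ, ← hψ] at h6
    exact h6

end MP8f
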