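import Pool.Agent.Lib_MP_8da2c8_full.AlmB2
import Pool.Agent.Lib_MP_8da2c8_full.LocDefB

/-! STEP ItA: iterated quantifiers over names. -/

namespace MP8f

open Cardinal Set FirstOrder Filter
open scoped Classical

universe u v w x

/-- conditions on assignments of blocks to names, definable over `A` -/
def DefN (L : FirstOrder.Language.{0, 0}) {M : Type u} [L.Structure M] {N : Type v} (A : Set M)
    (W : (N → ℕ → M) → Prop) : Prop :=
  DefU L A fun z : N × ℕ → M => W fun ν i => z (ν, i)

/-- `It p [ν, μ, …] W a`: for `p ν`-almost all `x`, for `p μ`-almost all `y`, …, `W` holds at the assignment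
`a` changed to `x` at `ν`, to `y` at `μ`, … -/
noncomputable def It {M : Type u} {N : Type v} (p : N → Ultrafilter (ℕ → M)) :
    List N → ((N → ℕ → M) → Prop) → (N → ℕ → M) → Prop
  | [], W => W
  | ν :: l, W => fun a => Ev (p ν) fun x => It p l W (Function.update a ν x)

/-- `W` depends only on the names in `l` -/
def Dep {M : Type u} {N : Type v} (l : List N) (W : (N → ℕ → M) → Prop) : Prop :=
  ∀ a a' : N → ℕ → M, (∀ ν ∈ l, a ν = a' ν) → (W a ↔ W a')

variable {L : FirstOrder.Language.{0, 0}} {M : Type u} [L.Structure M] [Nonempty M]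
variable {N : Type v} {p : N → Ultrafilter (ℕ → M)} {A U B : Set M}

/-- Proof: the coordinate `(μ, i)` of the assignment is `z (μ, i)` for `μ ≠ ν` and `x i` for `μ = ν`: `DefU.at`. -/
theorem defN_update {W : (N → ℕ → M) → Prop} (hW : DefN L A W) (ν : N) :
    DefU2 L A fun (x : ℕ → M) (z : N × ℕ → M) =>
      W (Function.update (fun μ i => z (μ, i)) ν x) := by
  have h1 := DefU.at hW (fun q : N × ℕ =>
    if q.1 = ν then (Sum.inl q.2 : ℕ ⊕ (N × ℕ)) else Sum.inr q)
  refine DefU.congr h1 fun w => ?_
  refine iff_of_eq (congrArg W ?_)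
  funext μ i
  by_cases h : μ = ν
  · subst h
    simp
  · simp [h]

/-- by `AlmT.evU` and `defN_update` -/
theorem defN_ev {ν : N} (hp : AlmT L A (p ν)) (hAU : A ⊆ U) (hU : Elt L U) (hUB : U ⊆ B)
    {W : (N → ℕ → M) → Prop} (hW : DefN L B W) :
    DefN L B fun a => Ev (p ν) fun x => W (Function.update a ν x) := by
  have : Nonempty (N × ℕ) := ⟨(ν, 0)⟩
  exact AlmT.evU hp hAU hU hUB (defN_update hW ν)

/-- by `ev_defU_univ` and `defN_update`, induction on `l` -/
theorem defN_it (hS : Stb L M) (l : List N) {W : (N → ℕ → M) → Prop} (hW : DefN L univ W) :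
    DefN L univ (It p l W) := by
  induction l with
  | nil => exact hW
  | cons ν l ih =>
    have : Nonempty (N × ℕ) := ⟨(ν, 0)⟩
    exact ev_defU_univ hS (p ν) (defN_update ih ν)

theorem it_true {l : List N} {W : (N → ℕ → M) → Prop} (h : ∀ a, W a) (a : N → ℕ → M) :
    It p l W a := by
  induction l generalizing a with
  | nil => exact h a
  | cons ν l ih => exact ev_of_all fun x => ih _

theorem it_congr {l : List N} {W W' : (N → ℕ → M) → Prop} (h : ∀ a, W a ↔ W' a)
    (a : N → ℕ → M) : It p l W a ↔ It p l W' a := by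
  have : W = W' := funext fun a => propext (h a)
  rw [this]

theorem it_and {l : List N} {W W' : (N → ℕ → M) → Prop} (a : N → ℕ → M) :
    It p l (fun a => W a ∧ W' a) a ↔ It p l W a ∧ It p l W' a := by
  induction l generalizing a with
  | nil => exact Iff.rfl
  | cons ν l ih =>
    have h : It p (ν :: l) (fun a => W a ∧ W' a) a ↔
        Ev (p ν) fun x => It p l W (Function.update a ν x) ∧ It p l W' (Function.update a ν x) :=
      ev_congr fun x => ih _
    exact h.trans ev_and

/-- induction on the finite set, `it_and`, `it_true` -/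
theorem it_all {l : List N} (F : Finset ((N → ℕ → M) → Prop)) (a : N → ℕ → M)
    (h : ∀ W ∈ F, It p l W a) : It p l (fun a => ∀ W ∈ F, W a) a := by
  induction F using Finset.induction_on with
  | empty => exact it_true (by simp) a
  | insert W0 F hW0 ih =>
    have h1 : It p l (fun a => W0 a ∧ ∀ W ∈ F, W a) a :=
      (it_and a).2 ⟨h W0 (Finset.mem_insert_self _ _),
        ih fun W hW => h W (Finset.mem_insert_of_mem hW)⟩
    exact (it_congr (fun a => by simp) a).1 h1

theorem it_exists {l : List N} {W : (N → ℕ → M) → Prop} {a : N → ℕ → M} (h : It p l W a) :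
    ∃ a', W a' := by
  induction l generalizing a with
  | nil => exact ⟨a, h⟩
  | cons ν l ih =>
    obtain ⟨x, hx⟩ := Ev.exists h
    exact ih hx

theorem it_append {l l' : List N} {W : (N → ℕ → M) → Prop} (a : N → ℕ → M) :
    It p (l ++ l') W a ↔ It p l (It p l' W) a := by
  induction l generalizing a with
  | nil => exact Iff.rfl
  | cons ν l ih => exact ev_congr fun x => ih _

end MP8f
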