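import Pool.Agent.Lib_MP_8da2c8_full.ItA

/-! STEP ItB: the order of the quantifiers does not matter. -/

namespace MP8f

open Cardinal Set FirstOrder Filter
open scoped Classical

universe u v w x

variable {L : FirstOrder.Language.{0, 0}} {M : Type u} [L.Structure M] [Nonempty M]
variable {N : Type v} {p : N → Ultrafilter (ℕ → M)} {A U B : Set M}

omit [Nonempty M] in
private theorem ItB_dep {W : (N → ℕ → M) → Prop} (l : List N) :
    ∀ (k : List N), Dep (k ++ l) W → ∀ a a' : N → ℕ → M, (∀ ν ∈ k, a ν = a' ν) →
      (It p l W a ↔ It p l W a') := by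
  induction l with
  | nil =>
    intro k hk a a' h
    exact hk a a' fun ν hν => h ν (by simpa using hν)
  | cons μ l ih =>
    intro k hk a a' h
    refine ev_congr fun x => ?_
    refine ih (k ++ [μ]) (by rwa [List.append_assoc]) _ _ fun ν hν => ?_
    by_cases hμ : ν = μ
    · subst hμ
      rw [Function.update_self, Function.update_self]
    · rw [Function.update_of_ne hμ, Function.update_of_ne hμ]
      refine h ν ?_
      rcases List.mem_append.1 hν with h1 | h1
      · exact h1
      · exact absurd (List.mem_singleton.1 h1) hμ

/-- Proof.  Show by induction on `l`, for all `a, a'`: if `W b ↔ W b'` whenever `b, b'` agree on `l` and agree where `a, a'` agree … (a convenient statement: if `W` depends only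
on the names in `k ++ l` and `a, a'` agree on `k` then `It p l W a ↔ It p l W a'`). -/
theorem it_dep {l : List N} {W : (N → ℕ → M) → Prop} (hW : Dep l W) (a a' : N → ℕ → M) :
    It p l W a ↔ It p l W a' :=
  ItB_dep l [] hW a a' fun _ h => absurd h List.not_mem_nil

private theorem ItB_def (hS : Stb L M) (l : List N) {W : (N → ℕ → M) → Prop}
    (hW : DefN L univ W) (a : N → ℕ → M) (ν μ : N) :
    DefU2 L univ fun (u : ℕ → M) (v : ℕ → M) =>
      It p l W (Function.update (Function.update a ν u) μ v) := by
  have hI := defN_it (p := p) hS l hW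
  have h0 := defN_update hI μ
  have h1 : DefU2 L univ fun (s : ℕ ⊕ ℕ → M) (z : N × ℕ → M) =>
      It p l W (Function.update (Function.update (fun κ i => z (κ, i)) ν fun i => s (.inl i)) μ
        fun i => s (.inr i)) := by
    refine (DefU2.at h0 (fun i => (Sum.inl (Sum.inr i) : (ℕ ⊕ ℕ) ⊕ (N × ℕ)))
      fun q => if q.1 = ν then Sum.inl (Sum.inl q.2) else Sum.inr q).congr fun z => ?_
    refine iff_of_eq (congrArg (It p l W) (congrArg (fun b => Function.update b μ _) ?_))
    funext κ i
    by_cases hκ : κ = ν
    · subst hκ
      rw [Function.update_self]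
      exact (congrArg z (if_pos rfl)).symm
    · rw [Function.update_of_ne hκ]
      exact (congrArg z (if_neg hκ)).symm
  exact h1.subst (fun q => a q.1 q.2) fun _ => mem_univ _

/-- The order of the quantifiers does not matter.
Proof.  Induction on the permutation.  Swap of `ν ≠ μ`: `Function.update_comm` and `ev_comm` for
`P x y = It p l W (update (update a ν x) μ y)`, definable over `univ` in `(x, y)` by `defN_it` and `defN_update` (the assignment `a` is a block of parameters). -/
theorem it_perm (hS : Stb L M) {l l' : List N} (h : l.Perm l') (hl : l.Nodup)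
    {W : (N → ℕ → M) → Prop} (hW : DefN L univ W) (a : N → ℕ → M) :
    It p l W a ↔ It p l' W a := by
  induction h generalizing a with
  | nil => exact Iff.rfl
  | cons ν h ih => exact ev_congr fun x => ih (List.nodup_cons.1 hl).2 _
  | swap μ ν l =>
    have hne : ν ≠ μ := fun h => (List.nodup_cons.1 hl).1 (by rw [h]; exact List.mem_cons_self)
    have h1 := ev_comm hS (p ν) (p μ) (ItB_def (p := p) hS l hW a ν μ)
    refine Iff.trans h1 ?_
    refine ev_congr fun y => ev_congr fun x => ?_
    rw [Function.update_comm hne]
  | trans h1 h2 ih1 ih2 => exact (ih1 hl a).trans (ih2 (h1.nodup_iff.1 hl) a)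

end MP8f
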