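import Pool.Agent.Lib_MP_8da2c8_full.RankA

/-! STEP LocDefA: definability of types. -/

namespace MP8f

open Cardinal Set FirstOrder Filter
open scoped Classical

universe u v w x

variable {L : FirstOrder.Language.{0, 0}} {M : Type u} [L.Structure M] [Nonempty M]

/-- Types are definable, locally over any set `U`.
Proof.  Say that `n` is possible if there is `Q : (ℕ → M) → Prop` with `DefU L U Q`, `Ev p Q` and
`¬ Tr R (n + 1) Q`.  Some `n` is possible: `Q = True`, and `¬ Tr R n True` for some `n` (`hS.gen`); `n ≠ 0` as blocks exist.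
Let `n` be the least possible number, with `Q`, and put `P y = Tr R n (fun x => Q x ∧ R x y)`; it is definable over `U` by `tr_defU`.
Let `y` be in `U`.  If `Ev p (R · y)`, then `Q' x = Q x ∧ R x y` is definable over `U` (`DefU2.subst`) and `Ev p Q'`; so `Tr R n Q'`:
for `n = 0` because `Ev.exists`, otherwise because `n - 1` is not possible.  If not `Ev p (R · y)`, then likewise
`Tr R n (fun x => Q x ∧ ¬ R x y)`; together with `P y` this would give `Tr R (n + 1) Q`. -/
theorem locdef0 (hS : Stb L M) (p : Ultrafilter (ℕ → M)) (U : Set M)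
    {R : (ℕ → M) → (ℕ → M) → Prop} (hR : Dfn2 L R) :
    ∃ P : (ℕ → M) → Prop, DefU L U P ∧
      ∀ y, (∀ i, y i ∈ U) → ((Ev p fun x => R x y) ↔ P y) := by
  have hex : ∃ n, ∃ Q : (ℕ → M) → Prop, DefU L U Q ∧ Ev p Q ∧ ¬ Tr R (n + 1) Q := by
    obtain ⟨n, hn⟩ := hS.gen hR
    rcases n with _ | n
    · exact absurd ⟨fun _ => Classical.arbitrary M, trivial⟩ hn
    · exact ⟨n, fun _ => True, DefU.const True, ev_of_all fun _ => trivial, hn⟩
  obtain ⟨Q, hQ, hQp, hQn⟩ := Nat.find_spec hex
  have hmin : ∀ Q' : (ℕ → M) → Prop, DefU L U Q' → Ev p Q' → Tr R (Nat.find hex) Q' := by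
    intro Q' hQ' hQ'p
    rcases hn : Nat.find hex with _ | m
    · exact hQ'p.exists
    · by_contra hcon
      exact Nat.find_min hex (m := m) (by omega) ⟨Q', hQ', hQ'p, hcon⟩
  have hRU : DefU2 L U R := DefU.of_dfn hR
  have h1 : DefU2 L U fun x y : ℕ → M => Q x ∧ R x y :=
    DefU.and (DefU.at hQ Sum.inl) hRU
  refine ⟨fun y => Tr R (Nat.find hex) fun x => Q x ∧ R x y, tr_defU hR _ h1, fun y hy => ?_⟩
  have hRy : DefU L U fun x => R x y := DefU2.subst hRU y hy
  constructor
  · intro h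
    exact hmin _ (hQ.and hRy) (ev_and.2 ⟨hQp, h⟩)
  · intro h
    by_contra hcon
    exact hQn ⟨y, h, hmin _ (hQ.and hRy.not) (ev_and.2 ⟨hQp, ev_not.2 hcon⟩)⟩

/-- by `Dfn2.reduce` -/
theorem locdef (hS : Stb L M) (p : Ultrafilter (ℕ → M)) (U : Set M) {β : Type w} [Nonempty β]
    {R : (ℕ → M) → (β → M) → Prop} (hR : Dfn2 L R) :
    ∃ P : (β → M) → Prop, DefU L U P ∧
      ∀ y, (∀ i, y i ∈ U) → ((Ev p fun x => R x y) ↔ P y) := by
  obtain ⟨R', hR', f, hf⟩ := hR.reduce
  obtain ⟨P, hP, hP'⟩ := locdef0 hS p U hR'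
  refine ⟨fun y => P fun j => y (f j), hP.at f, fun y hy => ?_⟩
  exact (ev_congr fun x => hf x y).trans (hP' (fun j => y (f j)) fun j => hy (f j))

/-- Proof.  `P x y ↔ Q (x, y, params)` with `Q` definable without parameters, the parameters forming a block indexed by
`(univ : Set M)`.  Apply `locdef` with `U = univ` to `Q` as a relation between `x` and the rest (index `β ⊕ univ`) and substitute
the parameters (`DefU2.subst`). -/
theorem ev_defU_univ (hS : Stb L M) (p : Ultrafilter (ℕ → M)) {β : Type w} [Nonempty β]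
    {P : (ℕ → M) → (β → M) → Prop} (hP : DefU2 L univ P) :
    DefU L univ fun y => Ev p fun x => P x y := by
  obtain ⟨Q, hQ, hPQ⟩ := hP
  have hR : Dfn2 L fun (x : ℕ → M) (z : β ⊕ (univ : Set M) → M) =>
      Q fun i => Sum.elim (Sum.elim x fun b => z (.inl b)) (fun a => z (.inr a)) i := by
    refine (hQ.at (Sum.elim (Sum.elim Sum.inl fun b => Sum.inr (Sum.inl b))
      fun a => Sum.inr (Sum.inr a))).congr fun z => ?_
    refine iff_of_eq (congrArg Q ?_)
    funext i
    rcases i with (i | i) | i <;> rfl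
  obtain ⟨P', hP', hP''⟩ := locdef hS p univ hR
  have h1 : DefU2 L univ fun (y : β → M) (a : ↥(univ : Set M) → M) => P' (Sum.elim y a) := by
    refine hP'.congr fun z => iff_of_eq (congrArg P' ?_)
    funext i
    cases i <;> rfl
  refine (h1.subst (fun a => a.1) fun a => mem_univ _).congr fun y => ?_
  refine Iff.trans ?_ (hP'' (Sum.elim y fun a => a.1) fun i => mem_univ _)
  refine ev_congr fun x => ?_
  exact hPQ (Sum.elim x y)

end MP8f
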