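import Pool.Agent.Lib_MP_8da2c8_full.BoE
import Pool.Agent.Lib_MP_8da2c8_full.HuE

/-! The main theorem. -/

namespace MP8f

open Cardinal Set FirstOrder FirstOrder.Language MP8da
open scoped Classical

universe u v w x

theorem main {l : Cardinal.{u}} {K : Type u} [LinearOrder K] [WellFoundedLT K] (hK : KOK l K)
    (hreg : l.IsRegular) (hunc : ℵ₀ < l) {L : FirstOrder.Language.{0, 0}} [L.IsRelational]
    [Countable L.Symbols] (T : L.Theory) (hs : Stable.{u} T) (hn : ¬ Superstable.{u} T)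
    (S : Set K) (π' : Atoms L K ↪ K) : BorelRed (EqNS S) (IsomT T π') := by
  obtain ⟨N, hN, hne, hNT, ⟨t⟩⟩ := exists_template T hs hn
  obtain ⟨μ, hμ, hst⟩ := hs
  obtain ⟨M, hM, hMne, j, ⟨w⟩⟩ := exists_world N t (YY K) fun M _ j => by
    haveI : Nonempty M := ⟨j (Classical.arbitrary N)⟩
    haveI : M ⊨ T := (j.theory_model_iff T).1 hNT
    exact stb_of_stable hμ hst
  haveI : M ⊨ T := (j.theory_model_iff T).1 hNT
  obtain ⟨π, B, hB⟩ := comb hK hreg hunc
  have hK0 : Nonempty K := by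
    rw [← Cardinal.mk_ne_zero_iff, hK.card]
    exact Order.succ_ne_bot l
  haveI : Inhabited K := ⟨Classical.choice hK0⟩
  exact red_of_world hK T w (B := B) hB S π'

end MP8f
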