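import Pool.Agent.Lib_MP_8da2c8_full.DiaA
import Pool.Agent.Lib_MP_8da2c8_full.CombA

/-! STEP NiA: clubs of closure points, in terms of codes. -/

namespace MP8f

open Cardinal Set MP8da
open scoped Classical

universe u v w x

variable {l : Cardinal.{u}} {K : Type u} [LinearOrder K] [WellFoundedLT K]

/-- Proof.  `Γ` is countable: enumerate it by `ℕ` (if it is empty take `C = univ`).  `club_closed` for `F n t = if h : ∃ s : List A, s.map ca = t then cb (f (γ n) h.choose) else` an arbitrary element (`K` is not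
empty by `hK.card`); `s.map ca` determines `s` (`List.map_injective_iff`). -/
theorem club_maps (hK : KOK l K) {Γ : Type x} [Countable Γ] {A : Type v} {B : Type w} (ca : A → K)
    (hca : Function.Injective ca) (cb : B → K) (f : Γ → List A → B) :
    ∃ C : Set K, IsClub C ∧ ∀ δ ∈ C, ∀ γ (s : List A), (∀ a ∈ s, ca a < δ) →
      cb (f γ s) < δ := by
  cases isEmpty_or_nonempty Γ with
  | inl h => exact ⟨univ, IsClub.univ, fun δ _ γ => (h.false γ).elim⟩
  | inr h =>
    obtain ⟨g, hg⟩ := exists_surjective_nat Γ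
    have hmap : Function.Injective (List.map ca) := List.map_injective_iff.2 hca
    obtain ⟨C, hC, hC'⟩ := club_closed hK (fun n t =>
      if h : ∃ s : List A, s.map ca = t then cb (f (g n) h.choose) else cb (f (g n) []))
    refine ⟨C, hC, fun δ hδ γ s hs => ?_⟩
    obtain ⟨n, rfl⟩ := hg γ
    have h1 := (hC' δ hδ).2.2 n (s.map ca) (by
      intro x hx
      obtain ⟨a, ha, rfl⟩ := List.mem_map.1 hx
      exact hs a ha)
    have h2 : ∃ s' : List A, s'.map ca = s.map ca := ⟨s, rfl⟩
    rw [dif_pos h2] at h1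
    rw [hmap h2.choose_spec] at h1
    exact h1

/-- Proof.  `club_maps` with `Γ = ℕ`, `B := K`, `cb = id`, `f n s` = the code of the `n`-th element of `F a` (in an enumeration of `F a`), if `s = [a]` and `F a` is nonempty; an arbitrary
element otherwise. -/
theorem club_count (hK : KOK l K) {A : Type v} {B : Type w} (ca : A → K)
    (hca : Function.Injective ca) (cb : B → K) (F : A → Set B) (hF : ∀ a, (F a).Countable) :
    ∃ C : Set K, IsClub C ∧ ∀ δ ∈ C, ∀ a, ca a < δ → ∀ b ∈ F a, cb b < δ := by
  have h0 : ∀ a, ∃ e : ℕ → K, ∀ b ∈ F a, ∃ n, e n = cb b := by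
    intro a
    rcases (F a).eq_empty_or_nonempty with h | h
    · refine ⟨fun _ => ca a, fun b hb => ?_⟩
      rw [h] at hb
      exact hb.elim
    · obtain ⟨e, he⟩ := (hF a).exists_eq_range h
      refine ⟨fun n => cb (e n), fun b hb => ?_⟩
      rw [he] at hb
      obtain ⟨n, rfl⟩ := hb
      exact ⟨n, rfl⟩
  choose e he using h0
  cases isEmpty_or_nonempty A with
  | inl h => exact ⟨univ, IsClub.univ, fun δ _ a => (h.false a).elim⟩
  | inr h =>
    obtain ⟨a0⟩ := h
    obtain ⟨C, hC, hC'⟩ := club_maps hK ca hca (id : K → K) (fun (n : ℕ) (s : List A) =>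
      match s with
      | [] => ca a0
      | a :: _ => e a n)
    refine ⟨C, hC, fun δ hδ a ha b hb => ?_⟩
    obtain ⟨n, hn⟩ := he a b hb
    have h1 := hC' δ hδ n [a] (by
      intro x hx
      rw [List.mem_singleton.1 hx]
      exact ha)
    rw [← hn]
    exact h1

private def NiA_f : List (Bool × Finset ℕ × ℕ) → List K → List (YY K)
  | (b, g, i) :: γ, ρ :: β :: t => (ρ, if b then .x β else .y g β i) :: NiA_f γ t
  | _, _ => []

private def NiA_sh : List (YY K) → List (Bool × Finset ℕ × ℕ)
  | [] => []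
  | (_, .x _) :: s => (true, ∅, 0) :: NiA_sh s
  | (_, .y g _ i) :: s => (false, g, i) :: NiA_sh s

private def NiA_lab : List (YY K) → List K
  | [] => []
  | y :: s => y.1 :: usr y.2 :: NiA_lab s

omit [LinearOrder K] [WellFoundedLT K] in
private theorem NiA_f_sh (s : List (YY K)) : NiA_f (NiA_sh s) (NiA_lab s) = s := by
  induction s with
  | nil => rfl
  | cons y s ih =>
    obtain ⟨ρ, v⟩ := y
    cases v with
    | x α => simp [NiA_sh, NiA_lab, NiA_f, usr, ih]
    | y g β i => simp [NiA_sh, NiA_lab, NiA_f, usr, ih]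

omit [LinearOrder K] [WellFoundedLT K] in
private theorem NiA_mem_lab {s : List (YY K)} {a : K} :
    a ∈ NiA_lab s ↔ ∃ y ∈ s, a = y.1 ∨ a = usr y.2 := by
  induction s with
  | nil => simp [NiA_lab]
  | cons y s ih => simp [NiA_lab, ih, or_assoc]

/-- Codes of lists of symbols.
Proof.  From right to left: `club_maps` with `A = K`, `ca = id`, `Γ = List (Bool × Finset ℕ × ℕ)` (the shapes of the symbols), `B = List (YY K)`, `cb = c`, `f γ t` = the list of symbols with shape `γ` and
labels and ordinals from `t`: `f [] t = []`, `f ((b, g, i) :: γ) (ρ :: β :: t) = (ρ, if b then .x β else .y g β i) :: f γ t`, anything in other cases.  Every list `s` of symbols is `f γ t` where `t` is the list of the labels and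
ordinals in `s`.  From left to right: `club_count` with `A = List (YY K)`, `B = K`, `cb = id` and the finite set of the labels and ordinals of `s`.  Intersect (`club_inter`). -/
theorem club_sym (hK : KOK l K) (c : List (YY K) → K) (hc : Function.Injective c) :
    ∃ C : Set K, IsClub C ∧ ∀ δ ∈ C, ∀ s : List (YY K), c s < δ ↔ ∀ y ∈ s, Ylt y δ := by
  obtain ⟨C1, h1, h1'⟩ := club_maps hK (id : K → K) Function.injective_id c
    (NiA_f : List (Bool × Finset ℕ × ℕ) → List K → List (YY K))
  obtain ⟨C2, h2, h2'⟩ := club_count hK c hc (id : K → K) (fun s => {a | a ∈ NiA_lab s})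
    (fun s => (NiA_lab s).finite_toSet.countable)
  refine ⟨C1 ∩ C2, club_inter hK h1 h2, fun δ hδ s => ⟨fun h y hy => ?_, fun h => ?_⟩⟩
  · exact ⟨h2' δ hδ.2 s h y.1 (NiA_mem_lab.2 ⟨y, hy, Or.inl rfl⟩),
      h2' δ hδ.2 s h (usr y.2) (NiA_mem_lab.2 ⟨y, hy, Or.inr rfl⟩)⟩
  · have h3 := h1' δ hδ.1 (NiA_sh s) (NiA_lab s) (by
      intro a ha
      obtain ⟨y, hy, hya⟩ := NiA_mem_lab.1 ha
      rcases hya with rfl | rfl
      · exact (h y hy).1
      · exact (h y hy).2)
    rw [NiA_f_sh] at h3
    exact h3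

end MP8f
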