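import Pool.Agent.Lib_MP_8da2c8_full.TreeB
import Pool.Agent.Lib_MP_8da2c8_full.CrB

/-! STEP NiC: two applications of the coheir lemma. -/

namespace MP8f

open Cardinal Set FirstOrder Filter
open scoped Classical

universe u v w x

variable {L : FirstOrder.Language.{0, 0}} {M : Type u} [L.Structure M] [Nonempty M]
variable {Y : Type u}

omit [Nonempty M] in
private theorem NiC_real {A : Set M} (φ : L.Formula (ℕ ⊕ ℕ)) :
    DefU2 L A fun x y : ℕ → M => φ.Realize (Sum.elim x y) := by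
  refine DefU.of_dfn ⟨φ, fun z => iff_of_eq (congrArg φ.Realize ?_)⟩
  funext i
  cases i <;> rfl

omit [Nonempty M] in
private theorem NiC_real' {A : Set M} (ψ : L.Formula (ℕ ⊕ ℕ)) {e : ℕ → M} (he : ∀ i, e i ∈ A) :
    DefU L A fun z : ℕ ⊕ ℕ → M => ψ.Realize (Sum.elim (fun i => z (.inr i)) e) :=
  DefU.at (DefU2.subst (NiC_real ψ) e he) Sum.inr

private theorem NiC_union {S : Nm Y → Set (Nm Y)} {X Z : Set (Nm Y)} (hX : Cl S X)
    (hZ : Cl S Z) : Cl S (X ∪ Z) := by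
  rintro ν (h | h)
  · exact (hX ν h).trans subset_union_left
  · exact (hZ ν h).trans subset_union_right

/-- The type of the block of a branch over a closed set of names which contains exactly the nodes up to `k` of the branch.
Proof.  `.br b ∉ Z` (otherwise `.nd (seg b (k + 1)) ∈ Z` by `hZ`).  Let `X = {.br b} ∪ {.nd (seg b n) | n}`, a closed set (`Nm.cl_closed (.br b)`); `X ∩ Z = {.nd (seg b n) | n ≤ k}`, and `w.σ.Ml (X ∩ Z) = range (w.σ.e (.nd (seg b k)))`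
(`w_ml_chain`), elementary (`w_elt`).  If the equivalence fails for `y` let `P x y = ¬ (φ_k (x, y) ↔ ψ_k (y, w.σ.e (.nd (seg b k))))` (all `x, y`); it is definable over `w.σ.Ml (X ∩ Z)`, and `P (w.σ.e (.br b)) y`;
by `cr` there is `y0` in `w.σ.Ml (X ∩ Z)` with `P (w.σ.e (.br b)) y0`, contradicting the last clause of `w_d`.  (`w.hSS : w.σ.S = Nm.S`.) -/
theorem br_def (w : World L M Y) (b : ℕ → Y) (k : ℕ) {Z : Set (Nm Y)} (hZ : Cl Nm.S Z)
    (hZk : ∀ n, Nm.nd (seg b n) ∈ Z ↔ n ≤ k) (y : ℕ → M) (hy : ∀ i, y i ∈ w.σ.Ml Z) :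
    (w.t.φ k).Realize (Sum.elim (w.σ.e (.br b)) y) ↔
      (w.t.ψ k).Realize (Sum.elim y (w.σ.e (.nd (seg b k)))) := by
  have hX : Cl w.σ.S (Nm.br b).cl := by
    rw [w.hSS]
    exact Nm.cl_closed (.br b)
  have hZ' : Cl w.σ.S Z := by
    rw [w.hSS]
    exact hZ
  have hbr : Nm.br b ∉ Z := by
    intro h
    have h1 : Nm.nd (seg b (k + 1)) ∈ Z := hZ _ h ⟨k + 1, rfl⟩
    have h2 := (hZk _).1 h1
    omega
  have hXZ : (Nm.br b).cl ∩ Z = {ν | ∃ n ≤ k, ν = .nd (seg b n)} := by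
    ext ν
    constructor
    · rintro ⟨h1 | ⟨n, h1⟩, h2⟩
      · rw [mem_singleton_iff] at h1
        rw [h1] at h2
        exact absurd h2 hbr
      · rw [h1] at h2
        exact ⟨n, (hZk n).1 h2, h1⟩
    · rintro ⟨n, hn, rfl⟩
      exact ⟨Or.inr ⟨n, rfl⟩, (hZk n).2 hn⟩
  have hMl : w.σ.Ml ((Nm.br b).cl ∩ Z) = range (w.σ.e (.nd (seg b k))) := by
    rw [hXZ]
    exact w_ml_chain w b k
  have he : Elt L (w.σ.Ml ((Nm.br b).cl ∩ Z)) := by
    rw [hMl]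
    exact w_elt w _
  have hek : ∀ i, w.σ.e (.nd (seg b k)) i ∈ w.σ.Ml ((Nm.br b).cl ∩ Z) := by
    intro i
    rw [hMl]
    exact mem_range_self i
  by_contra hcon
  obtain ⟨y0, hy0, h0⟩ := cr (P := fun x y => ¬ ((w.t.φ k).Realize (Sum.elim x y) ↔
      (w.t.ψ k).Realize (Sum.elim y (w.σ.e (.nd (seg b k)))))) w.σ w.hS hX hZ' he
    (a := w.σ.e (.br b)) (fun i => Or.inr ⟨.br b, Or.inl rfl, i, rfl⟩)
    (DefU.not (DefU.iff (NiC_real (w.t.φ k)) (NiC_real' (w.t.ψ k) hek))) hy hcon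
  obtain ⟨f, -, -, h1⟩ := w_d w b k
  refine h0 (h1 y0 fun i => ?_)
  rw [← hMl]
  exact hy0 i

/-- If the type of `a` over `Ml Z` is given by `ψ(·, e)` at `φ`, and `d` is a counterexample, then the names of `a` and of `d` have a common element outside `Z`.
Proof.  Otherwise `(X ∪ Z) ∩ (X' ∪ Z) = Z`.  Apply `cr` to these closed sets and `P x y = φ(x, y) ∧ ¬ ψ(y, e)`, definable over `w.σ.Ml Z`. -/
theorem meet (w : World L M Y) {X X' Z : Set (Nm Y)} (hX : Cl Nm.S X) (hX' : Cl Nm.S X')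
    (hZ : Cl Nm.S Z) (hZe : Elt L (w.σ.Ml Z)) {a d e : ℕ → M} (ha : ∀ i, a i ∈ w.σ.Ml X)
    (hd : ∀ i, d i ∈ w.σ.Ml X') (he : ∀ i, e i ∈ w.σ.Ml Z) {φ ψ : L.Formula (ℕ ⊕ ℕ)}
    (h1 : φ.Realize (Sum.elim a d)) (h2 : ¬ ψ.Realize (Sum.elim d e))
    (h3 : ∀ y : ℕ → M, (∀ i, y i ∈ w.σ.Ml Z) →
      (φ.Realize (Sum.elim a y) ↔ ψ.Realize (Sum.elim y e))) :
    ∃ ν, ν ∈ X ∧ ν ∈ X' ∧ ν ∉ Z := by
  by_contra hcon
  have hint : (X ∪ Z) ∩ (X' ∪ Z) = Z := by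
    ext ν
    constructor
    · rintro ⟨h4 | h4, h5 | h5⟩
      · by_contra h6
        exact hcon ⟨ν, h4, h5, h6⟩
      · exact h5
      · exact h4
      · exact h4
    · exact fun h => ⟨Or.inr h, Or.inr h⟩
  have c1 : Cl w.σ.S (X ∪ Z) := by
    rw [w.hSS]
    exact NiC_union hX hZ
  have c2 : Cl w.σ.S (X' ∪ Z) := by
    rw [w.hSS]
    exact NiC_union hX' hZ
  have hZe' : Elt L (w.σ.Ml ((X ∪ Z) ∩ (X' ∪ Z))) := by
    rw [hint]
    exact hZe
  have he' : ∀ i, e i ∈ w.σ.Ml ((X ∪ Z) ∩ (X' ∪ Z)) := by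
    rw [hint]
    exact he
  obtain ⟨y0, hy0, h4, h5⟩ := cr (P := fun x y => φ.Realize (Sum.elim x y) ∧
      ¬ ψ.Realize (Sum.elim y e)) w.σ w.hS c1 c2 hZe' (a := a)
    (fun i => MlS.mono subset_union_left (ha i))
    (DefU.and (NiC_real φ) (DefU.not (NiC_real' ψ he')))
    (fun i => MlS.mono subset_union_left (hd i)) ⟨h1, h2⟩
  rw [hint] at hy0
  exact h5 ((h3 y0 hy0).1 h4)

end MP8f
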