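import Pool.Agent.Lib_MP_8da2c8_full.NiC
import Pool.Agent.Lib_MP_8da2c8_full.NiD

/-! STEP NiE: the common names. -/

namespace MP8f

open Cardinal Set FirstOrder Filter MP8da
open scoped Classical

universe u v w x

variable {K : Type u} [LinearOrder K]
variable {L : FirstOrder.Language.{0, 0}} {M : Type u} [L.Structure M] [Nonempty M]

private theorem niE_mem_map {w : World L M (YY K)} {cd : Nm (YY K) → K} {X X' : Set (Nm (YY K))}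
    {G G' : M → M} {nm nm' : M → Nm (YY K)} {δ : K} (h : Lvl w cd X X' G G' nm nm' δ)
    (hT : Tw L (w.σ.Ml X) (w.σ.Ml X') G G') (hn' : NmOK w X' nm')
    {a : M} (ha : a ∈ w.σ.Ml (Xlt cd X δ)) : G a ∈ w.σ.Ml (Xlt cd X' δ) := by
  have h1 : ∃ ν ∈ Xlt cd X δ, ∃ i, w.σ.e ν i = a := by
    obtain ⟨nm0, h0⟩ := exists_nm w h.root
    exact ⟨nm0 a, (h0 a ha).1, (h0 a ha).2⟩
  obtain ⟨ν, hν, i, rfl⟩ := h1
  have h2 : w.σ.e ν i ∈ w.σ.Ml X := Or.inr ⟨ν, hν.1, i, rfl⟩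
  obtain ⟨h3, j, h4⟩ := hn' _ (hT.mem _ h2)
  exact Or.inr ⟨nm' (G (w.σ.e ν i)), ⟨h3, h.map ν hν.2 i⟩, j, h4⟩

private theorem niE_mem_map' {w : World L M (YY K)} {cd : Nm (YY K) → K} {X X' : Set (Nm (YY K))}
    {G G' : M → M} {nm nm' : M → Nm (YY K)} {δ : K} (h : Lvl w cd X X' G G' nm nm' δ)
    (hT : Tw L (w.σ.Ml X) (w.σ.Ml X') G G') (hn : NmOK w X nm)
    {a : M} (ha : a ∈ w.σ.Ml (Xlt cd X' δ)) : G' a ∈ w.σ.Ml (Xlt cd X δ) := by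
  have h1 : ∃ ν ∈ Xlt cd X' δ, ∃ i, w.σ.e ν i = a := by
    obtain ⟨nm0, h0⟩ := exists_nm w h.root'
    exact ⟨nm0 a, (h0 a ha).1, (h0 a ha).2⟩
  obtain ⟨ν, hν, i, rfl⟩ := h1
  have h2 : w.σ.e ν i ∈ w.σ.Ml X' := Or.inr ⟨ν, hν.1, i, rfl⟩
  obtain ⟨h3, j, h4⟩ := hn _ (hT.mem' _ h2)
  exact Or.inr ⟨nm (G' (w.σ.e ν i)), ⟨h3, h.map' ν hν.2 i⟩, j, h4⟩

/-- For every `k` there is a name `ν` with code between `α k` and `α (k + 1)`, in the closure of a name of an element `G (w.σ.e (.br b) i)` and in the closure of a name of an element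
`G (w.σ.e (.nd (seg b (k + 1))) j)`.
Proof.  Write `a = w.σ.e (.br b)`, `e = w.σ.e (.nd (seg b k))`, `Xk = Xlt cd X (α k)`, `X'k = Xlt cd X' (α k)`.  By `hlvl`, `sym` and `brn_lt`, `.nd (seg b n) ∈ Xk ↔ n ≤ k` (`hX` and `hbX` give `.nd (seg b n) ∈ X`).  By `br_def` for `Z = Xk`:
for `y` in `w.σ.Ml Xk`, `φ_k(a, y) ↔ ψ_k(y, e)`.  Let `d i = w.σ.e (.nd (seg b (k + 1))) (f i)` be as in `w_d`: `φ_k(a, d)`, `¬ ψ_k(d, e)`.  By `hT.pres` (all the elements are in `w.σ.Ml X`) `φ_k(G a, G d)`, `¬ ψ_k(G d, G e)`, and for `y'` in `w.σ.Ml X'k`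
`φ_k(G a, y') ↔ ψ_k(y', G e)`, because `y' = G y` with `y = G' y'` in `w.σ.Ml Xk` (`Lvl.mem_map'`, `hT.inv'`).  `G e` is in `w.σ.Ml X'k` (`Lvl.mem_map`).  Apply `meet` to `{ν | ∃ i, ν ∈ (nm' (G (a i))).cl}`, `{ν | ∃ j, ν ∈ (nm' (G (w.σ.e (.nd (seg b (k + 1))) j))).cl}` (closed: `Nm.cl_closed`;
`nm'` names: `hn'`, `Nm.self_mem_cl`) and `Z = X'k`.  So there is `ν` in both closures with `ν ∉ X'k`; `ν ∈ X'` by `Nm.cl_min`, so `¬ cd ν < α k`.  As `.nd (seg b (k + 1)) ∈ Xlt cd X (α (k + 1))`, `map` gives that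
`nm' (G (w.σ.e (.nd (seg b (k + 1))) j))` is in `Xlt cd X' (α (k + 1))`, closed, so `cd ν < α (k + 1)` (`Nm.cl_min`). -/
theorem common (w : World L M (YY K)) {cd : Nm (YY K) → K} {X X' : Set (Nm (YY K))}
    (hX : Full X) (hX' : Full X') {G G' : M → M} {nm nm' : M → Nm (YY K)}
    (hT : Tw L (w.σ.Ml X) (w.σ.Ml X') G G') (hn : NmOK w X nm) (hn' : NmOK w X' nm')
    {α ρ : ℕ → K} (h : ∀ k, α k < ρ k ∧ ρ k < α (k + 1))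
    (hlvl : ∀ k, Lvl w cd X X' G G' nm nm' (α k)) (hbX : Nm.br (brn α ρ) ∈ X) (k : ℕ) :
    ∃ ν ∈ X', ¬ cd ν < α k ∧ cd ν < α (k + 1) ∧
      (∃ i, ν ∈ (nm' (G (w.σ.e (.br (brn α ρ)) i))).cl) ∧
      ∃ j, ν ∈ (nm' (G (w.σ.e (.nd (seg (brn α ρ) (k + 1))) j))).cl := by
  have hnX : ∀ n, Nm.nd (seg (brn α ρ) n) ∈ X := fun n => hX.cl _ hbX ⟨n, rfl⟩
  have hnk : ∀ k n, Nm.nd (seg (brn α ρ) n) ∈ Xlt cd X (α k) ↔ n ≤ k := by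
    intro k n
    constructor
    · rintro ⟨-, h2⟩
      exact (brn_lt h k n).1 (((hlvl k).sym _).1 h2)
    · intro h1
      exact ⟨hnX n, ((hlvl k).sym _).2 ((brn_lt h k n).2 h1)⟩
  have hbr := br_def w (brn α ρ) k (hlvl k).cl (hnk k)
  obtain ⟨f, hd1, hd2, -⟩ := w_d w (brn α ρ) k
  have ha : ∀ i, w.σ.e (.br (brn α ρ)) i ∈ w.σ.Ml X := fun i => Or.inr ⟨_, hbX, i, rfl⟩
  have hd : ∀ i, w.σ.e (.nd (seg (brn α ρ) (k + 1))) i ∈ w.σ.Ml X := fun i =>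
    Or.inr ⟨_, hnX (k + 1), i, rfl⟩
  have he : ∀ i, w.σ.e (.nd (seg (brn α ρ) k)) i ∈ w.σ.Ml X := fun i =>
    Or.inr ⟨_, hnX k, i, rfl⟩
  have hek : ∀ i, w.σ.e (.nd (seg (brn α ρ) k)) i ∈ w.σ.Ml (Xlt cd X (α k)) := fun i =>
    Or.inr ⟨_, (hnk k k).2 le_rfl, i, rfl⟩
  have hmX : ∀ a, a ∈ w.σ.Ml (Xlt cd X (α k)) → a ∈ w.σ.Ml X := fun a h1 =>
    MlS.mono (fun ν hν => hν.1) h1
  have hmX' : ∀ a, a ∈ w.σ.Ml (Xlt cd X' (α k)) → a ∈ w.σ.Ml X' := fun a h1 =>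
    MlS.mono (fun ν hν => hν.1) h1
  obtain ⟨ν, ⟨i, hi⟩, ⟨j, hj⟩, hν⟩ := meet w
    (X := {ν | ∃ i, ν ∈ (nm' (G (w.σ.e (.br (brn α ρ)) i))).cl})
    (X' := {ν | ∃ j, ν ∈ (nm' (G (w.σ.e (.nd (seg (brn α ρ) (k + 1))) j))).cl})
    (Z := Xlt cd X' (α k))
    (by
      rintro ν ⟨i, hi⟩ μ hμ
      exact ⟨i, Nm.cl_closed _ ν hi hμ⟩)
    (by
      rintro ν ⟨i, hi⟩ μ hμ
      exact ⟨i, Nm.cl_closed _ ν hi hμ⟩)
    (hlvl k).cl' (hlvl k).elt'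
    (a := fun i => G (w.σ.e (.br (brn α ρ)) i))
    (d := fun i => G (w.σ.e (.nd (seg (brn α ρ) (k + 1))) (f i)))
    (e := fun i => G (w.σ.e (.nd (seg (brn α ρ) k)) i))
    (by
      intro i
      obtain ⟨h1, j, h2⟩ := hn' _ (hT.mem _ (ha i))
      exact Or.inr ⟨_, ⟨i, Nm.self_mem_cl _⟩, j, h2⟩)
    (by
      intro i
      obtain ⟨h1, j, h2⟩ := hn' _ (hT.mem _ (hd (f i)))
      exact Or.inr ⟨_, ⟨f i, Nm.self_mem_cl _⟩, j, h2⟩)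
    (fun i => niE_mem_map (hlvl k) hT hn' (hek i))
    (φ := w.t.φ k) (ψ := w.t.ψ k)
    ((hT.pres (w.t.φ k) _ _ ha fun i => hd (f i)).1 hd1)
    (fun h1 => hd2 ((hT.pres (w.t.ψ k) (fun i => w.σ.e (.nd (seg (brn α ρ) (k + 1))) (f i))
      (w.σ.e (.nd (seg (brn α ρ) k))) (fun i => hd (f i)) he).2 h1))
    (by
      intro y' hy'
      have h1 : ∀ i, G' (y' i) ∈ w.σ.Ml (Xlt cd X (α k)) := fun i =>
        niE_mem_map' (hlvl k) hT hn (hy' i)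
      have h2 : (fun i => G (G' (y' i))) = y' := funext fun i => hT.inv' _ (hmX' _ (hy' i))
      have h3 := hbr (fun i => G' (y' i)) h1
      have h4 := hT.pres (w.t.φ k) (w.σ.e (.br (brn α ρ))) (fun i => G' (y' i)) ha
        fun i => hmX _ (h1 i)
      have h5 := hT.pres (w.t.ψ k) (fun i => G' (y' i)) (w.σ.e (.nd (seg (brn α ρ) k)))
        (fun i => hmX _ (h1 i)) he
      rw [h2] at h4 h5
      exact h4.symm.trans (h3.trans h5))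
  have h1 : nm' (G (w.σ.e (.nd (seg (brn α ρ) (k + 1))) j)) ∈ X' := (hn' _ (hT.mem _ (hd j))).1
  have h2 : ν ∈ X' := Nm.cl_min hX'.cl h1 hj
  have h3 : nm' (G (w.σ.e (.nd (seg (brn α ρ) (k + 1))) j)) ∈ Xlt cd X' (α (k + 1)) :=
    ⟨h1, (hlvl (k + 1)).map _ ((hnk (k + 1) (k + 1)).2 le_rfl).2 j⟩
  have h4 : ν ∈ Xlt cd X' (α (k + 1)) := Nm.cl_min (hlvl (k + 1)).cl' h3 hj
  exact ⟨ν, h2, fun h5 => hν ⟨h2, h5⟩, h4.2, ⟨i, hi⟩, ⟨j, hj⟩⟩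

end MP8f
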