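import Pool.Agent.Lib_MP_8da2c8_full.ItB

/-! STEP ProdEx: realizing many types independently. -/

namespace MP8f

open Cardinal Set FirstOrder Filter
open scoped Classical

universe u v w x

variable {L : FirstOrder.Language.{0, 0}} {M : Type u} [L.Structure M] [Nonempty M]

/-- Proof.  A condition `P` on `V'` becomes `fun v => P (fun i => v (f i))` (`DefU.at`). -/
theorem SatStep.comap {U U' : Set M} {V V' : Type u} (f : V' ↪ V) (h : SatStep L U U' V) :
    SatStep L U U' V' := by
  intro W hW hfin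
  obtain ⟨v, hv, hv'⟩ := h ((fun (P : (V' → M) → Prop) (v : V → M) => P fun i => v (f i)) '' W)
    (by
      rintro _ ⟨P, hP, rfl⟩
      exact (hW P hP).at f)
    (by
      intro F hF
      obtain ⟨F', hF', hFF⟩ := Finset.subset_set_image_iff.1 hF
      obtain ⟨v', hv'⟩ := hfin F' hF'
      refine ⟨Function.extend f v' fun _ => Classical.arbitrary M, fun P hP => ?_⟩
      rw [← hFF] at hP
      obtain ⟨P', hP', rfl⟩ := Finset.mem_image.1 hP
      have h1 : (fun i => Function.extend f v' (fun _ => Classical.arbitrary M) (f i)) = v' :=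
        funext fun i => f.injective.extend_apply _ _ _
      show P' fun i => Function.extend f v' (fun _ => Classical.arbitrary M) (f i)
      rw [h1]
      exact hv' P' hP')
  exact ⟨fun i => v (f i), fun i => hv _, fun P hP => hv' _ ⟨P, hP, rfl⟩⟩

/-- `Q` does not depend on the block of `ν` -/
private def Ind {N : Type u} (ν : N) (Q : (ℕ → M) → (N × ℕ → M) → Prop) : Prop :=
  ∀ x (z z' : N × ℕ → M), (∀ μ, μ ≠ ν → ∀ i, z (μ, i) = z' (μ, i)) → (Q x z ↔ Q x z')

omit [Nonempty M] in
private theorem prodEx_one {N : Type u} {p : N → Ultrafilter (ℕ → M)} (ν : N)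
    {Q : (ℕ → M) → (N × ℕ → M) → Prop} (hQ : Ind ν Q) (b : N → ℕ → M) :
    It p [ν] (fun a => (Q (fun i => a ν i) fun q => a q.1 q.2) ↔
      Ev (p ν) fun x => Q x fun q => a q.1 q.2) b := by
  show Ev (p ν) fun x => ((Q (fun i => Function.update b ν x ν i)
    fun q => Function.update b ν x q.1 q.2) ↔
      Ev (p ν) fun x' => Q x' fun q => Function.update b ν x q.1 q.2)
  have h1 : ∀ x x' : ℕ → M, (Q x' fun q => Function.update b ν x q.1 q.2) ↔
      Q x' fun q => b q.1 q.2 := fun x x' => hQ _ _ _ fun μ hμ i => by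
    show Function.update b ν x μ i = b μ i
    rw [Function.update_of_ne hμ]
  have h2 : Ev (p ν) fun x => (Q x fun q => b q.1 q.2) ↔
      Ev (p ν) fun x' => Q x' fun q => b q.1 q.2 := ev_iff.2 ev_const.symm
  refine h2.mono fun x hx => ?_
  rw [Function.update_self]
  exact (h1 x x).trans (hx.trans (ev_congr fun x' => (h1 x x').symm))

private theorem prodEx_fin (hS : Stb L M) {N : Type u} {p : N → Ultrafilter (ℕ → M)}
    (l : List N) (hl : l.Nodup) {ν : N} (hν : ν ∈ l) {Q : (ℕ → M) → (N × ℕ → M) → Prop}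
    (hQ : Ind ν Q) (hd : DefN L univ fun a => (Q (fun i => a ν i) fun q => a q.1 q.2) ↔
      Ev (p ν) fun x => Q x fun q => a q.1 q.2) (a : N → ℕ → M) :
    It p l (fun a => (Q (fun i => a ν i) fun q => a q.1 q.2) ↔
      Ev (p ν) fun x => Q x fun q => a q.1 q.2) a := by
  have h1 : l.Perm (l.erase ν ++ [ν]) :=
    (List.perm_cons_erase hν).trans (List.perm_append_singleton ν (l.erase ν)).symm
  rw [it_perm hS h1 hl hd, it_append]
  exact it_true (prodEx_one ν hQ) a

/-- Proof.  `W` is the set of conditions on `z : N × ℕ → M` of the form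
`Q (fun i => z (ν, i)) z ↔ Ev (p ν) (fun x => Q x z)` where `Q` is definable over `U` (`DefU2 L U Q`, blocks `ℕ` and `N × ℕ`) and does not depend on the coordinates `(ν, i)` of `z`.
They are definable over `U` (`AlmT.evU`).  Finitely many of them are satisfied together: each depends on finitely many names; let `l` be a list without repetition
of all the names involved (finite supports, `DefU.supp`, and the `ν`s).  By `it_all`, `it_exists` it is enough that `It p l W a` for each of them.  By `it_perm` we may take `l = l' ++ [ν]`; by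
`it_append` and `it_true` it is enough that for every `a`: `Ev (p ν) (fun x => (Q x z ↔ Ev (p ν) (fun x' => Q x' z)))` with `z` from `a`
(the change at `ν` does not matter), which is true by `ev_iff`, `ev_const`.  So the conditions are satisfied by some `z` in `U'` (`SatStep.comap`), `e ν i = z (ν, i)`.
Let `P` be definable over `U ∪ {a | ∃ μ ≠ ν, ∃ i, e μ i = a}`, `P x ↔ Q0 (x, params)`; for a parameter `a ∉ U` choose `(μ, i)` with `μ ≠ ν`, `e μ i = a`; so
`P x ↔ Q x e` with `Q` as above. -/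
theorem exists_prod (hS : Stb L M) {U U' : Set M} (hU : Elt L U) {V : Type u}
    (sat : SatStep L U U' V) {N : Type u} (emb : N × ℕ ↪ V) (p : N → Ultrafilter (ℕ → M))
    (hp : ∀ ν, AlmT L U (p ν)) : ∃ e : N → ℕ → M, (∀ ν i, e ν i ∈ U') ∧
      ∀ (ν : N) (P : (ℕ → M) → Prop), DefU L (U ∪ {a | ∃ μ, μ ≠ ν ∧ ∃ i, e μ i = a}) P →
        (P (e ν) ↔ Ev (p ν) P) := by
  let C : N → ((ℕ → M) → (N × ℕ → M) → Prop) → (N × ℕ → M) → Prop := fun ν Q z =>
    (Q (fun i => z (ν, i)) z ↔ Ev (p ν) fun x => Q x z)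
  have hC : ∀ ν Q, DefU2 L U Q → DefU L U (C ν Q) := by
    intro ν Q hQ
    have : Nonempty (N × ℕ) := ⟨(ν, 0)⟩
    exact DefU.iff (DefU2.at hQ (fun i => (ν, i)) id)
      (AlmT.evU (hp ν) (subset_refl U) hU (subset_refl U) hQ)
  let W : Set ((N × ℕ → M) → Prop) := {P | ∃ ν Q, DefU2 L U Q ∧ Ind ν Q ∧ P = C ν Q}
  obtain ⟨z, hz, hzW⟩ := SatStep.comap emb sat W
    (by
      rintro _ ⟨ν, Q, hQ, -, rfl⟩
      exact hC ν Q hQ)
    (by
      intro F hF
      by_cases hN : Nonempty N
      swap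
      · refine ⟨fun _ => Classical.arbitrary M, fun P hP => ?_⟩
        obtain ⟨ν, -⟩ := hF hP
        exact absurd ⟨ν⟩ hN
      choose! nm Q hQ1 hQ2 hQ3 using fun P (hP : P ∈ W) => hP
      let G : Finset N := F.image nm
      let F' : Finset ((N → ℕ → M) → Prop) := F.image fun P a => P fun q => a q.1 q.2
      have h1 : It p G.toList (fun a => ∀ W ∈ F', W a) fun _ _ => Classical.arbitrary M := by
        refine it_all F' _ fun W' hW' => ?_
        obtain ⟨P, hP, rfl⟩ := Finset.mem_image.1 hW'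
        have hPW := hF hP
        have hν : nm P ∈ G.toList := by
          rw [Finset.mem_toList]
          exact Finset.mem_image.2 ⟨P, hP, rfl⟩
        have hd : DefN L univ fun a => (Q P (fun i => a (nm P) i) fun q => a q.1 q.2) ↔
            Ev (p (nm P)) fun x => Q P x fun q => a q.1 q.2 :=
          DefU.mono (subset_univ U) (hC (nm P) (Q P) (hQ1 P hPW))
        have h2 := prodEx_fin (p := p) hS G.toList G.nodup_toList hν (hQ2 P hPW) hd
          fun _ _ => Classical.arbitrary M
        exact (it_congr (fun a => (iff_of_eq (congrFun (hQ3 P hPW) fun q => a q.1 q.2)).symm) _).1 h2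
      obtain ⟨a, ha⟩ := it_exists h1
      exact ⟨fun q => a q.1 q.2, fun P hP => ha _ (Finset.mem_image.2 ⟨P, hP, rfl⟩)⟩)
  refine ⟨fun ν i => z (ν, i), fun ν i => hz _, ?_⟩
  rintro ν P ⟨Q0, hQ0, hP⟩
  have hc : ∀ a : ↥(U ∪ {a | ∃ μ, μ ≠ ν ∧ ∃ i, z (μ, i) = a}), a.1 ∉ U →
      ∃ q : N × ℕ, q.1 ≠ ν ∧ z q = a.1 := by
    rintro ⟨a, ha | ⟨μ, hμ, i, hi⟩⟩ hn
    · exact absurd ha hn
    · exact ⟨(μ, i), hμ, hi⟩
  choose q hq1 hq2 using hc
  let f : ℕ ⊕ ↥(U ∪ {a | ∃ μ, μ ≠ ν ∧ ∃ i, z (μ, i) = a}) → (ℕ ⊕ (N × ℕ)) ⊕ U :=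
    Sum.elim (fun i => Sum.inl (Sum.inl i)) fun a =>
      if h : a.1 ∈ U then Sum.inr ⟨a.1, h⟩ else Sum.inl (Sum.inr (q a h))
  let Q : (ℕ → M) → (N × ℕ → M) → Prop := fun x y =>
    Q0 fun j => Sum.elim (Sum.elim x y) (fun u : U => u.1) (f j)
  have hQd : DefU2 L U Q := by
    refine (DefU.mk hQ0 f).congr fun w => ?_
    refine iff_of_eq (congrArg Q0 ?_)
    funext j
    have : Sum.elim (fun i => w (.inl i)) (fun i => w (.inr i)) = w := by
      funext j
      cases j <;> rfl
    show Sum.elim (Sum.elim (fun i => w (.inl i)) fun i => w (.inr i)) _ (f j) = _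
    rw [this]
  have hQi : Ind ν Q := by
    intro x y y' h
    refine iff_of_eq (congrArg Q0 ?_)
    funext j
    rcases j with j | a
    · rfl
    · by_cases ha : a.1 ∈ U
      · show Sum.elim (Sum.elim x y) _ (dite _ _ _) = Sum.elim (Sum.elim x y') _ (dite _ _ _)
        rw [dif_pos ha]
        rfl
      · show Sum.elim (Sum.elim x y) _ (dite _ _ _) = Sum.elim (Sum.elim x y') _ (dite _ _ _)
        rw [dif_neg ha]
        exact h _ (hq1 a ha) _
  have hPQ : ∀ x, P x ↔ Q x z := by
    intro x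
    rw [hP]
    refine iff_of_eq (congrArg Q0 ?_)
    funext j
    rcases j with j | a
    · rfl
    · by_cases ha : a.1 ∈ U
      · show a.1 = Sum.elim (Sum.elim x z) _ (dite _ _ _)
        rw [dif_pos ha]
        rfl
      · show a.1 = Sum.elim (Sum.elim x z) _ (dite _ _ _)
        rw [dif_neg ha]
        exact (hq2 a ha).symm
  have h3 : C ν Q z := hzW _ ⟨ν, Q, hQd, hQi, rfl⟩
  exact (hPQ _).trans (h3.trans (ev_congr fun x => (hPQ x).symm))

end MP8f
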