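import Pool.Agent.Lib_MP_8da2c8_full.AlmB2

/-! STEP SatA: a structure filtered by elementary subsets `U n`, such that every finitely satisfiable set
of conditions on a block, with parameters in `U n`, is satisfied in `U (n + 1)`. -/

namespace MP8f

open Cardinal Set FirstOrder Filter
open scoped Classical

universe u v w x

/-- see above -/
structure OSat (L : FirstOrder.Language.{0, 0}) {M : Type u} [L.Structure M] (U : ℕ → Set M) :
    Prop where
  elt : ∀ n, Elt L (U n)
  mono : ∀ n, U n ⊆ U (n + 1)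
  top : ∀ x, ∃ n, x ∈ U n
  sat : ∀ n (W : Set ((ℕ → M) → Prop)), (∀ P ∈ W, DefU L (U n) P) →
    (∀ F : Finset ((ℕ → M) → Prop), ↑F ⊆ W → ∃ v, ∀ P ∈ F, P v) →
    ∃ v : ℕ → M, (∀ i, v i ∈ U (n + 1)) ∧ ∀ P ∈ W, P v

/-- a block inside some `U n` -/
def Sml {M : Type u} (U : ℕ → Set M) {α : Type v} (x : α → M) : Prop := ∃ n, ∀ i, x i ∈ U n

/-- `Z` and `Z'` are instances of one relation at small blocks with the same type over `A` -/
def Cj (L : FirstOrder.Language.{0, 0}) {M : Type u} [L.Structure M] (U : ℕ → Set M) (A : Set M)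
    (Z Z' : (ℕ → M) → Prop) : Prop :=
  ∃ R : (ℕ → M) → (ℕ → M) → Prop, Dfn2 L R ∧ ∃ m m' : ℕ → M, Sml U m ∧ Sml U m' ∧
    EqvA L A m m' ∧ (∀ x, Z x ↔ R x m) ∧ ∀ x, Z' x ↔ R x m'

/-- `Z` is consistent with the family `F` -/
def Cons {M : Type u} (F : Set ((ℕ → M) → Prop)) (Z : (ℕ → M) → Prop) : Prop :=
  ∀ G : Finset ((ℕ → M) → Prop), ↑G ⊆ F → ∃ x, Z x ∧ ∀ P ∈ G, P x

/-- a family of definable sets which is closed under conjugation over `A` -/
def InvF (L : FirstOrder.Language.{0, 0}) {M : Type u} [L.Structure M] (U : ℕ → Set M) (A : Set M)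
    (F : Set ((ℕ → M) → Prop)) : Prop :=
  (∀ Z ∈ F, DefU L univ Z) ∧ ∀ Z ∈ F, ∀ Z', Cj L U A Z Z' → Z' ∈ F

variable {L : FirstOrder.Language.{0, 0}} {M : Type u} [L.Structure M] [Nonempty M]
variable {U : ℕ → Set M} {A : Set M}

/-- Proof.  Induction on `k - n`. -/
theorem OSat.le (hO : OSat L U) {n k : ℕ} (h : n ≤ k) : U n ⊆ U k := by
  induction k, h using Nat.le_induction with
  | base => exact subset_rfl
  | succ k _ ih => exact ih.trans (hO.mono k)

/-- finitely many elements are small, blocks can be combined -/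
theorem OSat.fin (hO : OSat L U) (F : Finset M) : ∃ n, (↑F : Set M) ⊆ U n := by
  induction F using Finset.induction_on with
  | empty => exact ⟨0, by simp⟩
  | insert a F _ ih =>
    obtain ⟨n, hn⟩ := ih
    obtain ⟨k, hk⟩ := hO.top a
    refine ⟨max n k, fun b hb => ?_⟩
    rcases Finset.mem_insert.1 (Finset.mem_coe.1 hb) with rfl | hb
    · exact hO.le (le_max_right _ _) hk
    · exact hO.le (le_max_left _ _) (hn (Finset.mem_coe.2 hb))

theorem Sml.elim (hO : OSat L U) {α : Type v} {β : Type w} {x : α → M} {y : β → M}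
    (hx : Sml U x) (hy : Sml U y) : Sml U (Sum.elim x y) := by
  obtain ⟨n, hn⟩ := hx
  obtain ⟨k, hk⟩ := hy
  refine ⟨max n k, ?_⟩
  rintro (i | i)
  · exact hO.le (le_max_left _ _) (hn i)
  · exact hO.le (le_max_right _ _) (hk i)

/-- a definable relation with small parameters.
Proof.  `DefU.fin`: `P` is definable over a finite `F`, `F ⊆ U n`; `P x ↔ Q x a` with `a` the block of all elements of `F` (if `F` is
empty, or in general, use `F ∪ {c}` for some `c ∈ U n`, so that the index type is nonempty); `Dfn2.reduce`. -/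
theorem defU_small (hO : OSat L U) {α : Type v} {P : (α → M) → Prop} (hP : DefU L univ P) :
    ∃ R : (α → M) → (ℕ → M) → Prop, Dfn2 L R ∧ ∃ m : ℕ → M, Sml U m ∧ ∀ x, P x ↔ R x m := by
  obtain ⟨F, -, hF⟩ := hP.fin
  obtain ⟨n, hn⟩ := hO.fin F
  obtain ⟨c, hc⟩ := (hO.elt n).1
  have hF' : DefU L (insert c (↑F : Set M)) P := hF.mono (subset_insert _ _)
  obtain ⟨Q, hQ, hPQ⟩ := hF'
  haveI : Nonempty (insert c (↑F : Set M) : Set M) := ⟨⟨c, mem_insert _ _⟩⟩
  have hQ2 : Dfn2 L fun (x : α → M) (a : (insert c (↑F : Set M) : Set M) → M) =>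
      Q (Sum.elim x a) := by
    refine hQ.congr fun z => iff_of_eq (congrArg Q ?_)
    funext i
    rcases i with i | i <;> rfl
  obtain ⟨R, hR, f, hf⟩ := hQ2.reduce
  refine ⟨R, hR, fun j => (f j).1, ⟨n, fun i => ?_⟩, fun x => (hPQ x).trans (hf x _)⟩
  rcases (f i).2 with h | h
  · show (f i).1 ∈ U n
    rw [h]
    exact hc
  · exact hn h

/-- every block agrees on a finite set with a small block -/
theorem small_approx (hO : OSat L U) {α : Type v} (F : Finset α) (y : α → M) :
    ∃ y' : α → M, Sml U y' ∧ ∀ i ∈ F, y' i = y i := by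
  obtain ⟨n, hn⟩ := hO.fin (F.image y)
  obtain ⟨c, hc⟩ := (hO.elt n).1
  refine ⟨fun i => if i ∈ F then y i else c, ⟨n, fun i => ?_⟩, fun i hi => if_pos hi⟩
  beta_reduce
  split_ifs with h
  · exact hn (Finset.mem_coe.2 (Finset.mem_image_of_mem y h))
  · exact hc

/-- `EqvA` with definable parameters inside: Proof.  `P` is definable over `A`. -/
theorem EqvA.at {α : Type v} {β : Type w} {m m' : α → M} (h : EqvA L A m m') (f : β → α) :
    EqvA L A (fun i => m (f i)) fun i => m' (f i) :=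
  fun _ hP => h _ (hP.at f)

theorem EqvA.symm {α : Type v} {m m' : α → M} (h : EqvA L A m m') : EqvA L A m' m :=
  fun P hP => (h P hP).symm

theorem EqvA.trans {α : Type v} {m m' m'' : α → M} (h : EqvA L A m m') (h' : EqvA L A m' m'') :
    EqvA L A m m'' :=
  fun P hP => (h P hP).trans (h' P hP)

/-- Homogeneity.
Proof.  Let `A`, `m`, `m'`, `k'` be in `U n` (`OSat.le`).  Let `W` be the set of the conditions `fun k => P (Sum.elim m k)`, where `P` is definable over `A`
on blocks with index `ℕ ⊕ ℕ` and `P (Sum.elim m' k')`.  They are definable over `U n` (`DefU2.subst'`).  Finitely many of them are satisfied together: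
their conjunction `P` satisfies `∃ k, P (Sum.elim m' k)`, a condition on `m'` definable over `A`, so `∃ k, P (Sum.elim m k)`.  By `hO.sat` there is a small
`k` satisfying all of them.  If `P` is definable over `A` and fails at `(m', k')`, then `¬ P` holds at `(m', k')`, hence at `(m, k)`. -/
theorem homog (hO : OSat L U) {n : ℕ} (hA : A ⊆ U n) {m m' k' : ℕ → M} (hm : Sml U m)
    (hm' : Sml U m') (hk' : Sml U k') (h : EqvA L A m m') :
    ∃ k : ℕ → M, Sml U k ∧ EqvA L A (Sum.elim m k : ℕ ⊕ ℕ → M) (Sum.elim m' k') := by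
  obtain ⟨r, hr⟩ := hm
  have hAN : A ⊆ U (max n r) := hA.trans (hO.le (le_max_left _ _))
  have hmN : ∀ i, m i ∈ U (max n r) := fun i => hO.le (le_max_right _ _) (hr i)
  have hel : ∀ z : ℕ ⊕ ℕ → M, Sum.elim (fun i => z (.inl i)) (fun i => z (.inr i)) = z := by
    intro z
    funext i
    rcases i with i | i <;> rfl
  have key : ∀ P : (ℕ ⊕ ℕ → M) → Prop, DefU L A P →
      DefU2 L A fun (x y : ℕ → M) => P (Sum.elim x y) := by
    intro P hP
    exact DefU.congr hP fun z => by
      show P (Sum.elim (fun i => z (.inl i)) fun i => z (.inr i)) ↔ P z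
      rw [hel]
  obtain ⟨k, hk, hkW⟩ := hO.sat (max n r)
    {C : (ℕ → M) → Prop | ∃ P : (ℕ ⊕ ℕ → M) → Prop, DefU L A P ∧ P (Sum.elim m' k') ∧
      C = fun k => P (Sum.elim m k)}
    (by
      rintro _ ⟨P, hP, -, rfl⟩
      have h3 : DefU2 L (U (max n r)) fun (x y : ℕ → M) => P (Sum.elim x y) :=
        DefU.mono hAN (key P hP)
      exact h3.subst' m hmN)
    (by
      intro F hF
      have h1 : ∃ P : (ℕ ⊕ ℕ → M) → Prop, DefU L A P ∧ P (Sum.elim m' k') ∧
          ∀ v, P (Sum.elim m v) → ∀ C ∈ F, C v := by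
        induction F using Finset.induction_on with
        | empty => exact ⟨fun _ => True, DefU.const True, trivial, by simp⟩
        | insert C F _ ih =>
          obtain ⟨P, hP, hP1, hP2⟩ := ih fun D hD => hF (by simp [Finset.mem_coe.1 hD])
          obtain ⟨P', hP', hP1', rfl⟩ := hF (Finset.mem_coe.2 (Finset.mem_insert_self C F))
          refine ⟨fun z => P' z ∧ P z, hP'.and hP, ⟨hP1', hP1⟩, fun v hv D hD => ?_⟩
          rcases Finset.mem_insert.1 hD with rfl | hD
          · exact hv.1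
          · exact hP2 v hv.2 D hD
      obtain ⟨P, hP, hP1, hP2⟩ := h1
      have h2 : DefU L A fun x : ℕ → M => ∃ y : ℕ → M, P (Sum.elim x y) := DefU.exB (key P hP)
      obtain ⟨v, hv⟩ := (h _ h2).2 ⟨k', hP1⟩
      exact ⟨v, hP2 v hv⟩)
  refine ⟨k, ⟨_, hk⟩, fun P hP => ⟨fun h1 => ?_, fun h1 => hkW _ ⟨P, hP, h1, rfl⟩⟩⟩
  by_contra h2
  exact hkW _ ⟨fun z => ¬ P z, hP.not, h2, rfl⟩ h1

end MP8f
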