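import Pool.Agent.Lib_MP_8da2c8_full.SatA

/-! STEP SatB: invariant families. -/

namespace MP8f

open Cardinal Set FirstOrder Filter
open scoped Classical

universe u v w x

variable {L : FirstOrder.Language.{0, 0}} {M : Type u} [L.Structure M] [Nonempty M]
variable {U : ℕ → Set M} {A : Set M} {F : Set ((ℕ → M) → Prop)}

theorem Cj.symm {Z Z' : (ℕ → M) → Prop} (h : Cj L U A Z Z') : Cj L U A Z' Z := by
  obtain ⟨R, hR, m, m', h1, h2, h3, h4, h5⟩ := h
  exact ⟨R, hR, m', m, h2, h1, h3.symm, h5, h4⟩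

/-- a conjugate of a definable set is definable -/
private theorem Cj.defU {Z Z' : (ℕ → M) → Prop} (h : Cj L U A Z Z') : DefU L univ Z' := by
  obtain ⟨R, hR, m, m', h1, h2, h3, h4, h5⟩ := h
  have h6 : DefU2 L (univ : Set M) R := DefU.of_dfn hR
  exact (h6.subst m' fun _ => mem_univ _).congr h5

/-- a finite subfamily as one relation with a small parameter -/
private theorem combine (hO : OSat L U) (hF : InvF L U A F)
    (G : Finset ((ℕ → M) → Prop)) (hG : ↑G ⊆ F) :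
    ∃ T : (ℕ → M) → (ℕ → M) → Prop, Dfn2 L T ∧ ∃ k' : ℕ → M, Sml U k' ∧
      (∀ x, T x k' → ∀ P ∈ G, P x) ∧
      ∀ k : ℕ → M, Sml U k → EqvA L A k k' → ∃ G' : Finset ((ℕ → M) → Prop), ↑G' ⊆ F ∧
        ∀ x, (∀ P ∈ G', P x) → T x k := by
  induction G using Finset.induction_on with
  | empty =>
    obtain ⟨k', hk', -⟩ := small_approx hO (∅ : Finset ℕ) fun _ => Classical.arbitrary M
    exact ⟨fun _ _ => True, Dfn.const True, k', hk', by simp, fun k _ _ => ⟨∅, by simp⟩⟩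
  | insert P G _ ih =>
    obtain ⟨T, hT, k', hk', h1, h2⟩ := ih fun D hD => hG (by simp [Finset.mem_coe.1 hD])
    have hPF : P ∈ F := hG (Finset.mem_coe.2 (Finset.mem_insert_self P G))
    obtain ⟨R, hR, n, hn, hPn⟩ := defU_small hO (hF.1 P hPF)
    let e : ℕ ⊕ ℕ ≃ ℕ := Equiv.natSumNatEquivNat
    have e1 : (fun i => (Sum.elim n k' : ℕ ⊕ ℕ → M) (e.symm (e (.inl i)))) = n := by
      funext i
      rw [Equiv.symm_apply_apply]
      rfl
    have e2 : (fun i => (Sum.elim n k' : ℕ ⊕ ℕ → M) (e.symm (e (.inr i)))) = k' := by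
      funext i
      rw [Equiv.symm_apply_apply]
      rfl
    refine ⟨fun x k => R x (fun i => k (e (.inl i))) ∧ T x fun i => k (e (.inr i)), ?_,
      fun i => (Sum.elim n k' : ℕ ⊕ ℕ → M) (e.symm i), ?_, ?_, ?_⟩
    · exact (Dfn2.at hR (γ := ℕ ⊕ ℕ) Sum.inl fun i => Sum.inr (e (.inl i))).and
        (Dfn2.at hT (γ := ℕ ⊕ ℕ) Sum.inl fun i => Sum.inr (e (.inr i)))
    · obtain ⟨r, hr⟩ := Sml.elim hO hn hk'
      exact ⟨r, fun i => hr _⟩
    · rintro x ⟨hx1, hx2⟩ Q hQ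
      rw [e1] at hx1
      rw [e2] at hx2
      rcases Finset.mem_insert.1 hQ with rfl | hQ
      · exact (hPn x).2 hx1
      · exact h1 x hx2 Q hQ
    · intro k hk hkk
      have hk1 : Sml U fun i => k (e (.inl i)) := by
        obtain ⟨r, hr⟩ := hk
        exact ⟨r, fun i => hr _⟩
      have hk2 : Sml U fun i => k (e (.inr i)) := by
        obtain ⟨r, hr⟩ := hk
        exact ⟨r, fun i => hr _⟩
      have hq1 : EqvA L A (fun i => k (e (.inl i))) n := by
        have := hkk.at fun i => e (.inl i)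
        rwa [e1] at this
      have hq2 : EqvA L A (fun i => k (e (.inr i))) k' := by
        have := hkk.at fun i => e (.inr i)
        rwa [e2] at this
      obtain ⟨G', hG', hG''⟩ := h2 _ hk2 hq2
      have hc : Cj L U A P fun x => R x fun i => k (e (.inl i)) :=
        ⟨R, hR, n, _, hn, hk1, hq1.symm, hPn, fun _ => Iff.rfl⟩
      refine ⟨insert (fun x => R x fun i => k (e (.inl i))) G', ?_, fun x hx => ⟨?_, ?_⟩⟩
      · intro Q hQ
        rcases Finset.mem_insert.1 (Finset.mem_coe.1 hQ) with rfl | hQ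
        · exact hF.2 P hPF _ hc
        · exact hG' (Finset.mem_coe.2 hQ)
      · exact hx _ (Finset.mem_insert_self _ _)
      · exact hG'' x fun Q hQ => hx Q (Finset.mem_insert_of_mem hQ)

/-- Proof.  Let `Z = R(·, m)`, `Z' = R(·, m')`, `m ≡ m'` over `A`.  Suppose `Z'` is inconsistent with `Z' 1, …, Z' k ∈ F` (an enumeration of the finite set `G`).  By
`defU_small` write `Z' i = R i (·, n' i)` with small `n' i`, and combine the `n' i` into one small block `k' : ℕ → M` (through an injection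
`Fin k × ℕ → ℕ`).  By `homog` there is a small `k` with `(m, k) ≡ (m', k')` over `A`.  Let `Z i = R i (·, n i)` with `n i` read off from `k`
as `n' i` from `k'`.  Then `Z i ∈ F` (`InvF`, `Cj.symm`), and `¬ ∃ x, Z' x ∧ ∧ Z' i x` is a condition on `(m', k')` definable without
parameters, so `¬ ∃ x, Z x ∧ ∧ Z i x`, contradicting `Cons F Z`. -/
theorem cons_inv (hO : OSat L U) {n : ℕ} (hA : A ⊆ U n) (hF : InvF L U A F)
    {Z Z' : (ℕ → M) → Prop} (h : Cj L U A Z Z') (hZ : Cons F Z) : Cons F Z' := by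
  intro G hG
  obtain ⟨R, hR, m, m', hm, hm', hmm, hZm, hZm'⟩ := h
  obtain ⟨T, hT, k', hk', h1, h2⟩ := combine hO hF G hG
  obtain ⟨k, hk, hkk⟩ := homog hO hA hm hm' hk' hmm
  obtain ⟨G', hG', hG''⟩ := h2 k hk (hkk.at Sum.inr)
  obtain ⟨x, hx, hx'⟩ := hZ G' hG'
  have h3 : DefU L A fun z : ℕ ⊕ ℕ → M => ∃ x : ℕ → M,
      R x (fun i => z (.inl i)) ∧ T x fun i => z (.inr i) := by
    refine DefU.exB (DefU.of_dfn ?_)
    exact (Dfn2.at hR (γ := (ℕ ⊕ ℕ) ⊕ ℕ) Sum.inr fun i => Sum.inl (Sum.inl i)).and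
      (Dfn2.at hT (γ := (ℕ ⊕ ℕ) ⊕ ℕ) Sum.inr fun i => Sum.inl (Sum.inr i))
  obtain ⟨y, hy1, hy2⟩ := (hkk _ h3).1 ⟨x, (hZm x).1 hx, hG'' x hx'⟩
  exact ⟨y, (hZm' y).2 hy1, h1 y hy2⟩

/-- Proof: Zorn's lemma (`zorn_subset_nonempty`) for the families `F` with `InvF`, `P0 ∈ F`, `Cons F True`; unions of chains are
fine.  The family `{P0}` is one of them: if `Cj P0 Z'` with `P0 = R(·, m)`, `Z' = R(·, m')`, then `∀ x, P0 x ↔ R x m`
is a condition on `m` definable over `A`, so it holds for `m'`, and `Z' = P0` (funext, propext). -/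
theorem exists_max {P0 : (ℕ → M) → Prop} (hP0 : DefU L A P0) (hne : ∃ x, P0 x) :
    ∃ F : Set ((ℕ → M) → Prop), InvF L U A F ∧ P0 ∈ F ∧ Cons F (fun _ => True) ∧
      ∀ F', F ⊆ F' → InvF L U A F' → Cons F' (fun _ => True) → F' ⊆ F := by
  have hbase : ({P0} : Set ((ℕ → M) → Prop)) ∈
      {F : Set ((ℕ → M) → Prop) | InvF L U A F ∧ P0 ∈ F ∧ Cons F fun _ => True} := by
    refine ⟨⟨?_, ?_⟩, rfl, ?_⟩
    · rintro Z rfl
      exact hP0.mono (subset_univ _)
    · rintro Z rfl Z' ⟨R, hR, m, m', hm, hm', hmm, hZm, hZm'⟩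
      have hR2 : DefU2 L A R := DefU.of_dfn hR
      have h1 : DefU L A fun n : ℕ → M => ∀ x : ℕ → M, (Z x ↔ R x n) :=
        DefU.allB ((hP0.at (γ := ℕ ⊕ ℕ) Sum.inr).iff (hR2.at (γ := ℕ ⊕ ℕ) Sum.inr Sum.inl))
      have h2 := (hmm _ h1).1 hZm
      exact mem_singleton_iff.2 (funext fun x => propext ((hZm' x).trans (h2 x).symm))
    · intro G hG
      obtain ⟨x, hx⟩ := hne
      refine ⟨x, trivial, fun P hP => ?_⟩
      have h1 : P = P0 := hG (Finset.mem_coe.2 hP)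
      rw [h1]
      exact hx
  obtain ⟨F, hF, hmax⟩ := zorn_subset_nonempty
    {F : Set ((ℕ → M) → Prop) | InvF L U A F ∧ P0 ∈ F ∧ Cons F fun _ => True}
    (by
      intro c hc hch hcn
      refine ⟨⋃₀ c, ⟨⟨?_, ?_⟩, ?_, ?_⟩, fun s hs => subset_sUnion_of_mem hs⟩
      · rintro Z ⟨s, hs, hZ⟩
        exact (hc hs).1.1 Z hZ
      · rintro Z ⟨s, hs, hZ⟩ Z' hZZ
        exact ⟨s, hs, (hc hs).1.2 Z hZ Z' hZZ⟩
      · obtain ⟨s, hs⟩ := hcn
        exact ⟨s, hs, (hc hs).2.1⟩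
      · intro G hG
        rw [sUnion_eq_biUnion] at hG
        obtain ⟨s, hs, hGs⟩ := DirectedOn.exists_mem_subset_of_finset_subset_biUnion hcn
          hch.directedOn hG
        exact (hc hs).2.2 G hGs) {P0} hbase
  exact ⟨F, hmax.prop.1, hmax.prop.2.1, hmax.prop.2.2, fun F' h1 h2 h3 =>
    hmax.le_of_ge ⟨h2, h1 hmax.prop.2.1, h3⟩ h1⟩

/-- Proof.  Otherwise every definable `Z` consistent with `F` has `y` such that both halves are consistent with `F`; so by induction on `n`,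
`Tr R n Z` for all definable `Z` consistent with `F` (`n = 0`: `Cons` with the empty set); with `Z = True` this contradicts `Stb`. -/
theorem isolating (hS : Stb L M) (hF : Cons F fun _ => True) {R : (ℕ → M) → (ℕ → M) → Prop}
    (hR : Dfn2 L R) : ∃ Z : (ℕ → M) → Prop, DefU L univ Z ∧ Cons F Z ∧
      ∀ y, ¬ (Cons F (fun x => Z x ∧ R x y) ∧ Cons F fun x => Z x ∧ ¬ R x y) := by
  by_contra hcon
  push Not at hcon
  have hR2 : DefU2 L (univ : Set M) R := DefU.of_dfn hR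
  have key : ∀ (n : ℕ) (Z : (ℕ → M) → Prop), DefU L univ Z → Cons F Z → Tr R n Z := by
    intro n
    induction n with
    | zero =>
      intro Z _ hZ
      obtain ⟨x, hx, -⟩ := hZ ∅ (by simp)
      exact ⟨x, hx⟩
    | succ n ih =>
      intro Z hZ hZc
      obtain ⟨y, h1, h2⟩ := hcon Z hZ hZc
      have h3 : DefU L univ fun x => R x y := hR2.subst y fun _ => mem_univ _
      exact ⟨y, ih _ (hZ.and h3) h1, ih _ (hZ.and h3.not) h2⟩
  obtain ⟨n, hn⟩ := hS R hR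
  exact hn (key n _ (DefU.const True) hF)

/-- if `Z` is consistent then so is one of the halves -/
theorem cons_split {Z P : (ℕ → M) → Prop} (h : Cons F Z) :
    Cons F (fun x => Z x ∧ P x) ∨ Cons F fun x => Z x ∧ ¬ P x := by
  by_contra hcon
  obtain ⟨h1, h2⟩ := not_or.1 hcon
  unfold Cons at h1 h2
  push Not at h1 h2
  obtain ⟨G1, hG1, h1⟩ := h1
  obtain ⟨G2, hG2, h2⟩ := h2
  obtain ⟨x, hx, hx'⟩ := h (G1 ∪ G2) (by
    rw [Finset.coe_union]
    exact union_subset hG1 hG2)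
  by_cases hP : P x
  · obtain ⟨Q, hQ, hQ'⟩ := h1 x ⟨hx, hP⟩
    exact hQ' (hx' Q (Finset.mem_union_left _ hQ))
  · obtain ⟨Q, hQ, hQ'⟩ := h2 x ⟨hx, hP⟩
    exact hQ' (hx' Q (Finset.mem_union_right _ hQ))

/-- Finitely many conjugates of `Z` cover the family.
Proof.  Let `F' = F ∪ {N | N definable, N = (not Z') for some Z' with Cj Z Z'}` (write it as
`F ∪ {N | ∃ Z', Cj L U A Z Z' ∧ N = fun x => ¬ Z' x}`).  It satisfies `InvF`: let `Z' = R(·, m')`, where `Z = R(·, m)`, `m ≡ m'`, and let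
`Cj (¬ Z') Z''`, `¬ Z' = R1(·, m1)`, `Z'' = R1(·, m2)`, `m1 ≡ m2`.  By `homog` there is a small `m''` with `(m1, m') ≡ (m2, m'')`; then `Z'' = ¬ R(·, m'')`, and
`m'' ≡ m' ≡ m` over `A`.  `F'` is not contained in `F`: otherwise `¬ Z ∈ F` (`Cj Z Z` by `defU_small`), contradicting `Cons F Z`.  So by maximality `F'` is inconsistent:
there is a finite subset of `F'` without a common point; separate it into a finite `G ⊆ F` and finitely many `¬ Z' i`. -/
theorem cover (hO : OSat L U) {n : ℕ} (hA : A ⊆ U n) (hF : InvF L U A F)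
    (hmax : ∀ F', F ⊆ F' → InvF L U A F' → Cons F' (fun _ => True) → F' ⊆ F)
    {Z : (ℕ → M) → Prop} (hZ : DefU L univ Z) (hc : Cons F Z) :
    ∃ (k : ℕ) (Z' : Fin k → (ℕ → M) → Prop), (∀ i, Cj L U A Z (Z' i)) ∧
      ∃ G : Finset ((ℕ → M) → Prop), ↑G ⊆ F ∧ ∀ x, (∀ P ∈ G, P x) → ∃ i, Z' i x := by
  let F' : Set ((ℕ → M) → Prop) := F ∪ {N | ∃ Z', Cj L U A Z Z' ∧ N = fun x => ¬ Z' x}
  have hinv : InvF L U A F' := by
    refine ⟨?_, ?_⟩
    · rintro N (hN | ⟨Z', hZZ, rfl⟩)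
      · exact hF.1 N hN
      · exact hZZ.defU.not
    · rintro N (hN | ⟨Z', ⟨R, hR, m, m', hm, hm', hmm, hZm, hZm'⟩, rfl⟩) Z'' hc''
      · exact Or.inl (hF.2 N hN Z'' hc'')
      · obtain ⟨R1, hR1, m1, m2, hm1, hm2, hmm2, hN1, hN2⟩ := hc''
        obtain ⟨k, hk, hkk⟩ := homog hO hA hm2 hm1 hm' hmm2.symm
        have h1 : DefU L A fun z : ℕ ⊕ ℕ → M => ∀ x : ℕ → M,
            (R1 x (fun i => z (.inl i)) ↔ ¬ R x fun i => z (.inr i)) := by
          refine DefU.allB (DefU.of_dfn ?_)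
          exact (Dfn2.at hR1 (γ := (ℕ ⊕ ℕ) ⊕ ℕ) Sum.inr fun i => Sum.inl (Sum.inl i)).iff
            (Dfn2.at hR (γ := (ℕ ⊕ ℕ) ⊕ ℕ) Sum.inr fun i => Sum.inl (Sum.inr i)).not
        have h2 := (hkk _ h1).2 fun x => (hN1 x).symm.trans (not_congr (hZm' x))
        refine Or.inr ⟨fun x => R x k, ⟨R, hR, m, k, hm, hk, ?_, hZm, fun _ => Iff.rfl⟩, ?_⟩
        · exact hmm.trans (hkk.at Sum.inr).symm
        · exact funext fun x => propext ((hN2 x).trans (h2 x))
  have hnc : ¬ Cons F' fun _ => True := by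
    intro hcF
    have h1 := hmax F' subset_union_left hinv hcF
    obtain ⟨R, hR, m, hm, hZm⟩ := defU_small hO hZ
    have h2 : (fun x => ¬ Z x) ∈ F := h1 (Or.inr ⟨Z,
      ⟨R, hR, m, m, hm, hm, fun _ _ => Iff.rfl, hZm, hZm⟩, rfl⟩)
    obtain ⟨x, hx, hx'⟩ := hc {fun x => ¬ Z x} (by simpa using h2)
    exact hx' _ (Finset.mem_singleton_self _) hx
  unfold Cons at hnc
  push Not at hnc
  obtain ⟨G, hG, hGx⟩ := hnc
  let G1 := G.filter (· ∈ F)
  let G2 := G.filter (· ∉ F)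
  have hG2 : ∀ N ∈ G2, ∃ Z', Cj L U A Z Z' ∧ N = fun x => ¬ Z' x := by
    intro N hN
    obtain ⟨h1, h2⟩ := Finset.mem_filter.1 hN
    rcases hG (Finset.mem_coe.2 h1) with h3 | h3
    · exact absurd h3 h2
    · exact h3
  choose! g hg1 hg2 using hG2
  refine ⟨G2.card, fun i => g (G2.equivFin.symm i).1,
    fun i => hg1 _ (G2.equivFin.symm i).2, G1, ?_, fun x hx => ?_⟩
  · intro N hN
    exact (Finset.mem_filter.1 (Finset.mem_coe.1 hN)).2
  · by_contra hcon
    push Not at hcon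
    obtain ⟨N, hN, hNx⟩ := hGx x trivial
    by_cases hNF : N ∈ F
    · exact hNx (hx N (Finset.mem_filter.2 ⟨hN, hNF⟩))
    · have h1 : N ∈ G2 := Finset.mem_filter.2 ⟨hN, hNF⟩
      have h2 := hcon (G2.equivFin ⟨N, h1⟩)
      rw [Equiv.symm_apply_apply] at h2
      exact hNx (by
        rw [hg2 N h1]
        exact h2)

end MP8f
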