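import Pool.Agent.Lib_MP_8da2c8_full.TDef

/-! STEP StA: complete types (of Mathlib) and ultrafilters. -/

namespace MP8f

open Cardinal Set FirstOrder FirstOrder.Language Filter
open scoped Classical

universe u v w x

variable {L : FirstOrder.Language.{0, 0}} {M : Type u} [L.Structure M] [Nonempty M]

/-- A formula in the language with constants for the elements of `A` defines a set definable over `A`, and conversely.
Proof.  `FirstOrder.Language.BoundedFormula.constantsVarsEquiv` and `realize_constantsVarsEquiv`; relabel `A ⊕ α` to `α ⊕ A`. -/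
theorem defU_const {A : Set M} {α : Type v} (φ : L[[A]].Formula α) :
    DefU L A fun x : α → M => φ.Realize x := by
  have h1 : A.Definable L {x : α → M | φ.Realize x} := ⟨φ, rfl⟩
  rw [Set.definable_iff_exists_formula_sum] at h1
  obtain ⟨ψ, hψ⟩ := h1
  refine ⟨fun z => ψ.Realize fun i => z (Sum.swap i), ⟨ψ.relabel Sum.swap, fun z => ?_⟩,
    fun x => ?_⟩
  · rw [FirstOrder.Language.Formula.realize_relabel]
    rfl
  · have h2 : x ∈ {x : α → M | φ.Realize x} ↔
        x ∈ {v : α → M | ψ.Realize (Sum.elim (fun a : A => (a : M)) v)} := by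
      rw [hψ]
    have h3 : (fun i => Sum.elim x (fun a : A => a.1) (Sum.swap i)) =
        Sum.elim (fun a : A => (a : M)) x := by
      funext i
      rcases i with i | i <;> rfl
    show φ.Realize x ↔ ψ.Realize fun i => Sum.elim x (fun a : A => a.1) (Sum.swap i)
    rw [h3]
    exact h2

theorem defU_const' {A : Set M} {α : Type v} {P : (α → M) → Prop} (h : DefU L A P) :
    ∃ φ : L[[A]].Formula α, ∀ x, P x ↔ φ.Realize x := by
  obtain ⟨Q, ⟨ψ, hψ⟩, hQ⟩ := h
  have h1 : A.Definable L {x : α → M | P x} := by
    rw [Set.definable_iff_exists_formula_sum]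
    refine ⟨ψ.relabel Sum.swap, ?_⟩
    ext x
    show P x ↔ (ψ.relabel Sum.swap).Realize (Sum.elim (fun a : A => (a : M)) x)
    rw [hQ, hψ, FirstOrder.Language.Formula.realize_relabel]
    refine iff_of_eq (congrArg ψ.Realize ?_)
    funext i
    rcases i with i | i <;> rfl
  obtain ⟨φ, hφ⟩ := h1
  refine ⟨φ, fun x => ?_⟩
  have h2 : x ∈ {x : α → M | P x} ↔ x ∈ Set.ofPred φ.Realize := by
    rw [hφ]
  exact h2

/-- Proof.  The map `i ↦ typeOf (a i)` is injective: `mem_typeOf` for the sentence `Formula.equivSentence φ`, `φ` from `defU_const'`. -/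
theorem mk_le_types (A : Set M) (n : ℕ) {I : Type u} (a : I → Fin n → M)
    (h : ∀ i j, i ≠ j → ∃ P : (Fin n → M) → Prop, DefU L A P ∧ P (a i) ∧ ¬ P (a j)) :
    #I ≤ #((L[[A]].completeTheory M).CompleteType (Fin n)) := by
  refine Cardinal.mk_le_of_injective
    (f := fun i => (L[[A]].completeTheory M).typeOf (a i)) ?_
  intro i j hij
  by_contra hne
  obtain ⟨P, hP, h1, h2⟩ := h i j hne
  obtain ⟨φ, hφ⟩ := defU_const' hP
  have h3 : Formula.equivSentence φ ∈ (L[[A]].completeTheory M).typeOf (a i) := by
    rw [Theory.CompleteType.formula_mem_typeOf]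
    exact (hφ _).1 h1
  have hij' : (L[[A]].completeTheory M).typeOf (a i) = (L[[A]].completeTheory M).typeOf (a j) := hij
  rw [hij', Theory.CompleteType.formula_mem_typeOf] at h3
  exact h2 ((hφ _).2 h3)

/-- Proof.  For a type `p` consider the sets `{v | φ.Realize v}` for the formulas `φ : L[[A]].Formula (Fin n)` with `Formula.equivSentence φ ∈ p`.  They have the finite intersection property: `p` is closed under conjunctions (it is maximal),
and if `{v | φ.Realize v}` is empty then `∀ v, ¬ φ` (`Formula.iAlls` or `iExs`) is in the complete theory of `M`, so in `p` (`p.subset`), so that `p` is not satisfiable.  Let `q p` be an ultrafilter containing these sets (`Ultrafilter.exists_ultrafilter_of_finite_inter_nonempty`).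
If `p ≠ p'` there is a sentence `χ` in `p` and not in `p'` (or conversely, then take the negation: `p'.mem_or_not_mem`), so `χ.not ∈ p'`; take `P v = (Formula.equivSentence.symm χ).Realize v`, `defU_const`. -/
theorem types_fin (A : Set M) (n : ℕ) :
    ∃ q : (L[[A]].completeTheory M).CompleteType (Fin n) → Ultrafilter (Fin n → M),
      ∀ p p', p ≠ p' → ∃ P : (Fin n → M) → Prop, DefU L A P ∧ Ev (q p) P ∧ ¬ Ev (q p') P := by
  have key : ∀ (p : (L[[A]].completeTheory M).CompleteType (Fin n)) (φ : L[[A]].Formula (Fin n)),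
      Formula.equivSentence φ ∈ p → ∃ v : Fin n → M, φ.Realize v := by
    intro p φ hφ
    obtain ⟨N, v, hv⟩ := Theory.exists_modelType_is_realized_in (L[[A]].completeTheory M) p
    rw [← hv, Theory.CompleteType.formula_mem_typeOf] at hφ
    have h1 : φ.exClosure.Realize N :=
      (Formula.exists_realize_equivSentence_iff_realize_exClosure (M := N)).1
        ⟨v, (Formula.realize_equivSentence_symm N (Formula.equivSentence φ) v).1 (by
          rw [_root_.Equiv.symm_apply_apply]
          exact hφ)⟩
    have h2 : φ.exClosure.Realize M := by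
      by_contra hc
      have h3 : φ.exClosure.not ∈ L[[A]].completeTheory M := by
        rw [mem_completeTheory]
        exact hc
      exact (Theory.realize_sentence_of_mem (M := N) _ h3) h1
    obtain ⟨v', hv'⟩ :=
      (Formula.exists_realize_equivSentence_iff_realize_exClosure (M := M)).2 h2
    refine ⟨v', ?_⟩
    have h4 := (Formula.realize_equivSentence_symm M (Formula.equivSentence φ) v').2 hv'
    rwa [_root_.Equiv.symm_apply_apply] at h4
  have key2 : ∀ p : (L[[A]].completeTheory M).CompleteType (Fin n), ∃ U : Ultrafilter (Fin n → M),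
      ∀ φ : L[[A]].Formula (Fin n), Formula.equivSentence φ ∈ p → Ev U fun v => φ.Realize v := by
    intro p
    obtain ⟨U, hU⟩ := Ultrafilter.exists_ultrafilter_of_finite_inter_nonempty
      {s : Set (Fin n → M) | ∃ φ : L[[A]].Formula (Fin n), Formula.equivSentence φ ∈ p ∧
        s = {v | φ.Realize v}} (by
      intro F hF
      have h1 : ∃ φ : L[[A]].Formula (Fin n), Formula.equivSentence φ ∈ p ∧
          {v | φ.Realize v} ⊆ ⋂₀ (↑F : Set (Set (Fin n → M))) := by
        clear * - hF
        induction F using Finset.induction_on with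
        | empty =>
          refine ⟨⊤, ?_, ?_⟩
          · have h2 : (Formula.equivSentence (⊤ : L[[A]].Formula (Fin n))) = ⊤ := rfl
            rw [h2]
            exact p.isMaximal.mem_of_models (φ := ⊤) (fun _ _ _ a => a)
          · simp
        | insert s F hs ih =>
          obtain ⟨φ, hφ, hφ'⟩ := ih (fun t ht => hF (Finset.mem_coe.2
            (Finset.mem_insert_of_mem (Finset.mem_coe.1 ht))))
          obtain ⟨ψ, hψ, hψ'⟩ := hF (Finset.mem_coe.2 (Finset.mem_insert_self s F))
          refine ⟨ψ ⊓ φ, ?_, ?_⟩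
          · rw [Formula.equivSentence_inf]
            have h3 : p ∈ (L[[A]].completeTheory M).typesWith
                (Formula.equivSentence ψ ⊓ Formula.equivSentence φ) := by
              rw [Theory.CompleteType.typesWith_inf]
              exact ⟨hψ, hφ⟩
            exact h3
          · intro v hv
            have hv' : ψ.Realize v ∧ φ.Realize v := by
              have h4 : (ψ ⊓ φ).Realize v := hv
              unfold FirstOrder.Language.Formula.Realize at h4
              rw [FirstOrder.Language.BoundedFormula.realize_inf] at h4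
              exact h4
            rw [Finset.coe_insert, sInter_insert]
            exact ⟨by rw [hψ']; exact hv'.1, hφ' hv'.2⟩
      obtain ⟨φ, hφ, hφ'⟩ := h1
      obtain ⟨v, hv⟩ := key p φ hφ
      exact ⟨v, hφ' hv⟩)
    exact ⟨U, fun φ hφ => hU ⟨φ, hφ, rfl⟩⟩
  choose q hq using key2
  refine ⟨q, ?_⟩
  have main : ∀ (p p' : (L[[A]].completeTheory M).CompleteType (Fin n))
      (χ : L[[A]][[Fin n]].Sentence), χ ∈ p → χ ∉ p' →
      Ev (q p) (fun v => (Formula.equivSentence.symm χ : L[[A]].Formula (Fin n)).Realize v) ∧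
      Ev (q p') (fun v => ¬ (Formula.equivSentence.symm χ : L[[A]].Formula (Fin n)).Realize v) := by
    intro p p' χ h1 h2
    refine ⟨hq p _ (by rw [_root_.Equiv.apply_symm_apply]; exact h1), ?_⟩
    have h3 := hq p' (Formula.equivSentence.symm χ : L[[A]].Formula (Fin n)).not (by
      rw [Formula.equivSentence_not, _root_.Equiv.apply_symm_apply]
      exact (p'.not_mem_iff χ).2 h2)
    exact h3.mono fun v hv => by
      rw [FirstOrder.Language.Formula.realize_not] at hv
      exact hv
  intro p p' hne
  have h1 : ∃ χ : L[[A]][[Fin n]].Sentence, ¬ (χ ∈ p ↔ χ ∈ p') := by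
    by_contra hc
    push Not at hc
    exact hne (SetLike.ext fun χ => hc χ)
  obtain ⟨χ, hχ⟩ := h1
  by_cases h2 : χ ∈ p
  · have h3 : χ ∉ p' := fun h3 => hχ ⟨fun _ => h3, fun _ => h2⟩
    obtain ⟨h4, h5⟩ := main p p' χ h2 h3
    exact ⟨_, defU_const _, h4, ev_not.1 h5⟩
  · have h3 : χ ∈ p' := by
      by_contra h3
      exact hχ ⟨fun h => absurd h h2, fun h => absurd h h3⟩
    obtain ⟨h4, h5⟩ := main p' p χ h3 h2
    refine ⟨_, (defU_const _).not, h5, ?_⟩
    rw [ev_not, not_not]
    exact h4

/-- Proof: all ultrafilters on the one-element type `Fin 0 → M` are equal. -/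
theorem types_zero (A : Set M) : #((L[[A]].completeTheory M).CompleteType (Fin 0)) ≤ 1 := by
  obtain ⟨q, hq⟩ := types_fin (L := L) A 0
  rw [Cardinal.le_one_iff_subsingleton]
  refine ⟨fun p p' => ?_⟩
  by_contra hne
  obtain ⟨P, -, h1, h2⟩ := hq p p' hne
  obtain ⟨x, hx⟩ := h1.exists
  exact h2 (ev_of_all fun y => by
    rwa [Subsingleton.elim y x])

/-- Proof: the images of the ultrafilters of `types_fin` under `fun v i => v (min i n)`; `P x` becomes `P fun i : Fin (n + 1) => x i`. -/
theorem types_nat (A : Set M) (n : ℕ) :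
    ∃ q : (L[[A]].completeTheory M).CompleteType (Fin (n + 1)) → Ultrafilter (ℕ → M),
      (∀ p, Ev (q p) fun x => ∀ i, x i = x (min i n)) ∧
      ∀ p p', p ≠ p' → ∃ P : (ℕ → M) → Prop, DefU L A P ∧ Ev (q p) P ∧ ¬ Ev (q p') P := by
  obtain ⟨q, hq⟩ := types_fin (L := L) A (n + 1)
  let f : (Fin (n + 1) → M) → ℕ → M := fun v i => v ⟨min i n, by omega⟩
  refine ⟨fun p => (q p).map f, ?_, ?_⟩
  · intro p
    show ∀ᶠ x in ((q p).map f : Filter (ℕ → M)), ∀ i, x i = x (min i n)
    rw [Ultrafilter.coe_map, eventually_map]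
    refine Eventually.of_forall fun v i => ?_
    show v _ = v _
    congr 1
    apply Fin.ext
    show min i n = min (min i n) n
    omega
  · intro p p' hne
    obtain ⟨P, hP, h1, h2⟩ := hq p p' hne
    have hev : ∀ p'', Ev ((q p'').map f) (fun x : ℕ → M => P fun i : Fin (n + 1) => x i) ↔
        Ev (q p'') P := by
      intro p''
      show (∀ᶠ x in ((q p'').map f : Filter (ℕ → M)), P fun i : Fin (n + 1) => x i) ↔ _
      rw [Ultrafilter.coe_map, eventually_map]
      refine ev_congr fun v => ?_
      have h3 : (fun i : Fin (n + 1) => f v i) = v := by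
        funext i
        show v _ = v _
        congr 1
        apply Fin.ext
        show min (i : ℕ) n = i
        have := i.isLt
        omega
      rw [h3]
    exact ⟨_, hP.at fun i : Fin (n + 1) => (i : ℕ), (hev p).2 h1, fun h4 => h2 ((hev p').1 h4)⟩

end MP8f
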