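import Pool.Agent.Lib_MP_8da2c8_full.AlmB2
import Pool.Agent.Lib_MP_8da2c8_full.LocDefB

/-! STEP Sys: systems of names.

A *name* `ν` has a stage `st ν`, a block `e ν`, a support `S ν` (names of smaller stages) and a type `p ν`, almost over
the elements named by the support.  The block `e ν` realizes `p ν` over `U (st ν)` (an elementary set, containing all the
blocks of smaller stages) and over the blocks of the other names of the same stage. -/

namespace MP8f

open Cardinal Set FirstOrder Filter
open scoped Classical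

universe u v w x

/-- the elements of `B` and of the blocks of the names in `X` -/
def MlS {M : Type u} {N : Type v} (B : Set M) (e : N → ℕ → M) (X : Set N) : Set M :=
  B ∪ {a | ∃ μ ∈ X, ∃ i, e μ i = a}

/-- `X` contains the supports of its elements -/
def Cl {N : Type v} (S : N → Set N) (X : Set N) : Prop := ∀ ν ∈ X, S ν ⊆ X

/-- what `e ν` has to be independent of -/
def Oth {M : Type u} {N : Type v} {Λ : Type} (U : Λ → Set M) (st : N → Λ) (e : N → ℕ → M)
    (ν : N) : Set M :=
  U (st ν) ∪ {a | ∃ μ, st μ = st ν ∧ μ ≠ ν ∧ ∃ i, e μ i = a}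

structure Sys (L : FirstOrder.Language.{0, 0}) (M : Type u) [L.Structure M] (N : Type v)
    (Λ : Type) [LinearOrder Λ] where
  st : N → Λ
  U : Λ → Set M
  e : N → ℕ → M
  S : N → Set N
  p : N → Ultrafilter (ℕ → M)
  B : Set M
  elt : ∀ s, Elt L (U s)
  base : ∀ s, B ⊆ U s
  mem : ∀ ν s, st ν < s → ∀ i, e ν i ∈ U s
  low : ∀ ν, ∀ μ ∈ S ν, st μ < st ν
  alm : ∀ ν, AlmT L (MlS B e (S ν)) (p ν)
  prod : ∀ (ν : N) (P : (ℕ → M) → Prop), DefU L (Oth U st e ν) P → (P (e ν) ↔ Ev (p ν) P)

/-- the elements named by `X` -/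
def Sys.Ml {L : FirstOrder.Language.{0, 0}} {M : Type u} [L.Structure M] {N : Type v}
    {Λ : Type} [LinearOrder Λ] (σ : Sys L M N Λ) (X : Set N) : Set M := MlS σ.B σ.e X

theorem MlS.mono {M : Type u} {N : Type v} {B : Set M} {e : N → ℕ → M} {X Y : Set N}
    (h : X ⊆ Y) : MlS B e X ⊆ MlS B e Y := by
  rintro a (ha | ⟨μ, hμ, i, rfl⟩)
  · exact Or.inl ha
  · exact Or.inr ⟨μ, h hμ, i, rfl⟩

/-- Induction on finite sets of names: remove a name of maximal stage, and add names of smaller stages.
Proof.  Show by well-founded induction on `s`, and for fixed `s` by induction on `n`: for all `F`, if all `ν ∈ F` have `st ν ≤ s` and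
`(F.filter (fun ν => st ν = s)).card ≤ n` then `P F`.  If `F` is empty use `h0`.  Otherwise let `μ ∈ F` have maximal stage
(`Finset.exists_max_image`).  If `st μ < s` use the induction hypothesis for `st μ` (with `n = F.card`).  If `st μ = s` apply `hs`: for `F'` as there,
`F'.filter (st = s) ⊆ (F.filter (st = s)).erase μ`, so the induction hypothesis for `n - 1` applies. -/
theorem stage_induction {N : Type v} {Λ : Type} [LinearOrder Λ] [WellFoundedLT Λ] (st : N → Λ)
    (P : Finset N → Prop) (h0 : P ∅)
    (hs : ∀ F : Finset N, ∀ μ ∈ F, (∀ ν ∈ F, st ν ≤ st μ) →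
      (∀ F' : Finset N, (∀ ν ∈ F', (ν ∈ F ∧ ν ≠ μ) ∨ st ν < st μ) → P F') → P F) :
    ∀ F, P F := by
  have key : ∀ s : Λ, ∀ n : ℕ, ∀ F : Finset N, (∀ ν ∈ F, st ν ≤ s) →
      (F.filter (fun ν => st ν = s)).card ≤ n → P F := by
    intro s
    induction s using WellFoundedLT.induction with
    | ind s ih =>
      intro n
      induction n with
      | zero =>
        intro F hF hc
        rcases F.eq_empty_or_nonempty with hE | hne
        · rw [hE]; exact h0
        obtain ⟨μ, hμ, hmax⟩ := Finset.exists_max_image F st hne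
        rcases lt_or_eq_of_le (hF μ hμ) with hlt | heq
        · exact ih (st μ) hlt F.card F hmax (Finset.card_filter_le _ _)
        · exfalso
          have h1 : μ ∈ F.filter (fun ν => st ν = s) := Finset.mem_filter.2 ⟨hμ, heq⟩
          have h2 := Finset.card_pos.2 ⟨μ, h1⟩
          omega
      | succ n ihn =>
        intro F hF hc
        rcases F.eq_empty_or_nonempty with hE | hne
        · rw [hE]; exact h0
        obtain ⟨μ, hμ, hmax⟩ := Finset.exists_max_image F st hne
        rcases lt_or_eq_of_le (hF μ hμ) with hlt | heq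
        · exact ih (st μ) hlt F.card F hmax (Finset.card_filter_le _ _)
        · refine hs F μ hμ hmax fun F' hF' => ihn F' ?_ ?_
          · intro ν hν
            rcases hF' ν hν with ⟨h1, -⟩ | h1
            · exact hF ν h1
            · exact (h1.trans_le (le_of_eq heq)).le
          · have h1 : μ ∈ F.filter (fun ν => st ν = s) := Finset.mem_filter.2 ⟨hμ, heq⟩
            have h2 : F'.filter (fun ν => st ν = s) ⊆ (F.filter (fun ν => st ν = s)).erase μ := by
              intro ν hν
              obtain ⟨h3, h4⟩ := Finset.mem_filter.1 hν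
              rcases hF' ν h3 with ⟨h5, h6⟩ | h5
              · exact Finset.mem_erase.2 ⟨h6, Finset.mem_filter.2 ⟨h5, h4⟩⟩
              · rw [h4, heq] at h5
                exact absurd h5 (lt_irrefl _)
            have h3 := Finset.card_le_card h2
            rw [Finset.card_erase_of_mem h1] at h3
            omega
  intro F
  rcases F.eq_empty_or_nonempty with hE | hne
  · rw [hE]; exact h0
  obtain ⟨μ, hμ, hmax⟩ := Finset.exists_max_image F st hne
  exact key (st μ) F.card F hmax (Finset.card_filter_le _ _)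

variable {L : FirstOrder.Language.{0, 0}} {M : Type u} [L.Structure M] [Nonempty M]
variable {N : Type v} {B : Set M} {e : N → ℕ → M}

/-- by `Alm.fin` (each parameter is in `B` or named by an element of `X`) -/
theorem alm_names {X : Set N} {α : Type w} {Z : (α → M) → Prop} (h : Alm L (MlS B e X) Z) :
    ∃ F : Finset N, (↑F : Set N) ⊆ X ∧ Alm L (MlS B e (↑F : Set N)) Z := by
  obtain ⟨F0, hF0, E, h1, h2, h3⟩ := h.fin
  let g : M → Finset N := fun a =>
    if h : ∃ μ, μ ∈ X ∧ ∃ i, e μ i = a then {h.choose} else ∅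
  refine ⟨F0.biUnion g, ?_, E, DefU.mono ?_ h1, h2, h3⟩
  · intro μ hμ
    obtain ⟨a, -, hb⟩ := Finset.mem_biUnion.1 (Finset.mem_coe.1 hμ)
    by_cases h : ∃ μ, μ ∈ X ∧ ∃ i, e μ i = a
    · simp only [g, dif_pos h, Finset.mem_singleton] at hb
      rw [hb]
      exact h.choose_spec.1
    · simp only [g, dif_neg h, Finset.notMem_empty] at hb
  · intro a ha
    rcases hF0 ha with h4 | ⟨μ, hμ, i, hi⟩
    · exact Or.inl h4
    · have h : ∃ μ, μ ∈ X ∧ ∃ i, e μ i = a := ⟨μ, hμ, i, hi⟩
      obtain ⟨j, hj⟩ := h.choose_spec.2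
      refine Or.inr ⟨h.choose, ?_, j, hj⟩
      rw [Finset.mem_coe, Finset.mem_biUnion]
      refine ⟨a, ha, ?_⟩
      simp only [g, dif_pos h, Finset.mem_singleton]

/-- Proof.  `P x ↔ Q (x, params)`; a parameter which is not in `A` is some `c k`. -/
theorem DefU.split {A : Set M} {c : ℕ → M} {α : Type w} {P : (α → M) → Prop}
    (h : DefU L (A ∪ range c) P) : ∃ P' : (α → M) → (ℕ → M) → Prop, DefU2 L A P' ∧
      ∀ x, P x ↔ P' x c := by
  obtain ⟨Q, hQ, hP⟩ := h
  have hk : ∀ a : (A ∪ range c : Set M), a.1 ∉ A → ∃ k, c k = a.1 := by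
    intro a ha
    rcases a.2 with h | h
    · exact absurd h ha
    · exact h
  let f : α ⊕ (A ∪ range c : Set M) → (α ⊕ ℕ) ⊕ A := fun i => match i with
    | Sum.inl i => Sum.inl (Sum.inl i)
    | Sum.inr a => if ha : a.1 ∈ A then Sum.inr ⟨a.1, ha⟩ else Sum.inl (Sum.inr (hk a ha).choose)
  refine ⟨fun x y => Q fun i => Sum.elim (Sum.elim x y) (fun a : A => a.1) (f i), ?_, ?_⟩
  · refine (DefU.mk hQ f).congr fun z => ?_
    refine iff_of_eq (congrArg Q ?_)
    funext i
    rcases f i with (j | j) | j <;> rfl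
  · intro x
    rw [hP]
    refine iff_of_eq (congrArg Q ?_)
    funext i
    rcases i with i | a
    · rfl
    · by_cases ha : a.1 ∈ A
      · simp only [f, dif_pos ha]
        rfl
      · simp only [f, dif_neg ha]
        exact (hk a ha).choose_spec.symm

/-- Proof.  Let `g` be the colouring, with `n` colours.  There is a colour `i` with `Ev p (fun x => g x = i)` (`ev_ex_fin`).  So almost every `z` has colour `i`
and for such a `z` almost every `x` has colour `i`, hence `E x z`. -/
theorem finEq_ev {X : Type w} {E : X → X → Prop} (hE : FinEq E) (p : Ultrafilter X) :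
    Ev p fun z => Ev p fun x => E x z := by
  obtain ⟨-, n, g, hg⟩ := hE
  obtain ⟨i, hi⟩ := (ev_ex_fin (p := p) (P := fun (i : Fin n) x => g x = i)).1
    (ev_of_all fun x => ⟨g x, rfl⟩)
  refine hi.mono fun z hz => hi.mono fun x hx => hg x z ?_
  rw [hx, hz]

end MP8f
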