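import Pool.Agent.Lib_MP_8da2c8_full.ProdEx
import Pool.Agent.Lib_MP_8da2c8_full.Sys

/-! STEP SysEx: existence of systems of names. -/

namespace MP8f

open Cardinal Set FirstOrder Filter
open scoped Classical

universe u v w x

variable {L : FirstOrder.Language.{0, 0}} {M : Type u} [L.Structure M] [Nonempty M]

/-- `e'` is a good choice of the blocks of stage `s`, for the types `q` -/
private def SGood (L : FirstOrder.Language.{0, 0}) {M : Type u} [L.Structure M] {N : Type u}
    (U U' : Set M) (q : N → Ultrafilter (ℕ → M)) (e' : N → ℕ → M) : Prop :=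
  (∀ ν i, e' ν i ∈ U') ∧ ∀ (ν : N) (P : (ℕ → M) → Prop),
    DefU L (U ∪ {a | ∃ μ, μ ≠ ν ∧ ∃ i, e' μ i = a}) P → (P (e' ν) ↔ Ev (q ν) P)

/-- Proof.  Define `E : Λ → N → ℕ → M` by well-founded recursion (`WellFounded.fix`): given `E t` for `t < s`, let `a ν = E (st ν) ν` if `st ν < s`, a constant
block in `M` otherwise; `E s` is given by `exists_prod` (if its hypotheses hold, arbitrary otherwise) for `U s`, `U' s` and the types `T ν a` if `st ν = s`, `pure` of a constant block
in `U s` if `st ν ≠ s`.  Let `e ν = E (st ν) ν`.  Show by well-founded induction on `s`: `E s ν i ∈ U' s`, and for `st ν = s` and `P` definable over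
`U s ∪ {a | ∃ μ, μ ≠ ν ∧ ∃ i, E s μ i = a}`, `P (E s ν) ↔ Ev (T ν e) P`: the assignment `a` at stage `s` agrees with `e` on `S ν` (`low`), so
`T ν a = T ν e` (`hT1`), almost over `MlS B e (S ν) ⊆ U s` (`hT2`, `hB`, `hUU` and the induction hypothesis).  Then
`σ = {st, U, e, S, p ν = T ν e, B, …}`; `prod` because `Oth U st e ν ⊆ U (st ν) ∪ {a | ∃ μ, μ ≠ ν ∧ ∃ i, E (st ν) μ i = a}`. -/
theorem exists_sys (hS : Stb L M) {N : Type u} {Λ : Type} [LinearOrder Λ] [WellFoundedLT Λ]
    {V : Type u} (emb : N × ℕ ↪ V) (st : N → Λ) (U U' : Λ → Set M) (elt : ∀ s, Elt L (U s))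
    (hUU : ∀ s t, s < t → U' s ⊆ U t) (sat : ∀ s, SatStep L (U s) (U' s) V)
    (S : N → Set N) (low : ∀ ν, ∀ μ ∈ S ν, st μ < st ν) (B : Set M) (hB : ∀ s, B ⊆ U s)
    (T : N → (N → ℕ → M) → Ultrafilter (ℕ → M))
    (hT1 : ∀ ν e e', (∀ μ ∈ S ν, e μ = e' μ) → T ν e = T ν e')
    (hT2 : ∀ ν e, AlmT L (MlS B e (S ν)) (T ν e)) :
    ∃ σ : Sys L M N Λ, σ.st = st ∧ σ.U = U ∧ σ.S = S ∧ σ.B = B ∧ ∀ ν, σ.p ν = T ν σ.e := by
  let q : Λ → (N → ℕ → M) → N → Ultrafilter (ℕ → M) := fun s a ν =>
    if st ν = s then T ν a else pure fun _ => (elt s).1.choose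
  let step : Λ → (N → ℕ → M) → N → ℕ → M := fun s a =>
    if h : ∃ e', SGood L (U s) (U' s) (q s a) e' then h.choose else fun _ _ => Classical.arbitrary M
  let F : (s : Λ) → ((t : Λ) → t < s → N → ℕ → M) → N → ℕ → M := fun s rec =>
    step s fun ν => if h : st ν < s then rec (st ν) h ν else fun _ => Classical.arbitrary M
  let E : Λ → N → ℕ → M := WellFounded.fix wellFounded_lt F
  let e : N → ℕ → M := fun ν => E (st ν) ν
  let asg : Λ → N → ℕ → M := fun s ν =>
    if st ν < s then e ν else fun _ => Classical.arbitrary M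
  have hE : ∀ s, E s = step s (asg s) := by
    intro s
    have h1 : E s = F s fun t _ => E t := WellFounded.fix_eq wellFounded_lt F s
    rw [h1]
    refine congrArg (step s) ?_
    funext ν
    by_cases h : st ν < s
    · simp only [asg, dif_pos h, if_pos h]
      rfl
    · simp only [asg, dif_neg h, if_neg h]
  have hasg : ∀ s ν, st ν < s → asg s ν = e ν := fun s ν h => if_pos h
  have hgood : ∀ s, SGood L (U s) (U' s) (q s (asg s)) (E s) := by
    intro s
    induction s using WellFoundedLT.induction with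
    | ind s ih =>
      have hex : ∃ e', SGood L (U s) (U' s) (q s (asg s)) e' := by
        refine exists_prod hS (elt s) (sat s) emb (q s (asg s)) fun ν => ?_
        by_cases hν : st ν = s
        · have h1 : q s (asg s) ν = T ν (asg s) := if_pos hν
          rw [h1]
          refine (hT2 ν (asg s)).mono ?_
          rintro a (ha | ⟨μ, hμ, i, rfl⟩)
          · exact hB s ha
          · have h2 : st μ < s := hν ▸ low ν μ hμ
            rw [hasg s μ h2]
            exact hUU _ _ h2 ((ih (st μ) h2).1 μ i)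
        · have h1 : q s (asg s) ν = pure fun _ => (elt s).1.choose := if_neg hν
          rw [h1]
          exact almT_pure _ fun _ => (elt s).1.choose_spec
      have h1 : step s (asg s) = hex.choose := dif_pos hex
      rw [hE s, h1]
      exact hex.choose_spec
  refine ⟨{ st := st, U := U, e := e, S := S, p := fun ν => T ν e, B := B, elt := elt,
            base := hB, mem := fun ν s h i => hUU _ _ h ((hgood (st ν)).1 ν i), low := low,
            alm := fun ν => hT2 ν e, prod := ?_ }, rfl, rfl, rfl, rfl, fun ν => rfl⟩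
  intro ν P hP
  have h1 : q (st ν) (asg (st ν)) ν = T ν e := by
    have h2 : q (st ν) (asg (st ν)) ν = T ν (asg (st ν)) := if_pos rfl
    rw [h2]
    exact hT1 ν _ _ fun μ hμ => hasg _ μ (low ν μ hμ)
  have h3 := (hgood (st ν)).2 ν P (DefU.mono ?_ hP)
  · rw [h1] at h3
    exact h3
  · rintro a (ha | ⟨μ, hμ, hne, i, rfl⟩)
    · exact Or.inl ha
    · refine Or.inr ⟨μ, hne, i, ?_⟩
      show E (st ν) μ i = E (st μ) μ i
      rw [hμ]

end MP8f
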