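import Pool.Agent.Lib_MP_8da2c8_full.ProdEx
import Pool.Agent.Lib_MP_8da2c8_full.SatA
import Pool.Agent.Lib_MP_8da2c8_full.Elem

/-! STEP TowerA: towers of elementary subsets. -/

namespace MP8f

open Cardinal Set FirstOrder Filter
open scoped Classical

universe u v w x

variable {L : FirstOrder.Language.{0, 0}}

/-- a tower -/
structure Twr (L : FirstOrder.Language.{0, 0}) {M : Type u} [L.Structure M] (U : ℕ → Set M)
    (V : Type u) : Prop where
  elt : ∀ n, Elt L (U n)
  mono : ∀ n, U n ⊆ U (n + 1)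
  top : ∀ x, ∃ n, x ∈ U n
  sat : ∀ n, SatStep L (U n) (U (n + 1)) (U n ⊕ V)

/-- a double tower -/
structure Amb (L : FirstOrder.Language.{0, 0}) {M : Type u} [L.Structure M]
    (U : Bool → ℕ → Set M) (V : Type u) : Prop where
  elt : ∀ b n, Elt L (U b n)
  mono : ∀ b n, U b n ⊆ U b (n + 1)
  lim : ∀ n, U false n ⊆ U true 0
  top : ∀ x, ∃ n, x ∈ U true n
  sat : ∀ b n, SatStep L (U b n) (U b (n + 1)) (U b n ⊕ V)

/-- conjunctions of finitely many conditions -/
theorem towerA_conj {M : Type u} [L.Structure M] {A : Set M} {α : Type v}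
    (F : Finset ((α → M) → Prop)) (hF : ∀ P ∈ F, DefU L A P) :
    DefU L A fun x => ∀ P ∈ F, P x := by
  induction F using Finset.induction_on with
  | empty => exact (DefU.const True).congr fun x => by simp
  | insert P F hP ih =>
    have h1 := ih fun Q hQ => hF Q (Finset.mem_insert_of_mem hQ)
    have h2 := hF P (Finset.mem_insert_self P F)
    exact (h2.and h1).congr fun x => by simp [Finset.forall_mem_insert]

/-- conditions over `j '' U` are conditions over `U` -/
theorem towerA_pullDef {M1 M2 : Type u} [L.Structure M1] [L.Structure M2]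
    (j : M1 ↪ₑ[L] M2) {U : Set M1} {α : Type v} {P : (α → M2) → Prop}
    (hP : DefU L (j '' U) P) : DefU L U fun z : α → M1 => P fun i => j (z i) := by
  obtain ⟨Q, ⟨φ, hφ⟩, hP⟩ := hP
  choose s hs using fun a : j '' U => a.2
  refine (DefU.mk (A := U) (R := fun z : α ⊕ (j '' U) → M1 => φ.Realize z) ⟨φ, fun _ => Iff.rfl⟩
    (Sum.elim Sum.inl fun a => Sum.inr ⟨s a, (hs a).1⟩)).congr fun z => ?_
  rw [hP, hφ]
  have h1 : (Sum.elim (fun i => j (z i)) fun a : j '' U => a.1) = j ∘ Sum.elim z s := by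
    funext i
    rcases i with i | i
    · rfl
    · exact (hs i).2.symm
  rw [h1, j.map_formula]
  refine iff_of_eq (congrArg φ.Realize ?_)
  funext i
  rcases i with i | i <;> rfl

/-- a condition over `j '' U` which is satisfied is satisfied in the image of `j` -/
theorem towerA_pullEx {M1 M2 : Type u} [L.Structure M1] [L.Structure M2] [Nonempty M1]
    [Nonempty M2] (j : M1 ↪ₑ[L] M2) {U : Set M1} {α : Type v} {P : (α → M2) → Prop}
    (hP : DefU L (j '' U) P) (h : ∃ x, P x) : ∃ z : α → M1, P fun i => j (z i) := by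
  obtain ⟨Q, ⟨φ, hφ⟩, hP⟩ := hP
  obtain ⟨x, hx⟩ := h
  choose s hs using fun a : j '' U => a.2
  obtain ⟨ψ, hψ⟩ := exists_exF.{u} (φ.relabel Sum.swap : L.Formula ((j '' U) ⊕ α))
  have key : ∀ (N' : Type u) [L.Structure N'] (y : (j '' U) → N') (z : α → N'),
      (φ.relabel Sum.swap : L.Formula ((j '' U) ⊕ α)).Realize (Sum.elim y z) ↔
        φ.Realize (Sum.elim z y) := by
    intro N' _ y z
    rw [FirstOrder.Language.Formula.realize_relabel]
    have : (Sum.elim y z) ∘ Sum.swap = Sum.elim z y := by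
      funext i
      rcases i with i | i <;> rfl
    rw [this]
  have h1 : ψ.Realize (fun a : j '' U => a.1) :=
    (hψ M2 _).2 ⟨x, (key M2 _ _).2 ((hφ _).1 ((hP x).1 hx))⟩
  have h2 : (fun a : j '' U => a.1) = j ∘ s := funext fun a => (hs a).2.symm
  rw [h2, j.map_formula] at h1
  obtain ⟨z, hz⟩ := (hψ M1 _).1 h1
  refine ⟨z, ?_⟩
  rw [hP, hφ]
  have h3 : (Sum.elim (fun i => j (z i)) fun a : j '' U => a.1) = j ∘ Sum.elim z s := by
    funext i
    rcases i with i | i
    · rfl
    · exact (hs i).2.symm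
  rw [h3, j.map_formula]
  exact (key M1 _ _).1 hz

/-- Proof.  Conditions over `j '' U` are given by formulas with parameters `j u`; they are finitely satisfiable in `M1` with the parameters `u` (`exists_exF` and
elementarity of `j`), so they are satisfied by some `v` in `U'`, and `fun i => j (v i)` is as required. -/
theorem SatStep.image {M1 M2 : Type u} [L.Structure M1] [L.Structure M2] [Nonempty M1]
    [Nonempty M2] (j : M1 ↪ₑ[L] M2) {U U' : Set M1} {V : Type u} (h : SatStep L U U' V) :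
    SatStep L (j '' U) (j '' U') V := by
  intro W hW hfin
  obtain ⟨v, hv, hv'⟩ := h ((fun (P : (V → M2) → Prop) (z : V → M1) => P fun i => j (z i)) '' W)
    (by
      rintro _ ⟨P, hP, rfl⟩
      exact towerA_pullDef j (hW P hP))
    (by
      intro F hF
      obtain ⟨F0, hF0, hF1⟩ := Finset.subset_set_image_iff.1 hF
      obtain ⟨x, hx⟩ := hfin F0 hF0
      obtain ⟨z, hz⟩ := towerA_pullEx j (towerA_conj F0 fun P hP => hW P (hF0 hP)) ⟨x, hx⟩
      refine ⟨z, fun P hP => ?_⟩
      rw [← hF1, Finset.mem_image] at hP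
      obtain ⟨P0, hP0, rfl⟩ := hP
      exact hz P0 hP0)
  exact ⟨fun i => j (v i), fun i => mem_image_of_mem j (hv i),
    fun P hP => hv' _ (mem_image_of_mem _ hP)⟩

/-- Proof.  `SatStep.comap` for `ULift ℕ` (`U n` is nonempty and infinite sets of variables: use `ULift ℕ ↪ V`). -/
theorem Amb.osat {M : Type u} [L.Structure M] [Nonempty M] {U : Bool → ℕ → Set M} {V : Type u}
    (h : Amb L U V) (hV : Infinite V) : OSat L (U true) := by
  refine ⟨h.elt true, h.mono true, h.top, fun n W hW hfin => ?_⟩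
  let f : ULift.{u} ℕ ↪ (U true n) ⊕ V :=
    (Equiv.ulift.toEmbedding.trans (Infinite.natEmbedding V)).trans Function.Embedding.inr
  obtain ⟨v, hv, hv'⟩ := (SatStep.comap f (h.sat true n))
    ((fun (P : (ℕ → M) → Prop) (z : ULift.{u} ℕ → M) => P fun i => z ⟨i⟩) '' W)
    (by
      rintro _ ⟨P, hP, rfl⟩
      exact (hW P hP).at fun i : ℕ => (⟨i⟩ : ULift.{u} ℕ))
    (by
      intro F hF
      obtain ⟨F0, hF0, hF1⟩ := Finset.subset_set_image_iff.1 hF
      obtain ⟨x, hx⟩ := hfin F0 hF0
      refine ⟨fun i => x i.down, fun P hP => ?_⟩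
      rw [← hF1, Finset.mem_image] at hP
      obtain ⟨P0, hP0, rfl⟩ := hP
      exact hx P0 hP0)
  exact ⟨fun i => v ⟨i⟩, fun i => hv _, fun P hP => hv' _ (mem_image_of_mem _ hP)⟩

end MP8f
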