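import Pool.Agent.Lib_MP_8da2c8_full.TowerA
import Pool.Agent.Lib_MP_8da2c8_full.Ultra
import Pool.Agent.Lib_MP_8da2c8_full.Chain

/-! STEP TowerB: existence of towers. -/

namespace MP8f

open Cardinal Set FirstOrder Filter
open scoped Classical

universe u v w x

variable {L : FirstOrder.Language.{0, 0}}

/-- a bundled nonempty structure -/
private structure Bun (L : FirstOrder.Language.{0, 0}) : Type (u + 1) where
  car : Type u
  str : L.Structure car
  ne : Nonempty car

private instance (B : Bun.{u} L) : L.Structure B.car := B.str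
private instance (B : Bun.{u} L) : Nonempty B.car := B.ne

private noncomputable def Bun.next (B : Bun.{u} L) (V : Type u) : Bun.{u} L :=
  letI := (exists_ultra (L := L) B.car (B.car ⊕ V)).choose_spec.choose
  { car := (exists_ultra (L := L) B.car (B.car ⊕ V)).choose
    str := (exists_ultra (L := L) B.car (B.car ⊕ V)).choose_spec.choose
    ne := ⟨(exists_ultra (L := L) B.car (B.car ⊕ V)).choose_spec.choose_spec.choose
      (Classical.arbitrary B.car)⟩ }

private theorem Bun.exists_next (B : Bun.{u} L) (V : Type u) :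
    ∃ j : B.car ↪ₑ[L] (B.next V).car,
      ∀ W : Set (L.Formula ((B.car ⊕ V) ⊕ B.car)),
        (∀ F : Finset (L.Formula ((B.car ⊕ V) ⊕ B.car)), ↑F ⊆ W →
          ∃ v : B.car ⊕ V → B.car, ∀ φ ∈ F, φ.Realize (Sum.elim v id)) →
        ∃ v : B.car ⊕ V → (B.next V).car, ∀ φ ∈ W, φ.Realize (Sum.elim v j) :=
  (exists_ultra (L := L) B.car (B.car ⊕ V)).choose_spec.choose_spec

private noncomputable def twG (B : Bun.{u} L) (V : Type u) : ℕ → Bun.{u} L
  | 0 => B
  | n + 1 => (twG B V n).next V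

/-- conjunction of a finite set of formulas -/
private theorem exists_conj {α : Type v} (F : Finset (L.Formula α)) :
    ∃ χ : L.Formula α, ∀ (N : Type u) [L.Structure N] (x : α → N),
      χ.Realize x ↔ ∀ φ ∈ F, φ.Realize x := by
  induction F using Finset.induction_on with
  | empty => exact ⟨⊤, fun N _ x => by simp⟩
  | insert φ F _ ih =>
    obtain ⟨χ, hχ⟩ := ih
    refine ⟨φ ⊓ χ, fun N _ x => ?_⟩
    rw [Finset.forall_mem_insert, ← hχ N x]
    unfold FirstOrder.Language.Formula.Realize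
    rw [FirstOrder.Language.BoundedFormula.realize_inf]

/-- finitely many formulas with parameters in `G` realized in `M` are realized in `G` -/
private theorem pull_fin {G M : Type u} [L.Structure G] [L.Structure M] [Nonempty G] [Nonempty M]
    (j : G ↪ₑ[L] M) {X : Type u} (F : Finset (L.Formula (X ⊕ G)))
    (h : ∃ v : X → M, ∀ φ ∈ F, φ.Realize (Sum.elim v j)) :
    ∃ v : X → G, ∀ φ ∈ F, φ.Realize (Sum.elim v id) := by
  obtain ⟨χ, hχ⟩ := exists_conj.{u} F
  obtain ⟨ψ, hψ⟩ := exists_exF.{u} (χ.relabel Sum.swap : L.Formula (G ⊕ X))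
  have key : ∀ (N' : Type u) [L.Structure N'] (y : G → N') (z : X → N'),
      (χ.relabel Sum.swap : L.Formula (G ⊕ X)).Realize (Sum.elim y z) ↔
        χ.Realize (Sum.elim z y) := by
    intro N' _ y z
    rw [FirstOrder.Language.Formula.realize_relabel]
    have : (Sum.elim y z) ∘ Sum.swap = Sum.elim z y := by
      funext i
      rcases i with i | i <;> rfl
    rw [this]
  obtain ⟨v, hv⟩ := h
  have h1 : ψ.Realize (j : G → M) :=
    (hψ M _).2 ⟨v, (key M _ _).2 ((hχ M _).2 hv)⟩
  have h2 : (j : G → M) = j ∘ (id : G → G) := rfl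
  rw [h2, j.map_formula] at h1
  obtain ⟨z, hz⟩ := (hψ G _).1 h1
  exact ⟨z, (hχ G _).1 ((key G _ _).1 hz)⟩

/-- one step of the tower -/
private theorem step_sat {G G' M : Type u} [L.Structure G] [L.Structure G'] [L.Structure M]
    [Nonempty G] [Nonempty M] {V : Type u} (f : G ↪ₑ[L] G') (j : G ↪ₑ[L] M) (j' : G' ↪ₑ[L] M)
    (hj : ∀ x, j' (f x) = j x)
    (hf : ∀ W : Set (L.Formula ((G ⊕ V) ⊕ G)),
        (∀ F : Finset (L.Formula ((G ⊕ V) ⊕ G)), ↑F ⊆ W →
          ∃ v : G ⊕ V → G, ∀ φ ∈ F, φ.Realize (Sum.elim v id)) →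
        ∃ v : G ⊕ V → G', ∀ φ ∈ W, φ.Realize (Sum.elim v f)) :
    SatStep L (range j) (range j') ((range j) ⊕ V) := by
  intro W hW hfin
  let e : G ≃ (range j) := Equiv.ofInjective j j.injective
  have he : ∀ x, ((e x : range j) : M) = j x := fun x => rfl
  let W' : Set (L.Formula ((G ⊕ V) ⊕ G)) := {φ | ∃ P ∈ W, ∀ v : (range j) ⊕ V → M,
    P v ↔ φ.Realize (Sum.elim (fun i => v (Sum.map e id i)) j)}
  have hW' : ∀ P ∈ W, ∃ φ ∈ W', ∀ v : (range j) ⊕ V → M,
      P v ↔ φ.Realize (Sum.elim (fun i => v (Sum.map e id i)) j) := by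
    intro P hP
    obtain ⟨Q, ⟨φ, hφ⟩, hPQ⟩ := hW P hP
    have h1 : ∀ v : (range j) ⊕ V → M, P v ↔
        (φ.relabel (Sum.map (Sum.map e.symm id) e.symm) : L.Formula ((G ⊕ V) ⊕ G)).Realize
          (Sum.elim (fun i => v (Sum.map e id i)) j) := by
      intro v
      rw [hPQ, hφ, FirstOrder.Language.Formula.realize_relabel]
      refine iff_of_eq (congrArg φ.Realize ?_)
      funext i
      rcases i with (i | i) | i
      · show v (Sum.inl i) = v (Sum.inl (e (e.symm i)))
        rw [Equiv.apply_symm_apply]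
      · rfl
      · show (i : M) = j (e.symm i)
        rw [← he, Equiv.apply_symm_apply]
    exact ⟨_, ⟨P, hP, h1⟩, h1⟩
  obtain ⟨v, hv⟩ := hf W' (by
    intro F hF
    refine pull_fin j F ?_
    have h2 : ∀ φ ∈ F, ∃ P ∈ W, ∀ v : (range j) ⊕ V → M,
        P v ↔ φ.Realize (Sum.elim (fun i => v (Sum.map e id i)) j) := fun φ hφ => hF hφ
    choose! p hp1 hp2 using h2
    obtain ⟨v, hv⟩ := hfin (F.image p) (by
      intro P hP
      obtain ⟨φ, hφ, rfl⟩ := Finset.mem_image.1 (Finset.mem_coe.1 hP)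
      exact hp1 φ hφ)
    exact ⟨fun i => v (Sum.map e id i), fun φ hφ =>
      (hp2 φ hφ v).1 (hv _ (Finset.mem_image_of_mem p hφ))⟩)
  refine ⟨fun i => j' (v (Sum.map e.symm id i)), fun i => ⟨_, rfl⟩, fun P hP => ?_⟩
  obtain ⟨φ, hφ, hPφ⟩ := hW' P hP
  rw [hPφ]
  have h3 := hv φ hφ
  rw [← j'.map_formula] at h3
  have h4 : (j' : G' → M) ∘ Sum.elim v f =
      Sum.elim (fun i => j' (v (Sum.map e.symm id (Sum.map e id i)))) j := by
    funext i
    rcases i with (i | i) | i
    · show j' (v (Sum.inl i)) = j' (v (Sum.inl (e.symm (e i))))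
      rw [Equiv.symm_apply_apply]
    · rfl
    · exact hj i
  rw [h4] at h3
  exact h3

/-- Proof.  `G 0 = N`, `G (n + 1)` the extension of `G n` from `exists_ultra` for the variables `G n ⊕ V` (recursion on bundled nonempty structures); `M, j` from `exists_chain_limit`,
`U n = range (j n)`; `elt_range`.  `sat`: let `W` be a set of conditions `P : (U n ⊕ V → M) → Prop` definable over `U n`.  Identify `U n` with `G n` by `j n`, so
`P v ↔ φ.Realize (Sum.elim (v ∘ equiv) (j n))` for a formula `φ : L.Formula ((G n ⊕ V) ⊕ G n)`; the set of the `φ`s is finitely satisfiable in `G n`, because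
`∃ v` of a finite conjunction holds in `M` (`exists_exF` and elementarity of `j n`).  So it is realized in `G (n + 1)`. -/
theorem exists_tower (N : Type u) [L.Structure N] [Nonempty N] (V : Type u) :
    ∃ (M : Type u) (_ : L.Structure M) (j : N ↪ₑ[L] M) (U : ℕ → Set M),
      Twr L U V ∧ range j ⊆ U 0 := by
  let G : ℕ → Bun.{u} L := twG ⟨N, inferInstance, inferInstance⟩ V
  have hf0 : ∀ n, ∃ f : (G n).car ↪ₑ[L] (G (n + 1)).car,
      ∀ W : Set (L.Formula (((G n).car ⊕ V) ⊕ (G n).car)),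
        (∀ F : Finset (L.Formula (((G n).car ⊕ V) ⊕ (G n).car)), ↑F ⊆ W →
          ∃ v : (G n).car ⊕ V → (G n).car, ∀ φ ∈ F, φ.Realize (Sum.elim v id)) →
        ∃ v : (G n).car ⊕ V → (G (n + 1)).car, ∀ φ ∈ W, φ.Realize (Sum.elim v f) :=
    fun n => (G n).exists_next V
  choose f hf using hf0
  obtain ⟨M, iM, j, hj, hsurj⟩ := exists_chain_limit (L := L) (fun n => (G n).car) f
  haveI : Nonempty M := ⟨j 0 (Classical.arbitrary (G 0).car)⟩
  refine ⟨M, iM, j 0, fun n => range (j n), ⟨fun n => elt_range (j n), ?_, ?_, ?_⟩, subset_rfl⟩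
  · rintro n _ ⟨x, rfl⟩
    exact ⟨f n x, hj n x⟩
  · intro x
    obtain ⟨n, y, hy⟩ := hsurj x
    exact ⟨n, y, hy⟩
  · exact fun n => step_sat (f n) (j n) (j (n + 1)) (hj n) (hf n)

end MP8f
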