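import Pool.Agent.Lib_MP_8da2c8_full.TowerB

/-! STEP TowerC: existence of double towers. -/

namespace MP8f

open Cardinal Set FirstOrder Filter
open scoped Classical

universe u v w x

variable {L : FirstOrder.Language.{0, 0}}

/-- Proof.  `exists_tower` for `N` gives `M1, j1, U1`; `exists_tower` for `M1` gives `M2, j2, U2`.  `U false n = j2 '' U1 n`, `U true n = U2 n`.  `Elt.image`, `SatStep.image`,
`SatStep.comap`. -/
theorem exists_amb (N : Type u) [L.Structure N] [Nonempty N] (V : Type u) :
    ∃ (M : Type u) (_ : L.Structure M) (j : N ↪ₑ[L] M) (U : Bool → ℕ → Set M),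
      Amb L U V ∧ range j ⊆ U false 0 := by
  obtain ⟨M1, _, j1, U1, hT1, hr1⟩ := exists_tower (L := L) N V
  have : Nonempty M1 := ⟨j1 (Classical.arbitrary N)⟩
  obtain ⟨M2, _, j2, U2, hT2, hr2⟩ := exists_tower (L := L) M1 V
  have : Nonempty M2 := ⟨j2 (Classical.arbitrary M1)⟩
  refine ⟨M2, inferInstance, j2.comp j1, fun b n => match b with
    | false => j2 '' U1 n
    | true => U2 n, ⟨?_, ?_, ?_, ?_, ?_⟩, ?_⟩
  · intro b n
    cases b
    · exact (hT1.elt n).image j2
    · exact hT2.elt n
  · intro b n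
    cases b
    · exact image_mono (hT1.mono n)
    · exact hT2.mono n
  · intro n
    exact (image_subset_range _ _).trans hr2
  · exact hT2.top
  · intro b n
    cases b
    · exact SatStep.comap ((Equiv.sumCongr (Equiv.Set.image j2 (U1 n) j2.injective).symm
        (Equiv.refl V)).toEmbedding) ((hT1.sat n).image j2)
    · exact hT2.sat n
  · rintro _ ⟨x, rfl⟩
    exact ⟨j1 x, hr1 (mem_range_self x), rfl⟩

end MP8f
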