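import Pool.Agent.Lib_MP_8da2c8_full.AlmB2
import Pool.Agent.Lib_MP_8da2c8_full.LocDefA

/-! STEP Transp: transport and extension of types. -/

namespace MP8f

open Cardinal Set FirstOrder Filter
open scoped Classical

universe u v w x

variable {L : FirstOrder.Language.{0, 0}} {M : Type u} [L.Structure M] [Nonempty M]

omit [Nonempty M] in
private theorem transp_build {C : L.Formula (ℕ ⊕ ℕ) → (ℕ → M) → Prop}
    (ha : ∀ (ι : Type) [Finite ι] (φ : ι → L.Formula (ℕ ⊕ ℕ)) (y : ι → ℕ → M),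
      (∀ i, C (φ i) (y i)) → ∃ x : ℕ → M, ∀ i, (φ i).Realize (Sum.elim x (y i)))
    (hb : ∀ φ y, C φ.not y ↔ ¬ C φ y) :
    ∃ q : Ultrafilter (ℕ → M), ∀ φ y, (Ev q fun x => φ.Realize (Sum.elim x y)) ↔ C φ y := by
  obtain ⟨q, hq⟩ := Ultrafilter.exists_ultrafilter_of_finite_inter_nonempty
    {s : Set (ℕ → M) | ∃ φ : L.Formula (ℕ ⊕ ℕ), ∃ y : ℕ → M,
      C φ y ∧ s = {x | φ.Realize (Sum.elim x y)}} (by
      intro T hT
      have h1 : ∀ s : T, ∃ φ : L.Formula (ℕ ⊕ ℕ), ∃ y : ℕ → M,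
          C φ y ∧ s.1 = {x | φ.Realize (Sum.elim x y)} := fun s => hT s.2
      choose φ y hC hs using h1
      obtain ⟨x, hx⟩ := ha (Fin T.card) (fun i => φ (T.equivFin.symm i))
        (fun i => y (T.equivFin.symm i)) fun i => hC _
      refine ⟨x, ?_⟩
      intro s hsT
      have h2 := hx (T.equivFin ⟨s, hsT⟩)
      simp only [Equiv.symm_apply_apply] at h2
      have h3 := hs ⟨s, hsT⟩
      simp only at h3
      rw [h3]
      exact h2)
  have h1 : ∀ φ y, C φ y → Ev q fun x => φ.Realize (Sum.elim x y) := fun φ y h =>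
    hq ⟨φ, y, h, rfl⟩
  refine ⟨q, fun φ y => ⟨fun h => ?_, h1 φ y⟩⟩
  by_contra hc
  have h2 := h1 _ _ ((hb φ y).2 hc)
  have h3 : Ev q fun x => ¬ φ.Realize (Sum.elim x y) := h2.mono fun x hx => by
    rwa [FirstOrder.Language.Formula.realize_not] at hx
  exact ev_not.1 h3 h

private theorem transp_dfn {ι : Type} [Finite ι] (φ : ι → L.Formula (ℕ ⊕ ℕ)) :
    Dfn L fun Y : ι × ℕ → M => ∃ x : ℕ → M, ∀ i, (φ i).Realize
      (Sum.elim x fun j => Y (i, j)) := by
  refine Dfn.exB (R := fun (Y : ι × ℕ → M) (x : ℕ → M) => ∀ i, (φ i).Realize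
      (Sum.elim x fun j => Y (i, j))) ?_
  refine Dfn.all_fin (R := fun i (Z : (ι × ℕ) ⊕ ℕ → M) => (φ i).Realize
      (Sum.elim (fun k => Z (.inr k)) fun j => Z (.inl (i, j)))) fun i => ?_
  have h1 : Dfn L fun z : ℕ ⊕ ℕ → M => (φ i).Realize z := ⟨φ i, fun z => Iff.rfl⟩
  refine (h1.at (Sum.elim Sum.inr fun j => Sum.inl (i, j))).congr fun Z => ?_
  refine iff_of_eq (congrArg (φ i).Realize ?_)
  funext k
  rcases k with k | k <;> rfl

/-- Transport of a type along blocks of the same type.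
Proof.  Let `W = { {x | φ.Realize (Sum.elim x y)} | θ φ y (n φ) }`, a family of sets of blocks.  It has the finite intersection
property: for `φ 1, …, φ r` the statement `∀ y 1 … y r, (∧ θ (φ i) (y i) (m (φ i))) → ∃ x, ∧ (φ i).Realize (x, y i)` is true (`hp`, `ev_all_fin`,
`Ev.exists`); it is definable in the block `m` (index `L.Formula (ℕ ⊕ ℕ) × ℕ`), so by `h` it is true for `n` in place of `m` (`Eqv` says that `m` and `n` realize the same formulas, hence satisfy the same `Dfn` relations).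
So there is an ultrafilter `q` containing `W` (`Ultrafilter.exists_le` or `exists_ultrafilter_of_finite_inter_nonempty`).
If `θ φ y (n φ)` then `Ev q (φ · y)`.  Otherwise `θ φ.not y (n φ.not)`, because
`∀ y, (θ φ.not y (m φ.not) ↔ ¬ θ φ y (m φ))` holds by `hp` and transfers to `n`; so `Ev q (¬ φ · y)`. -/
theorem exists_transport {θ : L.Formula (ℕ ⊕ ℕ) → (ℕ → M) → (ℕ → M) → Prop}
    (hθ : ∀ φ, Dfn2 L (θ φ)) {m n : L.Formula (ℕ ⊕ ℕ) → ℕ → M}
    (h : Eqv L (fun z : L.Formula (ℕ ⊕ ℕ) × ℕ => m z.1 z.2) fun z => n z.1 z.2)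
    (p : Ultrafilter (ℕ → M))
    (hp : ∀ φ y, (Ev p fun x => φ.Realize (Sum.elim x y)) ↔ θ φ y (m φ)) :
    ∃ q : Ultrafilter (ℕ → M), ∀ φ y,
      (Ev q fun x => φ.Realize (Sum.elim x y)) ↔ θ φ y (n φ) := by
  have htr : ∀ S : (L.Formula (ℕ ⊕ ℕ) × ℕ → M) → Prop, Dfn L S →
      S (fun z => m z.1 z.2) → S fun z => n z.1 z.2 := by
    rintro S ⟨φ, hφ⟩ hS
    exact (hφ _).2 ((h φ).1 ((hφ _).1 hS))
  refine transp_build (C := fun φ y => θ φ y (n φ)) ?_ ?_
  · intro ι _ φ y hy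
    have h1 : Dfn L fun w : L.Formula (ℕ ⊕ ℕ) × ℕ → M => ∀ Y : ι × ℕ → M,
        (∀ i, θ (φ i) (fun j => Y (i, j)) fun j => w (φ i, j)) →
          ∃ x : ℕ → M, ∀ i, (φ i).Realize (Sum.elim x fun j => Y (i, j)) := by
      refine Dfn.allB (R := fun (w : L.Formula (ℕ ⊕ ℕ) × ℕ → M) (Y : ι × ℕ → M) =>
        (∀ i, θ (φ i) (fun j => Y (i, j)) fun j => w (φ i, j)) →
          ∃ x : ℕ → M, ∀ i, (φ i).Realize (Sum.elim x fun j => Y (i, j))) ?_
      refine Dfn.imp (Dfn.all_fin fun i => ?_) ?_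
      · exact (hθ (φ i)).at (fun j => Sum.inr (i, j)) fun j => Sum.inl (φ i, j)
      · exact (transp_dfn φ).at Sum.inr
    have h2 := htr _ h1 (fun Y hY => by
      have h3 : Ev p fun x => ∀ i, (φ i).Realize (Sum.elim x fun j => Y (i, j)) :=
        ev_all_fin.2 fun i => (hp _ _).2 (hY i)
      exact h3.exists)
    exact h2 (fun z => y z.1 z.2) hy
  · intro φ y
    have h1 : Dfn L fun w : L.Formula (ℕ ⊕ ℕ) × ℕ → M => ∀ y : ℕ → M,
        (θ φ.not y (fun j => w (φ.not, j)) ↔ ¬ θ φ y fun j => w (φ, j)) := by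
      refine Dfn.allB (R := fun (w : L.Formula (ℕ ⊕ ℕ) × ℕ → M) (y : ℕ → M) =>
        (θ φ.not y (fun j => w (φ.not, j)) ↔ ¬ θ φ y fun j => w (φ, j))) ?_
      refine Dfn.iff ?_ (Dfn.not ?_)
      · exact (hθ φ.not).at (fun j => Sum.inr j) fun j => Sum.inl (φ.not, j)
      · exact (hθ φ).at (fun j => Sum.inr j) fun j => Sum.inl (φ, j)
    have h2 := htr _ h1 (fun y => by
      have h3 := hp φ.not y
      have h4 := hp φ y
      have h5 : (Ev p fun x => φ.not.Realize (Sum.elim x y)) ↔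
          ¬ Ev p fun x => φ.Realize (Sum.elim x y) := by
        rw [← ev_not]
        exact ev_congr fun x => FirstOrder.Language.Formula.realize_not
      exact h3.symm.trans (h5.trans (not_congr h4)))
    exact h2 y

/-- The definable extension of the restriction of a type to an elementary `U`.
Proof.  For `φ : L.Formula (ℕ ⊕ ℕ)` let `T φ` be given by `locdef0` for `p0`, `U` and `φ`: definable over `U` and
`Ev p0 (φ · y) ↔ T φ y` for `y` in `U`.  The sets `{x | φ.Realize (Sum.elim x y)}` with `T φ y` (any `y`) have the finite intersection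
property: `∀ y 1 … y r, (∧ T (φ i) (y i)) → ∃ x, ∧ (φ i).Realize (x, y i)` is definable over `U` without free variables; it is true for
`y i` in `U`, so it is true (`Elt.all` for blocks with index `Fin r × ℕ`).  As in `exists_transport`, with
`T φ.not y ↔ ¬ T φ y` (`Elt.all` again), we get `p` with `Ev p (φ · y) ↔ T φ y` for all `y`.  The first claim follows.  Second claim: `P` definable over `U`
is `φ(x, y)` with a block `y : ℕ → M` in `U` (finite support, `Dfn2.reduce`). -/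
theorem exists_ext (hS : Stb L M) {U : Set M} (hU : Elt L U) (p0 : Ultrafilter (ℕ → M)) :
    ∃ p : Ultrafilter (ℕ → M),
      (∀ R : (ℕ → M) → (ℕ → M) → Prop, Dfn2 L R → DefU L U fun y => Ev p fun x => R x y) ∧
      ∀ P : (ℕ → M) → Prop, DefU L U P → (Ev p P ↔ Ev p0 P) := by
  have h0 : ∀ φ : L.Formula (ℕ ⊕ ℕ), ∃ P : (ℕ → M) → Prop, DefU L U P ∧
      ∀ y, (∀ i, y i ∈ U) → ((Ev p0 fun x => φ.Realize (Sum.elim x y)) ↔ P y) := fun φ =>
    locdef0 hS p0 U (R := fun x y => φ.Realize (Sum.elim x y)) (by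
      refine ⟨φ, fun z => iff_of_eq (congrArg φ.Realize ?_)⟩
      funext k
      rcases k with k | k <;> rfl)
  choose T hT hTU using h0
  obtain ⟨p, hp⟩ := transp_build (C := T) (by
    intro ι _ φ y hy
    have h1 : DefU L U fun Y : ι × ℕ → M => (∀ i, T (φ i) fun j => Y (i, j)) →
        ∃ x : ℕ → M, ∀ i, (φ i).Realize (Sum.elim x fun j => Y (i, j)) := by
      refine DefU.imp (DefU.all_fin fun i => ?_) (DefU.of_dfn (transp_dfn φ))
      exact (hT (φ i)).at fun j => (i, j)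
    refine hU.all h1 (fun Y hY h2 => ?_) (fun z => y z.1 z.2) hy
    have h3 : Ev p0 fun x => ∀ i, (φ i).Realize (Sum.elim x fun j => Y (i, j)) :=
      ev_all_fin.2 fun i => (hTU _ _ fun j => hY (i, j)).2 (h2 i)
    exact h3.exists) (by
    intro φ
    refine hU.iff_of (hT φ.not) (hT φ).not fun y hy => ?_
    have h3 := hTU φ.not y hy
    have h4 := hTU φ y hy
    have h5 : (Ev p0 fun x => φ.not.Realize (Sum.elim x y)) ↔
        ¬ Ev p0 fun x => φ.Realize (Sum.elim x y) := by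
      rw [← ev_not]
      exact ev_congr fun x => FirstOrder.Language.Formula.realize_not
    exact h3.symm.trans (h5.trans (not_congr h4)))
  refine ⟨p, fun R hR => ?_, fun P hP => ?_⟩
  · obtain ⟨φ, hφ⟩ := hR
    refine (hT φ).congr fun y => ?_
    rw [← hp φ y]
    exact ev_congr fun x => hφ (Sum.elim x y)
  · obtain ⟨Q, hQ, hPQ⟩ := hP
    have hne : Nonempty U := hU.1.to_subtype
    have h1 : Dfn2 L fun (x : ℕ → M) (w : U → M) => Q (Sum.elim x w) := by
      refine hQ.congr fun z => iff_of_eq (congrArg Q ?_)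
      funext k
      rcases k with k | k <;> rfl
    obtain ⟨R, ⟨φ, hφ⟩, f, hf⟩ := h1.reduce
    have h2 : ∀ x, P x ↔ φ.Realize (Sum.elim x fun j => (f j).1) := fun x =>
      (hPQ x).trans ((hf x fun a => a.1).trans (hφ (Sum.elim x fun j => (f j).1)))
    have h3 := hp φ fun j => (f j).1
    have h4 := hTU φ (fun j => (f j).1) fun j => (f j).2
    exact (ev_congr h2).trans (h3.trans (h4.symm.trans (ev_congr h2).symm))

end MP8f
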