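import Pool.Agent.Lib_MP_8da2c8_full.Build
import Pool.Agent.Lib_MP_8da2c8_full.SysEx
import Pool.Agent.Lib_MP_8da2c8_full.TowerC

/-! STEP World: everything together. -/

namespace MP8f

open Cardinal Set FirstOrder Filter
open scoped Classical

universe u v w x

/-- the structure `M` with all the names `Nm Y` -/
structure World (L : FirstOrder.Language.{0, 0}) (M : Type u) [L.Structure M] [Nonempty M]
    (Y : Type u) where
  U : Bool → ℕ → Set M
  V : Type u
  hV : Infinite V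
  amb : Amb L U V
  emb : Nm Y × ℕ ↪ V
  hS : Stb L M
  t : Tmp L M
  tin : ∀ n i, t.m n i ∈ U false 0
  ain : ∀ i, t.a i ∈ U false 0
  sc : Sch t
  σ : Sys L M (Nm Y) (Bool ×ₗ ℕ)
  hst : σ.st = Nm.st
  hU : ∀ b n, σ.U (toLex (b, n)) = U b n
  hSS : σ.S = Nm.S
  hB : σ.B = range (t.m 0)
  hp : ∀ ν, σ.p ν = Ty sc ν σ.e

variable {L : FirstOrder.Language.{0, 0}}

/-- Proof.  `V = Nm Y × ℕ`; `exists_amb` for `N` and `V` gives `M, j, U`; `Tmp.map`, `exists_sch`; `exists_sys` for `Λ = Bool ×ₗ ℕ`, `U s = U (ofLex s).1 (ofLex s).2`,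
`U' s = U (ofLex s).1 ((ofLex s).2 + 1)`, `B = range (t.m 0)`, `T = Ty sc` (`ty_congr`, `ty_alm`, `Nm.st_lt`, `SatStep.comap`); `Prod.Lex.lt_iff` for the order; `U b (n + 1) ⊆ U b' n'` if
`(b, n) < (b', n')`: `Amb.mono` (iterated) and `Amb.lim`. -/
theorem exists_world [Countable L.Symbols] (N : Type u) [L.Structure N] [Nonempty N]
    (t0 : Tmp L N) (Y : Type u)
    (hS : ∀ (M : Type u) [L.Structure M], (N ↪ₑ[L] M) → Stb L M) :
    ∃ (M : Type u) (_ : L.Structure M) (_ : Nonempty M) (_ : N ↪ₑ[L] M),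
      Nonempty (World L M Y) := by
  obtain ⟨M, hM, j, U, hamb, hr⟩ := exists_amb (L := L) N (Nm Y × ℕ)
  letI := hM
  have hne : Nonempty M := ⟨j (Classical.arbitrary N)⟩
  refine ⟨M, hM, hne, j, ?_⟩
  have hStb : Stb L M := hS M j
  obtain ⟨t, htm, hta, -⟩ := Tmp.map (M := M) j t0
  obtain ⟨sc⟩ := exists_sch hStb t
  have hV : Infinite (Nm Y × ℕ) := by
    refine Infinite.of_injective (fun n : ℕ => ((Nm.nd [] : Nm Y), n)) ?_
    intro a b hab
    exact (Prod.ext_iff.1 hab).2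
  have tin : ∀ n i, t.m n i ∈ U false 0 := by
    intro n i
    rw [htm]
    exact hr ⟨_, rfl⟩
  have ain : ∀ i, t.a i ∈ U false 0 := by
    intro i
    rw [hta]
    exact hr ⟨_, rfl⟩
  have mono' : ∀ b n m, n ≤ m → U b n ⊆ U b m := by
    intro b n m h
    induction m, h using Nat.le_induction with
    | base => exact subset_rfl
    | succ m _ ih => exact ih.trans (hamb.mono b m)
  have hbase : ∀ b n, U false 0 ⊆ U b n := by
    intro b n
    cases b with
    | false => exact mono' false 0 n (Nat.zero_le n)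
    | true => exact (hamb.lim 0).trans (mono' true 0 n (Nat.zero_le n))
  have hUU : ∀ s t : Bool ×ₗ ℕ, s < t →
      U (ofLex s).1 ((ofLex s).2 + 1) ⊆ U (ofLex t).1 (ofLex t).2 := by
    intro s s' hs
    rw [Prod.Lex.lt_iff] at hs
    rcases hs with hs | ⟨hs1, hs2⟩
    · rw [Bool.lt_iff] at hs
      obtain ⟨h1, h2⟩ := hs
      rw [h1, h2]
      exact (hamb.lim _).trans (mono' true 0 _ (Nat.zero_le _))
    · rw [hs1]
      exact mono' _ _ _ hs2
  obtain ⟨σ, h1, h2, h3, h4, h5⟩ := exists_sys (L := L) (M := M) hStb (N := Nm Y)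
    (Λ := Bool ×ₗ ℕ) (V := Nm Y × ℕ) (Function.Embedding.refl _) Nm.st
    (fun s => U (ofLex s).1 (ofLex s).2) (fun s => U (ofLex s).1 ((ofLex s).2 + 1))
    (fun s => hamb.elt _ _) hUU
    (fun s => SatStep.comap ⟨Sum.inr, Sum.inr_injective⟩ (hamb.sat _ _))
    Nm.S (fun ν μ hμ => Nm.st_lt hμ) (range (t.m 0))
    (fun s => by
      rintro _ ⟨i, rfl⟩
      exact hbase _ _ (tin 0 i))
    (Ty sc) (fun ν e e' h => ty_congr sc ν e e' h) (fun ν e => ty_alm sc ν e)
  exact ⟨{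
    U := U
    V := Nm Y × ℕ
    hV := hV
    amb := hamb
    emb := Function.Embedding.refl _
    hS := hStb
    t := t
    tin := tin
    ain := ain
    sc := sc
    σ := σ
    hst := h1
    hU := fun b n => by rw [h2]; rfl
    hSS := h3
    hB := h4
    hp := h5 }⟩

end MP8f
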